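import Pool.Agent.Lib.MP_ae5b4e_an_ATK.Defs
import Pool.Agent.Lib.MP_ae5b4e_an_AT.Energy

/-! # ATK: two facts in one variable -/

set_option autoImplicit false

noncomputable section

namespace Pool.Agent.MP_ae5b4e_an_ATK

open Complex Set Filter Topology Metric
open Pool.Agent.MP_ae5b4e_an_NB2 (Sys)
open Pool.Agent.MP_ae5b4e_an_M (S1 C1f Gf bb)
open Pool.Agent.MP_ae5b4e_an_A1
open Pool.Agent.MP_ae5b4e_an_AT
open PorTR (Hm)

/-- INVERSE OF A MAP CLOSE TO THE IDENTITY, one variable.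

Proof. `‖f' - 1‖ ≤ (3 t / 200) / (t / 5) ≤ 1/10` on `ball t (3 t / 10)` by Cauchy (circles of radius `t / 5`
inside `ball t (t / 2)`, on which `‖f θ - θ‖ ≤ ‖θ‖ / 100 ≤ 3 t / 200`). For `ζ ∈ closedBall t (7 t / 25)` the
map `θ ↦ θ - f θ + ζ` sends `closedBall t (3 t / 10 - t / 200)` into itself
(`‖θ - f θ‖ ≤ 13 t / 1000`, `0.28 t + 0.013 t < 0.295 t`) and is a contraction: fixed point `T ζ`. For two
points `‖f a - f b‖ ≥ (9/10) ‖a - b‖`: `T` is Lipschitz. -/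
theorem inv_near {f : ℂ → ℂ} {t : ℝ} (ht : 0 < t) (hf : DifferentiableOn ℂ f (ball (t : ℂ) (t / 2)))
    (hn : ∀ θ ∈ ball (t : ℂ) (t / 2), ‖f θ - θ‖ ≤ ‖θ‖ / 100) :
    ∃ T : ℂ → ℂ, ContinuousOn T (closedBall (t : ℂ) (t * (7 / 25))) ∧
      ∀ ζ ∈ closedBall (t : ℂ) (t * (7 / 25)), ‖T ζ - t‖ < t * (3 / 10) ∧ f (T ζ) = ζ := by
  have hcont : ∀ a ∈ closedBall (t : ℂ) (t * (295 / 1000)),
      ∀ b ∈ closedBall (t : ℂ) (t * (295 / 1000)), ‖(a - f a) - (b - f b)‖ ≤ 1 / 10 * ‖a - b‖ := by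
    have hsub : ∀ z ∈ closedBall (t : ℂ) (t * (295 / 1000)), closedBall z (t / 5) ⊆
        ball (t : ℂ) (t / 2) := by
      intro z hz w hw
      rw [mem_closedBall, dist_eq_norm] at hz hw
      rw [mem_ball, dist_eq_norm]
      calc ‖w - t‖ = ‖(w - z) + (z - t)‖ := by congr 1; ring
        _ ≤ ‖w - z‖ + ‖z - t‖ := norm_add_le _ _
        _ < t / 2 := by linarith
    have hz0 : ∀ z ∈ closedBall (t : ℂ) (t * (295 / 1000)), z ∈ ball (t : ℂ) (t / 2) := fun z hz =>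
      hsub z hz (mem_closedBall_self (by positivity))
    have hg : DifferentiableOn ℂ (fun θ => θ - f θ) (ball (t : ℂ) (t / 2)) :=
      differentiableOn_id.sub hf
    have hb : ∀ z ∈ closedBall (t : ℂ) (t * (295 / 1000)), ‖deriv (fun θ => θ - f θ) z‖ ≤ 1 / 10 := by
      intro z hz
      have h2 : DiffContOnCl ℂ (fun θ => θ - f θ) (ball z (t / 5)) := by
        refine DifferentiableOn.diffContOnCl ?_
        rw [closure_ball z (by positivity)]
        exact hg.mono (hsub z hz)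
      have h3 : ∀ w ∈ sphere z (t / 5), ‖(fun θ => θ - f θ) w‖ ≤ 3 * t / 200 := by
        intro w hw
        have hw' := hsub z hz (sphere_subset_closedBall hw)
        have h4 := hn w hw'
        rw [mem_ball, dist_eq_norm] at hw'
        have h5 : ‖w‖ ≤ 3 / 2 * t := by
          calc ‖w‖ = ‖(w - t) + t‖ := by congr 1; ring
            _ ≤ ‖w - t‖ + ‖(t : ℂ)‖ := norm_add_le _ _
            _ ≤ 3 / 2 * t := by
              rw [norm_real, Real.norm_of_nonneg ht.le]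
              linarith
        change ‖w - f w‖ ≤ _
        rw [norm_sub_rev]
        linarith
      have h6 := Complex.norm_deriv_le_of_forall_mem_sphere_norm_le (by positivity) h2 h3
      refine h6.trans ?_
      rw [div_le_iff₀ (by positivity)]
      linarith
    intro a ha b hb'
    have hd : ∀ z ∈ closedBall (t : ℂ) (t * (295 / 1000)),
        DifferentiableAt ℂ (fun θ => θ - f θ) z := fun z hz =>
      hg.differentiableAt (isOpen_ball.mem_nhds (hz0 z hz))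
    exact (convex_closedBall (t : ℂ) (t * (295 / 1000))).norm_image_sub_le_of_norm_deriv_le hd hb
      (x := b) (y := a) hb' ha
  have hex : ∀ ζ ∈ closedBall (t : ℂ) (t * (7 / 25)),
      ∃ θ ∈ closedBall (t : ℂ) (t * (295 / 1000)), f θ = ζ := by
    intro ζ hζ
    have hmaps : MapsTo (fun θ => θ - f θ + ζ) (closedBall (t : ℂ) (t * (295 / 1000)))
        (closedBall (t : ℂ) (t * (295 / 1000))) := by
      intro θ hθ
      have hθ' : θ ∈ ball (t : ℂ) (t / 2) := by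
        rw [mem_closedBall] at hθ
        rw [mem_ball]
        linarith
      have h4 := hn θ hθ'
      rw [mem_closedBall, dist_eq_norm] at hθ hζ ⊢
      have h5 : ‖θ‖ ≤ 1295 / 1000 * t := by
        calc ‖θ‖ = ‖(θ - t) + t‖ := by congr 1; ring
          _ ≤ ‖θ - t‖ + ‖(t : ℂ)‖ := norm_add_le _ _
          _ ≤ 1295 / 1000 * t := by
            rw [norm_real, Real.norm_of_nonneg ht.le]
            linarith
      rw [norm_sub_rev] at h4
      calc ‖θ - f θ + ζ - t‖ = ‖(θ - f θ) + (ζ - t)‖ := by congr 1; ring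
        _ ≤ ‖θ - f θ‖ + ‖ζ - t‖ := norm_add_le _ _
        _ ≤ t * (295 / 1000) := by linarith
    have hK : ContractingWith (1 / 10 : NNReal) (hmaps.restrict (fun θ => θ - f θ + ζ)
        (closedBall (t : ℂ) (t * (295 / 1000))) (closedBall (t : ℂ) (t * (295 / 1000)))) := by
      refine ⟨by rw [div_lt_one (by norm_num)]; norm_num, LipschitzWith.of_dist_le_mul ?_⟩
      intro a b
      have h := hcont a.1 a.2 b.1 b.2
      rw [Subtype.dist_eq, Subtype.dist_eq, dist_eq_norm, dist_eq_norm]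
      change ‖(a.1 - f a.1 + ζ) - (b.1 - f b.1 + ζ)‖ ≤ _
      rw [add_sub_add_right_eq_sub]
      simpa using h
    have hx0 : (t : ℂ) ∈ closedBall (t : ℂ) (t * (295 / 1000)) :=
      mem_closedBall_self (by positivity)
    obtain ⟨y, hy, hfy, -, -⟩ := hK.exists_fixedPoint' isClosed_closedBall.isComplete hmaps hx0
      (edist_ne_top _ _)
    refine ⟨y, hy, ?_⟩
    have h : y - f y + ζ = y := hfy
    linear_combination -h
  choose! T hT1 hT2 using hex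
  refine ⟨T, ?_, fun ζ hζ => ⟨?_, hT2 ζ hζ⟩⟩
  · have hL : LipschitzOnWith (10 / 9 : NNReal) T (closedBall (t : ℂ) (t * (7 / 25))) := by
      refine LipschitzOnWith.of_dist_le_mul ?_
      intro a ha b hb
      have h := hcont (T a) (hT1 a ha) (T b) (hT1 b hb)
      rw [hT2 a ha, hT2 b hb] at h
      rw [dist_eq_norm, dist_eq_norm]
      have h1 : ‖T a - T b‖ ≤ ‖(T a - a) - (T b - b)‖ + ‖a - b‖ := by
        calc ‖T a - T b‖ = ‖((T a - a) - (T b - b)) + (a - b)‖ := by congr 1; ring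
          _ ≤ _ := norm_add_le _ _
      have h2 : ((10 / 9 : NNReal) : ℝ) = 10 / 9 := by norm_num
      rw [h2]
      linarith
    exact hL.continuousOn
  · have h := hT1 ζ hζ
    rw [mem_closedBall, dist_eq_norm] at h
    linarith

/-- `Φ` is injective with a bound, and Lipschitz. Proof. `Φ' = - e^ℓ A`, `‖A - 1‖ ≤ 1/128` on
`ball 0 ρ` (`Side.near`, `Side.prim`): `Φ x - Φ y + e^ℓ (x - y)` has Lipschitz constant `‖e^ℓ‖ / 128` on the
convex ball. -/
theorem phi_bd {ℓ : ℂ} {ρ : ℝ} {A Φ : ℂ → ℂ} (hS : Side ℓ 0 ρ A Φ) {x y : ℂ} (hx : ‖x‖ < ρ)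
    (hy : ‖y‖ < ρ) : ‖cexp ℓ‖ / 2 * ‖x - y‖ ≤ ‖Φ x - Φ y‖ ∧ ‖Φ x - Φ y‖ ≤ 2 * ‖cexp ℓ‖ * ‖x - y‖ := by
  have hρ := hS.ρ_pos
  have hd : ∀ z ∈ ball (0 : ℂ) ρ, HasDerivWithinAt (fun z => Φ z + cexp ℓ * z)
      (-(cexp ℓ * A z) + cexp ℓ * 1) (ball (0 : ℂ) ρ) z := fun z hz =>
    ((hS.prim z hz).add ((hasDerivAt_id z).const_mul (cexp ℓ))).hasDerivWithinAt
  have hb : ∀ z ∈ ball (0 : ℂ) ρ, ‖-(cexp ℓ * A z) + cexp ℓ * 1‖ ≤ ‖cexp ℓ‖ / 128 := by
    intro z hz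
    have h := hS.near z hz
    have he : -(cexp ℓ * A z) + cexp ℓ * 1 = -(cexp ℓ * (A z - 1)) := by ring
    rw [he, norm_neg, norm_mul]
    calc ‖cexp ℓ‖ * ‖A z - 1‖ ≤ ‖cexp ℓ‖ * (1 / 128) := by gcongr
      _ = ‖cexp ℓ‖ / 128 := by ring
  have hx' : x ∈ ball (0 : ℂ) ρ := by rwa [mem_ball_zero_iff]
  have hy' : y ∈ ball (0 : ℂ) ρ := by rwa [mem_ball_zero_iff]
  have h := (convex_ball (0 : ℂ) ρ).norm_image_sub_le_of_norm_hasDerivWithin_le hd hb
    (x := y) (y := x) hy' hx'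
  have h1 : (Φ x + cexp ℓ * x) - (Φ y + cexp ℓ * y) = (Φ x - Φ y) + cexp ℓ * (x - y) := by ring
  rw [h1] at h
  have h2 : ‖cexp ℓ * (x - y)‖ = ‖cexp ℓ‖ * ‖x - y‖ := norm_mul _ _
  have h3 : 0 ≤ ‖cexp ℓ‖ * ‖x - y‖ := by positivity
  have h4 : ‖cexp ℓ‖ / 128 * ‖x - y‖ = ‖cexp ℓ‖ * ‖x - y‖ / 128 := by ring
  rw [h4] at h
  constructor
  · have h5 : ‖cexp ℓ * (x - y)‖ ≤ ‖(Φ x - Φ y) + cexp ℓ * (x - y)‖ + ‖Φ x - Φ y‖ := by
      calc ‖cexp ℓ * (x - y)‖ = ‖((Φ x - Φ y) + cexp ℓ * (x - y)) - (Φ x - Φ y)‖ := by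
            congr 1; ring
        _ ≤ _ := norm_sub_le _ _
    rw [h2] at h5
    linarith
  · have h5 : ‖Φ x - Φ y‖ ≤ ‖(Φ x - Φ y) + cexp ℓ * (x - y)‖ + ‖cexp ℓ * (x - y)‖ := by
      calc ‖Φ x - Φ y‖ = ‖((Φ x - Φ y) + cexp ℓ * (x - y)) - cexp ℓ * (x - y)‖ := by
            congr 1; ring
        _ ≤ _ := norm_sub_le _ _
    rw [h2] at h5
    linarith

end Pool.Agent.MP_ae5b4e_an_ATK
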