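import Pool.Agent.Lib.MP_ae5b4e_an_ATK.ChB
import Pool.Agent.Lib.MP_ae5b4e_an_ATK.Inv1
import Pool.Agent.Lib.MP_ae5b4e_an_AT.Energy

/-! # ATK: the curve `γ = g₀` in the base regions -/

set_option autoImplicit false

noncomputable section

namespace Pool.Agent.MP_ae5b4e_an_ATK

open Complex Set Filter Topology Metric
open Pool.Agent.MP_ae5b4e_an_NB2 (Sys)
open Pool.Agent.MP_ae5b4e_an_M (S1 C1f Gf bb)
open Pool.Agent.MP_ae5b4e_an_A1
open Pool.Agent.MP_ae5b4e_an_AT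
open PorTR (Hm)

variable {U : Ultrafilter ℕ} {Zs : ℕ → Sys} {ε : ℕ → ℝ} {q κ : ℂ → ℂ} {lb ℓ : ℂ} {R ρ : ℝ}
  {X J A Φ : ℂ → ℂ} {Xn Jn An : ℕ → ℂ → ℂ} {M Ω : Set (ℂ × ℂ)} {z : ℂ × ℂ → ℂ × ℂ}
  {θb g₀ : ℂ} {s₁ η : ℝ}

/-- THE TRAJECTORY IN THE BASE REGION (`θ = θb + s θ'`, `‖θ' - t‖ < t / 2`).

Proof. `θ ∈ Sl θb s₁` (`Re θ' > 0`, `‖θ'‖ < 3 t / 2 < s₁`). Let `u = z (θ, g₀)`, `ζ = (Ct κ X ℓ u).2`,
`z' = s ζ`, `x' = s X u.1`. `‖z' - θ'‖ = ‖ζ - (θ - θb)‖ ≤ ‖θ'‖ / 100` (`Tl.z_near`), and `f` is differentiable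
(`Fw.z_an`, `Lim.dX`, `κ` differentiable, `Tl.ne`). (2) If `‖θ' - t‖ < 3 t / 10` then
`|Im θ'| < 0.3 t < 0.7 t < Re θ'`, so `Tl.br`: `2 i κ u.1 u.2 = laml ℓ ζ`. For `s = 1`: `Re ζ > 0`,
`laml ℓ ζ = lam ℓ ζ` (`AT.laml_eq_lam`). For `s = -1`: `Re ζ < 0`, `laml ℓ ζ = lam (ℓ - π i) (-ζ)`
(`AT.laml_eq_left`). `J (s x') = J (X u.1) = u.1` (`J_X`). So `u = Es κ J ℓ' s (x', z')`. (3) By `gf_Es` and
`hH`: `exp (- en) = g₀ = exp (- Φ 0)`, so `en - Φ 0 ∈ 2 π i ℤ`, and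
`‖en - Φ 0‖ ≤ ‖Φ (X u.1) - Φ 0‖ + ‖sz ℓ' z'‖ ≤ 2 ‖e^ℓ‖ η + 1 < 2 π` (`phi_bd`; `sz_small` for `ℓ'`, both signs, `1`, gives
`κ'`; `t₁ ≤ κ' / 2`). -/
theorem base_curve (hK : Ks U Zs ε q κ lb ℓ R ρ X J A Φ Xn Jn An) (hz : Fw M (gI q) Ω z)
    (hH : ∀ p ∈ Ω, Gf q (z p).1 (z p).2 = p.2) (hg : g₀ = cexp (-Φ 0))
    (hT : Tl κ X lb ℓ R η z θb g₀ s₁) (hΩ : ∀ θ ∈ Sl θb s₁, (θ, g₀) ∈ Ω) (hη : η ≤ ρ / 8)
    (hη1 : η * ‖cexp ℓ‖ ≤ 1 / 8) : ∃ t₁ : ℝ, 0 < t₁ ∧ t₁ ≤ s₁ / 2 ∧ ∀ t : ℝ, 0 < t → t ≤ t₁ →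
      ∀ s ℓ' : ℂ, (s = 1 ∧ ℓ' = ℓ ∨ s = -1 ∧ ℓ' = ℓ - Real.pi * I) →
        DifferentiableOn ℂ (fun θ' => s * (Ct κ X ℓ (z (θb + s * θ', g₀))).2)
          (ball (t : ℂ) (t / 2)) ∧
        (∀ θ' ∈ ball (t : ℂ) (t / 2), (θb + s * θ', g₀) ∈ Ω ∧
          ‖s * (Ct κ X ℓ (z (θb + s * θ', g₀))).2 - θ'‖ ≤ ‖θ'‖ / 100) ∧
        ∀ θ' ∈ ball (t : ℂ) (t * (3 / 10)),
          ‖s * X (z (θb + s * θ', g₀)).1‖ < ρ / 8 ∧
          Es κ J ℓ' s (s * X (z (θb + s * θ', g₀)).1, s * (Ct κ X ℓ (z (θb + s * θ', g₀))).2) =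
            z (θb + s * θ', g₀) ∧
          en ℓ' (fun x => Φ (s * x)) (s * X (z (θb + s * θ', g₀)).1,
            s * (Ct κ X ℓ (z (θb + s * θ', g₀))).2) = Φ 0 := by
  obtain ⟨κ₁, hκ₁, hsz₁⟩ := sz_small ℓ (one_pos : (0:ℝ) < 1)
  obtain ⟨κ₂, hκ₂, hsz₂⟩ := sz_small (ℓ - Real.pi * I) (one_pos : (0:ℝ) < 1)
  have hs₁ := hT.pos
  have hepos : 0 < ‖cexp ℓ‖ := norm_pos_iff.2 (exp_ne_zero ℓ)
  have hρ := hK.lim.crd.ρ_pos
  refine ⟨min (s₁ / 2) (min (min (κ₁ / 2) (κ₂ / 2)) (1 / (2 * ‖cexp ℓ‖))), ?_, min_le_left _ _, ?_⟩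
  · have := hs₁
    positivity
  intro t ht htt s ℓ' hs
  have ht1 : t ≤ s₁ / 2 := htt.trans (min_le_left _ _)
  have ht2 : t ≤ κ₁ / 2 := htt.trans ((min_le_right _ _).trans ((min_le_left _ _).trans
    (min_le_left _ _)))
  have ht3 : t ≤ κ₂ / 2 := htt.trans ((min_le_right _ _).trans ((min_le_left _ _).trans
    (min_le_right _ _)))
  have ht4 : t ≤ 1 / (2 * ‖cexp ℓ‖) := htt.trans ((min_le_right _ _).trans (min_le_right _ _))
  have ht5 : ‖cexp ℓ‖ * t ≤ 1 / 2 := by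
    rw [le_div_iff₀ (by positivity)] at ht4
    linarith
  have hss : s * s = 1 := by
    rcases hs with ⟨rfl, -⟩ | ⟨rfl, -⟩
    · ring
    · ring
  have hsn : ‖s‖ = 1 := by
    rcases hs with ⟨rfl, -⟩ | ⟨rfl, -⟩
    · exact norm_one
    · rw [norm_neg, norm_one]
  have hsre : ∀ w : ℂ, |(s * w).re| = |w.re| := by
    intro w
    rcases hs with ⟨rfl, -⟩ | ⟨rfl, -⟩
    · rw [one_mul]
    · rw [neg_one_mul, neg_re, abs_neg]
  have hsim : ∀ w : ℂ, |(s * w).im| = |w.im| := by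
    intro w
    rcases hs with ⟨rfl, -⟩ | ⟨rfl, -⟩
    · rw [one_mul]
    · rw [neg_one_mul, neg_im, abs_neg]
  have hsmul : ∀ w : ℂ, ‖s * w‖ = ‖w‖ := by
    intro w
    rw [norm_mul, hsn, one_mul]
  have hel : ‖cexp ℓ'‖ = ‖cexp ℓ‖ := by
    rcases hs with ⟨-, rfl⟩ | ⟨-, rfl⟩
    · rfl
    · rw [exp_sub, exp_pi_mul_I, norm_div, norm_neg, norm_one, div_one]
  have hsz : ∀ w : ℂ, ‖w‖ < t * (7 / 5) → ‖sz ℓ' w‖ ≤ 1 := by
    intro w hw
    rcases hs with ⟨-, rfl⟩ | ⟨-, rfl⟩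
    · exact hsz₁ w (by linarith)
    · exact hsz₂ w (by linarith)
  -- geometry of the points
  have hgeo : ∀ θ' ∈ ball (t : ℂ) (t / 2), t / 2 < θ'.re ∧ ‖θ'‖ < 3 / 2 * t := by
    intro θ' hθ
    rw [mem_ball, dist_eq_norm] at hθ
    have h1 : |(θ' - t).re| ≤ ‖θ' - t‖ := abs_re_le_norm _
    rw [sub_re, ofReal_re] at h1
    have h2 := abs_le.1 h1
    have h3 : ‖θ'‖ ≤ ‖θ' - t‖ + ‖(t : ℂ)‖ := by
      calc ‖θ'‖ = ‖(θ' - t) + t‖ := by congr 1; ring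
        _ ≤ _ := norm_add_le _ _
    rw [norm_real, Real.norm_of_nonneg ht.le] at h3
    constructor
    · linarith
    · linarith
  have hSl : ∀ θ' ∈ ball (t : ℂ) (t / 2), θb + s * θ' ∈ Sl θb s₁ := by
    intro θ' hθ
    obtain ⟨h1, h2⟩ := hgeo θ' hθ
    have h3 : θb + s * θ' - θb = s * θ' := by ring
    refine ⟨?_, ?_⟩
    · rw [h3, hsmul]
      linarith
    · rw [h3, hsre]
      have h6 : |θ'.im| < 3 / 5 * |θ'.re| := by
        rw [mem_ball, dist_eq_norm] at hθ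
        have h7 : ‖θ' - t‖ ^ 2 < (t / 2) ^ 2 := by
          have := norm_nonneg (θ' - (t : ℂ))
          nlinarith
        rw [Complex.sq_norm, Complex.normSq_apply, sub_re, sub_im, ofReal_re, ofReal_im,
          sub_zero] at h7
        have h8 : 0 < θ'.re := by linarith
        rw [abs_of_pos h8]
        apply abs_lt_of_sq_lt_sq
        · nlinarith [sq_nonneg (θ'.re * 34 / 25 - t)]
        · positivity
      calc (s * θ').im ≤ |(s * θ').im| := le_abs_self _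
        _ = |θ'.im| := hsim θ'
        _ < _ := h6
  refine ⟨?_, ?_, ?_⟩
  · intro θ' hθ
    have hS := hSl θ' hθ
    have hΩ' := hΩ _ hS
    have hm := hT.mem _ hS
    have hne := hT.ne _ hS
    have hz1 : DifferentiableAt ℂ z (θb + s * θ', g₀) := (hz.z_an _ hΩ').differentiableAt
    have hin : DifferentiableAt ℂ (fun θ' : ℂ => ((θb + s * θ', g₀) : ℂ × ℂ)) θ' := by
      fun_prop
    have hz2 : DifferentiableAt ℂ (fun θ' => z (θb + s * θ', g₀)) θ' :=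
      DifferentiableAt.comp (g := z) (f := fun θ' : ℂ => ((θb + s * θ', g₀) : ℂ × ℂ)) θ' hz1 hin
    have hκ1 : DifferentiableAt ℂ κ (z (θb + s * θ', g₀)).1 :=
      hK.κ_an.differentiableAt (isOpen_ball.mem_nhds hm)
    have hκ2 : DifferentiableAt ℂ (fun θ' => κ (z (θb + s * θ', g₀)).1) θ' :=
      DifferentiableAt.comp (g := κ) (f := fun θ' : ℂ => (z (θb + s * θ', g₀)).1) θ' hκ1 hz2.fst
    have h5 : DifferentiableAt ℂ (fun θ' => 2 * I * κ (z (θb + s * θ', g₀)).1 *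
        (z (θb + s * θ', g₀)).2) θ' := (hκ2.const_mul (2 * I)).mul hz2.snd
    have h6 : DifferentiableAt ℂ (fun θ' => s * (cexp (-ℓ) / (cexp (2 * I *
        κ (z (θb + s * θ', g₀)).1 * (z (θb + s * θ', g₀)).2) - 1))) θ' := by
      refine DifferentiableAt.const_mul (DifferentiableAt.div (differentiableAt_const _)
        (h5.cexp.sub_const 1) ?_) s
      exact sub_ne_zero.2 hne
    exact h6.differentiableWithinAt
  · intro θ' hθ
    have hS := hSl θ' hθ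
    refine ⟨hΩ _ hS, ?_⟩
    have h1 := hT.z_near _ hS
    have h3 : θb + s * θ' - θb = s * θ' := by ring
    rw [h3, hsmul] at h1
    have h4 : s * (Ct κ X ℓ (z (θb + s * θ', g₀))).2 - θ' =
        s * ((Ct κ X ℓ (z (θb + s * θ', g₀))).2 - s * θ') := by
      rw [mul_sub, ← mul_assoc s s, hss, one_mul]
    rw [h4, hsmul]
    exact h1
  · intro θ' hθ3
    have hθ : θ' ∈ ball (t : ℂ) (t / 2) := ball_subset_ball (by linarith) hθ3
    have hS := hSl θ' hθ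
    have hΩ' := hΩ _ hS
    have hm := hT.mem _ hS
    have hne := hT.ne _ hS
    have hx := hT.x_near _ hS
    have h3 : θb + s * θ' - θb = s * θ' := by ring
    have hzn := hT.z_near _ hS
    have hbr := hT.br _ hS
    rw [h3] at hzn
    rw [hsmul] at hzn
    set u : ℂ × ℂ := z (θb + s * θ', g₀) with hu
    set ζ : ℂ := (Ct κ X ℓ u).2 with hζ
    rw [mem_ball, dist_eq_norm] at hθ3
    have h1 : |(θ' - t).re| ≤ ‖θ' - t‖ := abs_re_le_norm _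
    have h2 : |(θ' - t).im| ≤ ‖θ' - t‖ := abs_im_le_norm _
    rw [sub_re, ofReal_re] at h1
    rw [sub_im, ofReal_im, sub_zero] at h2
    have h1' := abs_le.1 h1
    have h4 : ‖θ'‖ ≤ ‖θ' - t‖ + ‖(t : ℂ)‖ := by
      calc ‖θ'‖ = ‖(θ' - t) + t‖ := by congr 1; ring
        _ ≤ _ := norm_add_le _ _
    rw [norm_real, Real.norm_of_nonneg ht.le] at h4
    have hre : t * (7 / 10) < θ'.re := by linarith
    have hbr' : 2 * I * κ u.1 * u.2 = laml ℓ ζ := hbr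
    -- the point `s ζ`
    have hsζ : ‖s * ζ - θ'‖ ≤ ‖θ'‖ / 100 := by
      have h5 : s * ζ - θ' = s * (ζ - s * θ') := by
        rw [mul_sub, ← mul_assoc s s, hss, one_mul]
      rw [h5, hsmul]
      exact hzn
    have hζre : 0 < (s * ζ).re := by
      have h6 : |(s * ζ - θ').re| ≤ ‖s * ζ - θ'‖ := abs_re_le_norm _
      rw [sub_re] at h6
      have h7 := abs_le.1 h6
      linarith
    have hζn : ‖s * ζ‖ < t * (7 / 5) := by
      have h6 : ‖s * ζ‖ ≤ ‖s * ζ - θ'‖ + ‖θ'‖ := by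
        calc ‖s * ζ‖ = ‖(s * ζ - θ') + θ'‖ := by congr 1; ring
          _ ≤ _ := norm_add_le _ _
      linarith
    have hlam : laml ℓ ζ = lam ℓ' (s * ζ) := by
      rcases hs with ⟨hs1, hl1⟩ | ⟨hs1, hl1⟩
      · rw [hs1, one_mul] at hζre
        rw [hs1, hl1, one_mul]
        exact laml_eq_lam (Or.inl hζre)
      · rw [hs1, neg_one_mul, neg_re] at hζre
        rw [hs1, hl1, neg_one_mul]
        exact laml_eq_left (Or.inl (by linarith))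
    have hxη : ‖X u.1‖ < ρ / 8 := lt_of_lt_of_le hx hη
    have hxρ : ‖X u.1‖ < ρ := by linarith
    have hJ : J (X u.1) = u.1 := J_X hK hm hxρ
    have hsx : s * (s * X u.1) = X u.1 := by
      rw [← mul_assoc, hss, one_mul]
    have hEs : Es κ J ℓ' s (s * X u.1, s * ζ) = u := by
      have hκ0 : 2 * I * κ u.1 ≠ 0 :=
        mul_ne_zero (mul_ne_zero two_ne_zero I_ne_zero) (hK.lim.κ_ne _ hm)
      unfold Es
      refine Prod.ext ?_ ?_
      · show J (s * (s * X u.1)) = u.1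
        rw [hsx, hJ]
      · show lam ℓ' (s * ζ) / (2 * I * κ (J (s * (s * X u.1)))) = u.2
        rw [hsx, hJ, ← hlam, ← hbr']
        rw [mul_div_assoc, mul_comm, div_mul_cancel₀ _ hκ0]
    refine ⟨?_, hEs, ?_⟩
    · rw [hsmul]
      exact hxη
    · have h5 : ‖s * X u.1‖ < ρ := by
        rw [hsmul]
        exact hxρ
      have h6 : s * ζ ∈ slitPlane := Or.inl hζre
      have h7 : ‖cexp ℓ' * (s * ζ)‖ < 1 := by
        rw [norm_mul, hel]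
        have h8 : ‖cexp ℓ‖ * ‖s * ζ‖ ≤ ‖cexp ℓ‖ * (t * (7 / 5)) :=
          mul_le_mul_of_nonneg_left hζn.le hepos.le
        linarith
      have h8 := gf_Es hK hs (u := (s * X u.1, s * ζ)) h5 h6 h7
      rw [hEs, hH _ hΩ', hg] at h8
      obtain ⟨n, hn⟩ := exp_eq_exp_iff_exists_int.1 h8
      -- hn : -Φ 0 = -en + n * (2 π I)
      set E : ℂ := en ℓ' (fun x => Φ (s * x)) (s * X u.1, s * ζ) with hE
      have h9 : E = Φ (X u.1) + sz ℓ' (s * ζ) := by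
        rw [hE]
        unfold en
        beta_reduce
        rw [hsx]
      have h10 : ‖Φ (X u.1) - Φ 0‖ ≤ 1 / 4 := by
        have h11 := (phi_bd hK.lim.side hxρ (y := 0) (by simpa using hρ)).2
        rw [sub_zero] at h11
        have h12 : ‖cexp ℓ‖ * ‖X u.1‖ ≤ ‖cexp ℓ‖ * η :=
          mul_le_mul_of_nonneg_left hx.le hepos.le
        linarith
      have h11 : ‖E - Φ 0‖ ≤ 5 / 4 := by
        have h12 : E - Φ 0 = (Φ (X u.1) - Φ 0) + sz ℓ' (s * ζ) := by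
          rw [h9]
          ring
        rw [h12]
        have h13 := norm_add_le (Φ (X u.1) - Φ 0) (sz ℓ' (s * ζ))
        have h14 := hsz _ hζn
        linarith
      have h12 : E - Φ 0 = n * (2 * Real.pi * I) := by
        linear_combination hn
      have h13 : n = 0 := by
        by_contra hn0
        have h14 : (1 : ℝ) ≤ |(n : ℝ)| := by
          exact_mod_cast Int.one_le_abs hn0
        have h15 : ‖(n : ℂ) * (2 * Real.pi * I)‖ = |(n : ℝ)| * (2 * Real.pi) := by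
          rw [norm_mul, norm_mul, norm_mul, norm_I, mul_one, norm_real, Complex.norm_intCast,
            Real.norm_of_nonneg Real.pi_pos.le]
          norm_num
        rw [h12, h15] at h11
        have h16 := Real.pi_gt_three
        nlinarith
      rw [h13, Int.cast_zero, zero_mul] at h12
      exact sub_eq_zero.1 h12

end Pool.Agent.MP_ae5b4e_an_ATK
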