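import Pool.Agent.Lib.MP_ae5b4e_an_AT.Defs

/-! # ATK: derivatives of converging functions of two variables -/

set_option autoImplicit false

noncomputable section

namespace Pool.Agent.MP_ae5b4e_an_ATK

open Complex Set Filter Topology Metric
open Pool.Agent.MP_ae5b4e_an_AT

/-- Cauchy estimate for the derivative of an analytic function of two variables. Proof. `f` is
differentiable on `ball u d`; for a vector `v` with `‖v‖ ≤ 1` the function `t ↦ f (u + t v)` is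
holomorphic on `ball 0 d`, bounded by `B`; `norm_deriv_le_of_forall_mem_sphere_norm_le` on every
radius `< d`; its derivative at `0` is `fderiv f u v`. -/
theorem cauchy_fderiv {f : ℂ × ℂ → ℂ} {u : ℂ × ℂ} {d B : ℝ} (hd : 0 < d)
    (hf : AnalyticOnNhd ℂ f (ball u d)) (hB : ∀ w ∈ ball u d, ‖f w‖ ≤ B) (v : ℂ × ℂ)
    (hv : ‖v‖ ≤ 1) : ‖fderiv ℂ f u v‖ ≤ B / d := by
  have hB0 : 0 ≤ B := (norm_nonneg _).trans (hB u (mem_ball_self hd))
  have hfd : DifferentiableAt ℂ f u := (hf u (mem_ball_self hd)).differentiableAt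
  have hmem : ∀ t ∈ ball (0 : ℂ) d, u + t • v ∈ ball u d := by
    intro t ht
    rw [mem_ball_iff_norm, add_sub_cancel_left, norm_smul]
    rw [mem_ball_zero_iff] at ht
    calc ‖t‖ * ‖v‖ ≤ ‖t‖ * 1 := mul_le_mul_of_nonneg_left hv (norm_nonneg _)
      _ < d := by rwa [mul_one]
  have hl : ∀ t : ℂ, HasDerivAt (fun t : ℂ => u + t • v) v t := by
    intro t
    have h1 := ((hasDerivAt_id t).smul_const v).const_add u
    rwa [one_smul] at h1
  have hg : DifferentiableOn ℂ (fun t : ℂ => f (u + t • v)) (ball 0 d) := by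
    intro t ht
    have h1 : DifferentiableAt ℂ f (u + t • v) := (hf _ (hmem t ht)).differentiableAt
    exact (h1.comp t (hl t).differentiableAt).differentiableWithinAt
  have hder : deriv (fun t : ℂ => f (u + t • v)) 0 = fderiv ℂ f u v := by
    have h1 : HasFDerivAt f (fderiv ℂ f u) (u + (0 : ℂ) • v) := by
      rw [zero_smul, add_zero]
      exact hfd.hasFDerivAt
    have h2 : HasDerivAt (fun t : ℂ => f (u + t • v)) (fderiv ℂ f u v) 0 :=
      h1.comp_hasDerivAt 0 (hl 0)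
    exact h2.deriv
  have key : ∀ r : ℝ, 0 < r → r < d → ‖fderiv ℂ f u v‖ ≤ B / r := by
    intro r hr hrd
    have h1 : DiffContOnCl ℂ (fun t : ℂ => f (u + t • v)) (ball 0 r) :=
      hg.diffContOnCl_ball (closedBall_subset_ball hrd)
    have h2 := norm_deriv_le_of_forall_mem_sphere_norm_le hr h1 (C := B) (fun t ht => hB _
      (hmem t (by
        rw [mem_sphere_zero_iff_norm] at ht
        rw [mem_ball_zero_iff, ht]
        exact hrd)))
    rwa [hder] at h2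
  by_contra hcon
  push Not at hcon
  have hD : 0 < ‖fderiv ℂ f u v‖ := lt_of_le_of_lt (by positivity) hcon
  rw [div_lt_iff₀ hd, ← div_lt_iff₀' hD] at hcon
  obtain ⟨r, hr1, hr2⟩ := exists_between hcon
  have hr0 : 0 < r := lt_of_le_of_lt (by positivity) hr1
  have h1 := key r hr0 hr2
  rw [div_lt_iff₀ hD] at hr1
  rw [le_div_iff₀ hr0] at h1
  linarith

/-- Proof. There is `d > 0` with `ball u d ⊆ K` for all `u ∈ K₀` (compactness). The entries of the
Jacobian matrices of `(f, g)` are bounded on `K₀` by some `B` (continuity of `fderiv`), and those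
of `f' - f`, `g' - g` by `δ' / d` (`cauchy_fderiv`; `fderiv (f' - f) = fderiv f' - fderiv f`). So
`‖jac f' g' u - jac f g u‖ ≤ 4 (δ' / d) (B + δ' / d)`; choose `δ'` small. -/
theorem jac_close {K K₀ : Set (ℂ × ℂ)} (hK₀ : IsCompact K₀) (h : K₀ ⊆ interior K)
    {f g : ℂ × ℂ → ℂ} (hf : AnalyticOnNhd ℂ f K) (hg : AnalyticOnNhd ℂ g K) {δ : ℝ} (hδ : 0 < δ) :
    ∃ δ' : ℝ, 0 < δ' ∧ ∀ f' g' : ℂ × ℂ → ℂ, AnalyticOnNhd ℂ f' K → AnalyticOnNhd ℂ g' K →
      (∀ u ∈ K, ‖f' u - f u‖ ≤ δ' ∧ ‖g' u - g u‖ ≤ δ') →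
        ∀ u ∈ K₀, ‖jac f' g' u - jac f g u‖ ≤ δ := by
  obtain ⟨d, hd, hdK⟩ := hK₀.exists_thickening_subset_open isOpen_interior h
  have hball : ∀ u ∈ K₀, ball u d ⊆ K := fun u hu =>
    (ball_subset_thickening hu d).trans (hdK.trans interior_subset)
  have hsub : K₀ ⊆ K := h.trans interior_subset
  obtain ⟨B1, hB1⟩ := hK₀.exists_bound_of_continuousOn ((hf.mono hsub).fderiv.continuousOn)
  obtain ⟨B2, hB2⟩ := hK₀.exists_bound_of_continuousOn ((hg.mono hsub).fderiv.continuousOn)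
  obtain ⟨B, hBdef⟩ : ∃ B : ℝ, B = |B1| + |B2| := ⟨_, rfl⟩
  have hB0 : 0 ≤ B := by
    rw [hBdef]
    positivity
  have hBf : ∀ u ∈ K₀, ‖fderiv ℂ f u‖ ≤ B := by
    intro u hu
    have h1 := hB1 u hu
    have h2 := le_abs_self B1
    have h3 := abs_nonneg B2
    linarith
  have hBg : ∀ u ∈ K₀, ‖fderiv ℂ g u‖ ≤ B := by
    intro u hu
    have h1 := hB2 u hu
    have h2 := le_abs_self B2
    have h3 := abs_nonneg B1
    linarith
  obtain ⟨e, hedef⟩ : ∃ e : ℝ, e = min 1 (δ / (2 * (2 * B + 1))) := ⟨_, rfl⟩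
  have he0 : 0 < e := by
    rw [hedef]
    exact lt_min one_pos (by positivity)
  have he1 : e ≤ 1 := by
    rw [hedef]
    exact min_le_left _ _
  have he2 : 2 * e * (2 * B + 1) ≤ δ := by
    have h1 : e ≤ δ / (2 * (2 * B + 1)) := by
      rw [hedef]
      exact min_le_right _ _
    rw [le_div_iff₀ (by positivity)] at h1
    linarith
  refine ⟨e * d, by positivity, fun f' g' hf' hg' hcl u hu => ?_⟩
  have n10 : ‖((1, 0) : ℂ × ℂ)‖ ≤ 1 := by simp [Prod.norm_def]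
  have n01 : ‖((0, 1) : ℂ × ℂ)‖ ≤ 1 := by simp [Prod.norm_def]
  have dif : ∀ (a a' : ℂ × ℂ → ℂ), AnalyticOnNhd ℂ a K → AnalyticOnNhd ℂ a' K →
      (∀ u ∈ K, ‖a' u - a u‖ ≤ e * d) → ∀ v : ℂ × ℂ, ‖v‖ ≤ 1 →
        ‖fderiv ℂ a' u v - fderiv ℂ a u v‖ ≤ e := by
    intro a a' ha ha' hb v hv
    have h1 : AnalyticOnNhd ℂ (fun w => a' w - a w) (ball u d) :=
      fun w hw => (ha' w (hball u hu hw)).sub (ha w (hball u hu hw))
    have h2 := cauchy_fderiv hd h1 (fun w hw => hb w (hball u hu hw)) v hv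
    rw [fderiv_fun_sub (ha' u (hsub hu)).differentiableAt (ha u (hsub hu)).differentiableAt,
      ContinuousLinearMap.sub_apply, mul_div_cancel_right₀ _ hd.ne'] at h2
    exact h2
  have bd : ∀ (a : ℂ × ℂ → ℂ), ‖fderiv ℂ a u‖ ≤ B → ∀ v : ℂ × ℂ, ‖v‖ ≤ 1 →
      ‖fderiv ℂ a u v‖ ≤ B := by
    intro a ha v hv
    have h1 := (fderiv ℂ a u).le_opNorm v
    have h2 : ‖fderiv ℂ a u‖ * ‖v‖ ≤ B * 1 :=
      mul_le_mul ha hv (norm_nonneg _) hB0
    linarith
  have prodb : ∀ a b a' b' : ℂ, ‖a' - a‖ ≤ e → ‖b' - b‖ ≤ e → ‖a‖ ≤ B → ‖b‖ ≤ B →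
      ‖a' * b' - a * b‖ ≤ e * (2 * B + 1) := by
    intro a b a' b' h1 h2 h3 h4
    have h5 : a' * b' - a * b = (a' - a) * (b' - b) + a * (b' - b) + (a' - a) * b := by ring
    rw [h5]
    have h6 := norm_add₃_le (a := (a' - a) * (b' - b)) (b := a * (b' - b)) (c := (a' - a) * b)
    rw [norm_mul, norm_mul, norm_mul] at h6
    have h7 : ‖a' - a‖ * ‖b' - b‖ ≤ e * e := mul_le_mul h1 h2 (norm_nonneg _) he0.le
    have h8 : ‖a‖ * ‖b' - b‖ ≤ B * e := mul_le_mul h3 h2 (norm_nonneg _) hB0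
    have h9 : ‖a' - a‖ * ‖b‖ ≤ e * B := mul_le_mul h1 h4 (norm_nonneg _) he0.le
    have h10 : e * e ≤ e * 1 := mul_le_mul_of_nonneg_left he1 he0.le
    linarith
  have hf1 := dif f f' hf hf' (fun u hu => (hcl u hu).1)
  have hg1 := dif g g' hg hg' (fun u hu => (hcl u hu).2)
  have hf2 := bd f (hBf u hu)
  have hg2 := bd g (hBg u hu)
  have t1 := prodb _ _ _ _ (hf1 _ n10) (hg1 _ n01) (hf2 _ n10) (hg2 _ n01)
  have t2 := prodb _ _ _ _ (hf1 _ n01) (hg1 _ n10) (hf2 _ n01) (hg2 _ n10)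
  have h5 : jac f' g' u - jac f g u =
      (fderiv ℂ f' u (1, 0) * fderiv ℂ g' u (0, 1) - fderiv ℂ f u (1, 0) * fderiv ℂ g u (0, 1)) -
      (fderiv ℂ f' u (0, 1) * fderiv ℂ g' u (1, 0) -
        fderiv ℂ f u (0, 1) * fderiv ℂ g u (1, 0)) := by
    unfold jac
    ring
  rw [h5]
  refine (norm_sub_le _ _).trans ?_
  linarith

end Pool.Agent.MP_ae5b4e_an_ATK
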