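import Pool.Agent.Lib.MP_ae5b4e_an_ATK.Defs
import Pool.Agent.Lib.MP_ae5b4e_an_K1.Top

/-! # ATK: the exact states of the chart points -/

set_option autoImplicit false

noncomputable section

namespace Pool.Agent.MP_ae5b4e_an_ATK

open Complex Set Filter Topology Metric
open Pool.Agent.MP_ae5b4e_an_NB2 (Sys)
open Pool.Agent.MP_ae5b4e_an_A1
open Pool.Agent.MP_ae5b4e_an_MT (Stp GG)
open PorTR (Hm)

variable {U : Ultrafilter ℕ} {Zs : ℕ → Sys} {ε : ℕ → ℝ} {q κ : ℂ → ℂ} {lb ℓ : ℂ} {R ρ : ℝ}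
  {X J A Φ : ℂ → ℂ} {Xn Jn An : ℕ → ℂ → ℂ} {D : Set ℂ} {Lb : ℂ → ℂ}

/-- the derivative of the inverse coordinate -/
private theorem EnC_deriv (hL : Pool.Agent.MP_ae5b4e_an_K1.Lim κ lb ℓ R ρ X J A Φ) {x : ℂ}
    (hx : x ∈ ball (0 : ℂ) ρ) : 2 * I * κ (J x) * deriv J x = 1 := by
  have hJ : HasDerivAt J (deriv J x) x :=
    (hL.crd.E_an.differentiableAt (isOpen_ball.mem_nhds hx)).hasDerivAt
  have hm : J x ∈ ball lb R :=
    ball_subset_ball (half_le_self hL.crd.R₁_pos.le) (hL.crd.E_mem x hx)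
  have h1 : HasDerivAt (fun y => X (J y)) (2 * I * κ (J x) * deriv J x) x :=
    HasDerivAt.comp x (hL.dX _ hm) hJ
  have h2 : HasDerivAt (fun y : ℂ => y) 1 x := hasDerivAt_id x
  have h3 : (fun y => X (J y)) =ᶠ[𝓝 x] fun y => y := by
    filter_upwards [isOpen_ball.mem_nhds hx] with y hy
    exact hL.crd.X_E y hy
  exact (h1.congr_of_eventuallyEq h3.symm).unique h2

/-- mean value for the difference of two holomorphic functions -/
private theorem EnC_mv {g : ℂ → ℂ} {ρ ρ' δ : ℝ} (hρ : ρ' < ρ)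
    (hg : DifferentiableOn ℂ g (ball 0 ρ)) (hb : ∀ x ∈ ball (0 : ℂ) ρ, ‖g x‖ ≤ δ) {x y : ℂ}
    (hx : ‖x‖ ≤ ρ') (hy : ‖y‖ < (ρ + ρ') / 2) :
    ‖g y - g x‖ ≤ δ / ((ρ - ρ') / 4) * ‖y - x‖ := by
  refine Convex.norm_image_sub_le_of_norm_deriv_le (𝕜 := ℂ) (s := ball (0 : ℂ) ((ρ + ρ') / 2))
    (fun z hz => ?_) (fun z hz => ?_) (convex_ball _ _) ?_ ?_
  · rw [mem_ball_zero_iff] at hz
    exact hg.differentiableAt (isOpen_ball.mem_nhds (mem_ball_zero_iff.2 (by linarith)))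
  · rw [mem_ball_zero_iff] at hz
    have hsub : closedBall z ((ρ - ρ') / 4) ⊆ ball (0 : ℂ) ρ := by
      intro w hw
      rw [mem_closedBall, dist_eq_norm] at hw
      rw [mem_ball_zero_iff]
      calc ‖w‖ = ‖(w - z) + z‖ := by ring_nf
        _ ≤ ‖w - z‖ + ‖z‖ := norm_add_le _ _
        _ < ρ := by linarith
    refine norm_deriv_le_of_forall_mem_sphere_norm_le (by linarith) ?_ fun w hw => ?_
    · refine DifferentiableOn.diffContOnCl ?_
      rw [closure_ball _ (by linarith : (ρ - ρ') / 4 ≠ 0)]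
      exact hg.mono hsub
    · exact hb w (hsub (sphere_subset_closedBall hw))
  · rw [mem_ball_zero_iff]
    linarith
  · rw [mem_ball_zero_iff]
    exact hy

/-- uniform differentiability on compact subsets -/
private theorem EnC_ud {J : ℂ → ℂ} {ρ ρ' : ℝ} (hρ : ρ' < ρ)
    (hJ : DifferentiableOn ℂ J (ball 0 ρ)) {δ : ℝ} (hδ : 0 < δ) :
    ∃ η : ℝ, 0 < η ∧ ∀ x y : ℂ, ‖x‖ ≤ ρ' → ‖y - x‖ < η →
      ‖J y - J x - deriv J x * (y - x)‖ ≤ δ * ‖y - x‖ := by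
  have hd : ContinuousOn (deriv J) (closedBall 0 ((ρ + ρ') / 2)) := by
    refine (hJ.deriv isOpen_ball).continuousOn.mono fun z hz => ?_
    rw [mem_closedBall_zero_iff] at hz
    rw [mem_ball_zero_iff]
    linarith
  have huc := (isCompact_closedBall (0 : ℂ) ((ρ + ρ') / 2)).uniformContinuousOn_of_continuous hd
  rw [Metric.uniformContinuousOn_iff] at huc
  obtain ⟨η, hη, H⟩ := huc δ hδ
  refine ⟨min η ((ρ - ρ') / 2), lt_min hη (by linarith), fun x y hx hy => ?_⟩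
  have hy1 : ‖y - x‖ < η := hy.trans_le (min_le_left _ _)
  have hy2 : ‖y - x‖ < (ρ - ρ') / 2 := hy.trans_le (min_le_right _ _)
  have hball : ∀ z ∈ ball x (min η ((ρ - ρ') / 2)), ‖z‖ < (ρ + ρ') / 2 := by
    intro z hz
    rw [mem_ball, dist_eq_norm] at hz
    calc ‖z‖ = ‖(z - x) + x‖ := by ring_nf
      _ ≤ ‖z - x‖ + ‖x‖ := norm_add_le _ _
      _ < (ρ + ρ') / 2 := by linarith [hz.trans_le (min_le_right _ _)]
  have hφ : ∀ z ∈ ball x (min η ((ρ - ρ') / 2)),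
      HasDerivAt (fun z => J z - deriv J x * z) (deriv J z - deriv J x) z := by
    intro z hz
    have h1 : HasDerivAt J (deriv J z) z :=
      (hJ.differentiableAt (isOpen_ball.mem_nhds
        (mem_ball_zero_iff.2 (by linarith [hball z hz])))).hasDerivAt
    have h2 := h1.sub ((hasDerivAt_id z).const_mul (deriv J x))
    rw [mul_one] at h2
    exact h2
  have key := Convex.norm_image_sub_le_of_norm_deriv_le (𝕜 := ℂ)
    (f := fun z => J z - deriv J x * z) (C := δ) (s := ball x (min η ((ρ - ρ') / 2)))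
    (x := x) (y := y) (fun z hz => (hφ z hz).differentiableAt) (fun z hz => by
      rw [(hφ z hz).deriv, ← dist_eq_norm]
      refine (H z (mem_closedBall_zero_iff.2 (hball z hz).le) x
        (mem_closedBall_zero_iff.2 (by linarith)) ?_).le
      exact (mem_ball.1 hz).trans_le (min_le_left _ _)) (convex_ball _ _)
    (mem_ball_self (lt_min hη (by linarith))) (by rw [mem_ball, dist_eq_norm]; exact hy)
  have e : J y - deriv J x * y - (J x - deriv J x * x) = J y - J x - deriv J x * (y - x) := by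
    ring
  rwa [e] at key

/-- THE EXACT STATES CONVERGE.

Proof. `J' = 1 / (2 i κ ∘ J)` on `ball 0 ρ` (derivative of `X (J x) = x`, `Lim.dX`). The compact
`K` is in `closedBall 0 ρ' × K₂`, `ρ' < ρ`, `K₂ ⊆ D` compact, `‖Lb‖ ≤ B` on `K₂`. For
`ε n B ≤ (ρ - ρ') / 4` the point `x + ε Lb z` is in `ball 0 ρ`: analyticity is a composition.
`Jn - J` is holomorphic on `ball 0 ρ`
with norm `≤ δ'` (`Near.E_cl`), so its derivative is `≤ 4 δ' / (ρ - ρ')` on `ball 0 ((ρ + 3ρ')/4)`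
(Cauchy), so `‖(Jn (x + ε L) - Jn x) / ε - (J (x + ε L) - J x) / ε‖ ≤ 4 δ' B / (ρ - ρ')`; and
`(J (x + ε L) - J x) / ε → J' (x) L` uniformly (second derivative of `J` bounded on the smaller
ball). -/
theorem en_conv (hK : Ks U Zs ε q κ lb ℓ R ρ X J A Φ Xn Jn An) (he : ∀ n, 0 < ε n)
    (he0 : Tendsto ε U (𝓝 0)) (hD : Br ℓ D Lb) {K : Set (ℂ × ℂ)} (hKc : IsCompact K)
    (hKD : K ⊆ ball 0 ρ ×ˢ D) :
    (∀ᶠ n in (U : Filter ℕ), AnalyticOnNhd ℂ (En (ε n) (Jn n) Lb) K) ∧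
      ∀ δ : ℝ, 0 < δ → ∀ᶠ n in (U : Filter ℕ), ∀ u ∈ K,
        ‖En (ε n) (Jn n) Lb u - Em κ J Lb u‖ ≤ δ := by
  have hρ0 : 0 < ρ := hK.lim.crd.ρ_pos
  -- the radius `ρ'`
  obtain ⟨ρ', hρ'0, hρ', hKρ⟩ : ∃ ρ' : ℝ, 0 ≤ ρ' ∧ ρ' < ρ ∧ ∀ u ∈ K, ‖u.1‖ ≤ ρ' := by
    rcases K.eq_empty_or_nonempty with h | h
    · exact ⟨0, le_rfl, hρ0, by simp [h]⟩
    · obtain ⟨u₀, hu₀, hmax⟩ := hKc.exists_isMaxOn h
        (f := fun u : ℂ × ℂ => ‖u.1‖) (by fun_prop)
      exact ⟨‖u₀.1‖, norm_nonneg _, mem_ball_zero_iff.1 (hKD hu₀).1, fun u hu => hmax hu⟩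
  -- the bound `B`
  obtain ⟨B, hB0, hKB⟩ : ∃ B : ℝ, 0 < B ∧ ∀ u ∈ K, ‖Lb u.2‖ ≤ B := by
    have hc : ContinuousOn (fun u : ℂ × ℂ => Lb u.2) K :=
      hD.an.continuousOn.comp continuous_snd.continuousOn fun u hu => (hKD hu).2
    obtain ⟨B, hB⟩ := hKc.exists_bound_of_continuousOn hc
    exact ⟨max B 1, by positivity, fun u hu => (hB u hu).trans (le_max_left _ _)⟩
  have hsm : ∀ c : ℝ, 0 < c → ∀ᶠ n in (U : Filter ℕ), ε n * B < c := by
    intro c hc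
    have h1 : Tendsto (fun n => ε n * B) (U : Filter ℕ) (𝓝 (0 * B)) := he0.mul_const B
    rw [zero_mul] at h1
    exact h1.eventually (gt_mem_nhds hc)
  have hst : ∀ n : ℕ, ∀ u ∈ K, ‖(ε n : ℂ) * Lb u.2‖ ≤ ε n * B := by
    intro n u hu
    rw [norm_mul, Complex.norm_real, Real.norm_eq_abs, abs_of_pos (he n)]
    exact mul_le_mul_of_nonneg_left (hKB u hu) (he n).le
  have hfr : ∀ᶠ n in (U : Filter ℕ), DifferentiableOn ℂ (Jn n) (ball 0 ρ) := by
    filter_upwards [hK.fr] with n hn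
    obtain ⟨-, a, b, a', b', hF⟩ := hn
    exact hF.crd.E_an
  constructor
  · filter_upwards [hfr, hsm ((ρ - ρ') / 2) (by linarith)] with n hn hn2 u hu
    have hx := hKρ u hu
    have hxb : u.1 ∈ ball (0 : ℂ) ρ := mem_ball_zero_iff.2 (by linarith)
    have hyb : u.1 + ε n * Lb u.2 ∈ ball (0 : ℂ) ρ := by
      rw [mem_ball_zero_iff]
      calc ‖u.1 + ε n * Lb u.2‖ ≤ ‖u.1‖ + ‖(ε n : ℂ) * Lb u.2‖ := norm_add_le _ _
        _ < ρ := by linarith [hst n u hu]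
    have a1 : AnalyticAt ℂ (fun u : ℂ × ℂ => u.1) u := analyticAt_fst
    have a2 : AnalyticAt ℂ (fun u : ℂ × ℂ => u.2) u := analyticAt_snd
    have aL : AnalyticAt ℂ (fun u : ℂ × ℂ => Lb u.2) u :=
      AnalyticAt.fun_comp (hD.an.analyticAt (hD.D_open.mem_nhds (hKD hu).2)) a2
    have aJ : AnalyticAt ℂ (fun u : ℂ × ℂ => Jn n u.1) u :=
      AnalyticAt.fun_comp (hn.analyticAt (isOpen_ball.mem_nhds hxb)) a1
    have aJ' : AnalyticAt ℂ (fun u : ℂ × ℂ => Jn n (u.1 + ε n * Lb u.2)) u :=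
      AnalyticAt.fun_comp (g := Jn n) (f := fun u : ℂ × ℂ => u.1 + ε n * Lb u.2)
        (hn.analyticAt (isOpen_ball.mem_nhds hyb)) (a1.add (analyticAt_const.mul aL))
    exact aJ.prod ((aJ'.sub aJ).div analyticAt_const
      (by exact_mod_cast (he n).ne'))
  · intro δ hδ
    obtain ⟨c, hc⟩ : ∃ c : ℝ, c = (ρ - ρ') / 4 := ⟨_, rfl⟩
    have hc0 : 0 < c := by rw [hc]; linarith
    obtain ⟨η, hη, Hη⟩ := EnC_ud hρ' hK.lim.crd.E_an (δ := δ / (2 * B)) (by positivity)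
    filter_upwards [hfr, hsm ((ρ - ρ') / 2) (by linarith), hsm η hη,
      hK.near (min δ (δ * c / (2 * B))) (lt_min hδ (by positivity))] with n hn hn2 hn3 hn4 u hu
    have hx := hKρ u hu
    have hxb : u.1 ∈ ball (0 : ℂ) ρ := mem_ball_zero_iff.2 (by linarith)
    have hstp := hst n u hu
    have hεn : (0 : ℝ) < ε n := he n
    have hεc : (ε n : ℂ) ≠ 0 := by exact_mod_cast hεn.ne'
    have hy : ‖u.1 + ε n * Lb u.2‖ < (ρ + ρ') / 2 := by
      calc ‖u.1 + ε n * Lb u.2‖ ≤ ‖u.1‖ + ‖(ε n : ℂ) * Lb u.2‖ := norm_add_le _ _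
        _ < (ρ + ρ') / 2 := by linarith
    have k1 := EnC_mv (g := fun x => Jn n x - J x) hρ' (hn.sub hK.lim.crd.E_an)
      (fun x hx => (hn4.E_cl x hx).trans (min_le_right _ _)) hx hy
    have k2 := Hη u.1 (u.1 + ε n * Lb u.2) hx (by
      rw [add_sub_cancel_left]
      linarith)
    simp only [add_sub_cancel_left] at k1 k2
    have hd := EnC_deriv hK.lim hxb
    have hκ0 : 2 * I * κ (J u.1) ≠ 0 := fun h => by
      rw [h, zero_mul] at hd
      exact zero_ne_one hd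
    have hJ' : Lb u.2 / (2 * I * κ (J u.1)) = deriv J u.1 * Lb u.2 := by
      rw [div_eq_iff hκ0]
      linear_combination (-Lb u.2) * hd
    have e : (Jn n (u.1 + ε n * Lb u.2) - Jn n u.1) / ε n - Lb u.2 / (2 * I * κ (J u.1)) =
        ((Jn n (u.1 + ε n * Lb u.2) - J (u.1 + ε n * Lb u.2) - (Jn n u.1 - J u.1)) +
          (J (u.1 + ε n * Lb u.2) - J u.1 - deriv J u.1 * (ε n * Lb u.2))) / ε n := by
      rw [hJ']
      field_simp
      ring
    have hb1 : ‖Jn n u.1 - J u.1‖ ≤ δ := (hn4.E_cl _ hxb).trans (min_le_left _ _)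
    have hb2 : ‖(Jn n (u.1 + ε n * Lb u.2) - Jn n u.1) / ε n - Lb u.2 / (2 * I * κ (J u.1))‖ ≤
        δ := by
      rw [e, norm_div, Complex.norm_real, Real.norm_eq_abs, abs_of_pos hεn, div_le_iff₀ hεn]
      refine (norm_add_le _ _).trans ?_
      have m1 : δ * c / (2 * B) / ((ρ - ρ') / 4) * ‖(ε n : ℂ) * Lb u.2‖ ≤ δ / 2 * ε n := by
        rw [← hc]
        have : δ * c / (2 * B) / c = δ / (2 * B) := by
          field_simp
        rw [this]
        calc δ / (2 * B) * ‖(ε n : ℂ) * Lb u.2‖ ≤ δ / (2 * B) * (ε n * B) :=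
              mul_le_mul_of_nonneg_left hstp (by positivity)
          _ = δ / 2 * ε n := by
              field_simp
      have m2 : δ / (2 * B) * ‖(ε n : ℂ) * Lb u.2‖ ≤ δ / 2 * ε n := by
        calc δ / (2 * B) * ‖(ε n : ℂ) * Lb u.2‖ ≤ δ / (2 * B) * (ε n * B) :=
              mul_le_mul_of_nonneg_left hstp (by positivity)
          _ = δ / 2 * ε n := by
              field_simp
      linarith [k1.trans m1, k2.trans m2]
    have hpr : En (ε n) (Jn n) Lb u - Em κ J Lb u = (Jn n u.1 - J u.1,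
        (Jn n (u.1 + ε n * Lb u.2) - Jn n u.1) / ε n - Lb u.2 / (2 * I * κ (J u.1))) := rfl
    rw [hpr]
    exact max_le hb1 hb2

end Pool.Agent.MP_ae5b4e_an_ATK
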