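import Pool.Agent.Lib.MP_ae5b4e_an_ATK.Br
import Pool.Agent.Lib.MP_ae5b4e_an_ATK.EnC
import Pool.Agent.Lib.MP_ae5b4e_an_AT.Rev

/-! # ATK: the exact states in the reversed variables -/

set_option autoImplicit false

noncomputable section

namespace Pool.Agent.MP_ae5b4e_an_ATK

open Complex Set Filter Topology Metric
open Pool.Agent.MP_ae5b4e_an_NB2 (Sys)
open Pool.Agent.MP_ae5b4e_an_M (S1 C1f Gf bb)
open Pool.Agent.MP_ae5b4e_an_A1
open Pool.Agent.MP_ae5b4e_an_AT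
open PorTR (Hm)

variable {U : Ultrafilter ℕ} {Zs : ℕ → Sys} {ε : ℕ → ℝ} {q κ : ℂ → ℂ} {lb ℓ : ℂ} {R ρ : ℝ}
  {X J A Φ : ℂ → ℂ} {Xn Jn An : ℕ → ℂ → ℂ} {Ω : Set (ℂ × ℂ)} {z : ℂ × ℂ → ℂ × ℂ}
  {θb g₀ : ℂ} {η : ℝ}

/-- The exact states in the reversed variables converge. Proof. `unrev h A u = (-u.1, -u.2 + h A (-u.1))`
tends to `-u` uniformly (`An` bounded), analytic; `en_conv` for `br_left` on a compact neighbourhood
of `-K`; `Em κ J (lamm ℓ) (-u) = Es κ J (ℓ - π i) (-1) u` (`lamm ℓ (-ζ) = lam (ℓ - π i) ζ`), and uniform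
continuity of `Em`. -/
theorem enl_conv (hK : Ks U Zs ε q κ lb ℓ R ρ X J A Φ Xn Jn An) (he : ∀ n, 0 < ε n)
    (he0 : Tendsto ε U (𝓝 0)) {K : Set (ℂ × ℂ)} (hKc : IsCompact K)
    (hKD : K ⊆ ball 0 ρ ×ˢ {z | z ∈ slitPlane ∧ ‖cexp ℓ * z‖ < 1}) :
    (∀ᶠ n in (U : Filter ℕ), AnalyticOnNhd ℂ
      (fun u => En (ε n) (Jn n) (lamm ℓ) (unrev (ε n) (An n) u)) K) ∧
      ∀ δ : ℝ, 0 < δ → ∀ᶠ n in (U : Filter ℕ), ∀ u ∈ K,
        ‖En (ε n) (Jn n) (lamm ℓ) (unrev (ε n) (An n) u) - Es κ J (ℓ - Real.pi * I) (-1) u‖ ≤ δ := by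
  have hcrd := hK.lim.crd
  have hD := br_left ℓ
  have hopen : IsOpen (ball (0:ℂ) ρ ×ˢ {z : ℂ | -z ∈ slitPlane ∧ ‖cexp ℓ * z‖ < 1}) :=
    isOpen_ball.prod hD.D_open
  -- a compact neighbourhood of `-K`
  obtain ⟨K₁, hK₁⟩ : ∃ K₁ : Set (ℂ × ℂ), K₁ = (fun u : ℂ × ℂ => -u) '' K := ⟨_, rfl⟩
  have hK₁c : IsCompact K₁ := by
    rw [hK₁]
    exact hKc.image continuous_neg
  have hK₁s : K₁ ⊆ ball (0:ℂ) ρ ×ˢ {z : ℂ | -z ∈ slitPlane ∧ ‖cexp ℓ * z‖ < 1} := by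
    rw [hK₁]
    rintro _ ⟨u, hu, rfl⟩
    have h1 := hKD hu
    refine ⟨?_, ?_, ?_⟩
    · have h2 := h1.1
      rw [mem_ball_zero_iff] at h2 ⊢
      simpa using h2
    · have h2 := h1.2.1
      simpa using h2
    · have h2 := h1.2.2
      simpa using h2
  obtain ⟨δ₀, hδ₀, hδs⟩ := hK₁c.exists_cthickening_subset_open hopen hK₁s
  obtain ⟨K₂, hK₂⟩ : ∃ K₂ : Set (ℂ × ℂ), K₂ = cthickening δ₀ K₁ := ⟨_, rfl⟩
  have hK₂c : IsCompact K₂ := by
    rw [hK₂]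
    exact hK₁c.cthickening
  rw [← hK₂] at hδs
  -- the limit state is uniformly continuous
  have hJc : ContinuousOn (fun u : ℂ × ℂ => J u.1) K₂ :=
    hcrd.E_an.continuousOn.comp continuous_fst.continuousOn fun u hu => (hδs hu).1
  have hJm : ∀ u ∈ K₂, J u.1 ∈ ball lb R := fun u hu =>
    ball_subset_ball (half_le_self hcrd.R₁_pos.le) (hcrd.E_mem _ (hδs hu).1)
  have hκc : ContinuousOn (fun u : ℂ × ℂ => κ (J u.1)) K₂ :=
    hK.κ_an.continuousOn.comp hJc hJm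
  have hκ0 : ∀ u ∈ K₂, 2 * I * κ (J u.1) ≠ 0 := fun u hu =>
    mul_ne_zero (mul_ne_zero two_ne_zero I_ne_zero) (hK.lim.κ_ne _ (hJm u hu))
  have hLc : ContinuousOn (fun u : ℂ × ℂ => lamm ℓ u.2) K₂ :=
    hD.an.continuousOn.comp continuous_snd.continuousOn fun u hu => (hδs hu).2
  have hEc : ContinuousOn (Em κ J (lamm ℓ)) K₂ :=
    hJc.prodMk (hLc.div (continuousOn_const.mul hκc) hκ0)
  obtain ⟨hE1, hE2⟩ := en_conv hK he he0 hD hK₂c hδs
  -- `unrev` is close to `- u`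
  have hun : ∀ c : ℝ, 0 < c → ∀ᶠ n in (U : Filter ℕ), ∀ u ∈ K,
      ‖unrev (ε n) (An n) u - -u‖ < c := by
    intro c hc
    have hsm : ∀ᶠ n in (U : Filter ℕ), ε n * 3 < c := by
      have h1 : Tendsto (fun n => ε n * 3) U (𝓝 0) := by
        have h2 := he0.mul_const 3
        rwa [zero_mul] at h2
      exact h1.eventually (gt_mem_nhds hc)
    filter_upwards [hK.near 1 one_pos, hsm] with n hnear hs u hu
    have hub : -u.1 ∈ ball (0:ℂ) ρ := by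
      have h2 := (hKD hu).1
      rw [mem_ball_zero_iff] at h2 ⊢
      simpa using h2
    have hA1 : ‖An n (-u.1)‖ ≤ 3 := by
      have h1 := hnear.A_cl _ hub
      have h2 := hK.lim.side.near _ hub
      have h3 : ‖A (-u.1)‖ ≤ 1 + 1 / 128 := by
        have := norm_le_norm_add_norm_sub' (A (-u.1)) 1
        rw [norm_one] at this
        linarith
      have h4 := norm_le_norm_add_norm_sub' (An n (-u.1)) (A (-u.1))
      linarith
    have e1 : unrev (ε n) (An n) u - -u = (0, (ε n : ℂ) * An n (-u.1)) := by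
      ext
      · simp [unrev]
      · simp [unrev]
    rw [e1, Prod.norm_def]
    have hn := he n
    have hnn : ‖(ε n : ℂ)‖ = ε n := by
      rw [norm_real, Real.norm_eq_abs, abs_of_pos hn]
    refine max_lt (by simpa using hc) ?_
    simp only [norm_mul, hnn]
    exact (mul_le_mul_of_nonneg_left hA1 hn.le).trans_lt hs
  have hmem : ∀ᶠ n in (U : Filter ℕ), ∀ u ∈ K, unrev (ε n) (An n) u ∈ K₂ := by
    filter_upwards [hun δ₀ hδ₀] with n hn u hu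
    rw [hK₂]
    refine mem_cthickening_of_dist_le _ (-u) δ₀ K₁ ?_ ?_
    · rw [hK₁]
      exact ⟨u, hu, rfl⟩
    · rw [dist_eq_norm]
      exact (hn u hu).le
  have hneg : ∀ u ∈ K, -u ∈ K₂ := by
    intro u hu
    rw [hK₂]
    refine self_subset_cthickening _ ?_
    rw [hK₁]
    exact ⟨u, hu, rfl⟩
  have hEs : ∀ u : ℂ × ℂ, Em κ J (lamm ℓ) (-u) = Es κ J (ℓ - Real.pi * I) (-1) u := by
    intro u
    simp [Em, Es, lamm]
  refine ⟨?_, ?_⟩
  · filter_upwards [hE1, hK.fr, hmem] with n h1 hfr h2 u hu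
    obtain ⟨hOn, a, b, a', b', hFr⟩ := hfr
    have h3 := h1 _ (h2 u hu)
    have hub : -u.1 ∈ ball (0:ℂ) ρ := by
      have h2 := (hKD hu).1
      rw [mem_ball_zero_iff] at h2 ⊢
      simpa using h2
    have h4 : AnalyticAt ℂ (An n) (-u.1) :=
      hFr.crd.A_an.analyticAt (isOpen_ball.mem_nhds hub)
    have h5 : AnalyticAt ℂ (fun u : ℂ × ℂ => -u.1) u := analyticAt_fst.neg
    have h6 : AnalyticAt ℂ (fun u : ℂ × ℂ => An n (-u.1)) u :=
      h4.comp_of_eq h5 rfl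
    have h7 : AnalyticAt ℂ (fun u : ℂ × ℂ => unrev (ε n) (An n) u) u :=
      h5.prod (analyticAt_snd.neg.add (analyticAt_const.mul h6))
    exact h3.comp h7
  · intro δ hδ
    obtain ⟨c, hc, hc'⟩ := Metric.uniformContinuousOn_iff.1
      (hK₂c.uniformContinuousOn_of_continuous hEc) (δ / 2) (by linarith)
    filter_upwards [hE2 (δ / 2) (by linarith), hun c hc, hmem] with n h1 h2 h3 u hu
    have h4 := h1 _ (h3 u hu)
    have h5 := hc' _ (h3 u hu) _ (hneg u hu) (by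
      rw [dist_eq_norm]
      exact h2 u hu)
    rw [dist_eq_norm] at h5
    rw [← hEs u]
    have h6 := norm_sub_le_norm_sub_add_norm_sub
      (En (ε n) (Jn n) (lamm ℓ) (unrev (ε n) (An n) u))
      (Em κ J (lamm ℓ) (unrev (ε n) (An n) u)) (Em κ J (lamm ℓ) (-u))
    linarith

end Pool.Agent.MP_ae5b4e_an_ATK
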