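import Pool.Agent.Lib.MP_ae5b4e_an_ATK.BaseR
import Pool.Agent.Lib.MP_ae5b4e_an_ATK.EnL
import Pool.Agent.Lib.MP_ae5b4e_an_ATK.Cauchy
import Pool.Agent.Lib.MP_ae5b4e_an_AT.Rev

/-! # ATK: the exact coordinates on the left side of the tip (reversed variables) -/

set_option autoImplicit false

noncomputable section

namespace Pool.Agent.MP_ae5b4e_an_ATK

open Complex Set Filter Topology Metric
open Pool.Agent.MP_ae5b4e_an_NB2 (Sys)
open Pool.Agent.MP_ae5b4e_an_M (S1 C1f Gf bb)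
open Pool.Agent.MP_ae5b4e_an_A1
open Pool.Agent.MP_ae5b4e_an_AT
open PorTR (Hm)

variable {U : Ultrafilter ℕ} {Zs : ℕ → Sys} {ε : ℕ → ℝ} {q κ : ℂ → ℂ} {lb ℓ : ℂ} {R ρ : ℝ}
  {X J A Φ : ℂ → ℂ} {Xn Jn An : ℕ → ℂ → ℂ} {Ω : Set (ℂ × ℂ)} {z : ℂ × ℂ → ℂ × ℂ}
  {θb g₀ : ℂ} {η : ℝ}

private theorem BaseL_dom {t b : ℝ} (htl : ‖cexp ℓ‖ * (2 * t) < 1) {w : ℂ}
    (hw : ‖w - t‖ ≤ b) (hb : b < t) : w ∈ slitPlane ∧ ‖cexp ℓ * w‖ < 1 := by
  have h1 : |(w - t).re| ≤ b := (Complex.abs_re_le_norm _).trans hw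
  have h2 := (abs_le.1 h1).1
  rw [Complex.sub_re, Complex.ofReal_re] at h2
  have ht : 0 < t := by
    have := (norm_nonneg (w - t)).trans hw
    linarith
  refine ⟨Or.inl (by linarith), ?_⟩
  have h3 : ‖w‖ ≤ 2 * t := by
    have h4 : w = (w - t) + t := by ring
    rw [h4]
    refine (norm_add_le _ _).trans ?_
    rw [Complex.norm_real, Real.norm_of_nonneg ht.le]
    linarith
  rw [norm_mul]
  exact (mul_le_mul_of_nonneg_left h3 (norm_nonneg _)).trans_lt htl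

private theorem BaseL_cont {t : ℝ} (hS : Side ℓ 0 ρ A Φ) (htl : ‖cexp ℓ‖ * (2 * t) < 1) :
    ContinuousOn (en ℓ Φ) {u : ℂ × ℂ | ‖u.1‖ < ρ ∧ ‖u.2 - t‖ < t} := by
  intro u hu
  apply ContinuousAt.continuousWithinAt
  obtain ⟨h1, h2⟩ := BaseL_dom htl le_rfl hu.2
  have h3 : ContinuousAt Φ u.1 := (hS.prim u.1 (mem_ball_zero_iff.2 hu.1)).continuousAt
  have h4 : ContinuousAt (sz ℓ) u.2 := (hasDerivAt_sz h1 h2).continuousAt
  exact (ContinuousAt.comp (f := Prod.fst) h3 continuousAt_fst).add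
    (ContinuousAt.comp (f := Prod.snd) h4 continuousAt_snd)

private theorem BaseL_open {t a b r : ℝ} (hS : Side ℓ 0 ρ A Φ) (htl : ‖cexp ℓ‖ * (2 * t) < 1)
    (ha : a ≤ ρ) (hb : b ≤ t) : IsOpen (NP ℓ Φ t a b r) := by
  have h1 : IsOpen {u : ℂ × ℂ | ‖u.1‖ < a ∧ ‖u.2 - t‖ < b} := by
    have e1 : IsOpen {u : ℂ × ℂ | ‖u.1‖ < a} :=
      isOpen_lt (continuous_norm.comp continuous_fst) continuous_const
    have e2 : IsOpen {u : ℂ × ℂ | ‖u.2 - t‖ < b} :=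
      isOpen_lt (continuous_norm.comp (continuous_snd.sub continuous_const)) continuous_const
    exact e1.inter e2
  have h2 : ContinuousOn (en ℓ Φ) {u : ℂ × ℂ | ‖u.1‖ < a ∧ ‖u.2 - t‖ < b} :=
    (BaseL_cont hS htl).mono fun u hu => ⟨hu.1.trans_le ha, hu.2.trans_le hb⟩
  have h3 := h2.isOpen_inter_preimage h1 (isOpen_ball (x := Φ 0) (ε := r))
  have h4 : NP ℓ Φ t a b r = {u : ℂ × ℂ | ‖u.1‖ < a ∧ ‖u.2 - t‖ < b} ∩ en ℓ Φ ⁻¹' ball (Φ 0) r := by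
    ext u
    constructor
    · rintro ⟨g1, g2, g3⟩
      exact ⟨⟨g1, g2⟩, mem_ball_iff_norm.2 g3⟩
    · rintro ⟨⟨g1, g2⟩, g3⟩
      exact ⟨g1, g2, mem_ball_iff_norm.1 g3⟩
  rw [h4]
  exact h3

private theorem BaseL_lam {t b : ℝ} (htl : ‖cexp ℓ‖ * (2 * t) < 1) (hb : b < t) :
    ∃ B : ℝ, ∀ w : ℂ, ‖w - t‖ ≤ b → ‖lam ℓ w‖ ≤ B := by
  have h1 : ContinuousOn (lam ℓ) (closedBall (t : ℂ) b) := by
    intro w hw
    obtain ⟨h1, h2⟩ := BaseL_dom htl (mem_closedBall_iff_norm.1 hw) hb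
    exact (hasDerivAt_lam h1 h2).continuousAt.continuousWithinAt
  obtain ⟨B, hB⟩ := (isCompact_closedBall (t : ℂ) b).exists_bound_of_continuousOn h1
  exact ⟨B, fun w hw => hB w (mem_closedBall_iff_norm.2 hw)⟩

/-- EXACT COORDINATES ON THE LEFT SIDE, reversed variables.

Proof. `ℓ' = ℓ - π i`, `Φ' = fun x => Φ (-x)`, `Side.rev`, `‖e^ℓ'‖ = ‖e^ℓ‖`. `N`, and compact sets
`K₀ := {‖u.1‖ ≤ ρ / 2, ‖u.2 - t‖ ≤ t / 4, ‖en - Φ' 0‖ ≤ r / 2}`, `K := {‖u.1‖ ≤ 5 ρ / 8, ‖u.2 - t‖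
≤ 13 t / 50,
‖en - Φ' 0‖ ≤ 3 r / 4}` (`np_compact`), `NN .. (r / 2) ⊆ K₀ ⊆ interior K`, `K ⊆ N`. `E := Es κ J ℓ'
(-1)`,
`En n u := En .. (lamm ℓ) (unrev .. u)`, `enl_conv`. `inv_coord` with `Z := W`, time `0` (`⌊0⌋₊ =
0`, `tr 0 = id`):
`r₁, Q`: `W n (Q n u) = En n u`. `S = (Q n ·).1`, `Γ = (Q n ·).2`. Step: for `u, u' := Fs ℓ' h A' u
∈ NN`
(`A' x = An (-x)`), `x := unrev u'` and `unrev u` satisfy `unrev u = Wm ℓ h An (unrev u') = sc h An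
(lamm ℓ) (unrev u')`
(`AT.Wm_unrev`, `rfl`); `en_step` for `br_left` on a compact neighbourhood of `-K₀`:
`En n u = stp (En n u') = stp (W n (Q n u')) = W n (tr ε (Q n u'))` (`Ex.eq`), `‖tr ε (Q n u') - P
u‖ < r₁`, so
`Q n u = tr ε (Q n u')`: `S u' = S u - ε`, `Γ u' = Γ u`. `BaseG.cl`: `Pb.snd`; `BaseS.cl`: `‖S u -
θb‖ ≤ δ' + t / 3 + t ≤ 2 t`.
`BaseS.jac`: `jac_close` on `K₀ ⊆ interior K` for `P` and `Pb.jac` (`s = -1`: `e^ℓ' exp (- en)`). -/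
theorem base_left {ξ : ℕ → ℂ × ℂ → ℂ} (hV : VF U ε (Hm ×ˢ univ) (gI q) (gx ε ξ))
    (hξ : XI U Zs ε ξ) (hz : Fw (Hm ×ˢ univ) (gI q) Ω z)
    (hK : Ks U Zs ε q κ lb ℓ R ρ X J A Φ Xn Jn An) {O : Set (ℂ × ℂ)} (hO : IsOpen O) (hOΩ : O ⊆ Ω)
    {W : ℕ → ℂ × ℂ → ℂ × ℂ} (hW : Ex U ε (gx ε ξ) O z W) {t r : ℝ} (ht : 0 < t)
    (htl : ‖cexp ℓ‖ * (2 * t) < 1) {P : ℂ × ℂ → ℂ × ℂ}
    (hP : Pb κ J (fun x => Φ (-1 * x)) Ω z (ℓ - Real.pi * I) (-1) θb g₀ t (ρ * (3 / 4)) r η P)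
    (hPO : ∀ p : ℂ × ℂ, ‖p.1 - (θb + -1 * t)‖ < t / 3 → ‖p.2 - g₀‖ < η → p ∈ O) :
    ∃ Q : ℕ → ℂ × ℂ → ℂ × ℂ, ∀ δ : ℝ, 0 < δ → ∀ᶠ n in (U : Filter ℕ),
      BaseG (ℓ - Real.pi * I) 0 ρ (fun x => Φ (-x)) t (r / 2) (ε n) (fun x => An n (-x)) δ
        (fun u => (Q n u).2) ∧
      BaseS (ℓ - Real.pi * I) 0 ρ (fun x => Φ (-x)) t (r / 2) (ε n) (fun x => An n (-x)) δ θb
        (fun u => (Q n u).1) (fun u => (Q n u).2) ∧
      ∀ u ∈ NN (ℓ - Real.pi * I) 0 ρ (fun x => Φ (-x)) t (r / 2),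
        ‖(Q n u).1 - (θb - t)‖ < t / 2 ∧
        W n (Q n u) = En (ε n) (Jn n) (lamm ℓ) (unrev (ε n) (An n) u) := by
  have he := hV.ε_pos
  have he0 := hV.ε_lim
  have hΦ : (fun x => Φ (-1 * x)) = fun x => Φ (-x) := by
    funext x
    rw [neg_one_mul]
  rw [hΦ] at hP
  have hS : Side (ℓ - Real.pi * I) 0 ρ (fun x => A (-x)) (fun x => Φ (-x)) := by
    have h1 := hK.lim.side.rev
    rwa [neg_zero] at h1
  have hρ : 0 < ρ := hS.ρ_pos
  have hℓn : ‖cexp (ℓ - Real.pi * I)‖ = ‖cexp ℓ‖ := by rw [exp_sub_pi, norm_neg]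
  have htl' : ‖cexp (ℓ - Real.pi * I)‖ * (2 * t) < 1 := by rwa [hℓn]
  obtain ⟨ℓ', hℓ'⟩ : ∃ ℓ' : ℂ, ℓ' = ℓ - Real.pi * I := ⟨_, rfl⟩
  obtain ⟨Φ', hΦ'⟩ : ∃ Φ' : ℂ → ℂ, Φ' = fun x => Φ (-x) := ⟨_, rfl⟩
  rw [← hℓ', ← hΦ'] at hP hS ⊢
  rw [← hℓ'] at htl' hℓn
  have hr : 0 < r := hP.r_pos
  have hN : IsOpen (NP ℓ' Φ' t (ρ * (3 / 4)) (t * (7 / 25)) r) :=
    BaseL_open hS htl' (by linarith) (by linarith)
  obtain ⟨K, hKd⟩ : ∃ K : Set (ℂ × ℂ), K = {u : ℂ × ℂ | ‖u.1‖ ≤ ρ * (5 / 8) ∧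
    ‖u.2 - t‖ ≤ t * (13 / 50) ∧ ‖en ℓ' Φ' u - Φ' 0‖ ≤ r * (3 / 4)} := ⟨_, rfl⟩
  obtain ⟨K₀, hK₀d⟩ : ∃ K₀ : Set (ℂ × ℂ), K₀ = {u : ℂ × ℂ | ‖u.1‖ ≤ ρ * (1 / 2) ∧
    ‖u.2 - t‖ ≤ t * (1 / 4) ∧ ‖en ℓ' Φ' u - Φ' 0‖ ≤ r * (1 / 2)} := ⟨_, rfl⟩
  have hKc : IsCompact K := by
    rw [hKd]
    refine np_compact hS (by linarith) ht (by linarith) ?_
    refine lt_of_le_of_lt (mul_le_mul_of_nonneg_left ?_ (norm_nonneg _)) htl'
    linarith
  have hK₀c : IsCompact K₀ := by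
    rw [hK₀d]
    refine np_compact hS (by linarith) ht (by linarith) ?_
    refine lt_of_le_of_lt (mul_le_mul_of_nonneg_left ?_ (norm_nonneg _)) htl'
    linarith
  have hKN : K ⊆ NP ℓ' Φ' t (ρ * (3 / 4)) (t * (7 / 25)) r := by
    rw [hKd]
    rintro u ⟨h1, h2, h3⟩
    exact ⟨by linarith, by linarith, by linarith⟩
  have hK₀i : K₀ ⊆ interior K := by
    refine Subset.trans ?_ (interior_maximal ?_ (BaseL_open (a := ρ * (5 / 8))
      (b := t * (13 / 50)) (r := r * (3 / 4)) hS htl' (by linarith) (by linarith)))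
    · rw [hK₀d]
      rintro u ⟨h1, h2, h3⟩
      exact ⟨by linarith, by linarith, by linarith⟩
    · rw [hKd]
      rintro u ⟨h1, h2, h3⟩
      exact ⟨h1.le, h2.le, h3.le⟩
  have hK₀K : K₀ ⊆ K := hK₀i.trans interior_subset
  have hNN : NN ℓ' 0 ρ Φ' t (r / 2) ⊆ K₀ := by
    rw [hK₀d]
    rintro u ⟨h1, h2, h3⟩
    rw [sub_zero] at h1
    exact ⟨by linarith, by linarith, by linarith⟩
  have hND : NP ℓ' Φ' t (ρ * (3 / 4)) (t * (7 / 25)) r ⊆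
      ball 0 ρ ×ˢ {z | z ∈ slitPlane ∧ ‖cexp ℓ * z‖ < 1} := by
    rintro u ⟨h1, h2, -⟩
    refine ⟨mem_ball_zero_iff.2 (by linarith), ?_⟩
    exact BaseL_dom htl h2.le (by linarith)
  have hPc : ContinuousOn P (NP ℓ' Φ' t (ρ * (3 / 4)) (t * (7 / 25)) r) := hP.an.continuousOn
  have hPO' : ∀ u ∈ NP ℓ' Φ' t (ρ * (3 / 4)) (t * (7 / 25)) r, P u ∈ O := fun u hu =>
    hPO _ (hP.fst u hu) (hP.snd_near u hu)
  obtain ⟨r₁, hr₁, Q, hQ1, hQ2⟩ := inv_coord (E := Es κ J ℓ' (-1)) (P := P)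
    (En := fun n u => En (ε n) (Jn n) (lamm ℓ) (unrev (ε n) (An n) u)) hV hz hO hOΩ hW
    (t := 0) le_rfl hN hKc hKN hPc hP.eq (by
      intro u hu
      refine ⟨?_, fun s hs => ?_⟩
      · rw [Complex.ofReal_zero, tr_zero]
        exact hPO' u hu
      · have h1 : s = 0 := le_antisymm hs.2 hs.1
        rw [h1, Complex.ofReal_zero, tr_zero]
        exact hP.mem u hu)
    (fun K' hK' hc => (enl_conv hK he he0 hc (hK'.trans hND)).1)
    (fun K' hK' hc δ hδ => by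
      rw [hℓ']
      exact (enl_conv hK he he0 hc (hK'.trans hND)).2 δ hδ)
  have hfl : ∀ n, ⌊(0 : ℝ) / ε n⌋₊ = 0 := fun n => by rw [zero_div, Nat.floor_zero]
  have htr : ∀ n (p : ℂ × ℂ), tr (((⌊(0 : ℝ) / ε n⌋₊ : ℝ) * ε n : ℝ) : ℂ) p = p := by
    intro n p
    rw [hfl, Nat.cast_zero, zero_mul, Complex.ofReal_zero, tr_zero]
  have hQ1' : ∀ δ : ℝ, 0 < δ → ∀ᶠ n in (U : Filter ℕ), AnalyticOnNhd ℂ (Q n) K ∧ ∀ u ∈ K,
      ‖Q n u - P u‖ ≤ δ ∧ W n (Q n u) = En (ε n) (Jn n) (lamm ℓ) (unrev (ε n) (An n) u) := by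
    intro δ hδ
    filter_upwards [hQ1 δ hδ] with n hn
    refine ⟨hn.1, fun u hu => ⟨(hn.2 u hu).1, ?_⟩⟩
    have h1 := (hn.2 u hu).2
    rw [htr, hfl] at h1
    exact h1
  have hQ2' : ∀ᶠ n in (U : Filter ℕ), ∀ u ∈ K, ∀ p : ℂ × ℂ, ‖p - P u‖ < r₁ →
      W n p = En (ε n) (Jn n) (lamm ℓ) (unrev (ε n) (An n) u) → p = Q n u := by
    filter_upwards [hQ2] with n hn u hu p hp h1
    refine hn u hu p hp ?_
    rw [htr, hfl]
    exact h1
  clear hQ1 hQ2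
  refine ⟨Q, fun δ hδ => ?_⟩
  have hKLc : IsCompact (closedBall (0 : ℂ) (ρ * (5 / 8)) ×ˢ closedBall (-(t : ℂ)) (t * (1 / 2))) :=
    (isCompact_closedBall _ _).prod (isCompact_closedBall _ _)
  have hKLD : closedBall (0 : ℂ) (ρ * (5 / 8)) ×ˢ closedBall (-(t : ℂ)) (t * (1 / 2)) ⊆
      ball 0 ρ ×ˢ {z | -z ∈ slitPlane ∧ ‖cexp ℓ * z‖ < 1} := by
    rintro w ⟨h1, h2⟩
    rw [mem_closedBall_zero_iff] at h1
    rw [mem_closedBall_iff_norm] at h2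
    refine ⟨mem_ball_zero_iff.2 (by linarith), ?_⟩
    have h3 : ‖-w.2 - t‖ ≤ t * (1 / 2) := by
      rw [show -w.2 - (t : ℂ) = -(w.2 - -(t : ℂ)) by ring, norm_neg]
      exact h2
    obtain ⟨g1, g2⟩ := BaseL_dom htl h3 (by linarith)
    refine ⟨g1, ?_⟩
    rwa [mul_neg, norm_neg] at g2
  have hstep := en_step hK he he0 hξ (br_left ℓ) hKLc hKLD
  have hPK : IsCompact (P '' K) := hKc.image_of_continuousOn (hPc.mono hKN)
  have hPKO : P '' K ⊆ O := by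
    rintro _ ⟨u, hu, rfl⟩
    exact hPO' u (hKN hu)
  obtain ⟨d, hd, hdO⟩ := hPK.exists_cthickening_subset_open hO hPKO
  have hWeq := hW.eq (cthickening d (P '' K)) hdO hPK.cthickening
  have huc := hKc.uniformContinuousOn_of_continuous (hPc.mono hKN)
  rw [Metric.uniformContinuousOn_iff] at huc
  obtain ⟨δc, hδc, huc⟩ := huc (r₁ / 4) (by linarith)
  obtain ⟨B, hB⟩ := BaseL_lam (ℓ := ℓ') (t := t) (b := t * (1 / 4)) htl' (by linarith)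
  obtain ⟨C, hC⟩ : ∃ C : ℝ, C = max B 2 := ⟨_, rfl⟩
  have hC0 : 0 < C := by
    rw [hC]
    exact lt_of_lt_of_le two_pos (le_max_right _ _)
  have hB' : ∀ w : ℂ, ‖w - t‖ ≤ t * (1 / 4) → ‖lam ℓ' w‖ ≤ C := fun w hw =>
    (hB w hw).trans (by rw [hC]; exact le_max_left _ _)
  have h2C : 2 ≤ C := by
    rw [hC]
    exact le_max_right _ _
  obtain ⟨δj, hδj, hjac⟩ := jac_close hK₀c hK₀i (f := fun u => (P u).1) (g := fun u => (P u).2)
    (fun u hu => analyticAt_fst.comp (hP.an u (hKN hu)))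
    (fun u hu => analyticAt_snd.comp (hP.an u (hKN hu))) hδ
  obtain ⟨δ', hδ'⟩ : ∃ δ' : ℝ, δ' = min (min δ (t / 8)) (min δj (min d (r₁ / 4))) := ⟨_, rfl⟩
  have hδ'0 : 0 < δ' := by
    rw [hδ']
    exact lt_min (lt_min hδ (by linarith)) (lt_min hδj (lt_min hd (by linarith)))
  have hδ1 : δ' ≤ δ := by rw [hδ']; exact (min_le_left _ _).trans (min_le_left _ _)
  have hδ2 : δ' ≤ t / 8 := by rw [hδ']; exact (min_le_left _ _).trans (min_le_right _ _)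
  have hδ3 : δ' ≤ δj := by rw [hδ']; exact (min_le_right _ _).trans (min_le_left _ _)
  have hδ4 : δ' ≤ d := by
    rw [hδ']
    exact (min_le_right _ _).trans ((min_le_right _ _).trans (min_le_left _ _))
  have hδ5 : δ' ≤ r₁ / 4 := by
    rw [hδ']
    exact (min_le_right _ _).trans ((min_le_right _ _).trans (min_le_right _ _))
  have hεs : ∀ᶠ n in (U : Filter ℕ), ε n < min (min (r₁ / 4) (t / 16)) (δc / (2 * C)) :=
    he0.eventually (gt_mem_nhds (lt_min (lt_min (by linarith) (by linarith)) (by positivity)))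
  filter_upwards [hQ1' δ' hδ'0, hQ2', hstep, hWeq, hK.near (1 / 2) (by norm_num), hεs] with n
    hn1 hn2 hn3 hn4 hn5 hn6
  rw [lt_min_iff, lt_min_iff] at hn6
  obtain ⟨⟨f1, f2⟩, f3⟩ := hn6
  have h0 : 0 < ε n := he n
  have f3' : ε n * C < δc := by
    rw [lt_div_iff₀ (by positivity)] at f3
    nlinarith [mul_pos h0 hC0]
  have hAn : ∀ x ∈ ball (0 : ℂ) ρ, ‖An n x‖ ≤ 2 := by
    intro x hx
    have g1 := hn5.A_cl x hx
    have g2 := hK.lim.side.near x hx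
    have g3 : An n x = (An n x - A x) + ((A x - 1) + 1) := by ring
    rw [g3]
    refine (norm_add_le _ _).trans ?_
    have g4 := norm_add_le (A x - 1) 1
    rw [norm_one] at g4
    linarith
  -- closeness of the reversed points
  have hun : ∀ u ∈ K₀, unrev (ε n) (An n) u ∈
      closedBall (0 : ℂ) (ρ * (5 / 8)) ×ˢ closedBall (-(t : ℂ)) (t * (1 / 2)) := by
    intro u hu
    rw [hK₀d] at hu
    obtain ⟨g1, g2, -⟩ := hu
    refine ⟨?_, ?_⟩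
    · show -u.1 ∈ closedBall (0 : ℂ) (ρ * (5 / 8))
      rw [mem_closedBall_zero_iff, norm_neg]
      linarith
    · show -u.2 + ε n * An n (-u.1) ∈ closedBall (-(t : ℂ)) (t * (1 / 2))
      rw [mem_closedBall_iff_norm]
      have g3 : -u.2 + ε n * An n (-u.1) - -(t : ℂ) = -(u.2 - t) + ε n * An n (-u.1) := by ring
      rw [g3]
      refine (norm_add_le _ _).trans ?_
      have g4 := hAn (-u.1) (by rw [mem_ball_zero_iff, norm_neg]; linarith)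
      rw [norm_neg, norm_mul, Complex.norm_real, Real.norm_of_nonneg h0.le]
      nlinarith
  -- one step
  have hone : ∀ u ∈ NN ℓ' 0 ρ Φ' t (r / 2), Fs ℓ' (ε n) (fun x => An n (-x)) u ∈
      NN ℓ' 0 ρ Φ' t (r / 2) → Q n u = tr (ε n) (Q n (Fs ℓ' (ε n) (fun x => An n (-x)) u)) := by
    intro u hu hu'
    obtain ⟨u', hu'd⟩ : ∃ u', u' = Fs ℓ' (ε n) (fun x => An n (-x)) u := ⟨_, rfl⟩
    rw [← hu'd] at hu' ⊢
    have k1 : u ∈ K := hK₀K (hNN hu)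
    have k2 : u' ∈ K := hK₀K (hNN hu')
    -- the states
    have w1 : sc (ε n) (An n) (lamm ℓ) (unrev (ε n) (An n) u') = unrev (ε n) (An n) u := by
      have g := Wm_unrev ℓ (ε n) (An n) u
      rw [← hℓ', ← hu'd] at g
      exact g
    have w2 := hn3 (unrev (ε n) (An n) u') (hun u' (hNN hu')) (by
      rw [w1]
      exact hun u (hNN hu))
    rw [w1] at w2
    have w3 : Q n u' ∈ cthickening d (P '' K) := by
      refine mem_cthickening_of_dist_le (Q n u') (P u') d _ (mem_image_of_mem P k2) ?_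
      rw [dist_eq_norm]
      exact ((hn1.2 u' k2).1).trans hδ4
    have w4 := hn4 (Q n u') w3
    rw [(hn1.2 u' k2).2, w2] at w4
    refine (hn2 u k1 _ ?_ w4).symm
    -- distance
    have hu1 : ‖u'.1 - u.1‖ ≤ ε n * C := by
      have g1 : u'.1 - u.1 = ε n * lam ℓ' u.2 := by
        rw [hu'd]
        simp only [Fs]
        ring
      rw [g1, norm_mul, Complex.norm_real, Real.norm_of_nonneg h0.le]
      refine mul_le_mul_of_nonneg_left (hB' _ ?_) h0.le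
      have g2 := hNN hu
      rw [hK₀d] at g2
      exact g2.2.1
    have hu2 : ‖u'.2 - u.2‖ ≤ ε n * C := by
      have g1 : u'.2 - u.2 = ε n * An n (-u'.1) := by
        rw [hu'd]
        simp only [Fs]
        ring
      rw [g1, norm_mul, Complex.norm_real, Real.norm_of_nonneg h0.le]
      refine mul_le_mul_of_nonneg_left ((hAn _ ?_).trans h2C) h0.le
      have g2 := hNN hu'
      rw [hK₀d] at g2
      rw [mem_ball_zero_iff, norm_neg]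
      have g3 := g2.1
      linarith
    have hd1 : dist u' u < δc := by
      rw [dist_eq_norm, Prod.norm_def]
      exact (max_le hu1 hu2).trans_lt f3'
    have hd2 := huc u' k2 u k1 hd1
    rw [dist_eq_norm] at hd2
    have g5 : tr (ε n : ℂ) (Q n u') - P u =
        (tr (ε n : ℂ) (Q n u') - Q n u') + ((Q n u' - P u') + (P u' - P u)) := by abel
    have g6 : ‖tr (ε n : ℂ) (Q n u') - Q n u'‖ ≤ ε n := by
      rw [Prod.norm_def]
      refine max_le ?_ ?_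
      · have : (tr (ε n : ℂ) (Q n u') - Q n u').1 = ε n := by
          show (Q n u').1 + ε n - (Q n u').1 = ε n
          ring
        rw [this, Complex.norm_real, Real.norm_of_nonneg h0.le]
      · have : (tr (ε n : ℂ) (Q n u') - Q n u').2 = 0 := by
          show (Q n u').2 - (Q n u').2 = 0
          ring
        rw [this, norm_zero]
        exact h0.le
    rw [g5]
    refine (norm_add_le _ _).trans_lt ?_
    have g7 := norm_add_le (Q n u' - P u') (P u' - P u)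
    have g8 := (hn1.2 u' k2).1
    linarith
  have hfst : ∀ u ∈ K, ‖(Q n u).1 - (P u).1‖ ≤ δ' := fun u hu =>
    (norm_fst_le (Q n u - P u)).trans (hn1.2 u hu).1
  have hsnd : ∀ u ∈ K, ‖(Q n u).2 - (P u).2‖ ≤ δ' := fun u hu =>
    (norm_snd_le (Q n u - P u)).trans (hn1.2 u hu).1
  have hpf : ∀ u ∈ K, ‖(P u).1 - (θb - t)‖ < t / 3 := by
    intro u hu
    have g := hP.fst u (hKN hu)
    rwa [neg_one_mul, ← sub_eq_add_neg] at g
  refine ⟨⟨fun u hu => analyticAt_snd.comp (hn1.1 u (hK₀K (hNN hu))), fun u hu hu' => ?_,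
    fun u hu => ?_⟩, ⟨fun u hu => analyticAt_fst.comp (hn1.1 u (hK₀K (hNN hu))),
    fun u hu hu' => ?_, fun u hu => ?_, fun u hu => ?_⟩, fun u hu => ⟨?_, ?_⟩⟩
  · show (Q n _).2 = (Q n u).2
    rw [hone u hu hu', tr_snd]
  · show ‖(Q n u).2 - _‖ ≤ δ
    have k1 : u ∈ K := hK₀K (hNN hu)
    rw [← hP.snd u (hKN k1)]
    exact (hsnd u k1).trans hδ1
  · show (Q n _).1 = (Q n u).1 - ε n
    rw [hone u hu hu', tr_fst]
    ring
  · show ‖(Q n u).1 - θb‖ ≤ 2 * t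
    have k1 : u ∈ K := hK₀K (hNN hu)
    have g1 : (Q n u).1 - θb = ((Q n u).1 - (P u).1) + (((P u).1 - (θb - t)) + -(t : ℂ)) := by
      ring
    rw [g1]
    refine (norm_add_le _ _).trans ?_
    have g2 := norm_add_le ((P u).1 - (θb - t)) (-(t : ℂ))
    rw [norm_neg, Complex.norm_real, Real.norm_of_nonneg ht.le] at g2
    have g3 := hfst u k1
    have g4 := hpf u k1
    linarith
  · have k1 : u ∈ K := hK₀K (hNN hu)
    have g1 := hjac (fun u => (Q n u).1) (fun u => (Q n u).2)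
      (fun u hu => analyticAt_fst.comp (hn1.1 u hu)) (fun u hu => analyticAt_snd.comp (hn1.1 u hu))
      (fun u hu => ⟨(hfst u hu).trans hδ3, (hsnd u hu).trans hδ3⟩) u (hNN hu)
    rw [hP.jac u (hKN k1)] at g1
    rwa [neg_neg, one_mul] at g1
  · have k1 : u ∈ K := hK₀K (hNN hu)
    have g1 : (Q n u).1 - (θb - t) = ((Q n u).1 - (P u).1) + ((P u).1 - (θb - t)) := by ring
    rw [g1]
    refine (norm_add_le _ _).trans_lt ?_
    have g3 := hfst u k1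
    have g4 := hpf u k1
    linarith
  · exact (hn1.2 u (hK₀K (hNN hu))).2

end Pool.Agent.MP_ae5b4e_an_ATK
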