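import Pool.Agent.Lib.MP_ae5b4e_an_A1.Coord
import Pool.Agent.Lib.MP_ae5b4e_an_A1.Push

/-! # ATK: exact coordinates in a chart -/

set_option autoImplicit false

noncomputable section

namespace Pool.Agent.MP_ae5b4e_an_ATK

open Complex Set Filter Topology Metric
open Pool.Agent.MP_ae5b4e_an_A1
open Pool.Agent.MP_ae5b4e_an_BX (loc_inv)

variable {U : Ultrafilter ℕ} {ε : ℕ → ℝ} {M Ω : Set (ℂ × ℂ)} {g : ℂ × ℂ → ℂ × ℂ}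
  {gn : ℕ → ℂ × ℂ → ℂ × ℂ} {z : ℂ × ℂ → ℂ × ℂ}

/-- INVERSE ALONG A CONTINUOUS MAP.

Proof. `BX.loc_inv` for `z`, `W := Ω`, `K` (`Fw.inj`): `r₀`; `r := min δ r₀`; `ρ'` (`:= ρ` of
`loc_inv`, `Z := z`, so the hypothesis `‖Z p - z p‖ ≤ δ₀` is trivial). For `u ∈ N` let `S u` be
the local inverse at `P₀ u`, `P u := S u (E u)`: `‖P u - P₀ u‖ < r ≤ δ`, `z (P u) = E u`, and `P u
∈ closedBall (P₀ u) r₀ ⊆ Ω`. Analyticity at `u`: for `u'` near `u` the point `q := S u (E u')` is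
analytic in `u'`, and `‖q - P₀ u'‖ < r` for `u'` near `u` (at `u' = u` it is `‖P u - P₀ u‖ < r`,
and both terms are continuous), `z q = E u'`; by the uniqueness in `loc_inv` at `P₀ u'` (`E u' ∈
ball (z (P₀ u')) ρ'`) `P u' = q`. -/
theorem inv_along (hz : Fw M g Ω z) {K : Set (ℂ × ℂ)} (hK : IsCompact K) (hKΩ : K ⊆ Ω) {δ : ℝ}
    (hδ : 0 < δ) : ∃ ρ' : ℝ, 0 < ρ' ∧ ∀ (N : Set (ℂ × ℂ)) (P₀ E : ℂ × ℂ → ℂ × ℂ), IsOpen N →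
      ContinuousOn P₀ N → (∀ u ∈ N, P₀ u ∈ K) → AnalyticOnNhd ℂ E N →
      (∀ u ∈ N, ‖E u - z (P₀ u)‖ < ρ') →
        ∃ P : ℂ × ℂ → ℂ × ℂ, AnalyticOnNhd ℂ P N ∧
          ∀ u ∈ N, ‖P u - P₀ u‖ < δ ∧ P u ∈ Ω ∧ z (P u) = E u := by
  obtain ⟨r₀, hr₀, hcl, H⟩ := loc_inv hz.Ω_open hz.z_an hK hKΩ fun p hp => hz.inj p (hKΩ hp)
  obtain ⟨ρ, δ₀, hρ, hδ₀, H'⟩ := H (min δ r₀) (lt_min hδ hr₀) (min_le_right _ _)
  have H'' : ∀ p : ℂ × ℂ, ∃ S : ℂ × ℂ → ℂ × ℂ, p ∈ K → AnalyticOnNhd ℂ S (ball (z p) ρ) ∧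
      ∀ w ∈ ball (z p) ρ, ‖S w - p‖ < min δ r₀ ∧ z (S w) = w ∧
        ∀ q : ℂ × ℂ, ‖q - p‖ < min δ r₀ → z q = w → q = S w := by
    intro p
    by_cases hp : p ∈ K
    · obtain ⟨S, hS⟩ := H' z hz.z_an (fun p _ => by rw [sub_self, norm_zero]; exact hδ₀.le) p hp
      exact ⟨S, fun _ => hS⟩
    · exact ⟨id, fun h => absurd h hp⟩
  choose S hS using H''
  refine ⟨ρ, hρ, fun N P₀ E hN hP₀ hPK hE hEz => ?_⟩
  have hball : ∀ u ∈ N, E u ∈ ball (z (P₀ u)) ρ := fun u hu => by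
    rw [mem_ball, dist_eq_norm]
    exact hEz u hu
  refine ⟨fun u => S (P₀ u) (E u), fun u hu => ?_, fun u hu => ?_⟩
  · obtain ⟨s1, s2⟩ := hS (P₀ u) (hPK u hu)
    have hQ : AnalyticAt ℂ (fun u' => S (P₀ u) (E u')) u :=
      (s1 _ (hball u hu)).comp (hE u hu)
    refine hQ.congr ?_
    have e1 : ∀ᶠ u' in 𝓝 u, u' ∈ N := hN.mem_nhds hu
    have e2 : ∀ᶠ u' in 𝓝 u, E u' ∈ ball (z (P₀ u)) ρ :=
      (hE u hu).continuousAt.eventually (isOpen_ball.mem_nhds (hball u hu))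
    have e3 : ∀ᶠ u' in 𝓝 u, ‖S (P₀ u) (E u') - P₀ u'‖ < min δ r₀ := by
      have hc : ContinuousAt (fun u' => ‖S (P₀ u) (E u') - P₀ u'‖) u :=
        (hQ.continuousAt.sub (hP₀.continuousAt (hN.mem_nhds hu))).norm
      exact hc.eventually_lt_const (s2 _ (hball u hu)).1
    filter_upwards [e1, e2, e3] with u' h1 h2 h3
    exact ((hS (P₀ u') (hPK u' h1)).2 _ (hball u' h1)).2.2 _ h3 (s2 _ h2).2.1
  · obtain ⟨-, s2⟩ := hS (P₀ u) (hPK u hu)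
    obtain ⟨s3, s4, -⟩ := s2 _ (hball u hu)
    refine ⟨lt_of_lt_of_le s3 (min_le_left _ _), hcl _ (hPK u hu) ?_, s4⟩
    rw [mem_closedBall, dist_eq_norm]
    exact s3.le.trans (min_le_right _ _)

end Pool.Agent.MP_ae5b4e_an_ATK
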