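import Pool.Agent.Lib.MP_ae5b4e_an_ATK.ChB

/-! # ATK: the Jacobian of the limit coordinates -/

set_option autoImplicit false

noncomputable section

namespace Pool.Agent.MP_ae5b4e_an_ATK

open Complex Set Filter Topology Metric
open Pool.Agent.MP_ae5b4e_an_NB2 (Sys)
open Pool.Agent.MP_ae5b4e_an_M (S1 C1f Gf bb)
open Pool.Agent.MP_ae5b4e_an_A1
open Pool.Agent.MP_ae5b4e_an_AT
open PorTR (Hm)

variable {U : Ultrafilter ℕ} {Zs : ℕ → Sys} {ε : ℕ → ℝ} {q κ : ℂ → ℂ} {lb ℓ : ℂ} {R ρ : ℝ}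
  {X J A Φ : ℂ → ℂ} {Xn Jn An : ℕ → ℂ → ℂ} {M Ω : Set (ℂ × ℂ)} {z : ℂ × ℂ → ℂ × ℂ}
  {θb g₀ : ℂ} {s₁ η : ℝ}

/-- general form: `Dz` injective, `Dz (1, 0) = g`, `Dz ∘ DP = T`, `T (a, b) = s • g` -/
theorem jac_core {P z E : ℂ × ℂ → ℂ × ℂ} {u : ℂ × ℂ} {a b s c G : ℂ} {g : ℂ × ℂ}
    {T Dz : ℂ × ℂ →L[ℂ] ℂ × ℂ} (hP : DifferentiableAt ℂ P u) (hzd : HasFDerivAt z Dz (P u))
    (hz1 : HasDerivAt (fun θ => z (θ, (P u).2)) g (P u).1) (hinj : Function.Injective Dz)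
    (hT : HasFDerivAt E T u) (hTv : T (a, b) = s • g) (hPz : ∀ᶠ w in 𝓝 u, z (P w) = E w)
    {Γ : ℂ × ℂ → ℂ} (hP2 : ∀ᶠ w in 𝓝 u, (P w).2 = Γ w)
    (hx : HasDerivAt (fun x => Γ (x, u.2)) (G * c * b) u.1)
    (hy : HasDerivAt (fun y => Γ (u.1, y)) (-(G * c * a)) u.2) :
    jac (fun w => (P w).1) (fun w => (P w).2) u = -s * c * G := by
  have hPd : HasFDerivAt P (fderiv ℂ P u) u := hP.hasFDerivAt
  set DP := fderiv ℂ P u with hDP
  have hcomp : HasFDerivAt (fun w => z (P w)) (Dz.comp DP) u := hzd.comp u hPd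
  have hTE : HasFDerivAt (fun w => z (P w)) T u := hT.congr_of_eventuallyEq hPz
  have hTeq : Dz.comp DP = T := hcomp.unique hTE
  have hDz1 : Dz (1, 0) = g := by
    have hc : HasDerivAt (fun θ : ℂ => (θ, (P u).2)) ((1 : ℂ), (0 : ℂ)) (P u).1 :=
      (hasDerivAt_id _).prodMk (hasDerivAt_const _ _)
    have h0 : HasDerivAt (fun θ => z (θ, (P u).2)) (Dz (1, 0)) (P u).1 :=
      HasFDerivAt.comp_hasDerivAt (f := fun θ : ℂ => (θ, (P u).2)) (P u).1 hzd hc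
    exact h0.unique hz1
  have hDPv : DP (a, b) = (s, 0) := by
    apply hinj
    have e1 : Dz (DP (a, b)) = T (a, b) := by
      rw [← hTeq]; rfl
    have e2 : Dz (s, 0) = s • g := by
      have : ((s, 0) : ℂ × ℂ) = s • (1, 0) := by simp
      rw [this, map_smul, hDz1]
    rw [e1, hTv, e2]
  have hlin : DP (a, b) = a • DP (1, 0) + b • DP (0, 1) := by
    have : ((a, b) : ℂ × ℂ) = a • (1, 0) + b • (0, 1) := by simp
    rw [this, map_add, map_smul, map_smul]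
  have h1 : a * (DP (1, 0)).1 + b * (DP (0, 1)).1 = s := by
    have := congrArg Prod.fst (hlin.symm.trans hDPv)
    simpa using this
  have hfst : fderiv ℂ (fun w => (P w).1) u = (ContinuousLinearMap.fst ℂ ℂ ℂ).comp DP :=
    hPd.fst.fderiv
  have hsnd : fderiv ℂ (fun w => (P w).2) u = (ContinuousLinearMap.snd ℂ ℂ ℂ).comp DP :=
    hPd.snd.fderiv
  have hGx : (DP (1, 0)).2 = G * c * b := by
    have hc : HasDerivAt (fun x : ℂ => (x, u.2)) ((1 : ℂ), (0 : ℂ)) u.1 :=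
      (hasDerivAt_id _).prodMk (hasDerivAt_const _ _)
    have h0 : HasDerivAt (fun x : ℂ => (P (x, u.2)).2) ((DP (1, 0)).2) u.1 := by
      have := HasFDerivAt.comp_hasDerivAt (f := fun x : ℂ => (x, u.2)) u.1 hPd.snd hc
      exact this
    have hev : (fun x : ℂ => (P (x, u.2)).2) =ᶠ[𝓝 u.1] fun x => Γ (x, u.2) := by
      have ht : Tendsto (fun x : ℂ => (x, u.2)) (𝓝 u.1) (𝓝 u) := hc.continuousAt.tendsto
      exact ht.eventually hP2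
    exact h0.unique (hx.congr_of_eventuallyEq hev)
  have hGy : (DP (0, 1)).2 = -(G * c * a) := by
    have hc : HasDerivAt (fun y : ℂ => (u.1, y)) ((0 : ℂ), (1 : ℂ)) u.2 :=
      (hasDerivAt_const _ _).prodMk (hasDerivAt_id _)
    have h0 : HasDerivAt (fun y : ℂ => (P (u.1, y)).2) ((DP (0, 1)).2) u.2 := by
      have := HasFDerivAt.comp_hasDerivAt (f := fun y : ℂ => (u.1, y)) u.2 hPd.snd hc
      exact this
    have hev : (fun y : ℂ => (P (u.1, y)).2) =ᶠ[𝓝 u.2] fun y => Γ (u.1, y) := by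
      have ht : Tendsto (fun y : ℂ => (u.1, y)) (𝓝 u.2) (𝓝 u) := hc.continuousAt.tendsto
      exact ht.eventually hP2
    exact h0.unique (hy.congr_of_eventuallyEq hev)
  unfold jac
  rw [hfst, hsnd]
  show (DP (1, 0)).1 * (DP (0, 1)).2 - (DP (0, 1)).1 * (DP (1, 0)).2 = _
  rw [hGx, hGy, ← h1]
  ring

/-- THE JACOBIAN of the coordinates.

Proof. `T := fderiv Es u` (`es_field`, uniqueness of the derivative), `v := (lam ℓ' u.2, A (s u.1))`,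
`DP := fderiv P u`. Differentiating `z ∘ P = Es` near `u`: `Dz (DP v) = T v = s • gI (Es u) = s • gI (z (P u)) =
Dz (s, 0)` (`Fw.ode` gives `Dz (1, 0) = gI (z (P u))`), so `DP v = (s, 0)` (`Fw.inj`). With `S = P.1`,
`Γ = P.2 = exp (- en)` near `u`: `S_x lam + S_z A = s`, `Γ_x = Γ e^ℓ' A (s x)` (`Φ' (s x) s = - s e^ℓ A = - e^ℓ' A`, `Side.prim`),
`Γ_z = - Γ e^ℓ' lam` (`AT.hasDerivAt_sz`). `jac = S_x Γ_z - S_z Γ_x = - Γ e^ℓ' (S_x lam + S_z A) = - s e^ℓ' Γ`. -/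
theorem jac_lim (hK : Ks U Zs ε q κ lb ℓ R ρ X J A Φ Xn Jn An) (hz : Fw M (gI q) Ω z)
    {s ℓ' : ℂ} (hs : s = 1 ∧ ℓ' = ℓ ∨ s = -1 ∧ ℓ' = ℓ - Real.pi * I) {u : ℂ × ℂ}
    (h1 : ‖u.1‖ < ρ) (h2 : u.2 ∈ slitPlane) (h3 : ‖cexp ℓ' * u.2‖ < 1) {P : ℂ × ℂ → ℂ × ℂ}
    (hP : AnalyticAt ℂ P u) (hPΩ : P u ∈ Ω) (hPz : ∀ᶠ w in 𝓝 u, z (P w) = Es κ J ℓ' s w)
    (hP2 : ∀ᶠ w in 𝓝 u, (P w).2 = cexp (-en ℓ' (fun x => Φ (s * x)) w)) :
    jac (fun w => (P w).1) (fun w => (P w).2) u =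
      -s * cexp ℓ' * cexp (-en ℓ' (fun x => Φ (s * x)) u) := by
  obtain ⟨T, hT, hTv⟩ := es_field hK hs h1 h2 h3
  have hss : s * cexp ℓ = cexp ℓ' := by
    rcases hs with ⟨rfl, rfl⟩ | ⟨rfl, rfl⟩
    · ring
    · rw [Complex.exp_sub, Complex.exp_pi_mul_I]
      ring
  have hsn : ‖s‖ = 1 := by
    rcases hs with ⟨rfl, -⟩ | ⟨rfl, -⟩ <;> simp
  have hmem : s * u.1 ∈ ball (0 : ℂ) ρ := by
    rw [mem_ball_zero_iff, norm_mul, hsn, one_mul]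
    exact h1
  have hEs : z (P u) = Es κ J ℓ' s u := hPz.self_of_nhds
  have hode : HasDerivAt (fun θ => z (θ, (P u).2)) (gI q (Es κ J ℓ' s u)) (P u).1 := by
    rw [← hEs]
    exact hz.ode (P u) hPΩ
  have hΦ : HasDerivAt (fun x => Φ (s * x)) (-(cexp ℓ * A (s * u.1)) * s) u.1 := by
    have e1 : HasDerivAt (fun x : ℂ => s * x) s u.1 := by
      simpa using (hasDerivAt_id u.1).const_mul s
    exact (hK.lim.side.prim (s * u.1) hmem).comp u.1 e1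
  have hx : HasDerivAt (fun x => cexp (-en ℓ' (fun x => Φ (s * x)) (x, u.2)))
      (cexp (-en ℓ' (fun x => Φ (s * x)) u) * cexp ℓ' * A (s * u.1)) u.1 := by
    have e1 : HasDerivAt (fun x => -(Φ (s * x) + sz ℓ' u.2)) (-(-(cexp ℓ * A (s * u.1)) * s))
        u.1 := (hΦ.add_const (sz ℓ' u.2)).neg
    have e2 := e1.cexp
    refine e2.congr_deriv ?_
    rw [← hss]
    show cexp (-(Φ (s * u.1) + sz ℓ' u.2)) * _ = cexp (-(Φ (s * u.1) + sz ℓ' u.2)) * _ * _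
    ring
  have hy : HasDerivAt (fun y => cexp (-en ℓ' (fun x => Φ (s * x)) (u.1, y)))
      (-(cexp (-en ℓ' (fun x => Φ (s * x)) u) * cexp ℓ' * lam ℓ' u.2)) u.2 := by
    have e1 : HasDerivAt (fun y => -(Φ (s * u.1) + sz ℓ' y)) (-(cexp ℓ' * lam ℓ' u.2)) u.2 :=
      ((hasDerivAt_sz h2 h3).const_add (Φ (s * u.1))).neg
    have e2 := e1.cexp
    refine e2.congr_deriv ?_
    show cexp (-(Φ (s * u.1) + sz ℓ' u.2)) * _ = -(cexp (-(Φ (s * u.1) + sz ℓ' u.2)) * _ * _)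
    ring
  exact jac_core hP.differentiableAt (hz.z_an _ hPΩ).differentiableAt.hasFDerivAt hode
    (hz.inj _ hPΩ) hT hTv hPz hP2 hx hy

end Pool.Agent.MP_ae5b4e_an_ATK
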