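import Pool.Agent.Lib.MP_ae5b4e_an_ATK.BaseC
import Pool.Agent.Lib.MP_ae5b4e_an_ATK.InvA
import Pool.Agent.Lib.MP_ae5b4e_an_ATK.JacL

/-! # ATK: the limit coordinates in the base regions -/

set_option autoImplicit false

noncomputable section

namespace Pool.Agent.MP_ae5b4e_an_ATK

open Complex Set Filter Topology Metric
open Pool.Agent.MP_ae5b4e_an_NB2 (Sys)
open Pool.Agent.MP_ae5b4e_an_M (S1 C1f Gf bb)
open Pool.Agent.MP_ae5b4e_an_A1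
open Pool.Agent.MP_ae5b4e_an_AT
open PorTR (Hm)

variable {U : Ultrafilter ℕ} {Zs : ℕ → Sys} {ε : ℕ → ℝ} {q κ : ℂ → ℂ} {lb ℓ : ℂ} {R ρ : ℝ}
  {X J A Φ : ℂ → ℂ} {Xn Jn An : ℕ → ℂ → ℂ} {M Ω : Set (ℂ × ℂ)} {z : ℂ × ℂ → ℂ × ℂ}
  {θb g₀ : ℂ} {s₁ η : ℝ}

/-- LIMIT COORDINATES IN THE BASE REGION.

Proof. `t₁` of `base_curve`, also `‖e^ℓ‖ 2 t₁ < 1`. Let `f θ' = s (Ct ..).2`; `inv_near`: `T`.
`K := {(θb + s T ζ, g₀) | ζ ∈ closedBall t (7 t / 25)}` compact, `⊆ Ω`. `inv_along` for `K` and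
`δ := min η' (t / 100)`: `ρ'`. `P₀ u := (θb + s T u.2, g₀)`. For `u ∈ N := NP ℓ' Φ' t (3 ρ / 4) (7 t / 25) r` let
`x₁ = s X (z (P₀ u)).1`: `‖x₁‖ < ρ / 8`, `en (x₁, u.2) = Φ 0` (`base_curve` at `θ' = T u.2`, `f (T u.2) = u.2`), so
`‖Φ (s u.1) - Φ (s x₁)‖ = ‖en u - Φ 0‖ < r`, `‖u.1 - x₁‖ ≤ 2 r / ‖e^ℓ‖` (`phi_bd`), and
`‖Es u - z (P₀ u)‖ = ‖Es u - Es (x₁, u.2)‖ < ρ'` for `r` small (uniform continuity of `Es` on the compact
`closedBall 0 (7 ρ / 8) × closedBall t (7 t / 25)`, `es_an`). `N` is open (`en` is continuous where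
`u.2 ∈ slitPlane`). `inv_along` gives `P` with `‖P u - P₀ u‖ < δ`; `snd` by `hH` and `gf_Es`; `fst`:
`‖s T u.2 - s t‖ < 3 t / 10`, plus `t / 100`; `jac_lim`. -/
theorem base_lim (hK : Ks U Zs ε q κ lb ℓ R ρ X J A Φ Xn Jn An) (hz : Fw M (gI q) Ω z)
    (hH : ∀ p ∈ Ω, Gf q (z p).1 (z p).2 = p.2) (hg : g₀ = cexp (-Φ 0))
    (hT : Tl κ X lb ℓ R η z θb g₀ s₁) (hΩ : ∀ θ ∈ Sl θb s₁, (θ, g₀) ∈ Ω) (hη : η ≤ ρ / 8)
    (hη1 : η * ‖cexp ℓ‖ ≤ 1 / 8) : ∃ t₁ : ℝ, 0 < t₁ ∧ t₁ ≤ s₁ / 2 ∧ ∀ t : ℝ, 0 < t → t ≤ t₁ →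
      ∀ s ℓ' : ℂ, (s = 1 ∧ ℓ' = ℓ ∨ s = -1 ∧ ℓ' = ℓ - Real.pi * I) → ∀ η' : ℝ, 0 < η' →
        ∃ (r : ℝ) (P : ℂ × ℂ → ℂ × ℂ),
          Pb κ J (fun x => Φ (s * x)) Ω z ℓ' s θb g₀ t (ρ * (3 / 4)) r η' P := by
  obtain ⟨t₀, ht₀, ht₀s, H⟩ := base_curve hK hz hH hg hT hΩ hη hη1
  have hepos : 0 < ‖cexp ℓ‖ := norm_pos_iff.2 (exp_ne_zero ℓ)
  have hρ := hK.lim.crd.ρ_pos
  refine ⟨min t₀ (1 / (4 * ‖cexp ℓ‖)), lt_min ht₀ (by positivity),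
    (min_le_left _ _).trans ht₀s, ?_⟩
  intro t ht htt s ℓ' hs η' hη'
  have ht1 : t ≤ t₀ := htt.trans (min_le_left _ _)
  have ht2 : ‖cexp ℓ‖ * t ≤ 1 / 4 := by
    have h := htt.trans (min_le_right _ _)
    rw [le_div_iff₀ (by positivity)] at h
    linarith
  obtain ⟨hd, hnear, hpt⟩ := H t ht ht1 s ℓ' hs
  obtain ⟨T, hTc, hT'⟩ := inv_near ht hd (fun θ hθ => (hnear θ hθ).2)
  have hsn : ‖s‖ = 1 := by
    rcases hs with ⟨rfl, -⟩ | ⟨rfl, -⟩ <;> simp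
  have hss : s * s = 1 := by
    rcases hs with ⟨rfl, -⟩ | ⟨rfl, -⟩ <;> ring
  have hsmul : ∀ w : ℂ, ‖s * w‖ = ‖w‖ := fun w => by rw [norm_mul, hsn, one_mul]
  have hel : ‖cexp ℓ'‖ = ‖cexp ℓ‖ := by
    rcases hs with ⟨-, rfl⟩ | ⟨-, rfl⟩
    · rfl
    · rw [exp_sub, exp_pi_mul_I, norm_div, norm_neg, norm_one, div_one]
  -- the disc of `z`-values
  have hdisc : ∀ w ∈ closedBall (t : ℂ) (t * (7 / 25)), w ∈ slitPlane ∧ ‖cexp ℓ' * w‖ < 1 := by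
    intro w hw
    rw [mem_closedBall, dist_eq_norm] at hw
    have h1 : |(w - t).re| ≤ ‖w - t‖ := abs_re_le_norm _
    rw [sub_re, ofReal_re] at h1
    have h1' := abs_le.1 h1
    have h4 : ‖w‖ ≤ ‖w - t‖ + ‖(t : ℂ)‖ := by
      calc ‖w‖ = ‖(w - t) + t‖ := by congr 1; ring
        _ ≤ _ := norm_add_le _ _
    rw [norm_real, Real.norm_of_nonneg ht.le] at h4
    refine ⟨Or.inl (by linarith), ?_⟩
    rw [norm_mul, hel]
    have h5 : ‖cexp ℓ‖ * ‖w‖ ≤ ‖cexp ℓ‖ * (t * (32 / 25)) :=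
      mul_le_mul_of_nonneg_left (by linarith) hepos.le
    linarith
  have hball : ∀ w ∈ closedBall (t : ℂ) (t * (7 / 25)), T w ∈ ball (t : ℂ) (t * (3 / 10)) :=
    fun w hw => by
      rw [mem_ball, dist_eq_norm]
      exact (hT' w hw).1
  have hcurve : ContinuousOn (fun w => ((θb + s * T w, g₀) : ℂ × ℂ))
      (closedBall (t : ℂ) (t * (7 / 25))) :=
    (continuousOn_const.add (continuousOn_const.mul hTc)).prodMk continuousOn_const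
  have hKc : IsCompact ((fun w => ((θb + s * T w, g₀) : ℂ × ℂ)) ''
      closedBall (t : ℂ) (t * (7 / 25))) :=
    (isCompact_closedBall (t : ℂ) (t * (7 / 25))).image_of_continuousOn hcurve
  have hKΩ : ((fun w => ((θb + s * T w, g₀) : ℂ × ℂ)) ''
      closedBall (t : ℂ) (t * (7 / 25))) ⊆ Ω := by
    rintro _ ⟨w, hw, rfl⟩
    exact (hnear (T w) (ball_subset_ball (by linarith) (hball w hw))).1
  obtain ⟨ρ', hρ', HI⟩ := inv_along hz hKc hKΩ (lt_min hη' (by positivity : (0:ℝ) < t / 100))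
  -- uniform continuity of `Es`
  have hCc : IsCompact (closedBall (0 : ℂ) (ρ * (7 / 8)) ×ˢ closedBall (t : ℂ) (t * (7 / 25))) :=
    (isCompact_closedBall _ _).prod (isCompact_closedBall _ _)
  have hEc : ContinuousOn (Es κ J ℓ' s)
      (closedBall (0 : ℂ) (ρ * (7 / 8)) ×ˢ closedBall (t : ℂ) (t * (7 / 25))) := by
    intro u hu
    obtain ⟨hu1, hu2⟩ := mem_prod.1 hu
    obtain ⟨h2, h3⟩ := hdisc _ hu2
    rw [mem_closedBall_zero_iff] at hu1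
    exact (es_an hK hs (by linarith) h2 h3).continuousAt.continuousWithinAt
  obtain ⟨δ₁, hδ₁, HU⟩ := Metric.uniformContinuousOn_iff.1
    (hCc.uniformContinuousOn_of_continuous hEc) ρ' hρ'
  have hr : 0 < δ₁ * ‖cexp ℓ‖ / 4 := by positivity
  set r : ℝ := δ₁ * ‖cexp ℓ‖ / 4 with hrd
  set N : Set (ℂ × ℂ) := NP ℓ' (fun x => Φ (s * x)) t (ρ * (3 / 4)) (t * (7 / 25)) r with hN
  have hNs : ∀ u ∈ N, ‖u.1‖ < ρ * (3 / 4) ∧ u.2 ∈ closedBall (t : ℂ) (t * (7 / 25)) ∧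
      ‖en ℓ' (fun x => Φ (s * x)) u - Φ 0‖ < r := by
    intro u hu
    have h3 := hu.2.2
    beta_reduce at h3
    rw [mul_zero] at h3
    refine ⟨hu.1, ?_, h3⟩
    rw [mem_closedBall, dist_eq_norm]
    exact hu.2.1.le
  -- `N` is open
  have hNo : IsOpen N := by
    have hV : IsOpen {u : ℂ × ℂ | ‖u.1‖ < ρ * (3 / 4) ∧ ‖u.2 - t‖ < t * (7 / 25)} :=
      (isOpen_lt continuous_fst.norm continuous_const).inter
        (isOpen_lt (continuous_snd.sub continuous_const).norm continuous_const)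
    have hc : ContinuousOn (en ℓ' (fun x => Φ (s * x)))
        {u : ℂ × ℂ | ‖u.1‖ < ρ * (3 / 4) ∧ ‖u.2 - t‖ < t * (7 / 25)} := by
      rintro u ⟨hu1, hu2⟩
      obtain ⟨h2, h3⟩ := hdisc u.2 (by
        rw [mem_closedBall, dist_eq_norm]
        exact hu2.le)
      have h4 : s * u.1 ∈ ball (0 : ℂ) ρ := by
        rw [mem_ball_zero_iff, hsmul]
        linarith
      have h5 : ContinuousAt (fun u : ℂ × ℂ => Φ (s * u.1)) u :=
        ContinuousAt.comp (g := Φ) (f := fun u : ℂ × ℂ => s * u.1)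
          (hK.lim.side.prim _ h4).continuousAt
          (continuousAt_const.mul continuousAt_fst)
      have h6 : ContinuousAt (fun u : ℂ × ℂ => sz ℓ' u.2) u :=
        ContinuousAt.comp (g := sz ℓ') (f := fun u : ℂ × ℂ => u.2)
          (hasDerivAt_sz h2 h3).continuousAt continuousAt_snd
      exact (h5.add h6).continuousWithinAt
    have h7 := hc.isOpen_inter_preimage hV
      (isOpen_ball (x := (fun x => Φ (s * x)) 0) (ε := r))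
    refine (congrArg IsOpen (Set.ext fun u => ?_)).mp h7
    constructor
    · rintro ⟨⟨h1, h2⟩, h3⟩
      rw [mem_preimage, mem_ball, dist_eq_norm] at h3
      exact ⟨h1, h2, h3⟩
    · rintro ⟨h1, h2, h3⟩
      refine ⟨⟨h1, h2⟩, ?_⟩
      rw [mem_preimage, mem_ball, dist_eq_norm]
      exact h3
  have hP₀ : ContinuousOn (fun u : ℂ × ℂ => ((θb + s * T u.2, g₀) : ℂ × ℂ)) N :=
    ContinuousOn.comp (g := fun w => ((θb + s * T w, g₀) : ℂ × ℂ)) (f := fun u : ℂ × ℂ => u.2)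
      hcurve continuousOn_snd fun u hu => (hNs u hu).2.1
  have hPK : ∀ u ∈ N, ((θb + s * T u.2, g₀) : ℂ × ℂ) ∈
      ((fun w => ((θb + s * T w, g₀) : ℂ × ℂ)) '' closedBall (t : ℂ) (t * (7 / 25))) :=
    fun u hu => ⟨u.2, (hNs u hu).2.1, rfl⟩
  have hEa : AnalyticOnNhd ℂ (Es κ J ℓ' s) N := by
    intro u hu
    obtain ⟨h1, h2, -⟩ := hNs u hu
    obtain ⟨h3, h4⟩ := hdisc _ h2
    exact es_an hK hs (by linarith) h3 h4
  have hEz : ∀ u ∈ N, ‖Es κ J ℓ' s u - z (θb + s * T u.2, g₀)‖ < ρ' := by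
    intro u hu
    obtain ⟨h1, h2, h3⟩ := hNs u hu
    obtain ⟨-, hf⟩ := hT' _ h2
    obtain ⟨g1, g2, g3⟩ := hpt _ (hball _ h2)
    rw [hf] at g2 g3
    rw [← g2]
    set x₁ : ℂ := s * X (z (θb + s * T u.2, g₀)).1 with hx₁
    have h4 : en ℓ' (fun x => Φ (s * x)) u - Φ 0 = Φ (s * u.1) - Φ (s * x₁) := by
      rw [← g3]
      unfold en
      ring
    rw [h4] at h3
    have h5 := (phi_bd hK.lim.side (x := s * u.1) (y := s * x₁) (by rw [hsmul]; linarith)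
      (by rw [hsmul]; linarith)).1
    rw [← mul_sub, hsmul] at h5
    have h6 : ‖u.1 - x₁‖ < δ₁ := by
      by_contra h7
      rw [not_lt] at h7
      have h8 : ‖cexp ℓ‖ / 2 * δ₁ ≤ ‖cexp ℓ‖ / 2 * ‖u.1 - x₁‖ :=
        mul_le_mul_of_nonneg_left h7 (by positivity)
      have h9 : ‖cexp ℓ‖ / 2 * δ₁ = 2 * r := by rw [hrd]; ring
      linarith
    have h10 := HU u ⟨by rw [mem_closedBall_zero_iff]; linarith, h2⟩ (x₁, u.2)
      ⟨by rw [mem_closedBall_zero_iff]; linarith, h2⟩ (by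
        rw [dist_eq_norm, Prod.norm_def, Prod.fst_sub, Prod.snd_sub, sub_self, norm_zero]
        exact max_lt h6 hδ₁)
    rw [dist_eq_norm] at h10
    exact h10
  obtain ⟨P, hPa, hP⟩ := HI N _ _ hNo hP₀ hPK hEa hEz
  have hp1 : ∀ u ∈ N, ‖P u - (θb + s * T u.2, g₀)‖ < min η' (t / 100) := fun u hu => (hP u hu).1
  have hsnd : ∀ u ∈ N, (P u).2 = cexp (-en ℓ' (fun x => Φ (s * x)) u) := by
    intro u hu
    obtain ⟨h1, h2, -⟩ := hNs u hu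
    obtain ⟨h3, h4⟩ := hdisc _ h2
    obtain ⟨-, h5, h6⟩ := hP u hu
    rw [← hH _ h5, h6]
    exact gf_Es hK hs (by linarith) h3 h4
  refine ⟨r, P, hr, hPa, fun u hu => (hP u hu).2.1, fun u hu => ?_, fun u hu => ?_,
    fun u hu => (hP u hu).2.2, hsnd, fun u hu => ?_⟩
  · have h1 := (norm_fst_le (P u - (θb + s * T u.2, g₀))).trans_lt (hp1 u hu)
    rw [Prod.fst_sub] at h1
    have h2 : ‖s * (T u.2 - t)‖ < t * (3 / 10) := by
      rw [hsmul]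
      exact (hT' _ (hNs u hu).2.1).1
    have h3 : (P u).1 - (θb + s * t) = ((P u).1 - (θb + s * T u.2)) + s * (T u.2 - t) := by ring
    have h4 := norm_add_le ((P u).1 - (θb + s * T u.2)) (s * (T u.2 - t))
    have h5 : min η' (t / 100) ≤ t / 100 := min_le_right _ _
    rw [h3]
    linarith
  · have h1 := (norm_snd_le (P u - (θb + s * T u.2, g₀))).trans_lt (hp1 u hu)
    rw [Prod.snd_sub] at h1
    exact lt_of_lt_of_le h1 (min_le_left _ _)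
  · obtain ⟨h1, h2, -⟩ := hNs u hu
    obtain ⟨h3, h4⟩ := hdisc _ h2
    refine jac_lim hK hz hs (by linarith) h3 h4 (hPa u hu) (hP u hu).2.1 ?_ ?_
    · filter_upwards [hNo.mem_nhds hu] with w hw
      exact (hP w hw).2.2
    · filter_upwards [hNo.mem_nhds hu] with w hw
      exact hsnd w hw

/-- `Pb` is antitone in `r` -/
theorem Pb.mono {Φ' : ℂ → ℂ} {s ℓ' : ℂ} {t a r r' η' : ℝ} {P : ℂ × ℂ → ℂ × ℂ}
    (h : Pb κ J Φ' Ω z ℓ' s θb g₀ t a r η' P) (h0 : 0 < r') (hr : r' ≤ r) :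
    Pb κ J Φ' Ω z ℓ' s θb g₀ t a r' η' P := by
  have hsub : NP ℓ' Φ' t a (t * (7 / 25)) r' ⊆ NP ℓ' Φ' t a (t * (7 / 25)) r := fun u hu =>
    ⟨hu.1, hu.2.1, hu.2.2.trans_le hr⟩
  exact ⟨h0, h.an.mono hsub, fun u hu => h.mem u (hsub hu), fun u hu => h.fst u (hsub hu),
    fun u hu => h.snd_near u (hsub hu), fun u hu => h.eq u (hsub hu),
    fun u hu => h.snd u (hsub hu), fun u hu => h.jac u (hsub hu)⟩

end Pool.Agent.MP_ae5b4e_an_ATK
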