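import Pool.Agent.Lib.MP_ae5b4e_an_ATK.Defs
import Pool.Agent.Lib.MP_ae5b4e_an_AT.Elem

/-! # ATK: the three branches -/

set_option autoImplicit false

noncomputable section

namespace Pool.Agent.MP_ae5b4e_an_ATK

open Complex Set Filter Topology Metric
open Pool.Agent.MP_ae5b4e_an_AT

private theorem Br_open (ℓ c : ℂ) :
    IsOpen {z : ℂ | c * z ∈ slitPlane ∧ ‖cexp ℓ * z‖ < 1} :=
  (isOpen_slitPlane.preimage (by fun_prop : Continuous fun z : ℂ => c * z)).inter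
    (isOpen_lt (by fun_prop : Continuous fun z : ℂ => ‖cexp ℓ * z‖) continuous_const)

private theorem Br_ne {ℓ z : ℂ} (h1 : ‖cexp ℓ * z‖ < 1) : 1 + cexp ℓ * z ≠ 0 :=
  slitPlane_ne_zero (mem_slitPlane_of_norm_lt_one h1)

private theorem Br_exp (ℓ z : ℂ) : cexp (ℓ - Real.pi * I) * -z = cexp ℓ * z := by
  rw [exp_sub, exp_pi_mul_I]
  ring

private theorem Br_div {p : ℂ} (hp : p ≠ 0) : (1 + p) / p = 1 + 1 / p := by
  rw [add_div, div_self hp, add_comm]

/-- Proof. `AT.hasDerivAt_lam`, `AT.exp_lam` (`1 + p ≠ 0` since `‖p‖ < 1`). -/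
theorem br_right (ℓ : ℂ) : Br ℓ {z | z ∈ slitPlane ∧ ‖cexp ℓ * z‖ < 1} (lam ℓ) := by
  refine ⟨?_, ?_, ?_, ?_⟩
  · have h := Br_open ℓ 1
    simpa only [one_mul] using h
  · exact fun z hz => (hasDerivAt_lam hz.1 hz.2).differentiableAt.differentiableWithinAt
  · exact fun z hz => slitPlane_ne_zero hz.1
  · intro z hz
    have hz0 := slitPlane_ne_zero hz.1
    rw [exp_lam hz0 (Br_ne hz.2), Br_div (mul_ne_zero (exp_ne_zero _) hz0)]

/-- Proof. The same for `ℓ - π i` and `-z` (`AT` file Rev: `exp (ℓ - π i) = - exp ℓ`). -/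
theorem br_left (ℓ : ℂ) : Br ℓ {z | -z ∈ slitPlane ∧ ‖cexp ℓ * z‖ < 1} (lamm ℓ) := by
  have hn : ∀ z ∈ {z : ℂ | -z ∈ slitPlane ∧ ‖cexp ℓ * z‖ < 1},
      ‖cexp (ℓ - Real.pi * I) * -z‖ < 1 := fun z hz => by
    rw [Br_exp]
    exact hz.2
  refine ⟨?_, ?_, ?_, ?_⟩
  · have h := Br_open ℓ (-1)
    simpa only [neg_mul, one_mul] using h
  · intro z hz
    have h1 := (hasDerivAt_lam (ℓ := ℓ - Real.pi * I) hz.1 (hn z hz)).differentiableAt
    exact (DifferentiableAt.comp (f := fun z : ℂ => -z) z h1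
      differentiableAt_id.neg).differentiableWithinAt
  · exact fun z hz => neg_ne_zero.1 (slitPlane_ne_zero hz.1)
  · intro z hz
    have hz0 := slitPlane_ne_zero hz.1
    have h2 := exp_lam (ℓ := ℓ - Real.pi * I) hz0 (Br_ne (hn z hz))
    rw [Br_exp] at h2
    show cexp (lam (ℓ - Real.pi * I) (-z)) = _
    rw [h2, Br_div (mul_ne_zero (exp_ne_zero _) (neg_ne_zero.1 hz0))]

/-- Proof. `laml ℓ z = log (1 + e^ℓ z) - ℓ - (log (i z) - π/2 i)`. -/
theorem br_low (ℓ : ℂ) : Br ℓ {z | I * z ∈ slitPlane ∧ ‖cexp ℓ * z‖ < 1} (laml ℓ) := by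
  have hne : ∀ z ∈ {z : ℂ | I * z ∈ slitPlane ∧ ‖cexp ℓ * z‖ < 1}, z ≠ 0 := fun z hz h => by
    have h1 := slitPlane_ne_zero hz.1
    rw [h, mul_zero] at h1
    exact h1 rfl
  refine ⟨Br_open ℓ I, ?_, hne, ?_⟩
  · intro z hz
    have h1 : DifferentiableAt ℂ (fun z : ℂ => log (1 + cexp ℓ * z)) z :=
      DifferentiableAt.clog (by fun_prop) (mem_slitPlane_of_norm_lt_one hz.2)
    have h2 : DifferentiableAt ℂ (fun z : ℂ => log (I * z)) z :=
      DifferentiableAt.clog (by fun_prop) hz.1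
    exact ((h1.sub_const ℓ).sub (h2.sub_const (Real.pi / 2 * I))).differentiableWithinAt
  · intro z hz
    have hz0 := hne z hz
    have h3 : cexp ((Real.pi : ℂ) / 2 * I) = I := exp_pi_div_two_mul_I
    unfold laml
    rw [exp_sub, exp_sub, exp_sub, exp_log (Br_ne hz.2), exp_log (mul_ne_zero I_ne_zero hz0), h3,
      mul_div_cancel_left₀ _ I_ne_zero, div_div, Br_div (mul_ne_zero (exp_ne_zero _) hz0)]

/-- Proof. Closed and bounded. -/
theorem low_compact (κ₀ b : ℝ) : IsCompact {z : ℂ | z.im ≤ |z.re| ∧ κ₀ ≤ ‖z‖ ∧ ‖z‖ ≤ b} := by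
  refine Metric.isCompact_of_isClosed_isBounded ?_ ?_
  · exact (isClosed_le continuous_im continuous_re.abs).inter
      ((isClosed_le continuous_const continuous_norm).inter
        (isClosed_le continuous_norm continuous_const))
  · rw [isBounded_iff_forall_norm_le]
    exact ⟨b, fun z hz => hz.2.2⟩

/-- Proof. `i z = - Im z + i Re z` is in the slit plane if `Re z ≠ 0` or `Im z < 0`; if `Re z = 0` then
`Im z ≤ 0`, and `z ≠ 0`. -/
theorem low_sub {ℓ : ℂ} {κ₀ b : ℝ} (hκ : 0 < κ₀) (hb : ‖cexp ℓ‖ * b < 1) :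
    {z : ℂ | z.im ≤ |z.re| ∧ κ₀ ≤ ‖z‖ ∧ ‖z‖ ≤ b} ⊆
      {z | I * z ∈ slitPlane ∧ ‖cexp ℓ * z‖ < 1} := by
  rintro z ⟨h1, h2, h3⟩
  have hz : z ≠ 0 := by
    rintro rfl
    rw [norm_zero] at h2
    linarith
  constructor
  · rw [mem_slitPlane_iff, I_mul_re, I_mul_im]
    by_cases h : z.re = 0
    · left
      rw [h, abs_zero] at h1
      have h4 : z.im ≠ 0 := fun h5 => hz (Complex.ext h h5)
      have h5 := lt_of_le_of_ne h1 h4
      linarith
    · exact Or.inr h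
  · rw [norm_mul]
    exact lt_of_le_of_lt (mul_le_mul_of_nonneg_left h3 (norm_nonneg _)) hb

end Pool.Agent.MP_ae5b4e_an_ATK
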