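import Pool.Agent.Lib.MP_ae5b4e_an_ATK.EnC
import Pool.Agent.Lib.MP_ae5b4e_an_K1.Top

/-! # ATK: the steps of the chart points -/

set_option autoImplicit false

noncomputable section

namespace Pool.Agent.MP_ae5b4e_an_ATK

open Complex Set Filter Topology Metric
open Pool.Agent.MP_ae5b4e_an_NB2 (Sys)
open Pool.Agent.MP_ae5b4e_an_A1
open Pool.Agent.MP_ae5b4e_an_MT (Stp GG)
open PorTR (Hm)

variable {U : Ultrafilter ℕ} {Zs : ℕ → Sys} {ε : ℕ → ℝ} {q κ : ℂ → ℂ} {lb ℓ : ℂ} {R ρ : ℝ}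
  {X J A Φ : ℂ → ℂ} {Xn Jn An : ℕ → ℂ → ℂ} {D : Set ℂ} {Lb : ℂ → ℂ}

/-- THE STEPS OF THE CHART ARE THE STEPS OF THE STATES.

Proof. Write `h = ε n`, `u = (x, ζ) ∈ K`, `x⁺ = x + h Lb ζ`, `ζ⁺ = ζ + h An x⁺`, `x⁺⁺ = x⁺ + h Lb ζ⁺`; for almost all
`n` all `x`'s are in `ball 0 ρ` (`K` compact, `Lb` bounded on the projection of `K`), and
`(x⁺, ζ⁺) = sc .. u ∈ K`. `l = Jn x`, `l⁺ = Jn x⁺`, `l⁺⁺ = Jn x⁺⁺` are in `ball lb R` (`Crd.E_mem`),
`Xn l = x` etc. (`Crd.X_E`). `exp ((Xn l⁺⁺ - Xn l⁺) / h) = exp (Lb ζ⁺) = 1 + 1/(e^ℓ ζ⁺) ≠ 1`, the same for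
`(Xn l⁺ - Xn l) / h = Lb ζ`; so `e^(-ℓ) / (exp (..) - 1) = ζ⁺` resp. `= ζ`, and `ζ⁺ = ζ + h An (Xn l⁺)`:
`Fr.node_iff` gives `(Zs n).node l⁺ l⁺⁺ l`. The states `s = En .. u = (l, α)`, `α = (l⁺ - l) / h`,
`α' = (l⁺⁺ - l⁺) / h`. `XI` for a box `GG d R' A'` containing `Em .. '' K` with margin (compact, first
component in `Hm`): `Stp`; `s ∈ GG` (`en_conv`). `‖α' - α‖ ≤ r` for almost all `n`: both are within `r/4`
of the second components of `Em` at `(x⁺, ζ⁺)`, `(x, ζ)`, which differ by `≤ r/4` (uniform continuity of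
`Em` on `K`, `‖sc u - u‖ ≤ C h`). `Stp.uniq`: `ξ n s = α'`. So `stp h (gx ε ξ n) s = (l + h α, ξ n s) =
(l⁺, α') = En .. (sc .. u)`. -/
theorem en_step (hK : Ks U Zs ε q κ lb ℓ R ρ X J A Φ Xn Jn An) (he : ∀ n, 0 < ε n)
    (he0 : Tendsto ε U (𝓝 0)) {ξ : ℕ → ℂ × ℂ → ℂ} (hξ : XI U Zs ε ξ) (hD : Br ℓ D Lb)
    {K : Set (ℂ × ℂ)} (hKc : IsCompact K) (hKD : K ⊆ ball 0 ρ ×ˢ D) :
    ∀ᶠ n in (U : Filter ℕ), ∀ u ∈ K, sc (ε n) (An n) Lb u ∈ K →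
      stp (ε n) (gx ε ξ n) (En (ε n) (Jn n) Lb u) =
        En (ε n) (Jn n) Lb (sc (ε n) (An n) Lb u) := by
  rcases K.eq_empty_or_nonempty with hKe | hKn
  · refine Eventually.of_forall fun n u hu => ?_
    rw [hKe] at hu
    exact absurd hu (notMem_empty u)
  have hcrd := hK.lim.crd
  have hJc : ContinuousOn (fun u : ℂ × ℂ => J u.1) K :=
    hcrd.E_an.continuousOn.comp continuous_fst.continuousOn fun u hu => (hKD hu).1
  have hJm : ∀ u ∈ K, J u.1 ∈ ball lb R := fun u hu =>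
    ball_subset_ball (half_le_self hcrd.R₁_pos.le) (hcrd.E_mem _ (hKD hu).1)
  have hκc : ContinuousOn (fun u : ℂ × ℂ => κ (J u.1)) K :=
    hK.κ_an.continuousOn.comp hJc hJm
  have hκ0 : ∀ u ∈ K, 2 * I * κ (J u.1) ≠ 0 := fun u hu =>
    mul_ne_zero (mul_ne_zero two_ne_zero I_ne_zero) (hK.lim.κ_ne _ (hJm u hu))
  have hLc : ContinuousOn (fun u : ℂ × ℂ => Lb u.2) K :=
    hD.an.continuousOn.comp continuous_snd.continuousOn fun u hu => (hKD hu).2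
  have hEc : ContinuousOn (Em κ J Lb) K :=
    hJc.prodMk (hLc.div (continuousOn_const.mul hκc) hκ0)
  obtain ⟨M, hM⟩ := hKc.exists_bound_of_continuousOn hEc
  obtain ⟨B, hB⟩ := hKc.exists_bound_of_continuousOn hLc
  obtain ⟨u0, hu0, hmax⟩ := hKc.exists_isMaxOn hKn (continuous_im.comp_continuousOn hJc)
  obtain ⟨u1, hu1, hmax1⟩ := hKc.exists_isMaxOn hKn (f := fun u : ℂ × ℂ => ‖u.1‖) (by fun_prop)
  have hB0 : 0 ≤ B := (norm_nonneg _).trans (hB u0 hu0)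
  have hM0 : 0 ≤ M := (norm_nonneg _).trans (hM u0 hu0)
  obtain ⟨d, hd0, hd⟩ : ∃ d : ℝ, 0 < d ∧ ∀ u ∈ K, (J u.1).im ≤ -(2 * d) := by
    refine ⟨-(J u0.1).im / 2, ?_, fun u hu => ?_⟩
    · have := hK.low _ (hJm u0 hu0)
      linarith
    · have h1 : (J u.1).im ≤ (J u0.1).im := hmax hu
      linarith
  obtain ⟨ρ', hρ', hρ⟩ : ∃ ρ' : ℝ, ρ' < ρ ∧ ∀ u ∈ K, ‖u.1‖ ≤ ρ' := by
    refine ⟨‖u1.1‖, ?_, fun u hu => hmax1 hu⟩
    have := (hKD hu1).1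
    rwa [mem_ball_zero_iff] at this
  obtain ⟨r, C, hr, hC, hStp⟩ := hξ d (M + 1) (M + 1) hd0
  obtain ⟨η, hη, hη'⟩ := Metric.uniformContinuousOn_iff.1
    (hKc.uniformContinuousOn_of_continuous hEc) (r / 4) (by linarith)
  obtain ⟨δ, hδ, hδ1, hδ2, hδ3⟩ : ∃ δ : ℝ, 0 < δ ∧ δ < d ∧ δ < 1 ∧ δ ≤ r / 4 := by
    refine ⟨min (d / 2) (min (1 / 2) (r / 4)), by positivity, ?_, ?_, ?_⟩
    · exact (min_le_left _ _).trans_lt (by linarith)
    · exact ((min_le_right _ _).trans (min_le_left _ _)).trans_lt (by norm_num)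
    · exact (min_le_right _ _).trans (min_le_right _ _)
  obtain ⟨c, hc, hc1, hc2⟩ : ∃ c : ℝ, 0 < c ∧ c ≤ ρ - ρ' ∧ c ≤ η :=
    ⟨min (ρ - ρ') η, lt_min (by linarith) hη, min_le_left _ _, min_le_right _ _⟩
  have hsm : ∀ᶠ n in (U : Filter ℕ), ε n * (B + 3) < c := by
    have h1 : Tendsto (fun n => ε n * (B + 3)) U (𝓝 0) := by
      have h2 := he0.mul_const (B + 3)
      rwa [zero_mul] at h2
    exact h1.eventually (gt_mem_nhds hc)
  filter_upwards [hK.fr, hK.near 1 one_pos, hStp, (en_conv hK he he0 hD hKc hKD).2 δ hδ, hsm]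
    with n hfr hnear hst hcv hsmall
  intro u hu hsu
  obtain ⟨hOn, a, b, a', b', hFr⟩ := hfr
  have hn := he n
  have hnc : (ε n : ℂ) ≠ 0 := by exact_mod_cast hn.ne'
  obtain ⟨h, hh⟩ : ∃ h : ℝ, h = ε n := ⟨_, rfl⟩
  rw [← hh] at hn hnc hFr hst hcv hsmall ⊢
  -- points
  obtain ⟨x, ζ⟩ := u
  obtain ⟨x', hx'⟩ : ∃ x' : ℂ, x' = x + h * Lb ζ := ⟨_, rfl⟩
  obtain ⟨ζ', hζ'⟩ : ∃ ζ' : ℂ, ζ' = ζ + h * An n x' := ⟨_, rfl⟩
  have hsc : sc h (An n) Lb (x, ζ) = (x', ζ') := by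
    rw [hζ', hx']
    rfl
  rw [← hh] at hsu
  rw [hsc] at hsu ⊢
  obtain ⟨x'', hx''⟩ : ∃ x'' : ℂ, x'' = x' + h * Lb ζ' := ⟨_, rfl⟩
  have hxb : x ∈ ball (0:ℂ) ρ := (hKD hu).1
  have hxb' : x' ∈ ball (0:ℂ) ρ := (hKD hsu).1
  have hζ0 : ζ ≠ 0 := hD.ne _ (hKD hu).2
  have hζ0' : ζ' ≠ 0 := hD.ne _ (hKD hsu).2
  have hLζ : ‖Lb ζ‖ ≤ B := hB _ hu
  have hLζ' : ‖Lb ζ'‖ ≤ B := hB _ hsu
  have hnh : ‖(h : ℂ)‖ = h := by
    rw [norm_real, Real.norm_eq_abs, abs_of_pos hn]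
  have hhB : h * B ≤ h * (B + 3) := mul_le_mul_of_nonneg_left (by linarith) hn.le
  have hxb'' : x'' ∈ ball (0:ℂ) ρ := by
    rw [mem_ball_zero_iff, hx'']
    have h1 : ‖x'‖ ≤ ρ' := hρ _ hsu
    have h2 : ‖(h : ℂ) * Lb ζ'‖ ≤ h * B := by
      rw [norm_mul, hnh]
      exact mul_le_mul_of_nonneg_left hLζ' hn.le
    have h3 := norm_add_le x' ((h : ℂ) * Lb ζ')
    linarith
  have hmem : ∀ y ∈ ball (0:ℂ) ρ, Jn n y ∈ ball lb R := fun y hy =>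
    ball_subset_ball (half_le_self hcrd.R₁_pos.le) (hFr.crd.E_mem _ hy)
  have hXx := hFr.crd.X_E x hxb
  have hXx' := hFr.crd.X_E x' hxb'
  have hXx'' := hFr.crd.X_E x'' hxb''
  have e1 : (Xn n (Jn n x') - Xn n (Jn n x)) / h = Lb ζ := by
    rw [hXx, hXx', hx']
    field_simp
    ring
  have e2 : (Xn n (Jn n x'') - Xn n (Jn n x')) / h = Lb ζ' := by
    rw [hXx', hXx'', hx'']
    field_simp
    ring
  have hexp : ∀ y : ℂ, y ≠ 0 → (1 + 1 / (cexp ℓ * y) ≠ 1 ∧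
      cexp (-ℓ) / (1 + 1 / (cexp ℓ * y) - 1) = y) := by
    intro y hy
    have h1 : cexp ℓ ≠ 0 := exp_ne_zero ℓ
    constructor
    · intro h2
      have h3 : 1 / (cexp ℓ * y) = 0 := by linear_combination h2
      exact one_div_ne_zero (mul_ne_zero h1 hy) h3
    · rw [add_sub_cancel_left, Complex.exp_neg]
      field_simp
  have k1 := hD.eq ζ (hKD hu).2
  have k2 := hD.eq ζ' (hKD hsu).2
  have hnode : (Zs n).node (Jn n x') (Jn n x'') (Jn n x) := by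
    rw [hFr.node_iff hOn (Subset.refl _) (hmem _ hxb') (hmem _ hxb'') (hmem _ hxb)
      (by rw [hXx']; exact hxb') (by rw [e2, k2]; exact (hexp ζ' hζ0').1)
      (by rw [e1, k1]; exact (hexp ζ hζ0).1)]
    rw [e1, e2, k1, k2, (hexp ζ hζ0).2, (hexp ζ' hζ0').2, hXx', hζ']
  -- the states
  obtain ⟨α, hα⟩ : ∃ α : ℂ, α = (Jn n x' - Jn n x) / h := ⟨_, rfl⟩
  obtain ⟨α', hα'⟩ : ∃ α' : ℂ, α' = (Jn n x'' - Jn n x') / h := ⟨_, rfl⟩
  have hEn : En h (Jn n) Lb (x, ζ) = (Jn n x, α) := by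
    rw [hα, hx']
    rfl
  have hEn' : En h (Jn n) Lb (x', ζ') = (Jn n x', α') := by
    rw [hα', hx'']
    rfl
  have hcv1 := hcv _ hu
  have hcv2 := hcv _ hsu
  rw [hEn] at hcv1 ⊢
  rw [hEn'] at hcv2 ⊢
  have f1 : Jn n x + h * α = Jn n x' := by
    rw [hα]
    field_simp
    ring
  have f2 : Jn n x' + h * α' = Jn n x'' := by
    rw [hα']
    field_simp
    ring
  have hGG : ((Jn n x, α) : ℂ × ℂ) ∈ GG d (M + 1) (M + 1) := by
    have h1 := hM _ hu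
    have h2 : ‖((Jn n x, α) : ℂ × ℂ)‖ < M + 1 := by
      have := norm_le_norm_add_norm_sub' ((Jn n x, α) : ℂ × ℂ) (Em κ J Lb (x, ζ))
      linarith
    refine ⟨?_, (norm_fst_le _).trans_lt h2, (norm_snd_le _).trans_lt h2⟩
    have h3 := hd _ hu
    have h4 := (norm_fst_le _).trans hcv1
    have h5 := (abs_le.1 ((abs_im_le_norm _).trans h4)).2
    have h6 : (Jn n x).im - (J x).im ≤ δ := h5
    simp only at h3 ⊢
    linarith
  have hdist : dist (Em κ J Lb (x', ζ')) (Em κ J Lb (x, ζ)) < r / 4 := by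
    refine hη' _ hsu _ hu ?_
    have hA1 : ‖An n x'‖ ≤ 3 := by
      have h1 := hnear.A_cl x' hxb'
      have h2 := hK.lim.side.near x' hxb'
      have h3 : ‖A x'‖ ≤ 1 + 1 / 128 := by
        have := norm_le_norm_add_norm_sub' (A x') 1
        rw [norm_one] at this
        linarith
      have h4 := norm_le_norm_add_norm_sub' (An n x') (A x')
      linarith
    have h1 : ‖x' - x‖ < η := by
      rw [hx', add_sub_cancel_left, norm_mul, hnh]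
      have := mul_le_mul_of_nonneg_left hLζ hn.le
      linarith
    have h2 : ‖ζ' - ζ‖ < η := by
      rw [hζ', add_sub_cancel_left, norm_mul, hnh]
      have := mul_le_mul_of_nonneg_left (hA1.trans (by linarith : (3:ℝ) ≤ B + 3)) hn.le
      linarith
    rw [Prod.dist_eq]
    refine max_lt ?_ ?_
    · rw [dist_eq_norm]
      exact h1
    · rw [dist_eq_norm]
      exact h2
  have hαα : ‖α' - α‖ ≤ r := by
    rw [dist_eq_norm] at hdist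
    have h1 := (norm_snd_le _).trans hcv1
    have h2 := (norm_snd_le _).trans hcv2
    have h3 := (norm_snd_le _).trans hdist.le
    have h4 : α' - α = ((((Jn n x', α') : ℂ × ℂ) - Em κ J Lb (x', ζ')).2 +
        (Em κ J Lb (x', ζ') - Em κ J Lb (x, ζ)).2) -
        (((Jn n x, α) : ℂ × ℂ) - Em κ J Lb (x, ζ)).2 := by
      simp only [Prod.snd_sub]
      ring
    rw [h4]
    refine (norm_sub_le _ _).trans ?_
    have h5 := norm_add_le ((((Jn n x', α') : ℂ × ℂ) - Em κ J Lb (x', ζ')).2)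
      ((Em κ J Lb (x', ζ') - Em κ J Lb (x, ζ)).2)
    linarith
  have huniq := hst.uniq _ hGG α' hαα (by
    simp only
    rw [f1, f2]
    exact hnode)
  unfold stp gx
  refine Prod.ext ?_ ?_
  · simp only [Prod.fst_add, Prod.smul_fst, smul_eq_mul]
    exact f1
  · simp only [Prod.snd_add, Prod.smul_snd, smul_eq_mul]
    rw [← huniq, ← hh]
    field_simp
    ring

end Pool.Agent.MP_ae5b4e_an_ATK
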