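import Pool.Agent.Lib.MP_ae5b4e_an_ATK.InvA
import Pool.Agent.Lib.MP_ae5b4e_an_A1.Coord
import Pool.Agent.Lib.MP_ae5b4e_an_A1.Push

/-! # ATK: exact coordinates in a chart -/

set_option autoImplicit false

noncomputable section

namespace Pool.Agent.MP_ae5b4e_an_ATK

open Complex Set Filter Topology Metric
open Pool.Agent.MP_ae5b4e_an_A1
open Pool.Agent.MP_ae5b4e_an_BX (loc_inv)

variable {U : Ultrafilter ℕ} {ε : ℕ → ℝ} {M Ω : Set (ℂ × ℂ)} {g : ℂ × ℂ → ℂ × ℂ}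
  {gn : ℕ → ℂ × ℂ → ℂ × ℂ} {z : ℂ × ℂ → ℂ × ℂ}

private theorem InvX_sub (a b : ℂ) (p : ℂ × ℂ) : ‖tr a p - tr b p‖ = ‖a - b‖ := by
  have h : tr a p - tr b p = (a - b, 0) := by
    ext <;> simp [tr]
  rw [h, Prod.norm_mk, norm_zero, max_eq_left (norm_nonneg _)]

private theorem InvX_shift (m : ℂ) (a b : ℂ × ℂ) : ‖tr (-m) a - b‖ = ‖a - tr m b‖ := by
  have h : b = tr (-m) (tr m b) := by
    rw [tr_tr, neg_add_cancel, tr_zero]
  conv_lhs => rw [h, tr_sub]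

/-- EXACT COORDINATES IN A CHART. `En n → E` are maps from a chart region `N` to the states,
`z (P u) = E u`; the states `En n u` are moved forward by `m n = ⌊t / ε n⌋₊` steps into the image of
the exact family `Z n`.

Proof. `K' := cthickening d K ⊆ N` compact. `P '' K'` is a compact subset of `Ω`;
`K₁ := tr t '' (P '' K') ⊆ O` compact; `K₂ := cthickening d₁ K₁ ⊆ O` compact. `loc_inv` for `z`,
`W := interior K₂`, `K₁' := cthickening (d₁ / 2) K₁`: `r₀`; `r := r₀` (also `≤ d₁ / 4`): `ρ₁, δ₀`. `iter_close` for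
the compact `P '' K'` and `t`: for almost all `n`, `u ∈ K'`: `‖(stp)^[m] (En n u) - z (tr (m ε) (P u))‖ ≤ δ₁`
and `(stp)^[m]` is analytic at `En n u` (`‖En n u - z (P u)‖ ≤ κ` for almost all `n`). So for
`u ∈ K'` the point `w := (stp)^[m] (En n u)` is in `ball (z (tr (m ε) (P u))) ρ₁`, with centre
`tr (m ε) (P u) ∈ K₁'`; `Q n u := tr (- m ε) (S w)`, `S` the local inverse at this centre: uniqueness
within the radius `r`. For every `r' < r` the same with `r'` in place of `r` (its `ρ', δ₀'`) gives a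
solution within `r'`, the same by uniqueness: `‖Q n u - P u‖ ≤ r'` for almost all `n`. Analyticity at
`u ∈ K`: as in `inv_along` (the local inverse at the centre of `u` also gives `Q n u'` for `u'` near
`u`, `P` is continuous, and `‖Q n u - P u‖ < r / 2`). -/
theorem inv_coord (hV : VF U ε M g gn) (hz : Fw M g Ω z) {O : Set (ℂ × ℂ)} (hO : IsOpen O)
    (hOΩ : O ⊆ Ω) {Z : ℕ → ℂ × ℂ → ℂ × ℂ} (hZ : Ex U ε gn O z Z) {t : ℝ} (ht : 0 ≤ t)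
    {N K : Set (ℂ × ℂ)} (hN : IsOpen N) (hK : IsCompact K) (hKN : K ⊆ N)
    {E P : ℂ × ℂ → ℂ × ℂ} {En : ℕ → ℂ × ℂ → ℂ × ℂ} (hP : ContinuousOn P N)
    (hPz : ∀ u ∈ N, z (P u) = E u)
    (hPO : ∀ u ∈ N, tr (t : ℂ) (P u) ∈ O ∧ ∀ s ∈ Icc 0 t, tr (s : ℂ) (P u) ∈ Ω)
    (hEn : ∀ K' ⊆ N, IsCompact K' → ∀ᶠ n in (U : Filter ℕ), AnalyticOnNhd ℂ (En n) K')
    (hE : ∀ K' ⊆ N, IsCompact K' → ∀ δ : ℝ, 0 < δ →
      ∀ᶠ n in (U : Filter ℕ), ∀ u ∈ K', ‖En n u - E u‖ ≤ δ) :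
    ∃ r : ℝ, 0 < r ∧ ∃ Q : ℕ → ℂ × ℂ → ℂ × ℂ,
      (∀ δ : ℝ, 0 < δ → ∀ᶠ n in (U : Filter ℕ), AnalyticOnNhd ℂ (Q n) K ∧ ∀ u ∈ K,
        ‖Q n u - P u‖ ≤ δ ∧ Z n (tr ((⌊t / ε n⌋₊ * ε n : ℝ) : ℂ) (Q n u)) =
          (stp (ε n) (gn n))^[⌊t / ε n⌋₊] (En n u)) ∧
      ∀ᶠ n in (U : Filter ℕ), ∀ u ∈ K, ∀ p : ℂ × ℂ, ‖p - P u‖ < r →
        Z n (tr ((⌊t / ε n⌋₊ * ε n : ℝ) : ℂ) p) = (stp (ε n) (gn n))^[⌊t / ε n⌋₊] (En n u) →
          p = Q n u := by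
  have hm : ∀ n, (⌊t / ε n⌋₊ : ℝ) * ε n ≤ t := by
    intro n
    have h0 := hV.ε_pos n
    have h1 : (⌊t / ε n⌋₊ : ℝ) ≤ t / ε n := Nat.floor_le (div_nonneg ht h0.le)
    exact (le_div_iff₀ h0).1 h1
  have hm2 : ∀ n, t ≤ (⌊t / ε n⌋₊ : ℝ) * ε n + ε n := by
    intro n
    have h0 := hV.ε_pos n
    have h1 : t / ε n < (⌊t / ε n⌋₊ : ℝ) + 1 := Nat.lt_floor_add_one _
    have h2 := (div_lt_iff₀ h0).1 h1
    linarith
  -- compact sets
  obtain ⟨d, hd, hdN⟩ := hK.exists_cthickening_subset_open hN hKN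
  have hK'c : IsCompact (cthickening d K) := hK.cthickening
  have hPKc : IsCompact (P '' cthickening d K) := hK'c.image_of_continuousOn (hP.mono hdN)
  have hPKΩ : ∀ p ∈ P '' cthickening d K, ∀ s ∈ Icc 0 t, tr (s : ℂ) p ∈ Ω := by
    rintro _ ⟨u, hu, rfl⟩ s hs
    exact (hPO u (hdN hu)).2 s hs
  obtain ⟨K₁, hK₁⟩ : ∃ K₁ : Set (ℂ × ℂ), K₁ = tr (t : ℂ) '' (P '' cthickening d K) := ⟨_, rfl⟩
  have hK1c : IsCompact K₁ := by
    rw [hK₁]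
    exact hPKc.image (continuous_tr _)
  have hK1O : K₁ ⊆ O := by
    rw [hK₁]
    rintro _ ⟨_, ⟨u, hu, rfl⟩, rfl⟩
    exact (hPO u (hdN hu)).1
  obtain ⟨d₁, hd₁, hd₁O⟩ := hK1c.exists_cthickening_subset_open hO hK1O
  have hK2c : IsCompact (cthickening d₁ K₁) := hK1c.cthickening
  have hWK : thickening d₁ K₁ ⊆ cthickening d₁ K₁ := thickening_subset_cthickening d₁ K₁
  have hK1'c : IsCompact (cthickening (d₁ / 2) K₁) := hK1c.cthickening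
  have hK1'W : cthickening (d₁ / 2) K₁ ⊆ thickening d₁ K₁ :=
    cthickening_subset_thickening' hd₁ (by linarith) K₁
  obtain ⟨r₀, hr₀, -, hloc⟩ := loc_inv (isOpen_thickening (δ := d₁) (E := K₁))
    (hz.z_an.mono ((hWK.trans hd₁O).trans hOΩ)) hK1'c hK1'W
    (fun p hp => hz.inj p (hOΩ (hd₁O (hWK (hK1'W hp)))))
  obtain ⟨me, hme⟩ : ∃ me : ℕ → ℂ, ∀ n, me n = ((⌊t / ε n⌋₊ * ε n : ℝ) : ℂ) :=
    ⟨_, fun _ => rfl⟩
  obtain ⟨w, hw⟩ : ∃ w : ℕ → ℂ × ℂ → ℂ × ℂ, ∀ n u,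
      w n u = (stp (ε n) (gn n))^[⌊t / ε n⌋₊] (En n u) := ⟨_, fun _ _ => rfl⟩
  have hmem : ∀ᶠ n in (U : Filter ℕ), ∀ u ∈ cthickening d K,
      tr (me n) (P u) ∈ cthickening (d₁ / 2) K₁ := by
    filter_upwards [hV.ε_lim.eventually (gt_mem_nhds (half_pos hd₁))] with n hn u hu
    refine mem_cthickening_of_dist_le _ (tr (t : ℂ) (P u)) _ _ ?_ ?_
    · rw [hK₁]
      exact mem_image_of_mem _ (mem_image_of_mem _ hu)
    · rw [dist_eq_norm, InvX_sub, hme, ← Complex.ofReal_sub, Complex.norm_real,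
        Real.norm_eq_abs, abs_le]
      constructor <;> linarith [hm n, hm2 n]
  -- local inverses
  have key : ∀ r' : ℝ, 0 < r' → r' ≤ r₀ → ∃ ρ' : ℝ, ∀ᶠ n in (U : Filter ℕ),
      ∀ u ∈ cthickening d K, AnalyticAt ℂ (w n) u ∧
        w n u ∈ ball (z (tr (me n) (P u))) ρ' ∧ ∃ S : ℂ × ℂ → ℂ × ℂ,
          AnalyticOnNhd ℂ S (ball (z (tr (me n) (P u))) ρ') ∧
          ∀ v ∈ ball (z (tr (me n) (P u))) ρ', ‖S v - tr (me n) (P u)‖ < r' ∧ Z n (S v) = v ∧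
            ∀ q : ℂ × ℂ, ‖q - tr (me n) (P u)‖ < r' → Z n q = v → q = S v := by
    intro r' hr' hr'0
    obtain ⟨ρ', δ', hρ', hδ', hS⟩ := hloc r' hr' hr'0
    obtain ⟨κ, hκ, hev⟩ := iter_close hV hz hPKc ht hPKΩ (half_pos hρ')
    refine ⟨ρ', ?_⟩
    filter_upwards [hmem, hev, hE _ hdN hK'c κ hκ, hEn _ hdN hK'c, hZ.an _ hd₁O hK2c,
      hZ.conv _ hd₁O hK2c δ' hδ'] with n h1 h2 h3 h4 h5 h6 u hu
    have hclose : ‖En n u - z (P u)‖ ≤ κ := by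
      rw [hPz u (hdN hu)]
      exact h3 u hu
    have h7 := h2 (P u) (mem_image_of_mem _ hu) (En n u) hclose ⌊t / ε n⌋₊ (hm n)
    refine ⟨?_, ?_, ?_⟩
    · have h8 : AnalyticAt ℂ (fun u => (stp (ε n) (gn n))^[⌊t / ε n⌋₊] (En n u)) u :=
        AnalyticAt.fun_comp (g := (stp (ε n) (gn n))^[⌊t / ε n⌋₊]) (f := En n) h7.2 (h4 u hu)
      exact h8.congr (Eventually.of_forall fun u' => (hw n u').symm)
    · rw [mem_ball, dist_eq_norm, hw, hme]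
      linarith [h7.1]
    · exact hS (Z n) (h5.mono hWK) (fun p hp => h6 p (hWK hp)) _ (h1 u hu)
  -- solutions
  have hsol : ∀ r' : ℝ, 0 < r' → r' ≤ r₀ → ∀ᶠ n in (U : Filter ℕ), ∀ u ∈ cthickening d K,
      ∃ q : ℂ × ℂ, ‖q - P u‖ < r' ∧ Z n (tr (me n) q) = w n u ∧
        ∀ q' : ℂ × ℂ, ‖q' - P u‖ < r' → Z n (tr (me n) q') = w n u → q' = q := by
    intro r' hr' hr'0
    obtain ⟨ρ', hk⟩ := key r' hr' hr'0
    filter_upwards [hk] with n hn u hu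
    obtain ⟨-, h2, S, -, h4⟩ := hn u hu
    obtain ⟨h5, h6, h7⟩ := h4 _ h2
    refine ⟨tr (-me n) (S (w n u)), ?_, ?_, ?_⟩
    · rw [InvX_shift]
      exact h5
    · rw [tr_tr, add_neg_cancel, tr_zero]
      exact h6
    · intro q' h8 h9
      have h10 := h7 (tr (me n) q') (by rw [tr_sub]; exact h8) h9
      rw [← h10, tr_tr, neg_add_cancel, tr_zero]
  -- the map `Q`
  have hch : ∀ (n : ℕ) (u : ℂ × ℂ), ∃ q : ℂ × ℂ,
      (∃ q₁ : ℂ × ℂ, ‖q₁ - P u‖ < r₀ ∧ Z n (tr (me n) q₁) = w n u ∧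
        ∀ q' : ℂ × ℂ, ‖q' - P u‖ < r₀ → Z n (tr (me n) q') = w n u → q' = q₁) →
      ‖q - P u‖ < r₀ ∧ Z n (tr (me n) q) = w n u ∧
        ∀ q' : ℂ × ℂ, ‖q' - P u‖ < r₀ → Z n (tr (me n) q') = w n u → q' = q := by
    intro n u
    by_cases h : ∃ q₁ : ℂ × ℂ, ‖q₁ - P u‖ < r₀ ∧ Z n (tr (me n) q₁) = w n u ∧
        ∀ q' : ℂ × ℂ, ‖q' - P u‖ < r₀ → Z n (tr (me n) q') = w n u → q' = q₁
    · obtain ⟨q, hq⟩ := h
      exact ⟨q, fun _ => hq⟩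
    · exact ⟨P u, fun h' => absurd h' h⟩
  choose Q hQ using hch
  have hQev : ∀ᶠ n in (U : Filter ℕ), ∀ u ∈ cthickening d K,
      ‖Q n u - P u‖ < r₀ ∧ Z n (tr (me n) (Q n u)) = w n u ∧
        ∀ q' : ℂ × ℂ, ‖q' - P u‖ < r₀ → Z n (tr (me n) q') = w n u → q' = Q n u := by
    filter_upwards [hsol r₀ hr₀ le_rfl] with n hn u hu
    exact hQ n u (hn u hu)
  have hQr : ∀ r' : ℝ, 0 < r' → r' ≤ r₀ → ∀ᶠ n in (U : Filter ℕ), ∀ u ∈ cthickening d K,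
      ‖Q n u - P u‖ < r' := by
    intro r' hr' hr'0
    filter_upwards [hQev, hsol r' hr' hr'0] with n h1 h2 u hu
    obtain ⟨q, h3, h4, -⟩ := h2 u hu
    rw [← (h1 u hu).2.2 q (h3.trans_le hr'0) h4]
    exact h3
  have hKK' : K ⊆ cthickening d K := self_subset_cthickening K
  refine ⟨r₀, hr₀, Q, ?_, ?_⟩
  · intro δ hδ
    obtain ⟨ρ', hk⟩ := key r₀ hr₀ le_rfl
    filter_upwards [hQev, hk, hQr (min δ r₀) (lt_min hδ hr₀) (min_le_right _ _),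
      hQr (r₀ / 2) (half_pos hr₀) (by linarith)] with n h1 h2 h3 h4
    refine ⟨?_, ?_⟩
    · intro u hu
      obtain ⟨b1, b2, S, b3, b4⟩ := h2 u (hKK' hu)
      have hA : AnalyticAt ℂ (fun u' => tr (-me n) (S (w n u'))) u :=
        AnalyticAt.fun_comp (g := tr (-me n)) (f := fun u' => S (w n u')) (analyticAt_tr _ _)
          (AnalyticAt.fun_comp (g := S) (f := w n) (b3 _ b2) b1)
      refine hA.congr ?_
      have e1 : ∀ᶠ u' in 𝓝 u, w n u' ∈ ball (z (tr (me n) (P u))) ρ' :=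
        b1.continuousAt.eventually (isOpen_ball.mem_nhds b2)
      have e2 : ∀ᶠ u' in 𝓝 u, u' ∈ cthickening d K := by
        filter_upwards [ball_mem_nhds u hd] with u' hu'
        refine mem_cthickening_of_dist_le _ u _ _ hu ?_
        exact (mem_ball.1 hu').le
      have e3 : ∀ᶠ u' in 𝓝 u, P u' ∈ ball (P u) (r₀ / 2) :=
        (hP.continuousAt (hN.mem_nhds (hKN hu))).eventually (ball_mem_nhds _ (half_pos hr₀))
      filter_upwards [e1, e2, e3] with u' c1 c2 c3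
      obtain ⟨a1, a2, a3⟩ := h1 u' c2
      have a4 := h4 u' c2
      rw [mem_ball, dist_eq_norm] at c3
      have a5 : ‖Q n u' - P u‖ < r₀ := by
        have := norm_sub_le_norm_sub_add_norm_sub (Q n u') (P u') (P u)
        linarith
      have a6 := (b4 _ c1).2.2 (tr (me n) (Q n u')) (by rw [tr_sub]; exact a5) a2
      show tr (-me n) (S (w n u')) = Q n u'
      rw [← a6, tr_tr, neg_add_cancel, tr_zero]
    · intro u hu
      refine ⟨(h3 u (hKK' hu)).le.trans (min_le_left _ _), ?_⟩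
      rw [← hme, ← hw]
      exact (h1 u (hKK' hu)).2.1
  · filter_upwards [hQev] with n h1 u hu p hp hpe
    rw [← hme, ← hw] at hpe
    exact (h1 u (hKK' hu)).2.2 p hp hpe

end Pool.Agent.MP_ae5b4e_an_ATK
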