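import Pool.Agent.Lib.MP_ae5b4e_an_ATK.Defs

/-! # ATK: the closed base region -/

set_option autoImplicit false

noncomputable section

namespace Pool.Agent.MP_ae5b4e_an_ATK

open Complex Set Filter Topology Metric
open Pool.Agent.MP_ae5b4e_an_NB2 (Sys)
open Pool.Agent.MP_ae5b4e_an_M (S1 C1f Gf bb)
open Pool.Agent.MP_ae5b4e_an_A1
open Pool.Agent.MP_ae5b4e_an_AT
open PorTR (Hm)

/-- the closed base region, compact. Proof. `en` is continuous on the closed and bounded set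
`{‖u.1‖ ≤ a, ‖u.2 - t‖ ≤ b}`, `b < t`, where `u.2 ∈ slitPlane` (and `1 + e^ℓ u.2` too), `a < ρ`. -/
theorem np_compact {ℓ : ℂ} {ρ t a b r : ℝ} {A Φ : ℂ → ℂ} (hS : Side ℓ 0 ρ A Φ) (ha : a < ρ)
    (ht : 0 < t) (hb : b < t) (hl : ‖cexp ℓ‖ * (t + b) < 1) :
    IsCompact {u : ℂ × ℂ | ‖u.1‖ ≤ a ∧ ‖u.2 - t‖ ≤ b ∧ ‖en ℓ Φ u - Φ 0‖ ≤ r} := by
  have hK : IsCompact (closedBall (0 : ℂ) a ×ˢ closedBall ((t : ℝ) : ℂ) b) :=
    (isCompact_closedBall _ _).prod (isCompact_closedBall _ _)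
  have hc : ContinuousOn (fun u : ℂ × ℂ => ‖en ℓ Φ u - Φ 0‖)
      (closedBall (0 : ℂ) a ×ˢ closedBall ((t : ℝ) : ℂ) b) := by
    rintro ⟨x, z⟩ ⟨hx, hz⟩
    apply ContinuousAt.continuousWithinAt
    have hx' : x ∈ ball (0 : ℂ) ρ := closedBall_subset_ball ha hx
    have hΦ : ContinuousAt Φ x := (hS.prim x hx').continuousAt
    have hz' : ‖z - t‖ ≤ b := by
      have : z ∈ closedBall ((t : ℝ) : ℂ) b := hz
      rwa [mem_closedBall, dist_eq_norm] at this
    have hre : 0 < z.re := by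
      have h1 := (abs_re_le_norm (z - t)).trans hz'
      rw [sub_re, ofReal_re] at h1
      have h2 := (abs_le.1 h1).1
      linarith
    have hzn : ‖z‖ ≤ t + b := by
      have h1 : z = (t : ℂ) + (z - t) := by ring
      calc ‖z‖ = ‖(t : ℂ) + (z - t)‖ := by rw [← h1]
        _ ≤ ‖(t : ℂ)‖ + ‖z - t‖ := norm_add_le _ _
        _ ≤ t + b := by
          rw [norm_real, Real.norm_of_nonneg ht.le]
          linarith
    have hs1 : z ∈ slitPlane := Or.inl hre
    have hs2 : 1 + cexp ℓ * z ∈ slitPlane := by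
      refine Or.inl ?_
      have h1 : ‖cexp ℓ * z‖ < 1 := by
        rw [norm_mul]
        exact (mul_le_mul_of_nonneg_left hzn (norm_nonneg _)).trans_lt hl
      have h2 := (abs_le.1 ((abs_re_le_norm (cexp ℓ * z)).trans h1.le)).1
      have h3 := abs_re_le_norm (cexp ℓ * z)
      have h4 := (abs_lt.1 (h3.trans_lt h1)).1
      rw [add_re, one_re]
      linarith
    have hl1 : ContinuousAt (fun u : ℂ × ℂ => log u.2) (x, z) :=
      ContinuousAt.comp (f := fun u : ℂ × ℂ => u.2) (g := log) (continuousAt_clog hs1)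
        continuousAt_snd
    have hl2 : ContinuousAt (fun u : ℂ × ℂ => log (1 + cexp ℓ * u.2)) (x, z) :=
      ContinuousAt.comp (f := fun u : ℂ × ℂ => 1 + cexp ℓ * u.2) (g := log)
        (continuousAt_clog hs2) (by fun_prop)
    have hΦ' : ContinuousAt (fun u : ℂ × ℂ => Φ u.1) (x, z) :=
      ContinuousAt.comp (f := fun u : ℂ × ℂ => u.1) (g := Φ) hΦ continuousAt_fst
    have hm : ContinuousAt (fun u : ℂ × ℂ => 1 + cexp ℓ * u.2) (x, z) := by fun_prop
    have hm2 : ContinuousAt (fun u : ℂ × ℂ => cexp ℓ * u.2) (x, z) := by fun_prop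
    have hen : ContinuousAt (fun u : ℂ × ℂ => en ℓ Φ u) (x, z) := by
      unfold en sz
      exact hΦ'.add ((hm.mul hl2).sub (hm2.mul (continuousAt_const.add hl1)))
    exact (hen.sub continuousAt_const).norm
  have hcl := hc.preimage_isClosed_of_isClosed hK.isClosed (isClosed_Iic (a := r))
  have he : {u : ℂ × ℂ | ‖u.1‖ ≤ a ∧ ‖u.2 - t‖ ≤ b ∧ ‖en ℓ Φ u - Φ 0‖ ≤ r} =
      (closedBall (0 : ℂ) a ×ˢ closedBall ((t : ℝ) : ℂ) b) ∩
        (fun u : ℂ × ℂ => ‖en ℓ Φ u - Φ 0‖) ⁻¹' Iic r := by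
    ext u
    simp only [Set.mem_ofPred_eq, mem_inter_iff, mem_prod, mem_closedBall, dist_eq_norm,
      sub_zero, mem_preimage, mem_Iic, and_assoc]
  rw [he]
  exact hK.of_isClosed_subset hcl inter_subset_left

end Pool.Agent.MP_ae5b4e_an_ATK
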