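import Pool.Agent.Lib.MP_ae5b4e_an_ATK.BaseP
import Pool.Agent.Lib.MP_ae5b4e_an_ATK.NpC
import Pool.Agent.Lib.MP_ae5b4e_an_ATK.InvX
import Pool.Agent.Lib.MP_ae5b4e_an_ATK.Br
import Pool.Agent.Lib.MP_ae5b4e_an_ATK.EnS

/-! # ATK: the exact coordinates on the right side of the tip -/

set_option autoImplicit false

noncomputable section

namespace Pool.Agent.MP_ae5b4e_an_ATK

open Complex Set Filter Topology Metric
open Pool.Agent.MP_ae5b4e_an_NB2 (Sys)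
open Pool.Agent.MP_ae5b4e_an_M (S1 C1f Gf bb)
open Pool.Agent.MP_ae5b4e_an_A1
open Pool.Agent.MP_ae5b4e_an_AT
open PorTR (Hm)

variable {U : Ultrafilter ℕ} {Zs : ℕ → Sys} {ε : ℕ → ℝ} {q κ : ℂ → ℂ} {lb ℓ : ℂ} {R ρ : ℝ}
  {X J A Φ : ℂ → ℂ} {Xn Jn An : ℕ → ℂ → ℂ} {Ω : Set (ℂ × ℂ)} {z : ℂ × ℂ → ℂ × ℂ}
  {θb g₀ : ℂ} {η : ℝ}

private theorem baseR_pt {ℓ w : ℂ} {t b : ℝ} (ht : 0 < t) (hb : b < t)
    (hl : ‖cexp ℓ‖ * (2 * t) < 1) (h : ‖w - t‖ ≤ b) :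
    w ∈ slitPlane ∧ ‖cexp ℓ * w‖ < 1 := by
  have h1 : t - b ≤ w.re := by
    have h2 := (Complex.abs_re_le_norm (w - t)).trans h
    have h3 : (w - t).re = w.re - t := by simp
    rw [h3] at h2
    have := (abs_le.mp h2).1
    linarith
  refine ⟨Or.inl (by linarith), ?_⟩
  rw [norm_mul]
  have h2 : ‖w‖ ≤ 2 * t := by
    have := norm_add_le (w - t) (t : ℂ)
    rw [sub_add_cancel, Complex.norm_real, Real.norm_of_nonneg ht.le] at this
    linarith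
  exact (mul_le_mul_of_nonneg_left h2 (norm_nonneg _)).trans_lt hl

private theorem baseR_open {t r a b : ℝ} (hS : Side ℓ 0 ρ A Φ) (ha : a ≤ ρ) (ht : 0 < t)
    (hb : b < t) (hl : ‖cexp ℓ‖ * (2 * t) < 1) : IsOpen (NP ℓ Φ t a b r) := by
  have h0 : IsOpen {u : ℂ × ℂ | ‖u.1‖ < a ∧ ‖u.2 - t‖ < b} := by
    refine (isOpen_lt continuous_fst.norm continuous_const).inter
      (isOpen_lt (continuous_snd.sub continuous_const).norm continuous_const)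
  have h1 : ContinuousOn (fun u : ℂ × ℂ => ‖en ℓ Φ u - Φ 0‖)
      {u : ℂ × ℂ | ‖u.1‖ < a ∧ ‖u.2 - t‖ < b} := by
    intro u hu
    have h2 : u.1 ∈ ball (0 : ℂ) ρ := by
      rw [mem_ball_zero_iff]
      exact hu.1.trans_le ha
    have h3 := baseR_pt ht hb hl hu.2.le
    have h4 : ContinuousAt (fun u : ℂ × ℂ => Φ u.1) u :=
      ContinuousAt.comp (f := fun u : ℂ × ℂ => u.1) (hS.prim _ h2).continuousAt
        continuousAt_fst
    have h5 : ContinuousAt (fun u : ℂ × ℂ => sz ℓ u.2) u :=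
      ContinuousAt.comp (f := fun u : ℂ × ℂ => u.2) (hasDerivAt_sz h3.1 h3.2).continuousAt
        continuousAt_snd
    exact ((h4.add h5).sub continuousAt_const).norm.continuousWithinAt
  have h2 := h1.isOpen_inter_preimage h0 (isOpen_Iio (a := r))
  have h3 : {u : ℂ × ℂ | ‖u.1‖ < a ∧ ‖u.2 - t‖ < b} ∩
      (fun u : ℂ × ℂ => ‖en ℓ Φ u - Φ 0‖) ⁻¹' Iio r = NP ℓ Φ t a b r := by
    ext u
    constructor
    · rintro ⟨⟨h3, h4⟩, h5⟩
      exact ⟨h3, h4, h5⟩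
    · rintro ⟨h3, h4, h5⟩
      exact ⟨⟨h3, h4⟩, h5⟩
  rwa [h3] at h2

private theorem baseR_step {h B : ℝ} {A' : ℂ → ℂ} {u : ℂ × ℂ} (hh : 0 ≤ h)
    (h1 : ‖lam ℓ u.2‖ ≤ B) (h2 : ‖A' (u.1 + h * lam ℓ u.2)‖ ≤ B) :
    ‖Fs ℓ h A' u - u‖ ≤ B * h := by
  have e1 : (Fs ℓ h A' u - u).1 = h * lam ℓ u.2 := by
    simp [Fs]
  have e2 : (Fs ℓ h A' u - u).2 = h * A' (u.1 + h * lam ℓ u.2) := by
    simp [Fs]
  rw [Prod.norm_def]
  refine max_le ?_ ?_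
  · rw [e1, norm_mul, Complex.norm_real, Real.norm_of_nonneg hh, mul_comm]
    exact mul_le_mul_of_nonneg_right h1 hh
  · rw [e2, norm_mul, Complex.norm_real, Real.norm_of_nonneg hh, mul_comm]
    exact mul_le_mul_of_nonneg_right h2 hh

private theorem baseR_tr (t : ℝ) (p : ℂ × ℂ) : ‖tr (t : ℂ) p - p‖ = |t| := by
  have h1 : tr (t : ℂ) p - p = ((t : ℂ), 0) := by
    ext <;> simp
  rw [h1, Prod.norm_def]
  simp

private theorem baseR_fl {T h : ℝ} (hT : 0 ≤ T) (hh : 0 < h) : |⌊T / h⌋₊ * h - T| ≤ h := by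
  have h1 := Nat.floor_le (div_nonneg hT hh.le)
  have h2 := Nat.lt_floor_add_one (T / h)
  rw [le_div_iff₀ hh] at h1
  rw [div_lt_iff₀ hh] at h2
  rw [abs_le]
  constructor
  · nlinarith
  · linarith

/-- EXACT COORDINATES ON THE RIGHT SIDE. The chain from the base region is followed for `⌊T / ε n⌋₊`
steps, into the image of the exact family `Z1`.

Proof. `N := NP ℓ Φ t (3 ρ / 4) (7 t / 25) r` (open), `K := {‖u.1‖ ≤ ρ / 2, ‖u.2 - t‖ ≤ t / 4,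
‖en - Φ 0‖ ≤ r / 2}` (`np_compact`), `NN ℓ 0 ρ Φ t (r / 2) ⊆ K ⊆ N`. `E := Em κ J (lam ℓ) = Es κ J ℓ
1`,
`En n := En (ε n) (Jn n) (lam ℓ)`; `br_right` (`u.2 ∈ slitPlane`, `‖e^ℓ u.2‖ < 1`), `en_conv`.
`inv_coord` with
`O`, `Z1`, `t := T`, `P` (`hPO` from `Pb.fst`, `Pb.snd_near`): `r₁, Q`. `BaseG`: `an`: second
component of `Q n`.
`cl`: `‖Q n u - P u‖ ≤ δ`, `Pb.snd`. `inv`: `u, u' := Fs .. u ∈ NN ⊆ K`, `Fs ℓ h A u = sc h A (lam
ℓ) u` (`rfl`),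
`en_step`: `En n u' = stp (En n u)`. `p := tr (ε n) (Q n u)`: `Z1 (tr (m ε) p) = stp (Z1 (tr (m ε)
(Q n u)))` (`Ex.eq`
on a compact neighbourhood in `O` of `tr T '' (P '' K)`; `m ε → T`) `= stp^[m + 1] (En n u) =
stp^[m] (En n u')`, and
`‖p - P u'‖ ≤ ε n + ‖Q n u - P u‖ + ‖P u - P u'‖ < r₁` (`P` uniformly continuous on `K`, `‖u' - u‖ ≤
C ε n`), so
`Q n u' = p` by the uniqueness: equal second components. The last statement: `‖Q n u - P u‖` small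
and
`Pb.fst`. -/
theorem base_right {ξ : ℕ → ℂ × ℂ → ℂ} (hV : VF U ε (Hm ×ˢ univ) (gI q) (gx ε ξ))
    (hξ : XI U Zs ε ξ) (hz : Fw (Hm ×ˢ univ) (gI q) Ω z)
    (hK : Ks U Zs ε q κ lb ℓ R ρ X J A Φ Xn Jn An) {O : Set (ℂ × ℂ)} (hO : IsOpen O) (hOΩ : O ⊆ Ω)
    {Z1 : ℕ → ℂ × ℂ → ℂ × ℂ} (hZ1 : Ex U ε (gx ε ξ) O z Z1) {T t r : ℝ} (hT : 0 ≤ T) (ht : 0 < t)
    (htl : ‖cexp ℓ‖ * (2 * t) < 1) {P : ℂ × ℂ → ℂ × ℂ}
    (hP : Pb κ J (fun x => Φ (1 * x)) Ω z ℓ 1 θb g₀ t (ρ * (3 / 4)) r η P)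
    (hPO : ∀ p : ℂ × ℂ, ‖p.1 - (θb + t)‖ < t / 3 → ‖p.2 - g₀‖ < η →
      tr (T : ℂ) p ∈ O ∧ ∀ s ∈ Icc 0 T, tr (s : ℂ) p ∈ Ω) :
    ∃ Q : ℕ → ℂ × ℂ → ℂ × ℂ, ∀ δ : ℝ, 0 < δ → ∀ᶠ n in (U : Filter ℕ),
      BaseG ℓ 0 ρ Φ t (r / 2) (ε n) (An n) δ (fun u => (Q n u).2) ∧
      ∀ u ∈ NN ℓ 0 ρ Φ t (r / 2), ‖(Q n u).1 - (θb + t)‖ < t / 2 ∧
        Z1 n (tr ((⌊T / ε n⌋₊ * ε n : ℝ) : ℂ) (Q n u)) =
          (stp (ε n) (gx ε ξ n))^[⌊T / ε n⌋₊] (En (ε n) (Jn n) (lam ℓ) u) := by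
  have hΦ : (fun x => Φ (1 * x)) = Φ := by
    funext x
    rw [one_mul]
  rw [hΦ] at hP
  have hS := hK.lim.side
  have hρ := hS.ρ_pos
  have hr := hP.r_pos
  have he := hV.ε_pos
  have he0 := hV.ε_lim
  have hNo : IsOpen (NP ℓ Φ t (ρ * (3 / 4)) (t * (7 / 25)) r) :=
    baseR_open hS (by linarith) ht (by linarith) htl
  set K : Set (ℂ × ℂ) := {u | ‖u.1‖ ≤ ρ / 2 ∧ ‖u.2 - t‖ ≤ t / 4 ∧ ‖en ℓ Φ u - Φ 0‖ ≤ r / 2}
    with hKd
  have hKc : IsCompact K := np_compact hS (by linarith) ht (by linarith)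
    (lt_of_le_of_lt (mul_le_mul_of_nonneg_left (by linarith) (norm_nonneg _)) htl)
  have hKN : K ⊆ NP ℓ Φ t (ρ * (3 / 4)) (t * (7 / 25)) r := fun u hu =>
    ⟨lt_of_le_of_lt hu.1 (by linarith), lt_of_le_of_lt hu.2.1 (by linarith),
      lt_of_le_of_lt hu.2.2 (by linarith)⟩
  have hNNK : NN ℓ 0 ρ Φ t (r / 2) ⊆ K := fun u hu => by
    refine ⟨?_, hu.2.1.le, hu.2.2.le⟩
    have := hu.1.le
    rwa [sub_zero] at this
  have hBr := br_right ℓ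
  have hND : NP ℓ Φ t (ρ * (3 / 4)) (t * (7 / 25)) r ⊆
      ball 0 ρ ×ˢ {z | z ∈ slitPlane ∧ ‖cexp ℓ * z‖ < 1} := fun u hu =>
    ⟨mem_ball_zero_iff.mpr (lt_trans hu.1 (by linarith)),
      baseR_pt ht (by linarith : t * (7 / 25) < t) htl hu.2.1.le⟩
  have hPc : ContinuousOn P (NP ℓ Φ t (ρ * (3 / 4)) (t * (7 / 25)) r) := hP.an.continuousOn
  have hPz : ∀ u ∈ NP ℓ Φ t (ρ * (3 / 4)) (t * (7 / 25)) r, z (P u) = Em κ J (lam ℓ) u := by
    intro u hu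
    rw [hP.eq u hu]
    simp [Es, Em]
  obtain ⟨r₁, hr₁, Q, hQ1, hQ2⟩ := inv_coord hV hz hO hOΩ hZ1 hT hNo hKc hKN
    (E := Em κ J (lam ℓ)) (P := P) (En := fun n => En (ε n) (Jn n) (lam ℓ)) hPc hPz
    (fun u hu => hPO (P u) (by
      have := hP.fst u hu
      rwa [one_mul] at this) (hP.snd_near u hu))
    (fun K' hK' hKc' => (en_conv hK he he0 hBr hKc' (hK'.trans hND)).1)
    (fun K' hK' hKc' => (en_conv hK he he0 hBr hKc' (hK'.trans hND)).2)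
  -- the compact neighbourhood of the points moved forward
  have hPK : IsCompact (P '' K) := hKc.image_of_continuousOn (hPc.mono hKN)
  have hK₁ : IsCompact (tr (T : ℂ) '' (P '' K)) := hPK.image (continuous_tr _)
  have hK₁O : tr (T : ℂ) '' (P '' K) ⊆ O := by
    rintro _ ⟨_, ⟨u, hu, rfl⟩, rfl⟩
    refine (hPO (P u) ?_ (hP.snd_near u (hKN hu))).1
    have := hP.fst u (hKN hu)
    rwa [one_mul] at this
  obtain ⟨d₁, hd₁, hd₁O⟩ := hK₁.exists_cthickening_subset_open hO hK₁O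
  have hK₂ : IsCompact (cthickening d₁ (tr (T : ℂ) '' (P '' K))) := hK₁.cthickening
  -- bounds
  have hlc : ContinuousOn (fun u : ℂ × ℂ => lam ℓ u.2) K := by
    intro u hu
    have h3 := (hND (hKN hu)).2
    exact (ContinuousAt.comp (f := fun u : ℂ × ℂ => u.2) (hasDerivAt_lam h3.1 h3.2).continuousAt
      continuousAt_snd).continuousWithinAt
  obtain ⟨B₀, hB₀⟩ := hKc.exists_bound_of_continuousOn hlc
  set B : ℝ := max B₀ 3 with hB
  have hB3 : 3 ≤ B := le_max_right _ _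
  have huc := hKc.uniformContinuousOn_of_continuous (hPc.mono hKN)
  rw [Metric.uniformContinuousOn_iff] at huc
  obtain ⟨d₂, hd₂, huc⟩ := huc (r₁ / 4) (by linarith)
  refine ⟨Q, fun δ hδ => ?_⟩
  set δ₁ : ℝ := min (min δ (t / 7)) (min (r₁ / 4) (d₁ / 2)) with hδ₁
  have hδ₁0 : 0 < δ₁ := by
    refine lt_min (lt_min hδ (by linarith)) (lt_min (by linarith) (by linarith))
  have hδ₁a : δ₁ ≤ δ := (min_le_left _ _).trans (min_le_left _ _)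
  have hδ₁b : δ₁ ≤ t / 7 := (min_le_left _ _).trans (min_le_right _ _)
  have hδ₁c : δ₁ ≤ r₁ / 4 := (min_le_right _ _).trans (min_le_left _ _)
  have hδ₁d : δ₁ ≤ d₁ / 2 := (min_le_right _ _).trans (min_le_right _ _)
  have hεs : ∀ᶠ n in (U : Filter ℕ), ε n < min (min (r₁ / 4) (d₁ / 2)) (d₂ / (2 * B)) :=
    he0.eventually_lt_const (lt_min (lt_min (by linarith) (by linarith)) (by positivity))
  filter_upwards [hQ1 δ₁ hδ₁0, hQ2, en_step hK he he0 hξ hBr hKc (hKN.trans hND), hεs,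
    hZ1.eq _ hd₁O hK₂, hK.near 1 one_pos] with n h1 h2 h3 h4 h5 h6
  have hn := he n
  have h4a : ε n < r₁ / 4 := h4.trans_le ((min_le_left _ _).trans (min_le_left _ _))
  have h4b : ε n < d₁ / 2 := h4.trans_le ((min_le_left _ _).trans (min_le_right _ _))
  have h4c : B * ε n < d₂ := by
    have h7 := h4.trans_le (min_le_right _ _)
    rw [lt_div_iff₀ (by positivity)] at h7
    have : 0 < B * ε n := by positivity
    linarith
  refine ⟨⟨?_, ?_, ?_⟩, ?_⟩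
  · exact (analyticOnNhd_snd).comp (h1.1.mono hNNK) (mapsTo_univ _ _)
  · intro u hu hu'
    have huK := hNNK hu
    have huK' := hNNK hu'
    have hst := h3 u huK huK'
    have hst' : stp (ε n) (gx ε ξ n) (En (ε n) (Jn n) (lam ℓ) u) =
        En (ε n) (Jn n) (lam ℓ) (Fs ℓ (ε n) (An n) u) := hst
    obtain ⟨h7, h8⟩ := h1.2 u huK
    -- the moved point is in the compact neighbourhood
    have h9 : tr ((⌊T / ε n⌋₊ * ε n : ℝ) : ℂ) (Q n u) ∈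
        cthickening d₁ (tr (T : ℂ) '' (P '' K)) := by
      refine mem_cthickening_of_dist_le _ (tr (T : ℂ) (P u)) _ _ ⟨P u, ⟨u, huK, rfl⟩, rfl⟩ ?_
      rw [dist_eq_norm]
      have e1 : tr ((⌊T / ε n⌋₊ * ε n : ℝ) : ℂ) (Q n u) - tr (T : ℂ) (P u) =
          (tr ((⌊T / ε n⌋₊ * ε n - T : ℝ) : ℂ) (Q n u) - Q n u) + (Q n u - P u) := by
        ext
        · simp [tr]
          ring
        · simp [tr]
      rw [e1]
      refine (norm_add_le _ _).trans ?_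
      rw [baseR_tr]
      have := baseR_fl hT hn
      linarith
    have h10 := h5 _ h9
    -- the candidate
    have h11 : tr (ε n : ℂ) (tr ((⌊T / ε n⌋₊ * ε n : ℝ) : ℂ) (Q n u)) =
        tr ((⌊T / ε n⌋₊ * ε n : ℝ) : ℂ) (tr (ε n : ℂ) (Q n u)) := by
      rw [tr_tr, tr_tr, add_comm]
    rw [h11, h8] at h10
    have h12 : Z1 n (tr ((⌊T / ε n⌋₊ * ε n : ℝ) : ℂ) (tr (ε n : ℂ) (Q n u))) =
        (stp (ε n) (gx ε ξ n))^[⌊T / ε n⌋₊]
          (En (ε n) (Jn n) (lam ℓ) (Fs ℓ (ε n) (An n) u)) := by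
      rw [h10, ← hst', ← Function.iterate_succ_apply' (stp (ε n) (gx ε ξ n)),
        Function.iterate_succ_apply]
    have h13 : ‖Fs ℓ (ε n) (An n) u - u‖ ≤ B * ε n := by
      refine baseR_step hn.le ((hB₀ u huK).trans (le_max_left _ _)) ?_
      have h14 : u.1 + ε n * lam ℓ u.2 ∈ ball (0 : ℂ) ρ := by
        have h15 : (Fs ℓ (ε n) (An n) u).1 ∈ ball (0 : ℂ) ρ := (hND (hKN huK')).1
        exact h15
      have h15 := h6.A_cl _ h14
      have h16 := hS.near _ h14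
      have e1 : An n (u.1 + ε n * lam ℓ u.2) = (An n (u.1 + ε n * lam ℓ u.2) -
          A (u.1 + ε n * lam ℓ u.2)) + (A (u.1 + ε n * lam ℓ u.2) - 1) + 1 := by ring
      rw [e1]
      have h17 := norm_add_le ((An n (u.1 + ε n * lam ℓ u.2) -
          A (u.1 + ε n * lam ℓ u.2)) + (A (u.1 + ε n * lam ℓ u.2) - 1)) 1
      have h18 := norm_add_le (An n (u.1 + ε n * lam ℓ u.2) -
          A (u.1 + ε n * lam ℓ u.2)) (A (u.1 + ε n * lam ℓ u.2) - 1)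
      rw [norm_one] at h17
      linarith
    have h14 : ‖tr (ε n : ℂ) (Q n u) - P (Fs ℓ (ε n) (An n) u)‖ < r₁ := by
      have h15 := huc u huK _ huK' (by
        rw [dist_comm, dist_eq_norm]
        exact h13.trans_lt h4c)
      rw [dist_eq_norm] at h15
      have e1 : tr (ε n : ℂ) (Q n u) - P (Fs ℓ (ε n) (An n) u) =
          (tr (ε n : ℂ) (Q n u) - Q n u) + (Q n u - P u) + (P u - P (Fs ℓ (ε n) (An n) u)) := by
        abel
      rw [e1]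
      have h16 := norm_add_le ((tr (ε n : ℂ) (Q n u) - Q n u) + (Q n u - P u))
        (P u - P (Fs ℓ (ε n) (An n) u))
      have h17 := norm_add_le (tr (ε n : ℂ) (Q n u) - Q n u) (Q n u - P u)
      rw [baseR_tr, abs_of_pos hn] at h17
      linarith
    have h15 := h2 _ huK' _ h14 h12
    show (Q n (Fs ℓ (ε n) (An n) u)).2 = (Q n u).2
    rw [← h15]
    rfl
  · intro u hu
    have huK := hNNK hu
    have h7 := (h1.2 u huK).1
    rw [← hP.snd u (hKN huK)]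
    have h8 : ‖(Q n u - P u).2‖ ≤ ‖Q n u - P u‖ := norm_snd_le _
    exact h8.trans (h7.trans hδ₁a)
  · intro u hu
    have huK := hNNK hu
    obtain ⟨h7, h8⟩ := h1.2 u huK
    refine ⟨?_, h8⟩
    have h9 : ‖(Q n u - P u).1‖ ≤ ‖Q n u - P u‖ := norm_fst_le _
    have h10 := hP.fst u (hKN huK)
    rw [one_mul] at h10
    have e1 : (Q n u).1 - (θb + t) = (Q n u - P u).1 + ((P u).1 - (θb + t)) := by
      rw [Prod.fst_sub]
      ring
    rw [e1]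
    have h11 := norm_add_le (Q n u - P u).1 ((P u).1 - (θb + t))
    linarith

end Pool.Agent.MP_ae5b4e_an_ATK
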