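import Pool.Agent.Lib.MP_ae5b4e_an_ATK.Defs
import Pool.Agent.Lib.MP_ae5b4e_an_AT.Elem
import Pool.Agent.Lib.MP_ae5b4e_an_AT.Rev
import Pool.Agent.Lib.MP_ae5b4e_an_M.FnB

/-! # ATK: the limit chart -/

set_option autoImplicit false

noncomputable section

namespace Pool.Agent.MP_ae5b4e_an_ATK

open Complex Set Filter Topology Metric
open Pool.Agent.MP_ae5b4e_an_NB2 (Sys)
open Pool.Agent.MP_ae5b4e_an_M (S1 C1f Gf bb S1_sq C1f_sq bb_eq)
open Pool.Agent.MP_ae5b4e_an_A1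
open Pool.Agent.MP_ae5b4e_an_AT
open PorTR (Hm)

/-- Proof. `y = k α`, `W = 2 i y`. `α S1 (y²) = sin y / k` (`S1_sq`), `C1f (y²) / S1 (y²) = y cos y / sin y`
(`C1f_sq`, `S1_sq`; `sin y ≠ 0` since `exp W ≠ 1`, which follows from `hp`; `α ≠ 0`).
`sin y = (e^(iy) - e^(-iy)) / (2i) = e^(-W/2) (e^W - 1) / (2i)`, `e^W - 1 = 1/p`;
`y cot y = (W/2) (e^W + 1)/(e^W - 1) = (W/2) (1 + 2p)`. So `Gf = e^(-W/2) / (2 i k p) · e · e^(-W/2 - pW)`,
and `e^(-W) = p / (1 + p)`. -/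
theorem gf_chart {q : ℂ → ℂ} {l α k W p : ℂ} (hk : k ^ 2 = q l) (hk0 : k ≠ 0)
    (hW : 2 * I * k * α = W) (hp : cexp W * p = 1 + p) (hp0 : p ≠ 0) :
    Gf q l α = cexp 1 / (2 * I * k) * (cexp (-(p * W)) / (1 + p)) := by
  have hpp : 1 + p ≠ 0 := by
    rw [← hp]
    exact mul_ne_zero (Complex.exp_ne_zero _) hp0
  have hα : α ≠ 0 := by
    rintro rfl
    rw [mul_zero] at hW
    rw [← hW, Complex.exp_zero, one_mul] at hp
    exact one_ne_zero (show (1 : ℂ) = 0 by linear_combination -hp)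
  set y : ℂ := k * α with hy
  have hy0 : y ≠ 0 := mul_ne_zero hk0 hα
  have hq : q l * α ^ 2 = y ^ 2 := by rw [← hk, hy]; ring
  have hWy : W = 2 * (y * I) := by rw [← hW, hy]; ring
  set a : ℂ := cexp (y * I) with ha
  set b : ℂ := cexp (-y * I) with hb
  have hab : a * b = 1 := by
    rw [ha, hb, ← Complex.exp_add, show y * I + -y * I = 0 by ring, Complex.exp_zero]
  have hWa : cexp W = a ^ 2 := by rw [hWy, ha, ← Complex.exp_nat_mul]; norm_num
  have hWb : cexp (-(W / 2)) = b := by rw [hWy, hb]; congr 1; ring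
  have hpa : a ^ 2 * p = 1 + p := by rw [← hWa]; exact hp
  have hp1 : p * (a ^ 2 - 1) = 1 := by linear_combination hpa
  have ha0 : a ≠ 0 := Complex.exp_ne_zero _
  have hsin : sin y = (b - a) * I / 2 := by rw [Complex.sin]
  have hcos : cos y = (a + b) / 2 := by rw [Complex.cos]
  have hII : I * I = -1 := Complex.I_mul_I
  have hs1 : 2 * I * p * sin y = b := by
    rw [hsin]
    have : a * (2 * I * p * ((b - a) * I / 2) - b) = 0 := by
      linear_combination (p * (a * (b - a))) * hII + (-1 - p) * hab + hp1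
    exact sub_eq_zero.1 ((mul_eq_zero.1 this).resolve_left ha0)
  have hb0 : b ≠ 0 := Complex.exp_ne_zero _
  have hs0 : sin y ≠ 0 := by
    intro h
    rw [h, mul_zero] at hs1
    exact hb0 hs1.symm
  have hc1 : cos y = I * (1 + 2 * p) * sin y := by
    rw [hsin, hcos]
    have : a * ((a + b) / 2 - I * (1 + 2 * p) * ((b - a) * I / 2)) = 0 := by
      linear_combination (-(1 + 2 * p) * (a * (b - a)) / 2) * hII
        + (1 / 2 + (1 + 2 * p) / 2) * hab - hp1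
    exact sub_eq_zero.1 ((mul_eq_zero.1 this).resolve_left ha0)
  have hS := S1_sq y
  have hC := C1f_sq y
  have hS0 : S1 (y ^ 2) ≠ 0 := by
    intro h
    rw [h, mul_zero] at hS
    exact hs0 hS.symm
  have hS2 : S1 (y ^ 2) = sin y / y := by
    rw [eq_div_iff hy0]; linear_combination hS
  have hquot : C1f (y ^ 2) / S1 (y ^ 2) = W / 2 + p * W := by
    rw [hC, hS2, hc1, hWy]
    field_simp
  unfold Gf
  rw [hq, hquot, hS2]
  have hexp : cexp (1 - (W / 2 + p * W)) = cexp 1 * b * cexp (-(p * W)) := by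
    rw [← hWb, ← Complex.exp_add, ← Complex.exp_add]
    congr 1
    ring
  rw [hexp]
  have hbb : b ^ 2 * (1 + p) = p := by
    linear_combination (-b ^ 2) * hpa + p * (a * b + 1) * hab
  have hsy : α * (sin y / y) = sin y / k := by
    rw [hy]; field_simp
  have hI0 : (I : ℂ) ≠ 0 := Complex.I_ne_zero
  rw [show α * (sin y / y) * (cexp 1 * b * cexp (-(p * W))) =
    (α * (sin y / y)) * b * (cexp 1 * cexp (-(p * W))) by ring, hsy]
  have hfin : sin y / k * b = 1 / (2 * I * k * (1 + p)) := by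
    rw [eq_div_iff (mul_ne_zero (mul_ne_zero (mul_ne_zero two_ne_zero hI0) hk0) hpp), div_mul_eq_mul_div, div_mul_eq_mul_div, div_eq_iff hk0]
    have h3 : p * (sin y * b * (2 * I * k * (1 + p)) - 1 * k) = 0 := by
      linear_combination (k * b * (1 + p)) * hs1 + k * hbb
    exact sub_eq_zero.1 ((mul_eq_zero.1 h3).resolve_left hp0)
  rw [hfin]
  field_simp

variable {U : Ultrafilter ℕ} {Zs : ℕ → Sys} {ε : ℕ → ℝ} {q κ : ℂ → ℂ} {lb ℓ : ℂ} {R ρ : ℝ}
  {X J A Φ : ℂ → ℂ} {Xn Jn An : ℕ → ℂ → ℂ} {D : Set ℂ} {Lb : ℂ → ℂ}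

/-- Proof. `J (X l) ∈ ball lb (R / 2)` and `X (J (X l)) = X l`; `X` is injective. -/
theorem J_X (hK : Ks U Zs ε q κ lb ℓ R ρ X J A Φ Xn Jn An) {l : ℂ} (hl : l ∈ ball lb R)
    (hx : ‖X l‖ < ρ) : J (X l) = l := by
  have hc := hK.lim.crd
  have hx' : X l ∈ ball (0 : ℂ) ρ := by simpa using hx
  have h1 := hc.E_mem _ hx'
  have h2 := hc.X_E _ hx'
  exact hc.X_inj (ball_subset_ball (by linarith [hc.R₁_pos]) h1) hl h2

/-- `A (X l) = e^(-ℓ) (1 / (2 i κ))' (l)`. Proof. `Crd.A_eq`, `J_X`; `deriv X = 2 i κ` on the ball. -/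
theorem A_X (hK : Ks U Zs ε q κ lb ℓ R ρ X J A Φ Xn Jn An) {l : ℂ} (hl : l ∈ ball lb R)
    (hx : ‖X l‖ < ρ) : A (X l) = cexp (-ℓ) * deriv (fun l => 1 / (2 * I * κ l)) l := by
  have hc := hK.lim.crd
  have hx' : X l ∈ ball (0 : ℂ) ρ := by simpa using hx
  rw [hc.A_eq _ hx', J_X hK hl hx]
  congr 1
  refine Filter.EventuallyEq.deriv_eq ?_
  filter_upwards [isOpen_ball.mem_nhds hl] with z hz
  rw [(hK.lim.dX z hz).deriv]

/-- Proof. `X (J x) = x`; `2 i κ (J x) (Lb z / (2 i κ (J x))) = Lb z`, `exp (Lb z) - 1 = 1 / (e^ℓ z)`. -/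
theorem ct_em (hK : Ks U Zs ε q κ lb ℓ R ρ X J A Φ Xn Jn An) (hD : Br ℓ D Lb) {u : ℂ × ℂ}
    (h1 : ‖u.1‖ < ρ) (h2 : u.2 ∈ D) : Ct κ X ℓ (Em κ J Lb u) = u := by
  have hc := hK.lim.crd
  have hx' : u.1 ∈ ball (0 : ℂ) ρ := by simpa using h1
  have hj := hc.E_mem _ hx'
  have hκ := hK.lim.κ_ne _ (ball_subset_ball (by linarith [hc.R₁_pos]) hj)
  have hne := hD.ne _ h2
  have he := hD.eq _ h2
  have hI0 : (I : ℂ) ≠ 0 := Complex.I_ne_zero
  have h3 : 2 * I * κ (J u.1) * (Lb u.2 / (2 * I * κ (J u.1))) = Lb u.2 := by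
    field_simp
  unfold Ct Em
  refine Prod.ext (hc.X_E _ hx') ?_
  simp only
  rw [h3, he, Complex.exp_neg]
  have hel : cexp ℓ ≠ 0 := Complex.exp_ne_zero _
  field_simp
  ring

/-- Proof. `J_X` and division. -/
theorem em_ct (hK : Ks U Zs ε q κ lb ℓ R ρ X J A Φ Xn Jn An) {u : ℂ × ℂ} (hl : u.1 ∈ ball lb R)
    (hx : ‖X u.1‖ < ρ) (hW : 2 * I * κ u.1 * u.2 = Lb (Ct κ X ℓ u).2) :
    Em κ J Lb (Ct κ X ℓ u) = u := by
  have hκ := hK.lim.κ_ne _ hl
  have hI0 : (I : ℂ) ≠ 0 := Complex.I_ne_zero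
  have hj : J (Ct κ X ℓ u).1 = u.1 := J_X hK hl hx
  unfold Em
  rw [hj, ← hW]
  refine Prod.ext rfl ?_
  simp only
  field_simp

/-- Proof. Composition of continuous functions, the denominator does not vanish. -/
theorem ct_cont (hK : Ks U Zs ε q κ lb ℓ R ρ X J A Φ Xn Jn An) {u : ℂ × ℂ} (hl : u.1 ∈ ball lb R)
    (hW : cexp (2 * I * κ u.1 * u.2) ≠ 1) : ContinuousAt (Ct κ X ℓ) u := by
  have hX : ContinuousAt X u.1 :=
    (hK.lim.crd.X_an.differentiableAt (isOpen_ball.mem_nhds hl)).continuousAt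
  have hκ : ContinuousAt κ u.1 :=
    (hK.κ_an.differentiableAt (isOpen_ball.mem_nhds hl)).continuousAt
  have hX' : ContinuousAt (fun u : ℂ × ℂ => X u.1) u :=
    ContinuousAt.comp (f := Prod.fst) (g := X) hX continuousAt_fst
  have hκ' : ContinuousAt (fun u : ℂ × ℂ => κ u.1) u :=
    ContinuousAt.comp (f := Prod.fst) (g := κ) hκ continuousAt_fst
  have hden : ContinuousAt (fun u : ℂ × ℂ => cexp (2 * I * κ u.1 * u.2) - 1) u :=
    ((continuousAt_const.mul hκ').mul continuousAt_snd).cexp.sub continuousAt_const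
  exact hX'.prodMk (continuousAt_const.div hden (sub_ne_zero.2 hW))

end Pool.Agent.MP_ae5b4e_an_ATK
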