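import Pool.Agent.Lib.MP_ae5b4e_an_ATK.ChA
import Pool.Agent.Lib.MP_ae5b4e_an_AT.Elem
import Pool.Agent.Lib.MP_ae5b4e_an_AT.Rev

/-! # ATK: the limit equation in the chart -/

set_option autoImplicit false

noncomputable section

namespace Pool.Agent.MP_ae5b4e_an_ATK

open Complex Set Filter Topology Metric
open Pool.Agent.MP_ae5b4e_an_NB2 (Sys)
open Pool.Agent.MP_ae5b4e_an_M (S1 C1f Gf bb S1_sq C1f_sq bb_eq)
open Pool.Agent.MP_ae5b4e_an_A1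
open Pool.Agent.MP_ae5b4e_an_AT
open PorTR (Hm)

variable {U : Ultrafilter ℕ} {Zs : ℕ → Sys} {ε : ℕ → ℝ} {q κ : ℂ → ℂ} {lb ℓ : ℂ} {R ρ : ℝ}
  {X J A Φ : ℂ → ℂ} {Xn Jn An : ℕ → ℂ → ℂ} {D : Set ℂ} {Lb : ℂ → ℂ}

private theorem ChB_kd (hK : Ks U Zs ε q κ lb ℓ R ρ X J A Φ Xn Jn An) {l : ℂ}
    (hl : l ∈ ball lb R) : HasDerivAt κ (deriv κ l) l ∧ κ l ≠ 0 ∧ κ l ^ 2 = q l ∧
      deriv q l = 2 * κ l * deriv κ l ∧
      HasDerivAt (fun l => 1 / (2 * I * κ l)) (-(2 * I * deriv κ l) / (2 * I * κ l) ^ 2) l := by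
  have hk := (hK.κ_an.differentiableAt (isOpen_ball.mem_nhds hl)).hasDerivAt
  have hk0 := hK.lim.κ_ne l hl
  refine ⟨hk, hk0, hK.q_eq l hl, ?_, ?_⟩
  · have h1 : q =ᶠ[𝓝 l] fun l => κ l ^ 2 := by
      filter_upwards [isOpen_ball.mem_nhds hl] with z hz
      exact (hK.q_eq z hz).symm
    have h2 : HasDerivAt (fun l => κ l ^ 2) (2 * κ l * deriv κ l) l := by
      have h3 : HasDerivAt (fun l => κ l ^ 2)
          (((2 : ℕ) : ℂ) * κ l ^ (2 - 1) * deriv κ l) l := hk.pow 2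
      simpa using h3
    rw [h1.deriv_eq]
    exact h2.deriv
  · have h1 : HasDerivAt (fun l => 2 * I * κ l) (2 * I * deriv κ l) l := hk.const_mul (2 * I)
    have h2 : (2 * I * κ l) ≠ 0 := mul_ne_zero (mul_ne_zero two_ne_zero I_ne_zero) hk0
    have h3 := h1.inv h2
    simp only [one_div]
    exact h3

private theorem ChB_sin (y : ℂ) :
    sin y ^ 2 = -((cexp (2 * I * y) - 1) ^ 2 / (4 * cexp (2 * I * y))) := by
  have h1 : cexp (2 * I * y) = cexp (y * I) ^ 2 := by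
    rw [← Complex.exp_nat_mul]
    congr 1
    push_cast
    ring
  have h0 : cexp (y * I) ≠ 0 := exp_ne_zero _
  rw [Complex.sin, neg_mul, Complex.exp_neg, h1]
  field_simp
  linear_combination (4 * (1 - cexp (y * I) ^ 2) ^ 2) * I_sq

private theorem ChB_bb (hK : Ks U Zs ε q κ lb ℓ R ρ X J A Φ Xn Jn An) {l a : ℂ}
    (hl : l ∈ ball lb R) :
    bb q l a = -(deriv κ l / κ l) * (a ^ 2 +
      (cexp (2 * I * κ l * a) - 1) ^ 2 / (4 * cexp (2 * I * κ l * a)) / κ l ^ 2) := by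
  obtain ⟨hk, hk0, hq, hq', -⟩ := ChB_kd hK hl
  rw [bb_eq hq hk0, hq', ChB_sin, show 2 * I * (κ l * a) = 2 * I * κ l * a by ring]
  field_simp
  ring

private theorem ChB_s {s ℓ' : ℂ} (hs : s = 1 ∧ ℓ' = ℓ ∨ s = -1 ∧ ℓ' = ℓ - Real.pi * I) :
    s ^ 2 = 1 ∧ ‖s‖ = 1 ∧ cexp ℓ' = s * cexp ℓ := by
  rcases hs with ⟨rfl, rfl⟩ | ⟨rfl, rfl⟩
  · simp
  · refine ⟨by norm_num, by simp, ?_⟩
    rw [exp_sub_pi]
    ring

private theorem ChB_mem (hK : Ks U Zs ε q κ lb ℓ R ρ X J A Φ Xn Jn An) {s x : ℂ} (hs : ‖s‖ = 1)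
    (h1 : ‖x‖ < ρ) : s * x ∈ ball (0 : ℂ) ρ ∧ J (s * x) ∈ ball lb R := by
  have h2 : s * x ∈ ball (0 : ℂ) ρ := by
    rw [mem_ball_zero_iff, norm_mul, hs, one_mul]
    exact h1
  refine ⟨h2, ball_subset_ball ?_ (hK.lim.crd.E_mem _ h2)⟩
  have := hK.lim.crd.R₁_pos
  linarith

private theorem ChB_dJ (hK : Ks U Zs ε q κ lb ℓ R ρ X J A Φ Xn Jn An) {y : ℂ}
    (hy : y ∈ ball (0 : ℂ) ρ) (hJ : J y ∈ ball lb R) :
    HasDerivAt J (1 / (2 * I * κ (J y))) y := by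
  have h1 := (hK.lim.crd.E_an.differentiableAt (isOpen_ball.mem_nhds hy)).hasDerivAt
  have h2 := (hK.lim.dX (J y) hJ).comp y h1
  have h3 : X ∘ J =ᶠ[𝓝 y] id := by
    filter_upwards [isOpen_ball.mem_nhds hy] with z hz
    exact hK.lim.crd.X_E z hz
  have h4 := (h2.congr_of_eventuallyEq h3.symm).unique (hasDerivAt_id y)
  have h5 : (2 * I * κ (J y)) ≠ 0 :=
    mul_ne_zero (mul_ne_zero two_ne_zero I_ne_zero) (hK.lim.κ_ne _ hJ)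
  have h6 : deriv J y = 1 / (2 * I * κ (J y)) := by
    rw [eq_div_iff h5, mul_comm]
    exact h4
  rw [← h6]
  exact h1

private theorem ChB_alg {s E z k k' v : ℂ} (hs : s ≠ 0) (hE : E ≠ 0) (hz : z ≠ 0) (hk : k ≠ 0)
    (hne : 1 + s * E * z ≠ 0) :
    v * (-((2 * I * k) ^ 2)⁻¹ * (2 * I * (k' * (1 / (2 * I * k) * (s * v))))) +
      (2 * I * k)⁻¹ * (-(1 / (z * (1 + s * E * z))) * (E⁻¹ * (-(2 * I * k') / (2 * I * k) ^ 2))) =
    s * (-(k' / k) * ((v / (2 * I * k)) ^ 2 +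
      ((1 + s * E * z) / (s * E * z) - 1) ^ 2 / (4 * ((1 + s * E * z) / (s * E * z))) / k ^ 2)) := by
  have h4 : (2 * I * k) ^ 2 = -(4 * k ^ 2) := by
    rw [mul_pow, mul_pow, I_sq]
    ring
  have hI : I ≠ 0 := I_ne_zero
  have h5 : (1 + s * E * z) / (s * E * z) - 1 = 1 / (s * E * z) := by
    field_simp
    ring
  rw [div_pow, h4, h5]
  field_simp
  ring

private theorem ChB_A (hK : Ks U Zs ε q κ lb ℓ R ρ X J A Φ Xn Jn An) {y : ℂ}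
    (hy : y ∈ ball (0 : ℂ) ρ) (hJ : J y ∈ ball lb R) :
    A y = cexp (-ℓ) * (-(2 * I * deriv κ (J y)) / (2 * I * κ (J y)) ^ 2) := by
  have h1 : X (J y) = y := hK.lim.crd.X_E y hy
  have h2 := A_X hK hJ (by rw [h1]; exact mem_ball_zero_iff.1 hy)
  rw [h1, (ChB_kd hK hJ).2.2.2.2.deriv] at h2
  exact h2

/-- THE LIMIT EQUATION IN THE CHART.

Proof. `w := 2 i κ`, `W := w (l) a`, `p := 1 / (e^W - 1)`, so `e^W = (1 + p) / p`. By `bb_eq` (with `κ (l)`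
as the root): `bb = - (q' / (2 q)) (a² - sin² (κ a) / q)`, `q = κ²`, `q' = 2 κ κ'`, `sin² (W / (2i)) =
- (e^W - 1)² / (4 e^W) = - 1 / (4 p (1 + p))`. `W' = w' (l) a² + w bb = w' (l) / (w² p (1 + p))`
(`w' = 2 i κ'`, `w² = - 4 q`), `(1 / w)' = - w' / w²`, so `W' = - (1/w)' (e^W - 1)² / e^W`
(`p (1 + p) = e^W / (e^W - 1)²`) and `p' = - e^W W' / (e^W - 1)² = (1/w)' (l)`. -/
theorem chart_ode (hK : Ks U Zs ε q κ lb ℓ R ρ X J A Φ Xn Jn An) {l a : ℂ → ℂ} {θ : ℂ}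
    (hl : HasDerivAt l (a θ) θ) (ha : HasDerivAt a (bb q (l θ) (a θ)) θ) (hm : l θ ∈ ball lb R)
    (hne : cexp (2 * I * κ (l θ) * a θ) ≠ 1) :
    HasDerivAt (fun θ => X (l θ)) (2 * I * κ (l θ) * a θ) θ ∧
    HasDerivAt (fun θ => cexp (-ℓ) / (cexp (2 * I * κ (l θ) * a θ) - 1))
      (cexp (-ℓ) * deriv (fun l => 1 / (2 * I * κ l)) (l θ)) θ ∧
    HasDerivAt (fun θ => 2 * I * κ (l θ) * a θ)
      (-(deriv (fun l => 1 / (2 * I * κ l)) (l θ)) *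
        ((cexp (2 * I * κ (l θ) * a θ) - 1) ^ 2 / cexp (2 * I * κ (l θ) * a θ))) θ := by
  obtain ⟨hk, hk0, hq, hq', hD⟩ := ChB_kd hK hm
  set E : ℂ := cexp (2 * I * κ (l θ) * a θ) with hE
  have hE0 : E ≠ 0 := exp_ne_zero _
  have hE1 : E - 1 ≠ 0 := sub_ne_zero.2 hne
  have hW : HasDerivAt (fun θ => 2 * I * κ (l θ) * a θ)
      (-(deriv (fun l => 1 / (2 * I * κ l)) (l θ)) * ((E - 1) ^ 2 / E)) θ := by
    have h1 : HasDerivAt (fun θ => κ (l θ)) (deriv κ (l θ) * a θ) θ := hk.comp θ hl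
    have h2 := (h1.const_mul (2 * I)).mul ha
    have h3 : -(deriv (fun l => 1 / (2 * I * κ l)) (l θ)) * ((E - 1) ^ 2 / E) =
        2 * I * (deriv κ (l θ) * a θ) * a θ + 2 * I * κ (l θ) * bb q (l θ) (a θ) := by
      rw [ChB_bb hK hm, hD.deriv, ← hE]
      have h4 : (2 * I * κ (l θ)) ^ 2 = -(4 * κ (l θ) ^ 2) := by
        rw [mul_pow, mul_pow, I_sq]
        ring
      rw [h4]
      field_simp
      ring
    rw [h3]
    exact h2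
  refine ⟨?_, ?_, hW⟩
  · exact (hK.lim.dX (l θ) hm).comp θ hl
  · have h2 : HasDerivAt (fun θ => cexp (-ℓ) / (cexp (2 * I * κ (l θ) * a θ) - 1))
        ((0 * (E - 1) - cexp (-ℓ) * (E * (-(deriv (fun l => 1 / (2 * I * κ l)) (l θ)) *
          ((E - 1) ^ 2 / E)))) / (E - 1) ^ 2) θ :=
      (hasDerivAt_const θ (cexp (-ℓ))).div (hW.cexp.sub_const 1) hE1
    convert h2 using 1
    field_simp
    ring

/-- Proof. `gf_chart` with `k = κ (J (s x))`, `W = lam ℓ' z`, `p = e^ℓ' z` (`AT.exp_lam`);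
`en = Φ (s x) + log (1 + p) + p lam`; `Lim.expΦ`. -/
theorem gf_Es (hK : Ks U Zs ε q κ lb ℓ R ρ X J A Φ Xn Jn An) {s ℓ' : ℂ}
    (hs : s = 1 ∧ ℓ' = ℓ ∨ s = -1 ∧ ℓ' = ℓ - Real.pi * I) {u : ℂ × ℂ} (h1 : ‖u.1‖ < ρ)
    (h2 : u.2 ∈ slitPlane) (h3 : ‖cexp ℓ' * u.2‖ < 1) :
    Gf q (Es κ J ℓ' s u).1 (Es κ J ℓ' s u).2 = cexp (-en ℓ' (fun x => Φ (s * x)) u) := by
  obtain ⟨hs2, hsn, hse⟩ := ChB_s hs
  obtain ⟨hy, hJ⟩ := ChB_mem hK hsn h1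
  have hz : u.2 ≠ 0 := slitPlane_ne_zero h2
  have hp0 : cexp ℓ' * u.2 ≠ 0 := mul_ne_zero (exp_ne_zero _) hz
  have hs0 : 1 + cexp ℓ' * u.2 ≠ 0 := slitPlane_ne_zero (mem_slitPlane_of_norm_lt_one h3)
  have hk0 := hK.lim.κ_ne _ hJ
  have hw0 : (2 * I * κ (J (s * u.1))) ≠ 0 :=
    mul_ne_zero (mul_ne_zero two_ne_zero I_ne_zero) hk0
  have h5 := gf_chart (q := q) (l := (Es κ J ℓ' s u).1) (α := (Es κ J ℓ' s u).2)
    (k := κ (J (s * u.1))) (W := lam ℓ' u.2) (p := cexp ℓ' * u.2) (hK.q_eq _ hJ) hk0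
    (by
      show 2 * I * κ (J (s * u.1)) * (lam ℓ' u.2 / (2 * I * κ (J (s * u.1)))) = lam ℓ' u.2
      rw [mul_div_cancel₀ _ hw0])
    (by rw [exp_lam hz hs0, div_mul_cancel₀ _ hp0]) hp0
  rw [h5, ← hK.lim.expΦ _ hy]
  have h6 : -en ℓ' (fun x => Φ (s * x)) u = -Φ (s * u.1) + (-(cexp ℓ' * u.2 * lam ℓ' u.2) -
      log (1 + cexp ℓ' * u.2)) := by
    unfold en sz lam
    ring
  rw [h6, Complex.exp_add, Complex.exp_sub, Complex.exp_log hs0]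

/-- THE FIELD IN THE CHART.

Proof. `J' = 1 / w ∘ J` (`w = 2 i κ`). `Es` is differentiable. First component along the vector
`(lam, A)`: `s J' (s x) lam = s α`. Second component `α = lam (z) / w (J (s x))`:
`lam' (z) A / w - lam w' (J) J' s lam / w² = - A / (z (1 + p) w) - s lam² w' / w³` with `p = e^ℓ' z = s e^ℓ z`
(`AT.hasDerivAt_lam`), and `s bb = s w' / (w³ p (1 + p)) - s w' lam² / w³` (computation of `chart_ode`);
they agree because `A = e^(-ℓ) (1/w)' = - e^(-ℓ) w' / w²`. -/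
theorem es_field (hK : Ks U Zs ε q κ lb ℓ R ρ X J A Φ Xn Jn An) {s ℓ' : ℂ}
    (hs : s = 1 ∧ ℓ' = ℓ ∨ s = -1 ∧ ℓ' = ℓ - Real.pi * I) {u : ℂ × ℂ} (h1 : ‖u.1‖ < ρ)
    (h2 : u.2 ∈ slitPlane) (h3 : ‖cexp ℓ' * u.2‖ < 1) :
    ∃ T : ℂ × ℂ →L[ℂ] ℂ × ℂ, HasFDerivAt (Es κ J ℓ' s) T u ∧
      T (lam ℓ' u.2, A (s * u.1)) = s • gI q (Es κ J ℓ' s u) := by
  obtain ⟨hs2, hsn, hse⟩ := ChB_s hs
  obtain ⟨hy, hJ⟩ := ChB_mem hK hsn h1
  obtain ⟨hk, hk0, hq, hq', hD⟩ := ChB_kd hK hJ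
  have hz : u.2 ≠ 0 := slitPlane_ne_zero h2
  have hp0 : cexp ℓ' * u.2 ≠ 0 := mul_ne_zero (exp_ne_zero _) hz
  have hs0 : 1 + cexp ℓ' * u.2 ≠ 0 := slitPlane_ne_zero (mem_slitPlane_of_norm_lt_one h3)
  have hw0 : (2 * I * κ (J (s * u.1))) ≠ 0 :=
    mul_ne_zero (mul_ne_zero two_ne_zero I_ne_zero) hk0
  have hdJ := ChB_dJ hK hy hJ
  have hA := ChB_A hK hy hJ
  have hbb := ChB_bb hK (a := (Es κ J ℓ' s u).2) hJ
  set k : ℂ := κ (J (s * u.1)) with hkd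
  set k' : ℂ := deriv κ (J (s * u.1)) with hk'
  set v : ℂ := lam ℓ' u.2 with hv
  have hfst : HasFDerivAt (fun u : ℂ × ℂ => s * u.1) (s • ContinuousLinearMap.fst ℂ ℂ ℂ) u := by
    have h4 := (hasFDerivAt_fst (𝕜 := ℂ) (p := u)).const_mul s
    exact h4
  have hf1 : HasFDerivAt (fun u : ℂ × ℂ => J (s * u.1))
      ((1 / (2 * I * k)) • (s • ContinuousLinearMap.fst ℂ ℂ ℂ)) u :=
    hdJ.comp_hasFDerivAt u hfst
  have hf3 : HasFDerivAt (fun u : ℂ × ℂ => 2 * I * κ (J (s * u.1)))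
      ((2 * I) • (k' • ((1 / (2 * I * k)) • (s • ContinuousLinearMap.fst ℂ ℂ ℂ)))) u :=
    (hk.comp_hasFDerivAt u hf1).const_mul (2 * I)
  have hf2 : HasFDerivAt (fun u : ℂ × ℂ => lam ℓ' u.2)
      ((-(1 / (u.2 * (1 + cexp ℓ' * u.2)))) • ContinuousLinearMap.snd ℂ ℂ ℂ) u :=
    (hasDerivAt_lam h2 h3).comp_hasFDerivAt u hasFDerivAt_snd
  have hf4 : HasFDerivAt (fun u : ℂ × ℂ => lam ℓ' u.2 * (2 * I * κ (J (s * u.1)))⁻¹) _ u :=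
    hf2.mul ((hasDerivAt_inv hw0).comp_hasFDerivAt u hf3)
  refine ⟨_, hf1.prodMk hf4, ?_⟩
  have hEs2 : (Es κ J ℓ' s u).2 = v / (2 * I * k) := rfl
  have hexp : cexp (2 * I * k * (Es κ J ℓ' s u).2) =
      (1 + cexp ℓ' * u.2) / (cexp ℓ' * u.2) := by
    rw [hEs2, mul_div_cancel₀ _ hw0, hv, exp_lam hz hs0]
  rw [hexp] at hbb
  have hs0' : s ≠ 0 := by
    intro h0
    rw [h0, norm_zero] at hsn
    exact zero_ne_one hsn
  have hne' : 1 + s * cexp ℓ * u.2 ≠ 0 := by rw [← hse]; exact hs0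
  have hEs1 : (Es κ J ℓ' s u).1 = J (s * u.1) := rfl
  have hc := ChB_alg (k' := k') (v := v) hs0' (exp_ne_zero ℓ) hz hk0 hne'
  ext
  · simp only [gI, hEs2, ContinuousLinearMap.prod_apply, Prod.smul_fst, ContinuousLinearMap.smul_apply,
      ContinuousLinearMap.coe_fst', smul_eq_mul]
    ring
  · simp only [gI, ContinuousLinearMap.prod_apply, Prod.smul_snd, ContinuousLinearMap.smul_apply,
      ContinuousLinearMap.add_apply, ContinuousLinearMap.coe_fst', ContinuousLinearMap.coe_snd',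
      smul_eq_mul]
    rw [hEs1, hbb, hEs2, hA, hse, Complex.exp_neg]
    exact hc

/-- Proof. Composition of analytic functions (`J` holomorphic, `lam` holomorphic on the slit plane,
`κ (J x) ≠ 0`). -/
theorem es_an (hK : Ks U Zs ε q κ lb ℓ R ρ X J A Φ Xn Jn An) {s ℓ' : ℂ}
    (hs : s = 1 ∧ ℓ' = ℓ ∨ s = -1 ∧ ℓ' = ℓ - Real.pi * I) {u : ℂ × ℂ} (h1 : ‖u.1‖ < ρ)
    (h2 : u.2 ∈ slitPlane) (h3 : ‖cexp ℓ' * u.2‖ < 1) : AnalyticAt ℂ (Es κ J ℓ' s) u := by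
  obtain ⟨hs2, hsn, hse⟩ := ChB_s hs
  obtain ⟨hy, hJ⟩ := ChB_mem hK hsn h1
  have hk0 := hK.lim.κ_ne _ hJ
  have hw0 : (2 * I * κ (J (s * u.1))) ≠ 0 :=
    mul_ne_zero (mul_ne_zero two_ne_zero I_ne_zero) hk0
  have hf0 : AnalyticAt ℂ (fun u : ℂ × ℂ => s * u.1) u := analyticAt_const.mul analyticAt_fst
  have hJa : AnalyticAt ℂ J (s * u.1) :=
    hK.lim.crd.E_an.analyticAt (isOpen_ball.mem_nhds hy)
  have hf1 : AnalyticAt ℂ (fun u : ℂ × ℂ => J (s * u.1)) u := 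
    AnalyticAt.fun_comp (g := J) (f := fun u : ℂ × ℂ => s * u.1) hJa hf0
  have hka : AnalyticAt ℂ κ (J (s * u.1)) := hK.κ_an.analyticAt (isOpen_ball.mem_nhds hJ)
  have hf2 : AnalyticAt ℂ (fun u : ℂ × ℂ => κ (J (s * u.1))) u := 
    AnalyticAt.fun_comp (g := κ) (f := fun u : ℂ × ℂ => J (s * u.1)) hka hf1
  have hf3 : AnalyticAt ℂ (fun u : ℂ × ℂ => lam ℓ' u.2) u := by
    unfold lam
    refine ((AnalyticAt.clog ?_ ?_).sub analyticAt_const).sub (analyticAt_snd.clog h2)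
    · exact analyticAt_const.add (analyticAt_const.mul analyticAt_snd)
    · exact mem_slitPlane_of_norm_lt_one h3
  exact hf1.prod (hf3.div (analyticAt_const.mul hf2) hw0)

end Pool.Agent.MP_ae5b4e_an_ATK
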