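import Pool.Agent.Lib.MP_ae5b4e_an_ATK.Br
import Pool.Agent.Lib.MP_ae5b4e_an_ATK.EnS

/-! # ATK: chains below the tip -/

set_option autoImplicit false

noncomputable section

namespace Pool.Agent.MP_ae5b4e_an_ATK

open Complex Set Filter Topology Metric
open Pool.Agent.MP_ae5b4e_an_NB2 (Sys)
open Pool.Agent.MP_ae5b4e_an_A1
open Pool.Agent.MP_ae5b4e_an_AT
open PorTR (Hm)

variable {U : Ultrafilter ℕ} {Zs : ℕ → Sys} {ε : ℕ → ℝ} {q κ : ℂ → ℂ} {lb ℓ : ℂ} {R ρ : ℝ}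
  {X J A Φ : ℂ → ℂ} {Xn Jn An : ℕ → ℂ → ℂ} {Ω : Set (ℂ × ℂ)} {z : ℂ × ℂ → ℂ × ℂ}
  {θb g₀ : ℂ} {s₁ η : ℝ}

/-- The states of a chain below the tip are the iterates of the exact step. Proof. The compact set
`K = closedBall 0 (ρ / 2) × {Im ≤ |Re|, κ₀ ≤ ‖·‖ ≤ 2 t}` (`low_compact`, `low_sub`) contains all `v k`;
`Fl ℓ h A u = sc h A (laml ℓ) u` (`rfl`); `en_step` for `br_low` and induction on `k`. -/
theorem chain_iter {ξ : ℕ → ℂ × ℂ → ℂ} (hξ : XI U Zs ε ξ)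
    (hK : Ks U Zs ε q κ lb ℓ R ρ X J A Φ Xn Jn An) (he : ∀ n, 0 < ε n)
    (he0 : Tendsto ε U (𝓝 0)) {κ₀ t : ℝ} (hκ : 0 < κ₀) (htl : ‖cexp ℓ‖ * (2 * t) < 1) :
    ∀ᶠ n in (U : Filter ℕ), ∀ (m : ℕ) (v : ℕ → ℂ × ℂ),
      (∀ k ≤ m, ‖(v k).1‖ < ρ / 2 ∧ (v k).2 ∈ Low κ₀ t) →
      (∀ k < m, v (k + 1) = Fl ℓ (ε n) (An n) (v k)) → ∀ k ≤ m,
        (stp (ε n) (gx ε ξ n))^[k] (En (ε n) (Jn n) (laml ℓ) (v 0)) =
          En (ε n) (Jn n) (laml ℓ) (v k) := by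
  have hρ : 0 < ρ := hK.lim.crd.ρ_pos
  have hKc : IsCompact (closedBall (0 : ℂ) (ρ / 2) ×ˢ
      {z : ℂ | z.im ≤ |z.re| ∧ κ₀ ≤ ‖z‖ ∧ ‖z‖ ≤ 2 * t}) :=
    (isCompact_closedBall _ _).prod (low_compact κ₀ (2 * t))
  have hKD : closedBall (0 : ℂ) (ρ / 2) ×ˢ
      {z : ℂ | z.im ≤ |z.re| ∧ κ₀ ≤ ‖z‖ ∧ ‖z‖ ≤ 2 * t} ⊆
      ball 0 ρ ×ˢ {z | I * z ∈ slitPlane ∧ ‖cexp ℓ * z‖ < 1} :=
    Set.prod_mono (closedBall_subset_ball (by linarith)) (low_sub hκ htl)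
  filter_upwards [en_step hK he he0 hξ (br_low ℓ) hKc hKD] with n hn
  intro m v hv hstep
  have hmem : ∀ k ≤ m, v k ∈ closedBall (0 : ℂ) (ρ / 2) ×ˢ
      {z : ℂ | z.im ≤ |z.re| ∧ κ₀ ≤ ‖z‖ ∧ ‖z‖ ≤ 2 * t} := by
    intro k hk
    obtain ⟨h1, h2, h3, h4⟩ := hv k hk
    refine ⟨?_, h2.le.trans (by linarith [abs_nonneg (v k).2.re]), h3, h4.le⟩
    rw [mem_closedBall, dist_zero_right]
    exact h1.le
  intro k
  induction k with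
  | zero =>
    intro _
    rfl
  | succ k ih =>
    intro hk
    have e1 : v (k + 1) = sc (ε n) (An n) (laml ℓ) (v k) := hstep k (by omega)
    rw [Function.iterate_succ_apply', ih (by omega), e1]
    refine hn (v k) (hmem k (by omega)) ?_
    rw [← e1]
    exact hmem (k + 1) hk

end Pool.Agent.MP_ae5b4e_an_ATK
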