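import Pool.Agent.Lib.MP_ae5b4e_an_K1.Defs
import Pool.Agent.Lib.MP_ae5b4e_an_A1.Fld
import Pool.Agent.Lib.MP_ae5b4e_an_M.FnA

/-!
# MP_ae5b4e_an, block ATK (tips, concrete part): definitions

`X, J, A, Φ` = limit WKB frame near the label `lb` of the tip (block K1; `J` is the inverse of `X`),
`Xn, Jn, An` = frames of the systems `Zs n`, step `ε n`. State = `(l, α)`, `l⁺ = l + ε α`; chart
coordinates `x = X l`, `e^ℓ z = 1 / (exp (2 i κ α) - 1)`.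
-/

set_option autoImplicit false

noncomputable section

namespace Pool.Agent.MP_ae5b4e_an_ATK

open Complex Set Filter Topology Metric
open Pool.Agent.MP_ae5b4e_an_NB2 (Sys)
open Pool.Agent.MP_ae5b4e_an_M (S1 C1f Gf bb)
open Pool.Agent.MP_ae5b4e_an_A1
open Pool.Agent.MP_ae5b4e_an_AT
open Pool.Agent.MP_ae5b4e_an_K1 (Crd Lim Fr Near)
open PorTR (Hm)

/-- the frames of a sequence of systems near the label `lb`, on fixed balls, converging -/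
structure Ks (U : Ultrafilter ℕ) (Zs : ℕ → Sys) (ε : ℕ → ℝ) (q κ : ℂ → ℂ) (lb ℓ : ℂ) (R ρ : ℝ)
    (X J A Φ : ℂ → ℂ) (Xn Jn An : ℕ → ℂ → ℂ) : Prop where
  lim : Lim κ lb ℓ R ρ X J A Φ
  κ_an : DifferentiableOn ℂ κ (ball lb R)
  q_eq : ∀ l ∈ ball lb R, κ l ^ 2 = q l
  low : ∀ l ∈ ball lb R, l.im < 0
  fr : ∀ᶠ n in (U : Filter ℕ), (Zs n).On (ball lb R) ∧
    ∃ a b a' b' : ℂ, Fr (Zs n) lb ℓ R ρ (ε n) a b a' b' (Xn n) (Jn n) (An n)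
  near : ∀ δ : ℝ, 0 < δ → ∀ᶠ n in (U : Filter ℕ), Near lb R ρ δ (Xn n) (Jn n) (An n) X J A

/-- `Lb` is a branch of `log (1 + 1/p)`, `p = e^ℓ z`, on the open set `D` -/
structure Br (ℓ : ℂ) (D : Set ℂ) (Lb : ℂ → ℂ) : Prop where
  D_open : IsOpen D
  an : DifferentiableOn ℂ Lb D
  ne : ∀ z ∈ D, z ≠ 0
  eq : ∀ z ∈ D, cexp (Lb z) = 1 + 1 / (cexp ℓ * z)

/-- the branch on the left side of the tip -/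
def lamm (ℓ z : ℂ) : ℂ := lam (ℓ - Real.pi * I) (-z)

/-- the limit state of a chart point -/
def Em (κ J Lb : ℂ → ℂ) (u : ℂ × ℂ) : ℂ × ℂ := (J u.1, Lb u.2 / (2 * I * κ (J u.1)))

/-- the exact state of a chart point -/
def En (h : ℝ) (J Lb : ℂ → ℂ) (u : ℂ × ℂ) : ℂ × ℂ :=
  (J u.1, (J (u.1 + h * Lb u.2) - J u.1) / h)

/-- one step in the chart -/
def sc (h : ℝ) (A Lb : ℂ → ℂ) (u : ℂ × ℂ) : ℂ × ℂ :=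
  (u.1 + h * Lb u.2, u.2 + h * A (u.1 + h * Lb u.2))

/-- the chart -/
def Ct (κ X : ℂ → ℂ) (ℓ : ℂ) (u : ℂ × ℂ) : ℂ × ℂ :=
  (X u.1, cexp (-ℓ) / (cexp (2 * I * κ u.1 * u.2) - 1))

/-- disc without a cone above the centre -/
def Sl (θb : ℂ) (s : ℝ) : Set ℂ := {θ | ‖θ - θb‖ < s ∧ (θ - θb).im < 3 / 5 * |(θ - θb).re|}

/-- the trajectory `θ ↦ z (θ, g₀)` has a tip at `θb` (vertical limit from below) -/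
structure Tp (q : ℂ → ℂ) (Ω : Set (ℂ × ℂ)) (z : ℂ × ℂ → ℂ × ℂ) (θb g₀ : ℂ) (s₀ : ℝ) (lb : ℂ) :
    Prop where
  s_pos : 0 < s₀
  slit : ∀ θ ∈ Sl θb s₀, (θ, g₀) ∈ Ω
  low : lb.im < 0
  ne : q lb ≠ 0
  reg : deriv q lb ≠ 0
  lim : Tendsto (fun s : ℝ => (z (θb - I * s, g₀)).1) (𝓝[>] 0) (𝓝 lb)
  inf : Tendsto (fun s : ℝ => ‖C1f (q (z (θb - I * s, g₀)).1 * (z (θb - I * s, g₀)).2 ^ 2)‖)
    (𝓝[>] 0) atTop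

/-- local form of the trajectory at the tip, in the chart -/
structure Tl (κ X : ℂ → ℂ) (lb ℓ : ℂ) (R η : ℝ) (z : ℂ × ℂ → ℂ × ℂ) (θb g₀ : ℂ) (s₁ : ℝ) :
    Prop where
  pos : 0 < s₁
  mem : ∀ θ ∈ Sl θb s₁, (z (θ, g₀)).1 ∈ ball lb R
  x_near : ∀ θ ∈ Sl θb s₁, ‖X (z (θ, g₀)).1‖ < η
  ne : ∀ θ ∈ Sl θb s₁, cexp (2 * I * κ (z (θ, g₀)).1 * (z (θ, g₀)).2) ≠ 1
  z_near : ∀ θ ∈ Sl θb s₁, ‖(Ct κ X ℓ (z (θ, g₀))).2 - (θ - θb)‖ ≤ ‖θ - θb‖ / 100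
  br : ∀ θ ∈ Sl θb s₁,
    2 * I * κ (z (θ, g₀)).1 * (z (θ, g₀)).2 = laml ℓ (Ct κ X ℓ (z (θ, g₀))).2

/-- the base region with free sizes -/
def NP (ℓ : ℂ) (Φ : ℂ → ℂ) (t a b r : ℝ) : Set (ℂ × ℂ) :=
  {u | ‖u.1‖ < a ∧ ‖u.2 - t‖ < b ∧ ‖en ℓ Φ u - Φ 0‖ < r}

/-- the limit state of a point of the base region (`s = 1`, `ℓ' = ℓ`: right side; `s = -1`,
`ℓ' = ℓ - π i`: left side, reversed variables) -/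
def Es (κ J : ℂ → ℂ) (ℓ' s : ℂ) (u : ℂ × ℂ) : ℂ × ℂ :=
  (J (s * u.1), lam ℓ' u.2 / (2 * I * κ (J (s * u.1))))

/-- the coordinates `(θ, γ)` of the points of the base region, in the limit -/
structure Pb (κ J Φ' : ℂ → ℂ) (Ω : Set (ℂ × ℂ)) (z : ℂ × ℂ → ℂ × ℂ) (ℓ' s θb g₀ : ℂ)
    (t a r η : ℝ) (P : ℂ × ℂ → ℂ × ℂ) : Prop where
  r_pos : 0 < r
  an : AnalyticOnNhd ℂ P (NP ℓ' Φ' t a (t * (7 / 25)) r)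
  mem : ∀ u ∈ NP ℓ' Φ' t a (t * (7 / 25)) r, P u ∈ Ω
  fst : ∀ u ∈ NP ℓ' Φ' t a (t * (7 / 25)) r, ‖(P u).1 - (θb + s * t)‖ < t / 3
  snd_near : ∀ u ∈ NP ℓ' Φ' t a (t * (7 / 25)) r, ‖(P u).2 - g₀‖ < η
  eq : ∀ u ∈ NP ℓ' Φ' t a (t * (7 / 25)) r, z (P u) = Es κ J ℓ' s u
  snd : ∀ u ∈ NP ℓ' Φ' t a (t * (7 / 25)) r, (P u).2 = cexp (-en ℓ' Φ' u)
  jac : ∀ u ∈ NP ℓ' Φ' t a (t * (7 / 25)) r,
    jac (fun u => (P u).1) (fun u => (P u).2) u = -s * cexp ℓ' * cexp (-en ℓ' Φ' u)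

/-- ONE PASSAGE (helper68): exact families `Zl` (box about `al + i y₀`) and `Zr` (box about
`ar + i y₀`), kick `(A, B)` of the passage below the height `Yb` -/
structure Ps (U : Ultrafilter ℕ) (ε : ℕ → ℝ) (gn : ℕ → ℂ × ℂ → ℂ × ℂ) (z : ℂ × ℂ → ℂ × ℂ)
    (al ar y₀ y₁ w r : ℝ) (g₀ : ℂ) (Yb : ℂ → ℝ) (Zl Zr : ℕ → ℂ × ℂ → ℂ × ℂ)
    (A B : ℕ → ℂ × ℂ → ℂ) : Prop where
  w_pos : 0 < w
  r_pos : 0 < r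
  a_lt : al < ar
  y_gt : y₀ - w < y₁
  y_lt : y₁ < y₀
  Y_lt : Yb g₀ < y₀ + w / 2
  exl : Ex U ε gn (Pool.Agent.MP_ae5b4e_an_BX.Rec (al - w) (al + w) (y₀ - w) (y₀ + w) ×ˢ
    ball g₀ (2 * r)) z Zl
  exr : Ex U ε gn (Pool.Agent.MP_ae5b4e_an_BX.Rec (ar - w) (ar + w) (y₀ - w) (y₀ + w) ×ˢ
    ball g₀ (2 * r)) z Zr
  per : ∀ n p, A n (tr (ε n) p) = A n p ∧ B n (tr (ε n) p) = B n p
  an : ∀ η : ℝ, 0 < η → ∀ᶠ n in (U : Filter ℕ),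
    AnalyticOnNhd ℂ (A n) (Str y₁ (fun γ => Yb γ - η) g₀ r) ∧
    AnalyticOnNhd ℂ (B n) (Str y₁ (fun γ => Yb γ - η) g₀ r)
  lim : ∀ η : ℝ, 0 < η → ∀ δ : ℝ, 0 < δ → ∀ᶠ n in (U : Filter ℕ),
    ∀ p ∈ Str y₁ (fun γ => Yb γ - η) g₀ r, ‖A n p‖ ≤ δ ∧ ‖B n p‖ ≤ δ
  pas : ∀ η : ℝ, 0 < η → ∀ᶠ n in (U : Filter ℕ),
    ∀ p ∈ Str y₁ (fun γ => Yb γ - η) g₀ r, |p.1.re - ar| ≤ 4 * ε n →
      Zr n (p.1 + A n p, p.2 + B n p) = push (ε n) (gn n) ⌊(ar - al) / ε n⌋₊ (Zl n) p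

end Pool.Agent.MP_ae5b4e_an_ATK
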