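import Pool.Agent.Lib.MP_ae5b4e_an_ATK.Defs
import Pool.Agent.Lib.MP_ae5b4e_an_K1.Top

/-! # ATK: sequences of frames -/

set_option autoImplicit false

noncomputable section

namespace Pool.Agent.MP_ae5b4e_an_ATK

open Complex Set Filter Topology Metric
open Pool.Agent.MP_ae5b4e_an_NB2 (Sys)
open Pool.Agent.MP_ae5b4e_an_PB (Base)
open Pool.Agent.MP_ae5b4e_an_M (Win Zn qI)
open PorTR (Hm)

private theorem exp_neg_congr {ℓ ℓ' : ℂ} (he : cexp ℓ' = cexp ℓ) : cexp (-ℓ') = cexp (-ℓ) := by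
  rw [Complex.exp_neg, Complex.exp_neg, he]

private theorem crd_congr {lb ℓ ℓ' : ℂ} {R₁ ρ : ℝ} {X E A : ℂ → ℂ}
    (h : Pool.Agent.MP_ae5b4e_an_K1.Crd lb ℓ R₁ ρ X E A) (he : cexp ℓ' = cexp ℓ) :
    Pool.Agent.MP_ae5b4e_an_K1.Crd lb ℓ' R₁ ρ X E A :=
  ⟨h.R₁_pos, h.ρ_pos, h.X_an, h.X_lb, h.X_inj, h.X_ne, h.E_an, h.E_mem, h.X_E,
    fun x hx => by rw [exp_neg_congr he]; exact h.A_eq x hx, h.A_an⟩

private theorem near_mono {lb : ℂ} {R₁ ρ ε ε' : ℝ} {X E A X₀ E₀ A₀ : ℂ → ℂ}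
    (h : Pool.Agent.MP_ae5b4e_an_K1.Near lb R₁ ρ ε X E A X₀ E₀ A₀) (he : ε ≤ ε') :
    Pool.Agent.MP_ae5b4e_an_K1.Near lb R₁ ρ ε' X E A X₀ E₀ A₀ :=
  ⟨fun l hl => (h.X_cl l hl).trans he, fun l hl => (h.dX_cl l hl).trans he,
    fun l hl => (h.E_cl l hl).trans he, fun l hl => (h.A_cl l hl).trans he⟩

/-- Only `exp ℓ` matters. Proof. `Crd`, `Side` contain only `cexp ℓ` and `cexp (-ℓ)`. -/
theorem Ks.congr {U : Ultrafilter ℕ} {Zs : ℕ → Sys} {ε : ℕ → ℝ} {q κ : ℂ → ℂ} {lb ℓ ℓ' : ℂ}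
    {R ρ : ℝ} {X J A Φ : ℂ → ℂ} {Xn Jn An : ℕ → ℂ → ℂ}
    (h : Ks U Zs ε q κ lb ℓ R ρ X J A Φ Xn Jn An) (he : cexp ℓ' = cexp ℓ) :
    Ks U Zs ε q κ lb ℓ' R ρ X J A Φ Xn Jn An := by
  refine ⟨⟨crd_congr h.lim.crd he, h.lim.κ_ne, h.lim.dX, ⟨h.lim.side.ρ_pos, h.lim.side.one,
    h.lim.side.near, h.lim.side.an, fun x hx => ?_⟩, h.lim.expΦ⟩, h.κ_an, h.q_eq, h.low, ?_, h.near⟩
  · rw [he]
    exact h.lim.side.prim x hx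
  · filter_upwards [h.fr] with n hn
    obtain ⟨h1, a, b, a', b', h2⟩ := hn
    exact ⟨h1, a, b, a', b', crd_congr h2.crd he, h2.h_pos, h2.wr, h2.ne, h2.exp⟩

/-- Proof. `K1.wkb_win`, then `A1.slow` (`ev_ge`) for
`P j n (X, J, A) := (Zn n).On (ball lb R) ∧ (∃ a b a' b', Fr ..) ∧ Near .. (1 / (j + 1)) ..`,
antitone in `j`. The
ball of the limit frame is smaller than `ball lb R`; `κ² = qI` there. -/
theorem exists_Ks {Y : Sys} {h R' C0 : ℝ} {v : ℂ → ℝ} {G L : ℂ × ℂ → ℂ} {U : Ultrafilter ℕ}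
    {β C1 : ℝ} {c V : ℕ → ℝ} (hB : Base Y h R' C0 v G L) (HW : Win v U β C1 c V) (x : ℕ → ℝ)
    {κ : ℂ → ℂ} {lb ℓ : ℂ} {R : ℝ} (hR : 0 < R) (hRH : closedBall lb R ⊆ Hm)
    (hκ : DifferentiableOn ℂ κ (ball lb R)) (hq : ∀ l ∈ ball lb R, κ l ^ 2 = qI Y h U x c V l)
    (h0 : κ lb ≠ 0) (hℓ : cexp ℓ = deriv (fun l => 1 / (2 * I * κ l)) lb) :
    ∃ (R₁ ρ : ℝ) (X J A Φ : ℂ → ℂ) (Xn Jn An : ℕ → ℂ → ℂ),
      Ks U (fun n => Zn Y h x V n) (fun n => c n / V n) (qI Y h U x c V) κ lb ℓ R₁ ρ X J A Φ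
        Xn Jn An := by
  obtain ⟨R₁, ρ, X₀, E₀, A₀, Φ, hR₁, hL, hW⟩ :=
    Pool.Agent.MP_ae5b4e_an_K1.wkb_win hB HW x hR hRH hκ hq h0 hℓ
  have hsub : ball lb R₁ ⊆ ball lb R := ball_subset_ball hR₁.le
  have hslow := Pool.Agent.MP_ae5b4e_an_A1.slow (X := (ℂ → ℂ) × (ℂ → ℂ) × (ℂ → ℂ)) (U := U)
    (Pool.Agent.MP_ae5b4e_an_A1.ev_ge (ε := fun n => c n / V n)
      (fun n => div_pos (HW.c_pos n) (HW.V_pos n)) (Pool.Agent.MP_ae5b4e_an_M.cV_lim HW))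
    (P := fun j n w => (Zn Y h x V n).On (ball lb R) ∧
      (∃ a b a' b' : ℂ, Pool.Agent.MP_ae5b4e_an_K1.Fr (Zn Y h x V n) lb ℓ R₁ ρ (c n / V n)
        a b a' b' w.1 w.2.1 w.2.2) ∧
      Pool.Agent.MP_ae5b4e_an_K1.Near lb R₁ ρ (1 / ((j : ℝ) + 1)) w.1 w.2.1 w.2.2 X₀ E₀ A₀)
    (fun j n w hw => ⟨hw.1, hw.2.1, near_mono hw.2.2 (by
      refine one_div_le_one_div_of_le (by positivity) ?_
      push_cast
      linarith)⟩)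
    (fun j => by
      filter_upwards [hW (1 / ((j : ℝ) + 1)) (by positivity)] with n hn
      obtain ⟨h1, a, b, a', b', X, E, A, h2, h3⟩ := hn
      exact ⟨(X, E, A), h1, ⟨a, b, a', b', h2⟩, h3⟩)
  obtain ⟨w, hw⟩ := hslow
  refine ⟨R₁, ρ, X₀, E₀, A₀, Φ, fun n => (w n).1, fun n => (w n).2.1, fun n => (w n).2.2,
    hL, hκ.mono hsub, fun l hl => hq l (hsub hl),
    fun l hl => hRH (ball_subset_closedBall (hsub hl)), ?_, fun δ hδ => ?_⟩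
  · filter_upwards [hw 0] with n hn
    obtain ⟨h3, h4, -⟩ := hn
    exact ⟨⟨fun z hz => h3.d1 z (hsub hz), fun z hz => h3.d1' z (hsub hz),
      fun z hz => h3.d2 z (hsub hz), fun z hz => h3.d2' z (hsub hz),
      fun z hz => h3.wr z (hsub hz)⟩, h4⟩
  · obtain ⟨j, hj⟩ := exists_nat_one_div_lt hδ
    filter_upwards [hw j] with n hn
    exact near_mono hn.2.2 hj.le

end Pool.Agent.MP_ae5b4e_an_ATK
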