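import Pool.Agent.Lib.MP_ae5b4e_an_A3.Defs

/-! # ATK: the first mode as an integral -/

set_option autoImplicit false

noncomputable section

namespace Pool.Agent.MP_ae5b4e_an_ATK

open Complex Set Filter Topology Metric
open Pool.Agent.MP_ae5b4e_an_A1
open Pool.Agent.MP_ae5b4e_an_A3 (md Dfc)

/-- The mode as an integral over one period, shifted by the real number `σ`. Proof. `md` is
`∫₀¹ F (h (x + i y / h), γ) exp (2 π i (x + i y / h)) dx` (`fo`, `m = -1`), and the integrand is a 1-periodic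
function of `x` (`F` is `h`-periodic): `Function.Periodic.intervalIntegral_add_eq`, substitution
`x ↦ x + σ / h`. -/
theorem md_shift {F : ℂ × ℂ → ℂ} {h y σ : ℝ} {γ : ℂ} (hh : 0 < h)
    (hF : ∀ p, F (tr (h : ℂ) p) = F p) :
    ∫ x : ℝ in (-(1 / 2))..(1 / 2), F ((σ : ℂ) + h * x + y * I, γ) *
      cexp (2 * Real.pi * I * (σ + h * x + y * I) / h) = md h y F (-1) γ := by
  have hc : (h : ℂ) ≠ 0 := by exact_mod_cast hh.ne'
  set g : ℝ → ℂ := fun s => F ((h : ℂ) * ((s : ℂ) + ((y / h : ℝ) : ℂ) * I), γ) *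
    cexp (-(2 * Real.pi * I * ((-1 : ℤ) : ℂ) * ((s : ℂ) + ((y / h : ℝ) : ℂ) * I))) with hg
  have hper : Function.Periodic g 1 := by
    intro s
    have e1 : F ((h : ℂ) * (((s + 1 : ℝ) : ℂ) + ((y / h : ℝ) : ℂ) * I), γ) =
        F ((h : ℂ) * ((s : ℂ) + ((y / h : ℝ) : ℂ) * I), γ) := by
      rw [← hF ((h : ℂ) * ((s : ℂ) + ((y / h : ℝ) : ℂ) * I), γ)]
      congr 1
      refine Prod.ext ?_ rfl
      show (h : ℂ) * (((s + 1 : ℝ) : ℂ) + ((y / h : ℝ) : ℂ) * I) =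
        (h : ℂ) * ((s : ℂ) + ((y / h : ℝ) : ℂ) * I) + (h : ℂ)
      push_cast
      ring
    have e2 : cexp (-(2 * Real.pi * I * ((-1 : ℤ) : ℂ) *
          (((s + 1 : ℝ) : ℂ) + ((y / h : ℝ) : ℂ) * I))) =
        cexp (-(2 * Real.pi * I * ((-1 : ℤ) : ℂ) * ((s : ℂ) + ((y / h : ℝ) : ℂ) * I))) := by
      rw [← Complex.exp_periodic (-(2 * Real.pi * I * ((-1 : ℤ) : ℂ) *
        ((s : ℂ) + ((y / h : ℝ) : ℂ) * I)))]
      congr 1
      push_cast
      ring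
    show F ((h : ℂ) * (((s + 1 : ℝ) : ℂ) + ((y / h : ℝ) : ℂ) * I), γ) *
        cexp (-(2 * Real.pi * I * ((-1 : ℤ) : ℂ) *
          (((s + 1 : ℝ) : ℂ) + ((y / h : ℝ) : ℂ) * I))) =
      F ((h : ℂ) * ((s : ℂ) + ((y / h : ℝ) : ℂ) * I), γ) *
        cexp (-(2 * Real.pi * I * ((-1 : ℤ) : ℂ) * ((s : ℂ) + ((y / h : ℝ) : ℂ) * I)))
    rw [e1, e2]
  have h1 : ∀ x : ℝ, F ((σ : ℂ) + h * x + y * I, γ) *
      cexp (2 * Real.pi * I * (σ + h * x + y * I) / h) = g (x + σ / h) := by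
    intro x
    show _ = F ((h : ℂ) * (((x + σ / h : ℝ) : ℂ) + ((y / h : ℝ) : ℂ) * I), γ) *
      cexp (-(2 * Real.pi * I * ((-1 : ℤ) : ℂ) *
        (((x + σ / h : ℝ) : ℂ) + ((y / h : ℝ) : ℂ) * I)))
    have e3 : (h : ℂ) * (((x + σ / h : ℝ) : ℂ) + ((y / h : ℝ) : ℂ) * I) =
        (σ : ℂ) + h * x + y * I := by
      push_cast
      field_simp
      ring
    have e4 : -(2 * Real.pi * I * ((-1 : ℤ) : ℂ) *
        (((x + σ / h : ℝ) : ℂ) + ((y / h : ℝ) : ℂ) * I)) =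
        2 * Real.pi * I * (σ + h * x + y * I) / h := by
      push_cast
      field_simp
      ring
    rw [e3, e4]
  have h2 : (fun x : ℝ => F ((σ : ℂ) + h * x + y * I, γ) *
      cexp (2 * Real.pi * I * (σ + h * x + y * I) / h)) = fun x => g (x + σ / h) := funext h1
  rw [h2, intervalIntegral.integral_comp_add_right (fun x => g x)]
  have h3 : (1 / 2 + σ / h : ℝ) = (-(1 / 2) + σ / h) + 1 := by ring
  rw [h3, hper.intervalIntegral_add_eq (-(1 / 2) + σ / h) 0, zero_add]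
  rfl

/-- The mode does not depend on the height. Proof. `MERO.fo_indep` for `ζ ↦ F (h ζ, γ)`, holomorphic and
1-periodic in the strip `y₁ / h < Im ζ < y₂ / h`. -/
theorem md_indep {F : ℂ × ℂ → ℂ} {h y y' y₁ y₂ : ℝ} {γ : ℂ} (hh : 0 < h)
    (hF : ∀ p, F (tr (h : ℂ) p) = F p)
    (han : ∀ θ : ℂ, y₁ < θ.im → θ.im < y₂ → AnalyticAt ℂ F (θ, γ)) (h1 : y₁ < y) (h2 : y < y₂)
    (h3 : y₁ < y') (h4 : y' < y₂) : md h y F (-1) γ = md h y' F (-1) γ := by
  refine Pool.Agent.MP_ae5b4e_an_MERO.fo_indep (a := y₁ / h) (b := y₂ / h)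
    (f := fun ζ => Pool.Agent.MP_ae5b4e_an_A3.rs h F (ζ, γ)) ?_ ?_ ?_ ?_ (-1)
  · intro t ht
    have h5 : y₁ < ((h : ℂ) * t).im := by
      have := ht.1
      rw [div_lt_iff₀ hh] at this
      simp only [mul_im, ofReal_re, ofReal_im, zero_mul, add_zero]
      linarith
    have h6 : ((h : ℂ) * t).im < y₂ := by
      have := ht.2
      rw [lt_div_iff₀ hh] at this
      simp only [mul_im, ofReal_re, ofReal_im, zero_mul, add_zero]
      linarith
    have h7 : AnalyticAt ℂ (fun ζ : ℂ => F ((h : ℂ) * ζ, γ)) t :=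
      AnalyticAt.comp (g := F) (f := fun ζ : ℂ => ((h : ℂ) * ζ, γ)) (han _ h5 h6)
        ((analyticAt_const.mul analyticAt_id).prod analyticAt_const)
    exact h7.differentiableAt.differentiableWithinAt
  · intro t _
    show F ((h : ℂ) * (t + 1), γ) = F ((h : ℂ) * t, γ)
    rw [← hF ((h : ℂ) * t, γ)]
    congr 1
    refine Prod.ext ?_ rfl
    show (h : ℂ) * (t + 1) = (h : ℂ) * t + (h : ℂ)
    ring
  · exact ⟨(div_lt_div_iff_of_pos_right hh).2 h1, (div_lt_div_iff_of_pos_right hh).2 h2⟩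
  · exact ⟨(div_lt_div_iff_of_pos_right hh).2 h3, (div_lt_div_iff_of_pos_right hh).2 h4⟩

end Pool.Agent.MP_ae5b4e_an_ATK
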