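import Pool.Agent.Lib.MP_ae5b4e_an_ATK.Defs

/-! # ATK: paths in the limit domain -/

set_option autoImplicit false

noncomputable section

namespace Pool.Agent.MP_ae5b4e_an_ATK

open Complex Set Filter Topology Metric
open Pool.Agent.MP_ae5b4e_an_A1

/-- a compact set of angles over `g₀` in `Ω` has a neighbourhood in `Ω` -/
private theorem Paths_tube {Ω : Set (ℂ × ℂ)} (hΩo : IsOpen Ω) {S : Set ℂ} (hS : IsCompact S)
    {g₀ : ℂ} (h : ∀ θ ∈ S, (θ, g₀) ∈ Ω) :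
    ∃ δ : ℝ, 0 < δ ∧ ∀ p : ℂ × ℂ, p.1 ∈ S → ‖p.2 - g₀‖ < δ → p ∈ Ω := by
  have hC : IsCompact (S ×ˢ ({g₀} : Set ℂ)) := hS.prod isCompact_singleton
  have hCΩ : (S ×ˢ ({g₀} : Set ℂ)) ⊆ Ω := by
    rintro ⟨θ, γ⟩ ⟨h1, h2⟩
    rw [mem_singleton_iff] at h2
    simp only at h2
    subst h2
    exact h θ h1
  obtain ⟨δ, hδ, hδΩ⟩ := hC.exists_cthickening_subset_open hΩo hCΩ
  refine ⟨δ, hδ, fun p h1 h5 => hδΩ ?_⟩
  refine mem_cthickening_of_dist_le p (p.1, g₀) δ _ ⟨h1, rfl⟩ ?_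
  rw [Prod.dist_eq, dist_self, max_eq_right dist_nonneg, dist_eq_norm]
  exact h5.le

/-- the part of a rectangle below a line is compact -/
private theorem Paths_cpt (a₁ a₂ b₁ b₂ c d : ℝ) :
    IsCompact {q : ℂ | (a₁ ≤ q.re ∧ q.re ≤ a₂) ∧ (b₁ ≤ q.im ∧ q.im ≤ b₂) ∧
      q.im ≤ c * q.re + d} := by
  have h1 : IsCompact (Icc a₁ a₂ ×ℂ Icc b₁ b₂) := isCompact_Icc.reProdIm isCompact_Icc
  have h2 : IsClosed {q : ℂ | q.im ≤ c * q.re + d} :=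
    isClosed_le continuous_im ((continuous_const.mul continuous_re).add continuous_const)
  refine (congrArg IsCompact (Set.ext fun q => ?_)).mp (h1.inter_right h2)
  rw [mem_inter_iff, mem_reProdIm]
  exact ⟨fun h => ⟨h.1.1, h.1.2, h.2⟩, fun h => ⟨⟨h.1, h.2.1⟩, h.2.2⟩⟩

/-- the cone over the disc of radius `t / 2` at distance `t` -/
private theorem Paths_cone {t x v : ℝ} (ht : 0 < t) (h : (t - x) ^ 2 + v ^ 2 ≤ (t / 2) ^ 2) :
    v ≤ 29 / 50 * x := by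
  by_contra hcon
  push Not at hcon
  have hx : 0 ≤ x := by
    nlinarith [sq_nonneg v, sq_nonneg (t - x)]
  nlinarith [sq_nonneg (t - 4 / 3 * x), sq_nonneg x, mul_nonneg hx hx,
    mul_le_mul hcon.le hcon.le (by positivity)
      (by linarith [mul_nonneg (by norm_num : (0:ℝ) ≤ 29 / 50) hx])]

private theorem Paths_sq {p c : ℂ} {t : ℝ} (h : ‖p - c‖ ≤ t / 2) :
    (p.re - c.re) ^ 2 + (p.im - c.im) ^ 2 ≤ (t / 2) ^ 2 := by
  have h1 : ‖p - c‖ ^ 2 ≤ (t / 2) ^ 2 := pow_le_pow_left₀ (norm_nonneg _) h 2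
  rw [Complex.sq_norm, Complex.normSq_apply, sub_re, sub_im] at h1
  linarith [sq (p.re - c.re), sq (p.im - c.im)]

/-- The paths in the limit domain. Proof. Left side: the set `C` of the points `(θ - s, g₀)` with
`‖θ - (θb - t)‖ ≤ t / 2`, `s ∈ [0, T₁]`, `al ≤ Re (θ - s)` is compact and in `Ω` (`hG`:
`Im (θ - s - θb) = Im (θ - θb) < (3/5) |Re (θ - θb)| ≤ (3/5) |Re (θ - s - θb)|`, as `sin⁻¹ (1/2)` has tangent
`< 3/5`, precisely `b² ≤ t²/4 - (a - t)²` implies `25 b² < 9 a²`; `|Im - y₀| ≤ t / 2 < b₀`), so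
`‖γ - g₀‖ < η'` around it is in `Ω` (thickening of a compact set). For `‖p.1 - (θb - t)‖ ≤ t / 2`,
`‖p.2 - g₀‖ < η' ≤ 2 rb` and `s ∈ [0, T₁]` the point `tr (-s) p` is within `η'` of `C` or in the left box
(`Re ∈ (al - w, al)`, `|Im - y₀| ≤ t / 2 < w`, `‖p.2 - g₀‖ < 2 rb`); at `s = T₁` its real part is within
`t / 2` of `al - w / 2`. The same on the right side. -/
theorem paths {Ω : Set (ℂ × ℂ)} (hΩo : IsOpen Ω) {al ar y₀ w rb b₀ t : ℝ} {g₀ θb : ℂ}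
    (hBo : Pool.Agent.MP_ae5b4e_an_BX.Rec (al - w) (al + w) (y₀ - w) (y₀ + w) ×ˢ
      ball g₀ (2 * rb) ⊆ Ω)
    (hBo' : Pool.Agent.MP_ae5b4e_an_BX.Rec (ar - w) (ar + w) (y₀ - w) (y₀ + w) ×ˢ
      ball g₀ (2 * rb) ⊆ Ω) (hr : 0 < rb) (hw : 0 < w) (hθ : θb.im = y₀)
    (hG : ∀ θ : ℂ, al ≤ θ.re → θ.re ≤ ar → |θ.im - y₀| < b₀ →
      (θ - θb).im < 3 / 5 * |(θ - θb).re| → (θ, g₀) ∈ Ω) (ht : 0 < t) (htb : t < b₀)
    (htw : 16 * t ≤ w) (hta : 2 * t ≤ θb.re - al) (hta' : 2 * t ≤ ar - θb.re) :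
    ∃ η' : ℝ, 0 < η' ∧ ∀ p : ℂ × ℂ, ‖p.2 - g₀‖ < η' →
      (‖p.1 - (θb - t)‖ ≤ t / 2 →
        tr (-((θb.re - t - al + w / 2 : ℝ) : ℂ)) p ∈
          Pool.Agent.MP_ae5b4e_an_BX.Rec (al - w) (al + w) (y₀ - w) (y₀ + w) ×ˢ
            ball g₀ (2 * rb) ∧
        ∀ s ∈ Icc 0 (θb.re - t - al + w / 2), tr (-(s : ℂ)) p ∈ Ω) ∧
      (‖p.1 - (θb + t)‖ ≤ t / 2 →
        tr ((ar + w / 2 - θb.re - t : ℝ) : ℂ) p ∈
          Pool.Agent.MP_ae5b4e_an_BX.Rec (ar - w) (ar + w) (y₀ - w) (y₀ + w) ×ˢ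
            ball g₀ (2 * rb) ∧
        ∀ s ∈ Icc 0 (ar + w / 2 - θb.re - t), tr (s : ℂ) p ∈ Ω) := by
  obtain ⟨δ₁, hδ₁, H₁⟩ := Paths_tube hΩo (g₀ := g₀)
    (Paths_cpt al (θb.re - t / 2) (y₀ - t / 2) (y₀ + t / 2) (-(29 / 50)) (29 / 50 * θb.re + y₀))
    (fun θ h => by
      obtain ⟨⟨h1, h2⟩, ⟨h3, h4⟩, h5⟩ := h
      refine hG θ h1 (by linarith) ?_ ?_
      · rw [abs_lt]
        constructor <;> linarith
      · rw [sub_im, sub_re, abs_of_nonpos (by linarith), hθ]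
        linarith)
  obtain ⟨δ₂, hδ₂, H₂⟩ := Paths_tube hΩo (g₀ := g₀)
    (Paths_cpt (θb.re + t / 2) ar (y₀ - t / 2) (y₀ + t / 2) (29 / 50) (-(29 / 50 * θb.re) + y₀))
    (fun θ h => by
      obtain ⟨⟨h1, h2⟩, ⟨h3, h4⟩, h5⟩ := h
      refine hG θ (by linarith) h2 ?_ ?_
      · rw [abs_lt]
        constructor <;> linarith
      · rw [sub_im, sub_re, abs_of_nonneg (by linarith), hθ]
        linarith)
  refine ⟨min (2 * rb) (min δ₁ δ₂), lt_min (by linarith) (lt_min hδ₁ hδ₂), fun p hp => ?_⟩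
  have hp0 : p.2 ∈ ball g₀ (2 * rb) := by
    rw [mem_ball, dist_eq_norm]
    exact hp.trans_le (min_le_left _ _)
  have hp1 : ‖p.2 - g₀‖ < δ₁ := hp.trans_le ((min_le_right _ _).trans (min_le_left _ _))
  have hp2 : ‖p.2 - g₀‖ < δ₂ := hp.trans_le ((min_le_right _ _).trans (min_le_right _ _))
  constructor
  · intro h
    have hsq := Paths_sq h
    rw [sub_re, sub_im, ofReal_re, ofReal_im, hθ, sub_zero] at hsq
    have hre : |p.1.re - (θb.re - t)| ≤ t / 2 :=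
      abs_le_of_sq_le_sq (by nlinarith [sq_nonneg (p.1.im - y₀)]) (by linarith)
    have him : |p.1.im - y₀| ≤ t / 2 :=
      abs_le_of_sq_le_sq (by nlinarith [sq_nonneg (p.1.re - (θb.re - t))]) (by linarith)
    have hcone : p.1.im - y₀ ≤ 29 / 50 * (θb.re - p.1.re) :=
      Paths_cone ht (by
        have e : t - (θb.re - p.1.re) = p.1.re - (θb.re - t) := by ring
        rw [e]
        exact hsq)
    rw [abs_le] at hre him
    have key : ∀ s : ℝ, 0 ≤ s → s ≤ θb.re - t - al + w / 2 → p.1.re - s ≤ al →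
        tr (-(s : ℂ)) p ∈ Pool.Agent.MP_ae5b4e_an_BX.Rec (al - w) (al + w) (y₀ - w) (y₀ + w) ×ˢ
          ball g₀ (2 * rb) := by
      intro s h0 h1 h2
      refine ⟨?_, hp0⟩
      change al - w < (p.1 + -(s : ℂ)).re ∧ (p.1 + -(s : ℂ)).re < al + w ∧
        y₀ - w < (p.1 + -(s : ℂ)).im ∧ (p.1 + -(s : ℂ)).im < y₀ + w
      rw [add_re, add_im, neg_re, neg_im, ofReal_re, ofReal_im]
      refine ⟨?_, ?_, ?_, ?_⟩ <;> linarith [hre.1, hre.2, him.1, him.2]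
    refine ⟨key _ (by linarith) le_rfl (by linarith [hre.2]), fun s hs => ?_⟩
    rcases le_total (p.1.re - s) al with h1 | h1
    · exact hBo (key s hs.1 hs.2 h1)
    · refine H₁ _ ?_ hp1
      change (al ≤ (p.1 + -(s : ℂ)).re ∧ (p.1 + -(s : ℂ)).re ≤ θb.re - t / 2) ∧
        (y₀ - t / 2 ≤ (p.1 + -(s : ℂ)).im ∧ (p.1 + -(s : ℂ)).im ≤ y₀ + t / 2) ∧
        (p.1 + -(s : ℂ)).im ≤ -(29 / 50) * (p.1 + -(s : ℂ)).re + (29 / 50 * θb.re + y₀)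
      rw [add_re, add_im, neg_re, neg_im, ofReal_re, ofReal_im]
      refine ⟨⟨?_, ?_⟩, ⟨?_, ?_⟩, ?_⟩ <;> linarith [hs.1, hre.1, hre.2, him.1, him.2]
  · intro h
    have hsq := Paths_sq h
    rw [add_re, add_im, ofReal_re, ofReal_im, hθ, add_zero] at hsq
    have hre : |p.1.re - (θb.re + t)| ≤ t / 2 :=
      abs_le_of_sq_le_sq (by nlinarith [sq_nonneg (p.1.im - y₀)]) (by linarith)
    have him : |p.1.im - y₀| ≤ t / 2 :=
      abs_le_of_sq_le_sq (by nlinarith [sq_nonneg (p.1.re - (θb.re + t))]) (by linarith)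
    have hcone : p.1.im - y₀ ≤ 29 / 50 * (p.1.re - θb.re) :=
      Paths_cone ht (by
        have e : (t - (p.1.re - θb.re)) ^ 2 = (p.1.re - (θb.re + t)) ^ 2 := by ring
        rw [e]
        exact hsq)
    rw [abs_le] at hre him
    have key : ∀ s : ℝ, 0 ≤ s → s ≤ ar + w / 2 - θb.re - t → ar ≤ p.1.re + s →
        tr (s : ℂ) p ∈ Pool.Agent.MP_ae5b4e_an_BX.Rec (ar - w) (ar + w) (y₀ - w) (y₀ + w) ×ˢ
          ball g₀ (2 * rb) := by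
      intro s h0 h1 h2
      refine ⟨?_, hp0⟩
      change ar - w < (p.1 + (s : ℂ)).re ∧ (p.1 + (s : ℂ)).re < ar + w ∧
        y₀ - w < (p.1 + (s : ℂ)).im ∧ (p.1 + (s : ℂ)).im < y₀ + w
      rw [add_re, add_im, ofReal_re, ofReal_im]
      refine ⟨?_, ?_, ?_, ?_⟩ <;> linarith [hre.1, hre.2, him.1, him.2]
    refine ⟨key _ (by linarith) le_rfl (by linarith [hre.1]), fun s hs => ?_⟩
    rcases le_total ar (p.1.re + s) with h1 | h1
    · exact hBo' (key s hs.1 hs.2 h1)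
    · refine H₂ _ ?_ hp2
      change (θb.re + t / 2 ≤ (p.1 + (s : ℂ)).re ∧ (p.1 + (s : ℂ)).re ≤ ar) ∧
        (y₀ - t / 2 ≤ (p.1 + (s : ℂ)).im ∧ (p.1 + (s : ℂ)).im ≤ y₀ + t / 2) ∧
        (p.1 + (s : ℂ)).im ≤ 29 / 50 * (p.1 + (s : ℂ)).re + (-(29 / 50 * θb.re) + y₀)
      rw [add_re, add_im, ofReal_re, ofReal_im]
      refine ⟨⟨?_, ?_⟩, ⟨?_, ?_⟩, ?_⟩ <;> linarith [hs.1, hre.1, hre.2, him.1, him.2]

end Pool.Agent.MP_ae5b4e_an_ATK
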