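import Pool.Agent.Lib.MP_ae5b4e_an_ATK.TipCirc
import Pool.Agent.Lib.MP_ae5b4e_an_ATK.Br
import Pool.Agent.Lib.MP_ae5b4e_an_ATK.ChA

/-! # ATK: the branch of the logarithm at the tip -/

set_option autoImplicit false

noncomputable section

namespace Pool.Agent.MP_ae5b4e_an_ATK

open Complex Set Filter Topology Metric
open Pool.Agent.MP_ae5b4e_an_NB2 (Sys)
open Pool.Agent.MP_ae5b4e_an_M (S1 C1f Gf bb)
open Pool.Agent.MP_ae5b4e_an_A1
open Pool.Agent.MP_ae5b4e_an_AT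
open PorTR (Hm)

variable {U : Ultrafilter ℕ} {Zs : ℕ → Sys} {ε : ℕ → ℝ} {q κ : ℂ → ℂ} {lb ℓ : ℂ} {R ρ : ℝ}
  {X J A Φ : ℂ → ℂ} {Xn Jn An : ℕ → ℂ → ℂ} {M Ω : Set (ℂ × ℂ)} {z : ℂ × ℂ → ℂ × ℂ}
  {θb g₀ : ℂ} {s₀ : ℝ}

private theorem tipbr_aux {a b : ℝ} (hab : a + b = 1) (c θ θb : ℂ) :
    a • c + b • θ - θb = a • (c - θb) + b • (θ - θb) := by
  have h : a • θb + b • θb = θb := by
    rw [← add_smul, hab, one_smul]
  calc a • c + b • θ - θb = a • c + b • θ - (a • θb + b • θb) := by rw [h]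
    _ = (a • c - a • θb) + (b • θ - b • θb) := by abel
    _ = a • (c - θb) + b • (θ - θb) := by rw [smul_sub, smul_sub]

/-- the sector is preconnected: it is star-shaped with respect to `θb - i σ` for every small
`σ > 0`. Proof. For `(x, y)`, `y < (3/5) |x|` (`x + i y = θ - θb`) and `λ ∈ [0, 1]`:
`λ y - (1 - λ) σ < (3/5) |λ x|` for `λ > 0`, and for `λ = 0` it is `- σ < 0`; balls are convex;
`StarConvex.isPreconnected` or `StarConvex.isPathConnected`. -/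
theorem sector_conn (θb : ℂ) {s : ℝ} (hs : 0 < s) : IsPreconnected (Sl θb s) := by
  have hc : ‖(θb - I * (s / 2 : ℝ)) - θb‖ = s / 2 := by
    rw [sub_sub_cancel_left, norm_neg, norm_mul, norm_I, one_mul, norm_real, Real.norm_eq_abs,
      abs_of_pos (by linarith)]
  have hstar : StarConvex ℝ (θb - I * (s / 2 : ℝ))
      (Sl θb s) := by
    rintro θ ⟨h1, h2⟩ a b ha hb hab
    have e : a • (θb - I * (s / 2 : ℝ)) + b • θ - θb =
        a • ((θb - I * (s / 2 : ℝ)) - θb) + b • (θ - θb) := tipbr_aux hab _ _ _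
    have hre : (a • (θb - I * (s / 2 : ℝ)) + b • θ - θb).re = b * (θ - θb).re := by
      rw [e]
      simp
    have him : (a • (θb - I * (s / 2 : ℝ)) + b • θ - θb).im =
        -(a * (s / 2)) + b * (θ - θb).im := by
      rw [e]
      simp
    refine ⟨?_, ?_⟩
    · rw [e]
      refine (norm_add_le _ _).trans_lt ?_
      rw [norm_smul, norm_smul, hc, Real.norm_eq_abs, Real.norm_eq_abs, abs_of_nonneg ha,
        abs_of_nonneg hb]
      rcases ha.eq_or_lt with ha0 | ha0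
      · have hb1 : b = 1 := by linarith
        rw [← ha0, hb1]
        linarith
      · have h3 : b * ‖θ - θb‖ ≤ b * s := mul_le_mul_of_nonneg_left h1.le hb
        have h4 : a * (s / 2) < a * s := mul_lt_mul_of_pos_left (by linarith) ha0
        have h5 : a * s + b * s = s := by rw [← add_mul, hab, one_mul]
        linarith
    · rw [hre, him, abs_mul, abs_of_nonneg hb]
      rcases hb.eq_or_lt with hb0 | hb0
      · have ha1 : a = 1 := by linarith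
        rw [← hb0, ha1]
        linarith
      · have h3 : b * (θ - θb).im < b * (3 / 5 * |(θ - θb).re|) := mul_lt_mul_of_pos_left h2 hb0
        have h4 : 0 ≤ a * (s / 2) := mul_nonneg ha (by linarith)
        linarith
  have hmem : (θb - I * (s / 2 : ℝ)) ∈ Sl θb s := by
    refine ⟨?_, ?_⟩
    · rw [hc]
      linarith
    · simp
      linarith
  exact (hstar.isPathConnected hmem).isConnected.isPreconnected

private theorem tipbr_const {S : Set ℂ} (hS : IsPreconnected S) {f : ℂ → ℝ}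
    (hf : ContinuousOn f S) (hi : ∀ x ∈ S, ∃ k : ℤ, f x = k) {x y : ℂ} (hx : x ∈ S)
    (hy : y ∈ S) : f x = f y := by
  have key : ∀ x ∈ S, ∀ y ∈ S, ¬ f x < f y := by
    intro x hx y hy hlt
    have h1 := (hS.image f hf).Icc_subset (mem_image_of_mem f hx) (mem_image_of_mem f hy)
    obtain ⟨k, hk⟩ := hi x hx
    obtain ⟨m, hm⟩ := hi y hy
    rw [hk, hm] at hlt h1
    have hkm : k < m := by exact_mod_cast hlt
    have hkm' : (k : ℝ) + 1 ≤ m := by exact_mod_cast hkm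
    obtain ⟨w, hw, e⟩ := h1 (show (k : ℝ) + 1 / 2 ∈ Icc (k : ℝ) m from ⟨by linarith, by linarith⟩)
    obtain ⟨j, hj⟩ := hi w hw
    rw [hj] at e
    have e2 : (2 * j : ℝ) = 2 * k + 1 := by linarith
    have e3 : 2 * j = 2 * k + 1 := by exact_mod_cast e2
    omega
  exact le_antisymm (not_lt.1 (key y hy x hx)) (not_lt.1 (key x hx y hy))

private theorem tipbr_slit {ζ w : ℂ} (hw : w.im < 3 / 5 * |w.re|) (h : ‖ζ - w‖ ≤ ‖w‖ / 100) :
    I * ζ ∈ slitPlane := by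
  by_contra hn
  rw [mem_slitPlane_iff, not_or] at hn
  obtain ⟨h1, h2⟩ := hn
  have e1 : (I * ζ).re = -ζ.im := by simp
  have e2 : (I * ζ).im = ζ.re := by simp
  rw [e1] at h1
  rw [e2] at h2
  have h3 : 0 ≤ ζ.im := by linarith
  have h4 : ζ.re = 0 := not_not.1 h2
  have h5 := (abs_re_le_norm (ζ - w)).trans h
  have h6 := (abs_im_le_norm (ζ - w)).trans h
  rw [sub_re, h4, zero_sub, abs_neg] at h5
  rw [sub_im, abs_le] at h6
  have h7 : |w.im| ≤ ‖w‖ / 100 := by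
    rw [abs_le]
    constructor <;> linarith [h6.1, h6.2]
  have h8 := norm_le_abs_re_add_abs_im w
  have h9 : ‖w‖ ≤ 0 := by linarith [norm_nonneg w]
  have h10 : w = 0 := norm_le_zero_iff.1 h9
  rw [h10] at hw
  simp at hw

private theorem tipbr_sl {θb : ℂ} {s s' : ℝ} (h : s ≤ s') : Sl θb s ⊆ Sl θb s' :=
  fun _ hθ => ⟨hθ.1.trans_le h, hθ.2⟩

private theorem tipbr_laml (ℓ : ℂ) (k : ℤ) (ζ : ℂ) :
    laml (ℓ - 2 * Real.pi * I * k) ζ = laml ℓ ζ + 2 * Real.pi * I * k := by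
  have h : cexp (ℓ - 2 * Real.pi * I * k) = cexp ℓ := by
    rw [exp_sub, mul_comm (2 * Real.pi * I) (k : ℂ), exp_int_mul_two_pi_mul_I, div_one]
  unfold laml
  rw [h]
  ring

/-- LOCAL FORM AT THE TIP.

Proof. `tip_circ`: `s₁`, smaller such that `‖e^ℓ‖ 2 s₁ < 1`. On `S = Sl θb s₁` put `ζ = (Ct ..).2`:
`‖ζ - (θ - θb)‖ ≤ ‖θ - θb‖ / 100` and `Im (θ-θb) < (3/5) |Re (θ-θb)|` imply `i ζ ∈ slitPlane` (if `ζ = i σ`,
`σ ≥ 0`, then `|Re (θ-θb)| ≤ ‖θ-θb‖/100` and `Im (θ-θb) ≥ σ - ‖θ-θb‖/100 ≥ 0.98 ‖θ - θb‖`), and `‖e^ℓ ζ‖ < 1`. `br_low`: `exp (laml ℓ ζ) = 1 + 1/(e^ℓ ζ) = exp W`,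
so `(W - laml ℓ ζ) / (2 π i)` is an integer, continuous in `θ ∈ S` (`ct_cont`, `Fw.z_an`, `Br.an`), hence
a constant `k` (`sector_conn`). `ℓ' := ℓ - 2 π i k`: `exp ℓ' = exp ℓ`, `laml ℓ' = laml ℓ + 2 π i k`, `Ct` unchanged. -/
theorem exists_Tl (hK : Ks U Zs ε q κ lb ℓ R ρ X J A Φ Xn Jn An) (hz : Fw M (gI q) Ω z)
    (hT : Tp q Ω z θb g₀ s₀ lb)
    (hs : Tendsto (fun s : ℝ => (2 * I * κ (z (θb - I * s, g₀)).1 *
      (z (θb - I * s, g₀)).2).re) (𝓝[>] 0) atTop) {η : ℝ} (hη : 0 < η) :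
    ∃ (ℓ' : ℂ) (s₁ : ℝ), cexp ℓ' = cexp ℓ ∧ s₁ ≤ s₀ ∧ Tl κ X lb ℓ' R η z θb g₀ s₁ := by
  obtain ⟨s₁, hs1, hs10, htc⟩ := tip_circ hK hz hT hs hη
  have hE : 0 < ‖cexp ℓ‖ := norm_pos_iff.2 (exp_ne_zero ℓ)
  obtain ⟨s₂, hs2, hs21, hs2E⟩ : ∃ s₂ : ℝ, 0 < s₂ ∧ s₂ ≤ s₁ ∧ ‖cexp ℓ‖ * (2 * s₂) < 1 := by
    refine ⟨min s₁ (1 / (4 * ‖cexp ℓ‖)), lt_min hs1 (by positivity), min_le_left _ _, ?_⟩
    have h1 : min s₁ (1 / (4 * ‖cexp ℓ‖)) ≤ 1 / (4 * ‖cexp ℓ‖) := min_le_right _ _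
    have h2 : ‖cexp ℓ‖ * (2 * min s₁ (1 / (4 * ‖cexp ℓ‖))) ≤
        ‖cexp ℓ‖ * (2 * (1 / (4 * ‖cexp ℓ‖))) := by gcongr
    have h3 : ‖cexp ℓ‖ * (2 * (1 / (4 * ‖cexp ℓ‖))) = 1 / 2 := by
      field_simp
      norm_num
    linarith
  let S : Set ℂ := Sl θb s₂
  have hS1 : S ⊆ Sl θb s₁ := tipbr_sl hs21
  have hS0 : S ⊆ Sl θb s₀ := hS1.trans (tipbr_sl hs10)
  let W : ℂ → ℂ := fun θ => 2 * I * κ (z (θ, g₀)).1 * (z (θ, g₀)).2
  let ζ : ℂ → ℂ := fun θ => (Ct κ X ℓ (z (θ, g₀))).2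
  have hDom : ∀ θ ∈ S, ζ θ ∈ {z | I * z ∈ slitPlane ∧ ‖cexp ℓ * z‖ < 1} := by
    intro θ hθ
    have h1 := (htc θ (hS1 hθ)).2.2.2
    refine ⟨tipbr_slit hθ.2 h1, ?_⟩
    rw [norm_mul]
    have h2 : ‖ζ θ‖ ≤ 2 * ‖θ - θb‖ := by
      have h3 : ‖ζ θ‖ ≤ ‖ζ θ - (θ - θb)‖ + ‖θ - θb‖ := norm_le_norm_sub_add _ _
      have h4 : ‖ζ θ - (θ - θb)‖ ≤ ‖θ - θb‖ / 100 := h1
      linarith [norm_nonneg (θ - θb)]
    have h3 : ‖cexp ℓ‖ * ‖ζ θ‖ ≤ ‖cexp ℓ‖ * (2 * s₂) :=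
      mul_le_mul_of_nonneg_left (h2.trans (by linarith [hθ.1])) hE.le
    linarith
  have hexp : ∀ θ ∈ S, cexp (laml ℓ (ζ θ)) = cexp (W θ) := by
    intro θ hθ
    rw [(br_low ℓ).eq (ζ θ) (hDom θ hθ)]
    have h1 : cexp (W θ) ≠ 1 := (htc θ (hS1 hθ)).2.2.1
    have h2 : cexp (W θ) - 1 ≠ 0 := sub_ne_zero.2 h1
    have h3 : cexp ℓ * ζ θ = 1 / (cexp (W θ) - 1) := by
      change cexp ℓ * (cexp (-ℓ) / (cexp (W θ) - 1)) = 1 / (cexp (W θ) - 1)
      rw [← mul_div_assoc, ← exp_add, add_neg_cancel, exp_zero]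
    rw [h3]
    field_simp
    ring
  have hpi : (2 * Real.pi * I : ℂ) ≠ 0 := two_pi_I_ne_zero
  have hint : ∀ θ ∈ S, ∃ k : ℤ, W θ = laml ℓ (ζ θ) + 2 * Real.pi * I * k := by
    intro θ hθ
    obtain ⟨k, hk⟩ := exp_eq_exp_iff_exists_int.1 (hexp θ hθ).symm
    exact ⟨k, by rw [hk]; ring⟩
  have hzc : ∀ θ ∈ S, ContinuousAt (fun θ => z (θ, g₀)) θ := by
    intro θ hθ
    have h1 := (hz.z_an (θ, g₀) (hT.slit θ (hS0 hθ))).continuousAt
    exact ContinuousAt.comp (f := fun θ : ℂ => (θ, g₀)) (x := θ) h1 (by fun_prop)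
  have hWc : ContinuousOn W S := by
    intro θ hθ
    have h1 := hzc θ hθ
    have h2 : ContinuousAt κ (z (θ, g₀)).1 :=
      (hK.κ_an.differentiableAt (isOpen_ball.mem_nhds (htc θ (hS1 hθ)).1)).continuousAt
    have h3 : ContinuousAt (fun θ => κ (z (θ, g₀)).1) θ :=
      ContinuousAt.comp (f := fun θ : ℂ => (z (θ, g₀)).1) (x := θ) h2
        (continuousAt_fst.comp h1)
    exact (((continuousAt_const.mul h3)).mul (continuousAt_snd.comp h1)).continuousWithinAt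
  have hζc : ContinuousOn ζ S := by
    intro θ hθ
    have h1 := hzc θ hθ
    have h2 := ct_cont hK (htc θ (hS1 hθ)).1 (htc θ (hS1 hθ)).2.2.1
    have h3 : ContinuousAt (fun θ => Ct κ X ℓ (z (θ, g₀))) θ :=
      ContinuousAt.comp (f := fun θ : ℂ => z (θ, g₀)) (x := θ) h2 h1
    exact (continuousAt_snd.comp h3).continuousWithinAt
  have hlc : ContinuousOn (fun θ => laml ℓ (ζ θ)) S := by
    intro θ hθ
    have h1 : ContinuousAt (laml ℓ) (ζ θ) :=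
      ((br_low ℓ).an.differentiableAt ((br_low ℓ).D_open.mem_nhds (hDom θ hθ))).continuousAt
    exact ContinuousAt.comp_continuousWithinAt (f := ζ) h1 (hζc θ hθ)
  let g : ℂ → ℝ := fun θ => ((W θ - laml ℓ (ζ θ)) / (2 * Real.pi * I)).re
  have hgc : ContinuousOn g S := by
    have h1 : ContinuousOn (fun θ => (W θ - laml ℓ (ζ θ)) / (2 * Real.pi * I)) S :=
      (hWc.sub hlc).div_const _
    exact continuous_re.comp_continuousOn h1
  have hgk : ∀ θ ∈ S, ∀ k : ℤ, W θ = laml ℓ (ζ θ) + 2 * Real.pi * I * k → g θ = k := by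
    intro θ _ k hk
    have h1 : (W θ - laml ℓ (ζ θ)) / (2 * Real.pi * I) = (k : ℂ) := by
      rw [hk, add_sub_cancel_left, mul_div_cancel_left₀ _ hpi]
    change ((W θ - laml ℓ (ζ θ)) / (2 * Real.pi * I)).re = k
    rw [h1, intCast_re]
  have hx0 : (θb - I * (s₂ / 2 : ℝ)) ∈ S := by
    refine ⟨?_, ?_⟩
    · rw [sub_sub_cancel_left, norm_neg, norm_mul, norm_I, one_mul, norm_real, Real.norm_eq_abs,
        abs_of_pos (by linarith)]
      linarith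
    · simp
      linarith
  obtain ⟨k, hk⟩ := hint _ hx0
  have hkk : ∀ θ ∈ S, W θ = laml ℓ (ζ θ) + 2 * Real.pi * I * k := by
    intro θ hθ
    obtain ⟨m, hm⟩ := hint θ hθ
    have h1 := tipbr_const (sector_conn θb hs2) hgc
      (fun x hx => (hint x hx).imp fun j hj => hgk x hx j hj) hθ hx0
    rw [hgk θ hθ m hm, hgk _ hx0 k hk] at h1
    have h2 : m = k := by exact_mod_cast h1
    rw [hm, h2]
  have hexp' : cexp (ℓ - 2 * Real.pi * I * k) = cexp ℓ := by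
    rw [exp_sub, mul_comm (2 * Real.pi * I) (k : ℂ), exp_int_mul_two_pi_mul_I, div_one]
  have hCt : Ct κ X (ℓ - 2 * Real.pi * I * k) = Ct κ X ℓ := by
    funext u
    unfold Ct
    rw [exp_neg, exp_neg, hexp']
  refine ⟨ℓ - 2 * Real.pi * I * k, s₂, hexp', hs21.trans hs10, ⟨hs2, ?_, ?_, ?_, ?_, ?_⟩⟩
  · exact fun θ hθ => (htc θ (tipbr_sl hs21 hθ)).1
  · exact fun θ hθ => (htc θ (tipbr_sl hs21 hθ)).2.1
  · exact fun θ hθ => (htc θ (tipbr_sl hs21 hθ)).2.2.1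
  · intro θ hθ
    rw [hCt]
    exact (htc θ (tipbr_sl hs21 hθ)).2.2.2
  · intro θ hθ
    rw [hCt, tipbr_laml]
    exact hkk θ hθ

/-- THE VALUE OF `γ` AT THE TIP.

Proof. Along the segment, `gf_chart` (`k = κ (u.1)`, `p = 1 / (e^W - 1)`):
`g₀ = Gf q u.1 u.2 = e / (2 i κ (u.1)) · exp (- p W) / (1 + p)`. For `s → 0+`: `p → 0`, `p W → 0`
(`‖p‖ ≤ 2 ‖e^ℓ‖ s`, `‖W‖ ≤ C + 2 |log s|`, `tip_seg`), `κ (u.1) → κ lb`. And
`exp (- Φ 0) = e / (2 i κ (J 0))`, `J 0 = lb` (`J_X`, `X lb = 0`). -/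
theorem tip_gam (hK : Ks U Zs ε q κ lb ℓ R ρ X J A Φ Xn Jn An) (hz : Fw M (gI q) Ω z)
    (hH : ∀ p ∈ Ω, Gf q (z p).1 (z p).2 = p.2) (hT : Tp q Ω z θb g₀ s₀ lb)
    (hs : Tendsto (fun s : ℝ => (2 * I * κ (z (θb - I * s, g₀)).1 *
      (z (θb - I * s, g₀)).2).re) (𝓝[>] 0) atTop) : g₀ = cexp (-Φ 0) := by
  obtain ⟨s₁, C, hs1, hs10, hseg⟩ := tip_seg hK hz hT hs (η := 1 / 100) (by norm_num) le_rfl
  have hR : 0 < R := hK.lim.crd.R₁_pos
  have hlb : lb ∈ ball lb R := mem_ball_self hR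
  have hE : 0 < ‖cexp ℓ‖ := norm_pos_iff.2 (exp_ne_zero ℓ)
  let W : ℝ → ℂ := fun s => 2 * I * κ (z (θb - I * s, g₀)).1 * (z (θb - I * s, g₀)).2
  let p : ℝ → ℂ := fun s => 1 / (cexp (W s) - 1)
  have hgf : ∀ s : ℝ, 0 < s → s ≤ s₁ → g₀ = cexp 1 / (2 * I * κ (z (θb - I * s, g₀)).1) *
      (cexp (-(p s * W s)) / (1 + p s)) := by
    intro s h0 h1
    obtain ⟨h2, h3, h4, h5, h6⟩ := hseg s h0 h1
    have hmem : (θb - I * s) ∈ Sl θb s₀ := by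
      refine ⟨?_, ?_⟩
      · rw [sub_sub_cancel_left, norm_neg, norm_mul, norm_I, one_mul, norm_real,
          Real.norm_eq_abs, abs_of_pos h0]
        linarith
      · simp
        exact h0
    have hΩ := hT.slit _ hmem
    have hball : (z (θb - I * s, g₀)).1 ∈ ball lb R :=
      ball_subset_ball (by linarith) h2
    have hne : cexp (W s) - 1 ≠ 0 := sub_ne_zero.2 h4
    have h7 := gf_chart (q := q) (l := (z (θb - I * s, g₀)).1) (α := (z (θb - I * s, g₀)).2)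
      (k := κ (z (θb - I * s, g₀)).1) (W := W s) (p := p s) (hK.q_eq _ hball)
      (hK.lim.κ_ne _ hball) rfl (by
        change cexp (W s) * (1 / (cexp (W s) - 1)) = 1 + 1 / (cexp (W s) - 1)
        field_simp
        ring) (one_div_ne_zero hne)
    have h8 := hH _ hΩ
    exact h8.symm.trans h7
  have hpn : ∀ s : ℝ, 0 < s → s ≤ s₁ → ‖p s‖ ≤ 2 * ‖cexp ℓ‖ * s := by
    intro s h0 h1
    obtain ⟨h2, h3, h4, h5, h6⟩ := hseg s h0 h1
    have e : p s = cexp ℓ * (Ct κ X ℓ (z (θb - I * s, g₀))).2 := by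
      change 1 / (cexp (W s) - 1) = cexp ℓ * (cexp (-ℓ) / (cexp (W s) - 1))
      rw [← mul_div_assoc, ← exp_add, add_neg_cancel, exp_zero]
    have h7 : ‖(Ct κ X ℓ (z (θb - I * s, g₀))).2‖ ≤ 2 * s := by
      have h8 : ‖(Ct κ X ℓ (z (θb - I * s, g₀))).2‖ ≤
          ‖(Ct κ X ℓ (z (θb - I * s, g₀))).2 + I * s‖ + ‖I * (s : ℂ)‖ := by
        have := norm_sub_le ((Ct κ X ℓ (z (θb - I * s, g₀))).2 + I * s) (I * s)
        rwa [add_sub_cancel_right] at this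
      have h9 : ‖I * (s : ℂ)‖ = s := by
        rw [norm_mul, norm_I, one_mul, norm_real, Real.norm_eq_abs, abs_of_pos h0]
      rw [h9] at h8
      linarith
    rw [e, norm_mul]
    calc ‖cexp ℓ‖ * ‖(Ct κ X ℓ (z (θb - I * s, g₀))).2‖ ≤ ‖cexp ℓ‖ * (2 * s) :=
          mul_le_mul_of_nonneg_left h7 hE.le
      _ = 2 * ‖cexp ℓ‖ * s := by ring
  have hev : ∀ᶠ s : ℝ in 𝓝[>] 0, 0 < s ∧ s ≤ s₁ := by
    filter_upwards [Ioc_mem_nhdsGT hs1] with s h1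
    exact h1
  have hid : Tendsto (fun s : ℝ => s) (𝓝[>] 0) (𝓝 0) := tendsto_nhdsWithin_of_tendsto_nhds tendsto_id
  have hp0 : Tendsto p (𝓝[>] 0) (𝓝 0) := by
    refine squeeze_zero_norm' (hev.mono fun s h1 => hpn s h1.1 h1.2) ?_
    have h1 := hid.const_mul (2 * ‖cexp ℓ‖)
    rwa [mul_zero] at h1
  have hpW : Tendsto (fun s => p s * W s) (𝓝[>] 0) (𝓝 0) := by
    refine squeeze_zero_norm' (a := fun s : ℝ => 2 * ‖cexp ℓ‖ * (s * C + 2 * |s * Real.log s|))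
      (hev.mono fun s h1 => ?_) ?_
    · obtain ⟨h2, h3, h4, h5, h6⟩ := hseg s h1.1 h1.2
      rw [norm_mul]
      have h7 : ‖p s‖ * ‖W s‖ ≤ (2 * ‖cexp ℓ‖ * s) * (C + 2 * |Real.log s|) :=
        mul_le_mul (hpn s h1.1 h1.2) h6 (norm_nonneg _)
          (mul_nonneg (mul_nonneg two_pos.le hE.le) h1.1.le)
      refine h7.trans (le_of_eq ?_)
      rw [abs_mul, abs_of_pos h1.1]
      ring
    · have h1 : Tendsto (fun s : ℝ => s * Real.log s) (𝓝[>] 0) (𝓝 0) := by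
        have h2 := Real.continuous_mul_log.tendsto 0
        rw [zero_mul] at h2
        exact tendsto_nhdsWithin_of_tendsto_nhds h2
      have h2 := (((hid.mul_const C).add (h1.abs.const_mul 2))).const_mul (2 * ‖cexp ℓ‖)
      simpa using h2
  have hκ : Tendsto (fun s : ℝ => κ (z (θb - I * s, g₀)).1) (𝓝[>] 0) (𝓝 (κ lb)) := by
    have h1 : ContinuousAt κ lb :=
      (hK.κ_an.differentiableAt (isOpen_ball.mem_nhds hlb)).continuousAt
    exact h1.tendsto.comp hT.lim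
  have hκ0 : κ lb ≠ 0 := hK.lim.κ_ne lb hlb
  have hlim : Tendsto (fun s : ℝ => cexp 1 / (2 * I * κ (z (θb - I * s, g₀)).1) *
      (cexp (-(p s * W s)) / (1 + p s))) (𝓝[>] 0)
      (𝓝 (cexp 1 / (2 * I * κ lb) * (cexp (-0) / (1 + 0)))) := by
    refine Tendsto.mul ?_ ?_
    · refine Tendsto.div tendsto_const_nhds (hκ.const_mul (2 * I)) ?_
      exact mul_ne_zero (mul_ne_zero two_ne_zero I_ne_zero) hκ0
    · refine Tendsto.div ?_ (hp0.const_add 1) ?_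
      · exact (continuous_exp.tendsto _).comp hpW.neg
      · rw [add_zero]
        exact one_ne_zero
  have hc : Tendsto (fun _ : ℝ => g₀) (𝓝[>] 0) (𝓝 (cexp 1 / (2 * I * κ lb) *
      (cexp (-0) / (1 + 0)))) :=
    hlim.congr' (hev.mono fun s h1 => (hgf s h1.1 h1.2).symm)
  have hg : g₀ = cexp 1 / (2 * I * κ lb) := by
    have h1 := tendsto_nhds_unique tendsto_const_nhds hc
    rw [neg_zero, exp_zero, add_zero, div_one, mul_one] at h1
    exact h1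
  have hX : X lb = 0 := hK.lim.crd.X_lb
  have hJ : J 0 = lb := by
    have h1 := J_X hK hlb (by rw [hX, norm_zero]; exact hK.lim.crd.ρ_pos)
    rwa [hX] at h1
  rw [hK.lim.expΦ 0 (mem_ball_self hK.lim.crd.ρ_pos), hJ]
  exact hg

end Pool.Agent.MP_ae5b4e_an_ATK
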