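import Pool.Agent.Lib.MP_ae5b4e_an_ATK.Defs
import Pool.Agent.Lib.MP_ae5b4e_an_M.FnA

/-! # ATK: choice of the root of `q` at a tip -/

set_option autoImplicit false

noncomputable section

namespace Pool.Agent.MP_ae5b4e_an_ATK

open Complex Set Filter Topology Metric
open Pool.Agent.MP_ae5b4e_an_M (S1 C1f Gf bb)
open Pool.Agent.MP_ae5b4e_an_A1
open PorTR (Hm)

private theorem tipSign_cos_le (y : ℂ) : ‖cos y‖ ≤ Real.exp |y.im| := by
  have h1 : ‖cexp (y * I)‖ ≤ Real.exp |y.im| := by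
    rw [Complex.norm_exp]
    apply Real.exp_le_exp.mpr
    have : (y * I).re = -y.im := by simp
    rw [this]
    exact neg_le_abs _
  have h2 : ‖cexp (-y * I)‖ ≤ Real.exp |y.im| := by
    rw [Complex.norm_exp]
    apply Real.exp_le_exp.mpr
    have : (-y * I).re = y.im := by simp
    rw [this]
    exact le_abs_self _
  have h3 := norm_add_le (cexp (y * I)) (cexp (-y * I))
  have h4 : ‖cos y‖ = ‖cexp (y * I) + cexp (-y * I)‖ / 2 := by
    rw [Complex.cos, norm_div, Complex.norm_ofNat]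
  rw [h4]
  linarith

private theorem tipSign_slit {q : ℂ → ℂ} {Ω : Set (ℂ × ℂ)} {z : ℂ × ℂ → ℂ × ℂ} {θb g₀ lb : ℂ}
    {s₀ : ℝ} (hT : Tp q Ω z θb g₀ s₀ lb) {s : ℝ} (h0 : 0 < s) (h1 : s < s₀) :
    (θb - I * s, g₀) ∈ Ω := by
  apply hT.slit
  have h2 : θb - I * s - θb = -(I * s) := by ring
  refine ⟨?_, ?_⟩
  · rw [h2, norm_neg, norm_mul, Complex.norm_I, one_mul, Complex.norm_real,
      Real.norm_of_nonneg h0.le]
    exact h1
  · rw [h2]
    simpa using h0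

private theorem tipSign_ell {q κ : ℂ → ℂ} {lb : ℂ} {R : ℝ} (hR : 0 < R)
    (hκ : DifferentiableOn ℂ κ (ball lb R)) (hκq : ∀ l ∈ ball lb R, κ l ^ 2 = q l)
    (h0 : κ lb ≠ 0) (hq : deriv q lb ≠ 0) :
    ∃ ℓ : ℂ, cexp ℓ = deriv (fun l => 1 / (2 * I * κ l)) lb := by
  have hlb : lb ∈ ball lb R := mem_ball_self hR
  have hd : DifferentiableAt ℂ κ lb := hκ.differentiableAt (isOpen_ball.mem_nhds hlb)
  have h1 : HasDerivAt (fun l => κ l ^ 2) (2 * κ lb * deriv κ lb) lb := by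
    have := hd.hasDerivAt.fun_pow 2
    simpa using this
  have h2 : (fun l => κ l ^ 2) =ᶠ[𝓝 lb] q := by
    filter_upwards [isOpen_ball.mem_nhds hlb] with l hl using hκq l hl
  have h3 : deriv q lb = 2 * κ lb * deriv κ lb := by
    rw [← h2.deriv_eq, h1.deriv]
  have h4 : deriv κ lb ≠ 0 := by
    intro h
    rw [h, mul_zero] at h3
    exact hq h3
  have h5 : HasDerivAt (fun l => 2 * I * κ l) (2 * I * deriv κ lb) lb :=
    hd.hasDerivAt.const_mul _
  have hw : 2 * I * κ lb ≠ 0 := mul_ne_zero (mul_ne_zero two_ne_zero I_ne_zero) h0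
  have h6 : HasDerivAt (fun l => 1 / (2 * I * κ l)) (-(2 * I * deriv κ lb) / (2 * I * κ lb) ^ 2)
      lb := by
    have := h5.fun_inv hw
    simpa only [one_div] using this
  refine ⟨log (deriv (fun l => 1 / (2 * I * κ l)) lb), exp_log ?_⟩
  rw [h6.deriv]
  exact div_ne_zero (neg_ne_zero.mpr (mul_ne_zero (mul_ne_zero two_ne_zero I_ne_zero) h4))
    (pow_ne_zero 2 hw)

private theorem tipSign_root {q : ℂ → ℂ} {lb : ℂ} (hq : DifferentiableOn ℂ q Hm)
    (hlb : lb ∈ Hm) (hne : q lb ≠ 0) :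
    ∃ (R : ℝ) (κ : ℂ → ℂ), 0 < R ∧ closedBall lb R ⊆ Hm ∧
      DifferentiableOn ℂ κ (ball lb R) ∧ (∀ l ∈ ball lb R, κ l ^ 2 = q l) := by
  have hHo : IsOpen Hm := isOpen_lt Complex.continuous_im continuous_const
  have hqc : ContinuousAt q lb :=
    (hq.differentiableAt (hHo.mem_nhds hlb)).continuousAt
  have h1 : ∀ᶠ l in 𝓝 lb, ‖q l / q lb - 1‖ < 1 := by
    have hc : ContinuousAt (fun l => ‖q l / q lb - 1‖) lb :=
      ((hqc.div_const _).sub continuousAt_const).norm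
    refine hc.eventually_lt continuousAt_const ?_
    rw [div_self hne]
    simp
  obtain ⟨R', hR0, hR⟩ := Metric.eventually_nhds_iff_ball.mp
    ((hHo.eventually_mem hlb).and h1)
  obtain ⟨c, hc⟩ := IsAlgClosed.exists_pow_nat_eq (q lb) (n := 2) (by norm_num)
  have hsub : closedBall lb (R' / 2) ⊆ ball lb R' :=
    closedBall_subset_ball (by linarith)
  have hsl : ∀ l ∈ ball lb (R' / 2), q l / q lb ∈ slitPlane := by
    intro l hl
    have h2 := (hR l (hsub (ball_subset_closedBall hl))).2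
    have h3 := Complex.mem_slitPlane_of_norm_lt_one h2
    have h4 : 1 + (q l / q lb - 1) = q l / q lb := by ring
    rwa [h4] at h3
  refine ⟨R' / 2, fun l => c * cexp (log (q l / q lb) / 2), by linarith,
    fun l hl => (hR l (hsub hl)).1, ?_, ?_⟩
  · intro l hl
    have h2 : DifferentiableAt ℂ q l :=
      hq.differentiableAt (hHo.mem_nhds (hR l (hsub (ball_subset_closedBall hl))).1)
    exact ((((h2.div_const _).clog (hsl l hl)).div_const 2).cexp.const_mul c).differentiableWithinAt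
  · intro l hl
    have h2 : q l / q lb ≠ 0 := slitPlane_ne_zero (hsl l hl)
    have h3 : cexp (log (q l / q lb) / 2) ^ 2 = q l / q lb := by
      rw [← Complex.exp_nat_mul]
      have : ((2 : ℕ) : ℂ) * (log (q l / q lb) / 2) = log (q l / q lb) := by
        push_cast
        ring
      rw [this, exp_log h2]
    show (c * cexp (log (q l / q lb) / 2)) ^ 2 = q l
    rw [mul_pow, h3, hc]
    field_simp

private theorem tipSign_const {f : ℝ → ℝ} {a : ℝ} (ha : 0 < a) (hf : ContinuousOn f (Ioo 0 a))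
    (h : ∀ s ∈ Ioo 0 a, f s ≠ 0) : (∀ s ∈ Ioo 0 a, 0 < f s) ∨ ∀ s ∈ Ioo 0 a, f s < 0 := by
  have hm : a / 2 ∈ Ioo 0 a := ⟨by linarith, by linarith⟩
  rcases lt_or_gt_of_ne (h _ hm) with h1 | h1
  · right
    intro s hs
    by_contra h2
    have h3 := isPreconnected_Ioo.intermediate_value hm hs hf
    obtain ⟨t, ht, ht0⟩ := h3 (⟨h1.le, not_lt.mp h2⟩ : (0 : ℝ) ∈ Icc (f (a / 2)) (f s))
    exact h t ht ht0
  · left
    intro s hs
    by_contra h2
    have h3 := isPreconnected_Ioo.intermediate_value hs hm hf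
    obtain ⟨t, ht, ht0⟩ := h3 (⟨not_lt.mp h2, h1.le⟩ : (0 : ℝ) ∈ Icc (f s) (f (a / 2)))
    exact h t ht ht0

/-- THE ROOT `κ` of `q` with `Re (2 i κ α) → + ∞` at the tip, and `ℓ` with
`exp ℓ = (1 / (2 i κ))' (lb)`.

Proof. `R` with `closedBall lb R ⊆ Hm`, `‖q l / q lb - 1‖ < 1` on `ball lb R`;
`κ₀ l := c exp (log (q l / q lb) / 2)`, `c² = q lb`. Along the segment `u(s) = z (θb - i s, g₀)`,
`y = κ₀ (u.1) u.2`: `C1f (q u.2²) = C1f (y²) = cos y` (`C1f_sq`), `‖cos y‖ ≤ exp |Im y|`, so `|Im y|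
→ ∞`,
`Re (2 i y) = - 2 Im y`. `Im y` is continuous in `s ∈ (0, s₂)` (`Fw.z_an`, `Tp.slit`) and does not
vanish for
`s` small: constant sign on `(0, s₂)`. `κ := κ₀` or `- κ₀`. Derivative: `(1/(2 i κ))' = - κ' / (2 i
κ²)`,
`2 κ κ' = q' ≠ 0`; `ℓ := log` of it. -/
theorem tip_sign {q : ℂ → ℂ} {M Ω : Set (ℂ × ℂ)} {z : ℂ × ℂ → ℂ × ℂ} {θb g₀ lb : ℂ} {s₀ : ℝ}
    (hq : DifferentiableOn ℂ q Hm) (hz : Fw M (gI q) Ω z) (hT : Tp q Ω z θb g₀ s₀ lb) :
    ∃ (R : ℝ) (κ : ℂ → ℂ) (ℓ : ℂ), 0 < R ∧ closedBall lb R ⊆ Hm ∧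
      DifferentiableOn ℂ κ (ball lb R) ∧ (∀ l ∈ ball lb R, κ l ^ 2 = q l) ∧ κ lb ≠ 0 ∧
      cexp ℓ = deriv (fun l => 1 / (2 * I * κ l)) lb ∧
      Tendsto (fun s : ℝ => (2 * I * κ (z (θb - I * s, g₀)).1 * (z (θb - I * s, g₀)).2).re)
        (𝓝[>] 0) atTop := by
  obtain ⟨R, κ, hR, hRH, hκ, hκq⟩ := tipSign_root hq hT.low hT.ne
  have hlb : lb ∈ ball lb R := mem_ball_self hR
  have hκ0 : κ lb ≠ 0 := by
    intro h
    have := hκq lb hlb
    rw [h] at this
    exact hT.ne (by rw [← this]; simp)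
  set u : ℝ → ℂ × ℂ := fun s => z (θb - I * s, g₀) with hu
  set y : ℝ → ℂ := fun s => κ (u s).1 * (u s).2 with hy
  have hin : ∀ᶠ s : ℝ in 𝓝[>] 0, (u s).1 ∈ ball lb R := hT.lim (isOpen_ball.mem_nhds hlb)
  have hcos : ∀ᶠ s : ℝ in 𝓝[>] 0,
      ‖C1f (q (u s).1 * (u s).2 ^ 2)‖ ≤ Real.exp |(y s).im| := by
    filter_upwards [hin] with s hs
    have h1 : q (u s).1 * (u s).2 ^ 2 = y s ^ 2 := by
      rw [hy, ← hκq _ hs]
      ring
    rw [h1, Pool.Agent.MP_ae5b4e_an_M.C1f_sq]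
    exact tipSign_cos_le _
  have hexp : Tendsto (fun s => Real.exp |(y s).im|) (𝓝[>] 0) atTop :=
    tendsto_atTop_mono' _ hcos hT.inf
  have him : Tendsto (fun s => |(y s).im|) (𝓝[>] 0) atTop :=
    Real.tendsto_exp_comp_atTop.mp hexp
  have hev : ∀ᶠ s : ℝ in 𝓝[>] 0, (u s).1 ∈ ball lb R ∧ 1 ≤ |(y s).im| ∧ s < s₀ :=
    hin.and ((him.eventually_ge_atTop 1).and
      (eventually_nhdsWithin_of_eventually_nhds (eventually_lt_nhds hT.s_pos)))
  obtain ⟨a, ha0, ha⟩ := mem_nhdsGT_iff_exists_Ioo_subset.mp hev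
  have ha0' : (0 : ℝ) < a := ha0
  have hcont : ContinuousOn (fun s => (y s).im) (Ioo 0 a) := by
    intro s hs
    have h1 := ha hs
    have hm : (θb - I * s, g₀) ∈ Ω := tipSign_slit hT hs.1 h1.2.2
    have h2 : ContinuousAt u s := by
      have h3 : ContinuousAt z (θb - I * (s : ℂ), g₀) := (hz.z_an _ hm).continuousAt
      have h4 : ContinuousAt (fun s : ℝ => (θb - I * (s : ℂ), g₀)) s := by fun_prop
      exact ContinuousAt.comp (f := fun s : ℝ => (θb - I * (s : ℂ), g₀)) h3 h4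
    have h3 : ContinuousAt κ (u s).1 :=
      (hκ.differentiableAt (isOpen_ball.mem_nhds h1.1)).continuousAt
    have h4 : ContinuousAt (fun s => κ (u s).1) s :=
      ContinuousAt.comp (f := fun s => (u s).1) h3 h2.fst
    have h5 : ContinuousAt y s := h4.mul h2.snd
    exact (Complex.continuous_im.continuousAt.comp h5).continuousWithinAt
  have hne : ∀ s ∈ Ioo 0 a, (y s).im ≠ 0 := by
    intro s hs h
    have h1 := (ha hs).2.1
    rw [h, abs_zero] at h1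
    linarith
  have him2 : Tendsto (fun s => 2 * |(y s).im|) (𝓝[>] 0) atTop :=
    him.const_mul_atTop (by norm_num)
  rcases tipSign_const ha0' hcont hne with hpos | hneg
  · obtain ⟨ℓ, hℓ⟩ := tipSign_ell (q := q) (κ := fun l => -κ l) hR hκ.neg
      (fun l hl => by rw [neg_sq]; exact hκq l hl) (neg_ne_zero.mpr hκ0) hT.reg
    refine ⟨R, fun l => -κ l, ℓ, hR, hRH, hκ.neg, fun l hl => ?_, neg_ne_zero.mpr hκ0, hℓ, ?_⟩
    · rw [neg_sq]
      exact hκq l hl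
    · refine him2.congr' ?_
      filter_upwards [Ioo_mem_nhdsGT ha0'] with s hs
      have h1 := hpos s hs
      rw [abs_of_pos h1]
      have h2 : 2 * I * -κ (u s).1 * (u s).2 = -(2 * (I * y s)) := by
        rw [hy]
        ring
      show 2 * (y s).im = (2 * I * -κ (u s).1 * (u s).2).re
      rw [h2]
      simp
  · obtain ⟨ℓ, hℓ⟩ := tipSign_ell hR hκ hκq hκ0 hT.reg
    refine ⟨R, κ, ℓ, hR, hRH, hκ, hκq, hκ0, hℓ, ?_⟩
    refine him2.congr' ?_
    filter_upwards [Ioo_mem_nhdsGT ha0'] with s hs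
    have h1 := hneg s hs
    rw [abs_of_neg h1]
    have h2 : 2 * I * κ (u s).1 * (u s).2 = 2 * (I * y s) := by
      rw [hy]
      ring
    show 2 * -(y s).im = (2 * I * κ (u s).1 * (u s).2).re
    rw [h2]
    simp

end Pool.Agent.MP_ae5b4e_an_ATK
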