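import Pool.Agent.Lib.MP_ae5b4e_an_ATK.Pass
import Pool.Agent.Lib.MP_ae5b4e_an_ATK.BaseL
import Pool.Agent.Lib.MP_ae5b4e_an_ATK.TipBr
import Pool.Agent.Lib.MP_ae5b4e_an_ATK.TipSign
import Pool.Agent.Lib.MP_ae5b4e_an_AT.Top
import Pool.Agent.Lib.MP_ae5b4e_an_A3.Defs
import Pool.Agent.Lib.MP_ae5b4e_an_ATK.Md
import Pool.Agent.Lib.MP_ae5b4e_an_ATK.Paths
import Pool.Agent.Lib.MP_ae5b4e_an_ATK.Kseq

/-! # ATK: the first mode of the kick at a tip -/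

set_option autoImplicit false

noncomputable section

namespace Pool.Agent.MP_ae5b4e_an_ATK

open Complex Set Filter Topology Metric
open Pool.Agent.MP_ae5b4e_an_NB2 (Sys)
open Pool.Agent.MP_ae5b4e_an_M (S1 C1f Gf bb)
open Pool.Agent.MP_ae5b4e_an_A1
open Pool.Agent.MP_ae5b4e_an_AT
open Pool.Agent.MP_ae5b4e_an_A3 (md Dfc)
open PorTR (Hm)

private theorem Fin_min : ∀ l : List ℝ, (∀ x ∈ l, 0 < x) → ∃ m : ℝ, 0 < m ∧ ∀ x ∈ l, m ≤ x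
  | [], _ => ⟨1, one_pos, fun x hx => absurd hx (by simp)⟩
  | a :: l, h => by
    obtain ⟨m, hm, hm'⟩ := Fin_min l fun x hx => h x (List.mem_cons_of_mem a hx)
    refine ⟨min a m, lt_min (h a List.mem_cons_self) hm, fun x hx => ?_⟩
    rcases List.mem_cons.1 hx with rfl | hx
    · exact min_le_left _ _
    · exact (min_le_right _ _).trans (hm' x hx)

/-- the choice of the size `t` of the base regions -/
private theorem Fin_t {t₀ t₁ w rr s₁ b₀ d₁ d₂ d₃ c E : ℝ} (ht₀ : 0 < t₀) (ht₁ : 0 < t₁)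
    (hw : 0 < w) (hrr : 0 < rr) (hs₁ : 0 < s₁) (hb₀ : 0 < b₀) (hd₁ : 0 < d₁) (hd₂ : 0 < d₂)
    (hd₃ : 0 < d₃) (hc : 0 < c) (hE : 0 ≤ E) :
    ∃ t : ℝ, 0 < t ∧ t ≤ t₀ ∧ t ≤ t₁ ∧ 16 * t ≤ w ∧ 32 * t ≤ rr ∧ 2 * t < s₁ ∧ t < b₀ ∧
      2 * t ≤ d₁ ∧ 2 * t ≤ d₂ ∧ 8 * t < d₃ ∧ E * (2 * t) < 1 ∧ 8 * t ≤ c := by
  have hE1 : 0 < 1 / (1 + E) := by positivity
  obtain ⟨m, hm, H⟩ := Fin_min [t₀, t₁, w, rr, s₁, b₀, d₁, d₂, d₃, 1 / (1 + E), c] (by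
    intro x hx
    simp only [List.mem_cons, List.not_mem_nil, or_false] at hx
    rcases hx with rfl | rfl | rfl | rfl | rfl | rfl | rfl | rfl | rfl | rfl | rfl <;> assumption)
  have a1 : m ≤ t₀ := H _ (by simp)
  have a2 : m ≤ t₁ := H _ (by simp)
  have a3 : m ≤ w := H _ (by simp)
  have a4 : m ≤ rr := H _ (by simp)
  have a5 : m ≤ s₁ := H _ (by simp)
  have a6 : m ≤ b₀ := H _ (by simp)
  have a7 : m ≤ d₁ := H _ (by simp)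
  have a8 : m ≤ d₂ := H _ (by simp)
  have a9 : m ≤ d₃ := H _ (by simp)
  have a10 : m ≤ 1 / (1 + E) := H _ (by simp)
  have a11 : m ≤ c := H _ (by simp)
  have a12 : m * (1 + E) ≤ 1 := (le_div_iff₀ (by positivity)).1 a10
  have a13 : 0 ≤ m * E := by positivity
  exact ⟨m / 32, by linarith, by linarith, by linarith, by linarith, by linarith, by linarith,
    by linarith, by linarith, by linarith, by linarith, by nlinarith, by linarith⟩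

/-- for small `h` the lower bound of the first mode is larger than the deficient bound -/
private theorem Fin_sc {K c : ℝ} (hK : 0 < K) (hc : 0 < c) (y₀ : ℝ) : ∃ h₂ : ℝ, 0 < h₂ ∧
    ∀ h : ℝ, 0 < h → h ≤ h₂ → ∀ s : ℝ, s ≤ y₀ + c / 2 →
      Real.exp (-(2 * Real.pi / h * (y₀ + c))) < h / 4 * K * Real.exp (-(2 * Real.pi * s / h)) := by
  obtain ⟨h₂, hh₂, H⟩ := small_err (κ₁ := 2 * c) (M := 1) (m := K) (by positivity) one_pos.le hK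
  refine ⟨h₂, hh₂, fun h h0 hle s hs => ?_⟩
  obtain ⟨-, -, h3⟩ := H h h0 hle
  have e1 : 2 * Real.pi * (2 * c / (4 * h)) = Real.pi * c / h := by
    field_simp
    ring
  rw [one_mul, e1] at h3
  have h4 : 0 < h ^ 2 := by positivity
  have h4' : 0 < h * K := by positivity
  have h5 : Real.exp (-(Real.pi * c / h)) < h / 4 * K := by linarith
  have h6 : -(2 * Real.pi / h * (y₀ + c)) ≤ -(Real.pi * c / h) + -(2 * Real.pi * s / h) := by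
    have e2 : -(2 * Real.pi / h * (y₀ + c)) - (-(Real.pi * c / h) + -(2 * Real.pi * s / h)) =
        -(2 * Real.pi / h * (y₀ + c / 2 - s)) := by
      field_simp
      ring
    have h7 : 0 ≤ 2 * Real.pi / h * (y₀ + c / 2 - s) :=
      mul_nonneg (by positivity) (by linarith)
    linarith
  calc Real.exp (-(2 * Real.pi / h * (y₀ + c)))
      ≤ Real.exp (-(Real.pi * c / h)) * Real.exp (-(2 * Real.pi * s / h)) := by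
        rw [← Real.exp_add]
        exact Real.exp_le_exp.2 h6
    _ < h / 4 * K * Real.exp (-(2 * Real.pi * s / h)) :=
        mul_lt_mul_of_pos_right h5 (Real.exp_pos _)

variable {U : Ultrafilter ℕ} {Zs : ℕ → Sys} {ε : ℕ → ℝ} {q : ℂ → ℂ} {Ω : Set (ℂ × ℂ)}
  {z : ℂ × ℂ → ℂ × ℂ} {θb g₀ lb : ℂ} {s₀ : ℝ}

/-- **THE FIRST MODE AT A TIP HAS FULL RATE.** `g₀` may be complex.

Proof. `tip_sign`: `R, κ, ℓ₀`; `hKs`: frames for `ℓ₀`. `η := min (ρ / 8) (1 / (8 (1 + ‖e^ℓ₀‖)))`. `exists_Tl`: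
`ℓ, s₁` (`s₁ ≤ s₀`), `Ks.congr`; `tip_gam`: `g₀ = exp (- Φ 0)`. `tip_abs` for `Side ℓ 0 ρ A Φ` (simplify `-0`):
`t₀`. `kick_id`: `rr`. `base_lim`: `t₁`. Choose `t` with `t ≤ t₀, t₁`, `16 t ≤ w`, `32 t ≤ rr`,
`8 t < s₁`, `t < b₀`, `2 t ≤ Re θb - al, ar - Re θb`, `8 t < y₀ - y₁`, `‖e^ℓ‖ 2 t < 1`, `8 t ≤ c`. `paths`: `η'`.
`base_lim` for `s = ∓ 1` and `η'`: `P_L, P_R`, common `r` (`Pb.mono`), also so small that
`‖exp (- x) - g₀‖ ≤ rr / 4` for `‖x - Φ 0‖ < r`. `O := PO Ω (left box) T₁` (open, `isOpen_PO`, contained in `Ω`),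
`W n := push .. ⌊T₁ / ε n⌋₊ (Zl n)`, `Ex.push`. `base_left`, `base_right` (with `O := ` right box, `T := T₂`):
`QL, QR`. `tip_abs` for `t, r / 2`: `κ₀, h₁, δ₁`. `kick_pass` for `r / 2` (`hL, hR` from the conclusions; `hR2`
from `BaseG.cl` with `δ = rr / 4`): `Kick`. For almost all `n`, `h = ε n ≤ h₁`, `Cl 0 ρ (An n) A δ₁`
(`Near.A_cl`, `Crd.A_an`): `tip_abs` gives `sb, y'` with `y₀ - 5 t ≤ y' ≤ y₀ - κ₀ / 4`. `md_shift`, `md_indep` (heights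
`y₁ < y, y' < y₀ - min (κ₀ / 8) ((y₀ - y) / 2)`, `Ps.an`):
`‖md h y (B n) (-1) g₀‖ ≥ (h / 4) ‖e^ℓ g₀‖ exp (- 2 π (y₀ + 4 t) / h) ≥ exp (- (2 π / h) (y₀ + c))` for `h` small, because
`4 t ≤ c / 2`. -/
theorem tip_lb {ξ : ℕ → ℂ × ℂ → ℂ} (hV : VF U ε (Hm ×ˢ univ) (gI q) (gx ε ξ))
    (hξ : XI U Zs ε ξ) (hq : DifferentiableOn ℂ q Hm) (hz : Fw (Hm ×ˢ univ) (gI q) Ω z)
    (hH : ∀ p ∈ Ω, Gf q (z p).1 (z p).2 = p.2) (hT : Tp q Ω z θb g₀ s₀ lb)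
    (hKs : ∀ (R : ℝ) (κ : ℂ → ℂ) (ℓ : ℂ), 0 < R → closedBall lb R ⊆ Hm →
      DifferentiableOn ℂ κ (ball lb R) → (∀ l ∈ ball lb R, κ l ^ 2 = q l) → κ lb ≠ 0 →
      cexp ℓ = deriv (fun l => 1 / (2 * I * κ l)) lb →
      ∃ (R₁ ρ : ℝ) (X J A Φ : ℂ → ℂ) (Xn Jn An : ℕ → ℂ → ℂ),
        Ks U Zs ε q κ lb ℓ R₁ ρ X J A Φ Xn Jn An)
    {al ar y₀ y₁ w rb : ℝ} {Yb : ℂ → ℝ} {Zl Zr : ℕ → ℂ × ℂ → ℂ × ℂ} {AA B : ℕ → ℂ × ℂ → ℂ}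
    (hPs : Ps U ε (gx ε ξ) z al ar y₀ y₁ w rb g₀ Yb Zl Zr AA B)
    (hBo : Pool.Agent.MP_ae5b4e_an_BX.Rec (al - w) (al + w) (y₀ - w) (y₀ + w) ×ˢ
      ball g₀ (2 * rb) ⊆ Ω)
    (hBo' : Pool.Agent.MP_ae5b4e_an_BX.Rec (ar - w) (ar + w) (y₀ - w) (y₀ + w) ×ˢ
      ball g₀ (2 * rb) ⊆ Ω) (ha : al < θb.re) (ha' : θb.re < ar) (hθ : θb.im = y₀)
    (hY : Yb g₀ = y₀) {b₀ : ℝ} (hb₀ : 0 < b₀)
    (hG : ∀ θ : ℂ, al ≤ θ.re → θ.re ≤ ar → |θ.im - y₀| < b₀ →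
      (θ - θb).im < 3 / 5 * |(θ - θb).re| → (θ, g₀) ∈ Ω) {y : ℝ} (h1 : y₁ < y) (h2 : y < y₀)
    {c : ℝ} (hc : 0 < c) : ∀ᶠ n in (U : Filter ℕ),
      Real.exp (-(2 * Real.pi / ε n * (y₀ + c))) ≤ ‖md (ε n) y (B n) (-1) g₀‖ := by
  obtain ⟨R, κ, ℓ₀, hR, hRs, hκa, hκq, hκ0, hℓ₀, hs⟩ := tip_sign hq hz hT
  obtain ⟨R₁, ρ, X, J, A, Φ, Xn, Jn, An, hK₀⟩ := hKs R κ ℓ₀ hR hRs hκa hκq hκ0 hℓ₀
  have hρ : 0 < ρ := hK₀.lim.side.ρ_pos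
  obtain ⟨η, hη⟩ : ∃ η : ℝ, η = min (ρ / 8) (1 / (8 * (1 + ‖cexp ℓ₀‖))) := ⟨_, rfl⟩
  have hη0 : 0 < η := by
    rw [hη]
    positivity
  obtain ⟨ℓ, s₁, hℓ, hs1, hTl⟩ := exists_Tl hK₀ hz hT hs hη0
  have hK := hK₀.congr hℓ
  have hg : g₀ = cexp (-Φ 0) := tip_gam hK₀ hz hH hT hs
  have hη1 : η ≤ ρ / 8 := hη ▸ min_le_left _ _
  have hη2 : η * ‖cexp ℓ‖ ≤ 1 / 8 := by
    have b1 : η ≤ 1 / (8 * (1 + ‖cexp ℓ₀‖)) := hη ▸ min_le_right _ _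
    have b2 : 0 ≤ ‖cexp ℓ₀‖ := norm_nonneg _
    rw [le_div_iff₀ (by positivity)] at b1
    rw [hℓ]
    nlinarith
  have hS := hK.lim.side
  obtain ⟨t₀, ht₀, -, habs⟩ := tip_abs hS
  obtain ⟨rr, hrr, hkick⟩ := kick_id hV hz hPs hBo'
  have hΩ : ∀ θ ∈ Sl θb s₁, (θ, g₀) ∈ Ω := fun θ hθ' => hT.slit θ ⟨hθ'.1.trans_le hs1, hθ'.2⟩
  obtain ⟨t₁, ht₁, -, hbase⟩ := base_lim hK hz hH hg hTl hΩ hη1 hη2
  have hw : 0 < w := hPs.w_pos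
  have hr : 0 < rb := hPs.r_pos
  obtain ⟨t, ht, htt₀, htt₁, htw, htr, hts, htb, hta, hta', hty, htl, htc⟩ :=
    Fin_t ht₀ ht₁ hw hrr hTl.pos hb₀ (sub_pos.2 ha) (sub_pos.2 ha') (sub_pos.2 (h1.trans h2)) hc
      (norm_nonneg (cexp ℓ))
  obtain ⟨η', hη', hpath⟩ := paths hz.Ω_open hBo hBo' hr hw hθ hG ht htb htw hta hta'
  obtain ⟨rL, PL, hPL⟩ := hbase t ht htt₁ (-1) (ℓ - Real.pi * I) (Or.inr ⟨rfl, rfl⟩) η' hη'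
  obtain ⟨rR, PR, hPR⟩ := hbase t ht htt₁ 1 ℓ (Or.inl ⟨rfl, rfl⟩) η' hη'
  -- the radius
  obtain ⟨r₂, hr₂, hexp⟩ : ∃ r₂ : ℝ, 0 < r₂ ∧ ∀ x : ℂ, ‖x - Φ 0‖ < r₂ →
      ‖cexp (-x) - g₀‖ ≤ rr / 4 := by
    have b1 : Continuous fun x : ℂ => cexp (-x) := by fun_prop
    obtain ⟨r₂, hr₂, b2⟩ := Metric.continuousAt_iff.1 (b1.continuousAt (x := Φ 0)) (rr / 4)
      (by linarith)
    refine ⟨r₂, hr₂, fun x hx => ?_⟩
    have b3 := b2 (x := x) (by rwa [dist_eq_norm])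
    rw [dist_eq_norm, ← hg] at b3
    exact b3.le
  obtain ⟨r, hr0, hrL, hrR, hrr2⟩ : ∃ r : ℝ, 0 < r ∧ r ≤ rL ∧ r ≤ rR ∧ r ≤ r₂ :=
    ⟨min rL (min rR r₂), lt_min hPL.r_pos (lt_min hPR.r_pos hr₂), min_le_left _ _,
      (min_le_right _ _).trans (min_le_left _ _), (min_le_right _ _).trans (min_le_right _ _)⟩
  replace hPL := hPL.mono hr0 hrL
  replace hPR := hPR.mono hr0 hrR
  obtain ⟨T₁, hT₁⟩ : ∃ T₁ : ℝ, T₁ = θb.re - t - al + w / 2 := ⟨_, rfl⟩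
  obtain ⟨T₂, hT₂⟩ : ∃ T₂ : ℝ, T₂ = ar + w / 2 - θb.re - t := ⟨_, rfl⟩
  rw [← hT₁, ← hT₂] at hpath
  have hT₁0 : 0 ≤ T₁ := by
    rw [hT₁]
    linarith
  have hT₂0 : 0 ≤ T₂ := by
    rw [hT₂]
    linarith
  have hBi : IsOpen (Pool.Agent.MP_ae5b4e_an_BX.Rec (al - w) (al + w) (y₀ - w) (y₀ + w) ×ˢ
      ball g₀ (2 * rb)) := (Pool.Agent.MP_ae5b4e_an_BX.isOpen_Rec _ _ _ _).prod isOpen_ball
  have hBi1 : IsOpen (Pool.Agent.MP_ae5b4e_an_BX.Rec (ar - w) (ar + w) (y₀ - w) (y₀ + w) ×ˢ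
      ball g₀ (2 * rb)) := (Pool.Agent.MP_ae5b4e_an_BX.isOpen_Rec _ _ _ _).prod isOpen_ball
  obtain ⟨O, hO⟩ : ∃ O : Set (ℂ × ℂ), O = PO Ω (Pool.Agent.MP_ae5b4e_an_BX.Rec (al - w) (al + w)
      (y₀ - w) (y₀ + w) ×ˢ ball g₀ (2 * rb)) T₁ := ⟨_, rfl⟩
  have hOo : IsOpen O := by
    rw [hO]
    exact isOpen_PO hz.Ω_open hBi T₁
  have hOΩ : O ⊆ Ω := by
    rw [hO]
    intro p hp
    have b1 := hp.2 0 ⟨le_rfl, hT₁0⟩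
    rw [Complex.ofReal_zero, neg_zero, tr_zero] at b1
    exact b1
  have hOmem : ∀ p : ℂ × ℂ, ‖p.2 - g₀‖ < η' → ‖p.1 - (θb - t)‖ ≤ t / 2 → p ∈ O := by
    intro p hp1 hp2
    rw [hO]
    exact (hpath p hp1).1 hp2
  have hW : Ex U ε (gx ε ξ) O z
      fun n => push (ε n) (gx ε ξ n) ⌊T₁ / ε n⌋₊ (Zl n) := by
    rw [hO]
    exact Ex.push hV hz hBi hPs.exl hT₁0
  obtain ⟨QL, hQL⟩ := base_left hV hξ hz hK hOo hOΩ hW ht htl hPL (fun p hp1 hp2 =>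
    hOmem p hp2 (by
      have e : θb + -1 * (t : ℂ) = θb - t := by ring
      rw [e] at hp1
      linarith))
  obtain ⟨QR, hQR⟩ := base_right hV hξ hz hK hBi1 hBo' hPs.exr hT₂0 ht
    htl hPR (fun p hp1 hp2 => (hpath p hp2).2 (by linarith))
  obtain ⟨κ₀, h₁, δ₁, hκ₀, hκt, hh₁, hδ₁, hmain⟩ := habs t ht htt₀ (r / 2) (half_pos hr0)
  have hKick := kick_pass hV hξ hz hK hTl hΩ hη1 hPs hrr hkick hθ hY hκ₀ hκt hts htl hT₁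
    hT₂ hT₁0 hT₂0 htw htr (by linarith) hOo hOΩ hW (r := r / 2)
    (fun θ hθ' => hOmem (θ, g₀) (by simpa using hη') hθ') (QL := QL) (QR := QR)
    (by
      filter_upwards [hQL 1 one_pos] with n hn
      exact hn.2.2)
    (by
      filter_upwards [hQR 1 one_pos] with n hn
      exact hn.2)
    (by
      filter_upwards [hQR (rr / 4) (by linarith)] with n hn u hu
      have b1 := hn.1.cl u hu
      have b2 : ‖en ℓ Φ u - Φ 0‖ < r / 2 := hu.2.2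
      have b3 := hexp (en ℓ Φ u) (by linarith)
      have e : (QR n u).2 - g₀ = ((QR n u).2 - cexp (-en ℓ Φ u)) + (cexp (-en ℓ Φ u) - g₀) := by
        ring
      rw [e]
      refine (norm_add_le _ _).trans ?_
      linarith)
  have hK0 : 0 < ‖cexp ℓ * cexp (-Φ 0)‖ :=
    norm_pos_iff.2 (mul_ne_zero (Complex.exp_ne_zero _) (Complex.exp_ne_zero _))
  obtain ⟨h₂, hh₂, hsc⟩ := Fin_sc hK0 hc y₀
  have hε : ∀ᶠ n in (U : Filter ℕ), ε n < min h₁ h₂ :=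
    hV.ε_lim.eventually (gt_mem_nhds (lt_min hh₁ hh₂))
  obtain ⟨η₂, hη₂⟩ : ∃ η₂ : ℝ, η₂ = min (κ₀ / 8) ((y₀ - y) / 2) := ⟨_, rfl⟩
  have hη₂0 : 0 < η₂ := by
    rw [hη₂]
    exact lt_min (by linarith) (by linarith)
  have hη₂a : η₂ ≤ κ₀ / 8 := hη₂ ▸ min_le_left _ _
  have hη₂b : η₂ ≤ (y₀ - y) / 2 := hη₂ ▸ min_le_right _ _
  filter_upwards [hKick, hQL δ₁ hδ₁, hQR δ₁ hδ₁, hK.near δ₁ hδ₁, hK.fr, hε,
    hPs.an η₂ hη₂0] with n nKick nL nR nNear nFr nε nPas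
  obtain ⟨-, aF, bF, aF', bF', hFr⟩ := nFr
  have hn0 : 0 < ε n := hV.ε_pos n
  have nCl : Cl 0 ρ (An n) A δ₁ := ⟨hFr.crd.A_an, nNear.A_cl⟩
  have nG := nL.1
  have nS := nL.2.1
  have nGr := nR.1
  have hm0 := hmain (ε n) (An n) hn0 (nε.le.trans (min_le_left _ _)) nCl θb
    (fun u => (QL n u).1) (fun u => (QL n u).2) (fun u => (QR n u).2)
    (fun s => B n (s, g₀)) (θb.im - κ₀ / 4)
  rw [neg_zero] at hm0
  obtain ⟨sb, y', hsb, hy1, hy2, hint⟩ := hm0 nG nS nGr (by rw [← hg]; exact nKick)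
  have hper : ∀ p, B n (tr ((ε n : ℝ) : ℂ) p) = B n p := fun p => (hPs.per n p).2
  have hsh := md_shift (F := B n) (y := y') (σ := sb.re) (γ := g₀) hn0 hper
  have hin := md_indep (F := B n) (h := ε n) (y := y) (y' := y') (y₁ := y₁)
    (y₂ := y₀ - η₂) (γ := g₀) hn0 hper (fun θ b1 b2 => nPas.2 (θ, g₀)
      ⟨mem_ball_self hr, b1, by
        change θ.im < Yb g₀ - η₂
        rw [hY]
        exact b2⟩) h1 (by linarith) (by linarith) (by linarith)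
  rw [hsh, ← hin] at hint
  have hsb' : sb.im ≤ y₀ + c / 2 := by
    have b1 := (abs_le.1 ((Complex.abs_im_le_norm (sb - θb)).trans hsb)).2
    rw [Complex.sub_im, hθ] at b1
    linarith
  exact (hsc (ε n) hn0 (nε.le.trans (min_le_right _ _)) sb.im hsb').le.trans hint

/-- **THE FIRST MODE AT A TIP IS NOT DEFICIENT.** Proof. `Dfc` at `γ = g₀` with `c` against `tip_lb` with
`c / 2` (`Yb g₀ = y₀`). -/
theorem not_dfc {g₀ : ℂ} {y y₀ : ℝ} {Yb : ℂ → ℝ} {B : ℕ → ℂ × ℂ → ℂ} (he : ∀ n, 0 < ε n)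
    (hY : Yb g₀ = y₀) (h : ∀ c : ℝ, 0 < c → ∀ᶠ n in (U : Filter ℕ),
      Real.exp (-(2 * Real.pi / ε n * (y₀ + c))) ≤ ‖md (ε n) y (B n) (-1) g₀‖) :
    ¬Dfc U ε y Yb g₀ B := by
  rintro ⟨c, hc, r, hr, hd⟩
  obtain ⟨n, h1, h2⟩ := ((h (c / 2) (half_pos hc)).and hd).exists
  have h3 := h1.trans (h2 g₀ (mem_ball_self hr))
  rw [Real.exp_le_exp, hY] at h3
  have h4 : 0 < 2 * Real.pi / ε n := div_pos Real.two_pi_pos (he n)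
  have h5 : 2 * Real.pi / ε n * (y₀ + c / 2) < 2 * Real.pi / ε n * (y₀ + c) :=
    mul_lt_mul_of_pos_left (by linarith) h4
  linarith

end Pool.Agent.MP_ae5b4e_an_ATK
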