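import Pool.Agent.Lib.MP_ae5b4e_an_ATK.ChA
import Pool.Agent.Lib.MP_ae5b4e_an_ATK.Br
import Pool.Agent.Lib.MP_ae5b4e_an_ATK.EnC
import Pool.Agent.Lib.MP_ae5b4e_an_ATK.ChI
import Pool.Agent.Lib.MP_ae5b4e_an_A1.Flow

/-! # ATK: chains which pass below the tip have small imaginary part of the time -/

set_option autoImplicit false

noncomputable section

namespace Pool.Agent.MP_ae5b4e_an_ATK

open Complex Set Filter Topology Metric
open Pool.Agent.MP_ae5b4e_an_NB2 (Sys)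
open Pool.Agent.MP_ae5b4e_an_A1
open Pool.Agent.MP_ae5b4e_an_AT
open PorTR (Hm)

variable {U : Ultrafilter ℕ} {Zs : ℕ → Sys} {ε : ℕ → ℝ} {q κ : ℂ → ℂ} {lb ℓ : ℂ} {R ρ : ℝ}
  {X J A Φ : ℂ → ℂ} {Xn Jn An : ℕ → ℂ → ℂ} {Ω : Set (ℂ × ℂ)} {z : ℂ × ℂ → ℂ × ℂ}
  {θb g₀ : ℂ} {s₁ η : ℝ}

private theorem High_caseA {w d : ℂ} {κ₀ t c b e : ℝ} (hκ : 0 < κ₀) (he : e ≤ κ₀ / 100)
    (hc : c = max (κ₀ / 2) (17 / 10 * b)) (hb : -(κ₀ / 4) ≤ b) (hw : w ∈ Low κ₀ t)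
    (hwd : ‖w - d‖ ≤ κ₀ / 100 + ‖d‖ / 100) (h1 : d.im = b) (h2 : -(c + e) ≤ d.re)
    (h3 : d.re ≤ -c) : False := by
  obtain ⟨w1, w2, -⟩ := hw
  have hd : ‖d‖ ≤ |d.re| + |d.im| := Complex.norm_le_abs_re_add_abs_im d
  have hre := (Complex.abs_re_le_norm (w - d)).trans hwd
  have him := (Complex.abs_im_le_norm (w - d)).trans hwd
  rw [sub_re, abs_le] at hre
  rw [sub_im, abs_le] at him
  have hc0 : κ₀ / 2 ≤ c := by
    rw [hc]
    exact le_max_left _ _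
  have hdre : |d.re| ≤ c + e := by
    rw [abs_of_nonpos (by linarith)]
    linarith
  rcases le_total (17 / 10 * b) (κ₀ / 2) with h | h
  · rw [max_eq_left h] at hc
    have h4 : |d.im| ≤ 3 / 10 * κ₀ := by
      rw [h1, abs_le]
      constructor <;> linarith
    have h5 : ‖w‖ ≤ ‖w - d‖ + ‖d‖ := by
      have := norm_add_le (w - d) d
      rwa [sub_add_cancel] at this
    linarith
  · rw [max_eq_right h] at hc
    have hb0 : 0 < b := by linarith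
    have h4 : |d.im| = b := by
      rw [h1]
      exact abs_of_pos hb0
    have h5 : |w.re| ≤ 18 / 10 * b := by
      rw [abs_le]
      constructor <;> linarith
    linarith [him.1, him.2]

private theorem High_caseB {w d : ℂ} {κ₀ t : ℝ} (ht : 0 < t) (hκt : κ₀ ≤ t / 32)
    (hw : ‖w - t‖ < t / 4) (hwd : ‖w - d‖ ≤ κ₀ / 100 + ‖d‖ / 100) (h1 : ‖d‖ ≤ 2 * t)
    (h2 : d.re ≤ 0) : False := by
  have h3 := (Complex.abs_re_le_norm (w - d)).trans hwd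
  have h4 := (Complex.abs_re_le_norm (w - t)).trans hw.le
  rw [sub_re, abs_le] at h3 h4
  rw [ofReal_re] at h4
  linarith [h3.1, h3.2, h4.1, h4.2]

/-- THE HEIGHT. `W` = exact family near the left side, `K` = set of times there.

Proof. Suppose not. `U` is an ultrafilter, so for almost all `n` there are `m, v, θ` as in the statement
with `Im θ > Im θb - κ₀ / 4`; choose `m n, v n, θ n`. `K` is compact: `θ n → θ∗ ∈ K` along `U`
(`IsCompact.ultrafilter_le_nhds`), `b := Im (θ∗ - θb) ≥ - κ₀ / 4`. `p∗ := (θ∗, g₀)`. `W n (θ n, g₀) → z p∗`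
(`Ex.conv` on a compact neighbourhood of `p∗` in `O`, continuity of `z`), i.e. `En n (v 0) → z p∗`. Let
`c := max (κ₀ / 2) (17 b / 10)` and `t' := Re θb - c - Re θ∗`; `t' ≥ 0` because
`Re (θ∗ - θb) ≤ - t / 4 ≤ - κ₀/2` and `17 b / 10 ≤ |Re (θ∗ - θb)|` (`hKb`). For `s ∈ [0, t']` the point
`θ = θ∗ + s` is in `Sl θb s₁`: `Im (θ - θb) = b ≤ 10 c / 17 < (3/5) c ≤ (3/5) |Re (θ - θb)|`;
`‖θ - θb‖ ≤ ‖θ∗ - θb‖ ≤ 2 t < s₁` (the real part moves towards `Re θb`); so `tr s p∗ ∈ Ω`. `iter_close` for `{p∗}`, `t'`, `δ`: for almost all `n` and all `j ≤ t' / ε n`: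
`‖stp^[j] (En n (v 0)) - z (tr (j ε) p∗)‖ ≤ δ`. The set `C = {z (tr s p∗) | s ∈ [0, t']}` is compact and
`Ct κ X ℓ` is continuous at its points (`ct_cont`, `Tl.mem`, `Tl.ne`): there is `δ₂` with
`‖Ct u - Ct c‖ ≤ κ₀ / 100` for `c ∈ C`, `‖u - c‖ ≤ δ₂` (`IsCompact.uniformContinuousAt_of_continuousAt`). If
`j ≤ m n`: `stp^[j] (En n (v 0)) = En n (v j)` (`chain_iter`), and `‖En n (v j) - Em κ J (laml ℓ) (v j)‖ ≤ δ₂ / 2`
(`en_conv`), `Ct (Em (v j)) = v j` (`ct_em`), so with `ζ j := (Ct (z (tr (j ε) p∗))).2`: `‖(v j).2 - ζ j‖ ≤ κ₀ / 100`, and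
`‖ζ j - (θ j - θb)‖ ≤ ‖θ j - θb‖ / 100`, `θ j = θ∗ + j ε` (`Tl.z_near`), `‖θ j - θb‖ ≤ 2 t`. Let `j := ⌊t' / ε n⌋₊`:
`Re (θ j - θb) ∈ [- c - ε, - c]`. CASE `j ≤ m n`. If `17 b / 10 ≤ κ₀ / 2`: `c = κ₀ / 2`,
`‖θ j - θb‖ ≤ 0.6 κ₀ + ε`, so `‖(v j).2‖ < κ₀`: contradiction to `Low`. Else `c = 17 b / 10`, `κ₀ ≤ 3.4 b`,
`‖θ j - θb‖ ≤ 2 b + ε`, `Im (v j).2 ≥ b - (2 b + ε)/100 - κ₀/100 ≥ 0.9 b`,
`|Re (v j).2| ≤ 1.7 b + ε + (2 b + ε)/100 + κ₀/100 ≤ 1.8 b`, so `Im > |Re| / 4`: contradiction to `Low`. CASE `m n < j`: the same estimates for the index `m n`: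
`Re (θ_m - θb) ≤ - c < 0`, `Re (v m).2 ≤ κ₀ / 100 + 2 t / 100 < t / 2`, but `‖(v m).2 - t‖ < t / 4`. -/
theorem high {ξ : ℕ → ℂ × ℂ → ℂ} (hV : VF U ε (Hm ×ˢ univ) (gI q) (gx ε ξ))
    (hξ : XI U Zs ε ξ) (hz : Fw (Hm ×ˢ univ) (gI q) Ω z)
    (hK : Ks U Zs ε q κ lb ℓ R ρ X J A Φ Xn Jn An) (hT : Tl κ X lb ℓ R η z θb g₀ s₁)
    (hΩ : ∀ θ ∈ Sl θb s₁, (θ, g₀) ∈ Ω) (hη : η ≤ ρ / 8) {O : Set (ℂ × ℂ)} (hO : IsOpen O)
    (hOΩ : O ⊆ Ω) {W : ℕ → ℂ × ℂ → ℂ × ℂ} (hW : Ex U ε (gx ε ξ) O z W) {κ₀ t : ℝ} (hκ : 0 < κ₀)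
    (hκt : κ₀ ≤ t / 32) (hts : 2 * t < s₁) (htl : ‖cexp ℓ‖ * (2 * t) < 1) {K : Set ℂ}
    (hKc : IsCompact K) (hKO : ∀ θ ∈ K, (θ, g₀) ∈ O) (hKt : ∀ θ ∈ K, ‖θ - θb‖ ≤ 2 * t)
    (hKr : ∀ θ ∈ K, (θ - θb).re ≤ -(t / 4)) (hKb : ∀ θ ∈ K, 17 * (θ - θb).im ≤ 10 * |(θ - θb).re|) :
    ∀ᶠ n in (U : Filter ℕ), ∀ (m : ℕ) (v : ℕ → ℂ × ℂ) (θ : ℂ),
      (∀ k ≤ m, ‖(v k).1‖ < ρ / 2 ∧ (v k).2 ∈ Low κ₀ t) →
      (∀ k < m, v (k + 1) = Fl ℓ (ε n) (An n) (v k)) → ‖(v m).2 - t‖ < t / 4 → θ ∈ K →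
      W n (θ, g₀) = En (ε n) (Jn n) (laml ℓ) (v 0) → θ.im ≤ θb.im - κ₀ / 4 := by
  have ht : 0 < t := by linarith
  have hρ : 0 < ρ := hK.lim.crd.ρ_pos
  by_contra hcon
  have h1 := Ultrafilter.eventually_not.2 hcon
  have h2 : ∀ᶠ n in (U : Filter ℕ), ∃ θ : ℂ, ∃ (m : ℕ) (v : ℕ → ℂ × ℂ),
      (∀ k ≤ m, ‖(v k).1‖ < ρ / 2 ∧ (v k).2 ∈ Low κ₀ t) ∧
      (∀ k < m, v (k + 1) = Fl ℓ (ε n) (An n) (v k)) ∧ ‖(v m).2 - t‖ < t / 4 ∧ θ ∈ K ∧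
      W n (θ, g₀) = En (ε n) (Jn n) (laml ℓ) (v 0) ∧ θb.im - κ₀ / 4 < θ.im := by
    filter_upwards [h1] with n hn
    push Not at hn
    obtain ⟨m, v, θ, a1, a2, a3, a4, a5, a6⟩ := hn
    exact ⟨θ, m, v, a1, a2, a3, a4, a5, a6⟩
  obtain ⟨θ, hθ⟩ := h2.choice
  have hKU : ∀ᶠ n in (U : Filter ℕ), θ n ∈ K := by
    filter_upwards [hθ] with n hn
    obtain ⟨m, v, -, -, -, a4, -⟩ := hn
    exact a4
  obtain ⟨θs, hθsK, hθs⟩ := hKc.ultrafilter_le_nhds (U.map θ) (by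
    rw [le_principal_iff]
    exact hKU)
  have hlim : Tendsto θ U (𝓝 θs) := hθs
  -- the limit time
  have hb : -(κ₀ / 4) ≤ (θs - θb).im := by
    have g1 : Tendsto (fun n => (θ n).im) U (𝓝 θs.im) := (continuous_im.tendsto θs).comp hlim
    have g2 : θb.im - κ₀ / 4 ≤ θs.im := by
      refine ge_of_tendsto g1 ?_
      filter_upwards [hθ] with n hn
      obtain ⟨m, v, -, -, -, -, -, a6⟩ := hn
      exact a6.le
    rw [sub_im]
    linarith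
  obtain ⟨c, hc⟩ : ∃ c : ℝ, c = max (κ₀ / 2) (17 / 10 * (θs - θb).im) := ⟨_, rfl⟩
  have hc1 : κ₀ / 2 ≤ c := by
    rw [hc]
    exact le_max_left _ _
  have hc2 : 17 / 10 * (θs - θb).im ≤ c := by
    rw [hc]
    exact le_max_right _ _
  have hr := hKr θs hθsK
  have hcr : c ≤ -(θs - θb).re := by
    rw [hc]
    refine max_le (by linarith) ?_
    have g1 := hKb θs hθsK
    rw [abs_of_nonpos (by linarith)] at g1
    linarith
  obtain ⟨t', ht'⟩ : ∃ t' : ℝ, t' = -c - (θs - θb).re := ⟨_, rfl⟩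
  have ht0 : 0 ≤ t' := by linarith
  -- the segment
  have hre : ∀ s : ℝ, (θs + s - θb).re = (θs - θb).re + s := fun s => by
    rw [sub_re, add_re, ofReal_re, sub_re]
    ring
  have him : ∀ s : ℝ, (θs + s - θb).im = (θs - θb).im := fun s => by
    rw [sub_im, add_im, ofReal_im, sub_im]
    ring
  have hn2 : ∀ s ∈ Icc (0 : ℝ) t', ‖θs + s - θb‖ ≤ 2 * t := by
    intro s hs
    refine le_trans ?_ (hKt θs hθsK)
    rw [Complex.norm_def, Complex.norm_def]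
    refine Real.sqrt_le_sqrt ?_
    rw [normSq_apply, normSq_apply, hre, him]
    have g1 : (θs - θb).re + s ≤ 0 := by linarith [hs.2]
    nlinarith [hs.1, hs.2]
  have hSl : ∀ s ∈ Icc (0 : ℝ) t', θs + s ∈ Sl θb s₁ := by
    intro s hs
    refine ⟨(hn2 s hs).trans_lt hts, ?_⟩
    rw [him, hre, abs_of_nonpos (by linarith [hs.2])]
    linarith [hs.2]
  have hΩs : ∀ s ∈ Icc (0 : ℝ) t', tr (s : ℂ) (θs, g₀) ∈ Ω := fun s hs => hΩ _ (hSl s hs)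
  -- the compact set of limit states
  have htrc : Continuous fun s : ℝ => tr (s : ℂ) (θs, g₀) := by
    unfold tr
    fun_prop
  have hCc : IsCompact ((fun s : ℝ => z (tr (s : ℂ) (θs, g₀))) '' Icc 0 t') := by
    refine isCompact_Icc.image_of_continuousOn fun s hs => ?_
    have g1 : ContinuousAt z (tr (s : ℂ) (θs, g₀)) := (hz.z_an _ (hΩs s hs)).continuousAt
    exact (ContinuousAt.comp (g := z) (f := fun s : ℝ => tr (s : ℂ) (θs, g₀)) g1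
      htrc.continuousAt).continuousWithinAt
  have huc := hCc.uniformContinuousAt_of_continuousAt (Ct κ X ℓ) (by
    rintro _ ⟨s, hs, rfl⟩
    exact ct_cont hK (hT.mem _ (hSl s hs)) (hT.ne _ (hSl s hs)))
    (Metric.dist_mem_uniformity (show 0 < κ₀ / 100 by positivity))
  rw [Metric.mem_uniformity_dist] at huc
  obtain ⟨δ₂, hδ₂, huc⟩ := huc
  -- the iterates
  obtain ⟨κ', hκ', hit⟩ := iter_close hV hz (K := {(θs, g₀)}) isCompact_singleton ht0 (by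
    intro p hp s hs
    rw [mem_singleton_iff.1 hp]
    exact hΩs s hs) (δ := δ₂ / 4) (by positivity)
  -- the first states
  have hpO : (θs, g₀) ∈ O := hKO θs hθsK
  obtain ⟨r, hr0, hrO⟩ := Metric.nhds_basis_closedBall.mem_iff.1 (hO.mem_nhds hpO)
  have hpl : Tendsto (fun n => (θ n, g₀)) U (𝓝 (θs, g₀)) := hlim.prodMk_nhds tendsto_const_nhds
  have e1 : ∀ᶠ n in (U : Filter ℕ), (θ n, g₀) ∈ closedBall (θs, g₀) r :=
    hpl.eventually (closedBall_mem_nhds _ hr0)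
  have e2 : ∀ᶠ n in (U : Filter ℕ), ‖z (θ n, g₀) - z (θs, g₀)‖ < κ' / 2 := by
    have g1 : ContinuousAt z (θs, g₀) := (hz.z_an _ (hOΩ hpO)).continuousAt
    have g2 := (g1.tendsto.comp hpl).eventually (Metric.ball_mem_nhds _ (half_pos hκ'))
    filter_upwards [g2] with n hn
    have g3 : dist (z (θ n, g₀)) (z (θs, g₀)) < κ' / 2 := hn
    rwa [dist_eq_norm] at g3
  have e3 := hW.conv _ hrO (isCompact_closedBall _ _) (κ' / 2) (half_pos hκ')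
  -- the exact states
  have hKc' : IsCompact (closedBall (0 : ℂ) (ρ / 2) ×ˢ
      {z : ℂ | z.im ≤ |z.re| ∧ κ₀ ≤ ‖z‖ ∧ ‖z‖ ≤ 2 * t}) :=
    (isCompact_closedBall _ _).prod (low_compact κ₀ (2 * t))
  have hKD : closedBall (0 : ℂ) (ρ / 2) ×ˢ
      {z : ℂ | z.im ≤ |z.re| ∧ κ₀ ≤ ‖z‖ ∧ ‖z‖ ≤ 2 * t} ⊆
      ball 0 ρ ×ˢ {z | I * z ∈ slitPlane ∧ ‖cexp ℓ * z‖ < 1} :=
    Set.prod_mono (closedBall_subset_ball (by linarith)) (low_sub hκ htl)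
  have e4 := (en_conv hK hV.ε_pos hV.ε_lim (br_low ℓ) hKc' hKD).2 (δ₂ / 4) (by positivity)
  have e5 := chain_iter hξ hK hV.ε_pos hV.ε_lim hκ htl
  have e6 := hV.ε_lim.eventually_lt_const (show 0 < κ₀ / 100 by positivity)
  have hfalse : ∀ᶠ n in (U : Filter ℕ), False := by
    filter_upwards [hθ, hit, e1, e2, e3, e4, e5, e6] with n hn g1 g2 g3 g4 g5 g6 g7
    obtain ⟨m, v, a1, a2, a3, a4, a5, a6⟩ := hn
    have hε := hV.ε_pos n
    have hstart : ‖En (ε n) (Jn n) (laml ℓ) (v 0) - z (θs, g₀)‖ ≤ κ' := by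
      rw [← a5]
      have g8 := g4 _ g2
      have g9 := norm_add_le (W n (θ n, g₀) - z (θ n, g₀)) (z (θ n, g₀) - z (θs, g₀))
      rw [sub_add_sub_cancel] at g9
      linarith
    have hmemK : ∀ k ≤ m, v k ∈ closedBall (0 : ℂ) (ρ / 2) ×ˢ
        {z : ℂ | z.im ≤ |z.re| ∧ κ₀ ≤ ‖z‖ ∧ ‖z‖ ≤ 2 * t} := by
      intro k hk
      obtain ⟨b1, b2, b3, b4⟩ := a1 k hk
      refine ⟨?_, ?_, b3, b4.le⟩
      · rw [mem_closedBall, dist_zero_right]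
        exact b1.le
      · linarith [abs_nonneg (v k).2.re]
    -- the states of the chain
    have hmain : ∀ j ≤ m, (j : ℝ) * ε n ≤ t' →
        ‖(v j).2 - (θs + ((j * ε n : ℝ) : ℂ) - θb)‖ ≤
          κ₀ / 100 + ‖θs + ((j * ε n : ℝ) : ℂ) - θb‖ / 100 := by
      intro j hj hjt
      have hs : (j * ε n : ℝ) ∈ Icc (0 : ℝ) t' := ⟨by positivity, hjt⟩
      have b1 := (g1 _ rfl _ hstart j hjt).1
      rw [g6 m v a1 a2 j hj] at b1
      have b2 := g5 (v j) (hmemK j hj)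
      have b3 : ‖Em κ J (laml ℓ) (v j) - z (tr ((j * ε n : ℝ) : ℂ) (θs, g₀))‖ ≤
          δ₂ / 4 + δ₂ / 4 := by
        have b4 := norm_sub_le (En (ε n) (Jn n) (laml ℓ) (v j) -
          z (tr ((j * ε n : ℝ) : ℂ) (θs, g₀)))
          (En (ε n) (Jn n) (laml ℓ) (v j) - Em κ J (laml ℓ) (v j))
        rw [sub_sub_sub_cancel_left] at b4
        linarith
      have b5 := huc (a := z (tr ((j * ε n : ℝ) : ℂ) (θs, g₀))) (b := Em κ J (laml ℓ) (v j))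
        (by
          rw [dist_comm, dist_eq_norm]
          linarith)
        ⟨_, hs, rfl⟩
      have b6 : v j ∈ ball (0 : ℂ) ρ ×ˢ {z | I * z ∈ slitPlane ∧ ‖cexp ℓ * z‖ < 1} :=
        hKD (hmemK j hj)
      have b7 : ‖(v j).1‖ < ρ := by
        have := b6.1
        rwa [mem_ball, dist_zero_right] at this
      have b8 := ct_em hK (br_low ℓ) b7 b6.2
      change dist (Ct κ X ℓ (z (tr ((j * ε n : ℝ) : ℂ) (θs, g₀))))
        (Ct κ X ℓ (Em κ J (laml ℓ) (v j))) < κ₀ / 100 at b5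
      rw [b8, dist_comm, dist_eq_norm] at b5
      have b9 := (norm_snd_le (v j - Ct κ X ℓ (z (tr ((j * ε n : ℝ) : ℂ) (θs, g₀))))).trans
        b5.le
      rw [Prod.snd_sub] at b9
      have b10 := hT.z_near _ (hSl _ hs)
      have b11 := norm_add_le
        ((v j).2 - (Ct κ X ℓ (z (tr ((j * ε n : ℝ) : ℂ) (θs, g₀)))).2)
        ((Ct κ X ℓ (z (tr ((j * ε n : ℝ) : ℂ) (θs, g₀)))).2 -
          (θs + ((j * ε n : ℝ) : ℂ) - θb))
      rw [sub_add_sub_cancel] at b11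
      exact b11.trans (add_le_add b9 b10)
    have hj0 : ((⌊t' / ε n⌋₊ : ℕ) : ℝ) * ε n ≤ t' := by
      have := Nat.floor_le (div_nonneg ht0 hε.le)
      rwa [le_div_iff₀ hε] at this
    have hj1 : t' < ((⌊t' / ε n⌋₊ : ℕ) : ℝ) * ε n + ε n := by
      have := Nat.lt_floor_add_one (t' / ε n)
      rw [div_lt_iff₀ hε] at this
      linarith
    rcases le_or_gt ⌊t' / ε n⌋₊ m with hcase | hcase
    · refine High_caseA (t := t) hκ g7.le hc hb (a1 _ hcase).2 (hmain _ hcase hj0) (him _) ?_ ?_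
      · rw [hre]
        linarith
      · rw [hre]
        linarith
    · have hmt : (m : ℝ) * ε n ≤ t' := by
        refine le_trans ?_ hj0
        have : (m : ℝ) ≤ (⌊t' / ε n⌋₊ : ℕ) := by exact_mod_cast hcase.le
        exact mul_le_mul_of_nonneg_right this hε.le
      refine High_caseB ht hκt a3 (hmain m le_rfl hmt)
        (hn2 _ ⟨by positivity, hmt⟩) ?_
      rw [hre]
      linarith
  exact hfalse.exists.choose_spec

end Pool.Agent.MP_ae5b4e_an_ATK
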