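import Pool.Agent.Lib.MP_ae5b4e_an_A1.Coord
import Pool.Agent.Lib.MP_ae5b4e_an_ATK.Defs

/-! # ATK: the kick of a passage from the exact families of two boxes -/

set_option autoImplicit false

noncomputable section

namespace Pool.Agent.MP_ae5b4e_an_ATK

open Complex Set Filter Topology Metric
open Pool.Agent.MP_ae5b4e_an_A1

variable {U : Ultrafilter ℕ} {ε : ℕ → ℝ} {M Ω : Set (ℂ × ℂ)} {gg : ℂ × ℂ → ℂ × ℂ}
  {gn : ℕ → ℂ × ℂ → ℂ × ℂ} {z : ℂ × ℂ → ℂ × ℂ}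

private theorem KickId_iter {h : ℝ} {F Zf : ℂ × ℂ → ℂ × ℂ} {K : Set (ℂ × ℂ)}
    (hK : ∀ p ∈ K, Zf (tr (h : ℂ) p) = F (Zf p)) (q : ℂ × ℂ) :
    ∀ N : ℕ, (∀ l < N, tr ((l * h : ℝ) : ℂ) q ∈ K) →
      Zf (tr ((N * h : ℝ) : ℂ) q) = F^[N] (Zf q) := by
  intro N
  induction N with
  | zero =>
    intro _
    simp [tr_zero]
  | succ N ih =>
    intro hl
    have h1 := ih fun l hl' => hl l (hl'.trans (Nat.lt_succ_self N))
    have h2 := hK _ (hl N (Nat.lt_succ_self N))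
    rw [h1, tr_tr] at h2
    have e1 : (((N + 1 : ℕ) * h : ℝ) : ℂ) = (h : ℂ) + ((N * h : ℝ) : ℂ) := by
      push_cast
      ring
    rw [Function.iterate_succ_apply', ← h2, e1]

private theorem KickId_per {h : ℝ} {F : ℂ × ℂ → ℂ} (hF : ∀ p, F (tr (h : ℂ) p) = F p)
    (q : ℂ × ℂ) : ∀ N : ℕ, F (tr ((N * h : ℝ) : ℂ) q) = F q := by
  intro N
  induction N with
  | zero => simp [tr_zero]
  | succ N ih =>
    have e1 : (((N + 1 : ℕ) * h : ℝ) : ℂ) = (h : ℂ) + ((N * h : ℝ) : ℂ) := by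
      push_cast
      ring
    rw [e1, ← tr_tr, hF, ih]

private theorem KickId_cpt (a b c d : ℝ) (g : ℂ) (e : ℝ) :
    IsCompact ({θ : ℂ | a ≤ θ.re ∧ θ.re ≤ b ∧ c ≤ θ.im ∧ θ.im ≤ d} ×ˢ closedBall g e) := by
  refine IsCompact.prod ?_ (isCompact_closedBall g e)
  have h1 : {θ : ℂ | a ≤ θ.re ∧ θ.re ≤ b ∧ c ≤ θ.im ∧ θ.im ≤ d} = Icc a b ×ℂ Icc c d := by
    ext θ
    simp only [mem_ofPred_eq, mem_reProdIm, mem_Icc]
    tauto
  rw [h1]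
  exact isCompact_Icc.reProdIm isCompact_Icc

/-- THE KICK IDENTITY. A chain of `m` steps from the point `q₀` of the left box (left part of the box)
to the point `q₁` of the right box (right part).

Proof. Let `h = ε n` be small. `K₀ = {(θ, g₀) | al - 5w/8 ≤ Re θ ≤ al + w/8, y₁ ≤ Im θ ≤ y₀ + w/2}` and
`K₁ = {(θ, γ) | ar - w/8 ≤ Re θ ≤ ar + 7w/8, y₁ - e ≤ Im θ ≤ y₀ + w/2 + e, ‖γ - g₀‖ ≤ e}` are compact subsets of
the two boxes if `e` is small (`y₀ - w < y₁`). `Ex.uniq` for `Zr` and `K₁`: `r₁`.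
`rr := min (r₁ / 4) (min (e / 4) (w / 16))`. `j := ⌊(ar - Re q₀.1) / h⌋₊`, `p := q₀.1 + j h`: `ar - h ≤ Re p ≤ ar`.
`k := ⌊(ar - al) / h⌋₊ ≤ j` because `ar - Re q₀.1 ≥ ar - al + 3w/8`. (1) `j - k` times `Ex.eq` for `Zl` on `K₀`
(the points `q₀ + l h`, `l ≤ j - k`, have real part `≤ al + 2 h ≤ al + w/8`):
`Zl n (p - k h, g₀) = Φ^[j - k] (Zl n q₀)`. (2) `Ps.pas` at `(p, g₀) ∈ Str y₁ (Yb - η) g₀ r`,
`|Re p - ar| ≤ h`: `Zr n (p + A, g₀ + B) = push .. k (Zl n) (p, g₀) = Φ^[k] (Zl n (p - k h, g₀)) =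
Φ^[j] (Zl n q₀)`, where `A, B` are the values of `A n`, `B n` at `(p, g₀)`; `|A|, |B| ≤ rr` (`Ps.lim`).
(3) `m ≥ j`: `Re (q₀.1 + m h) ≥ Re q₁.1 - rr ≥ ar + 3w/8 - rr > Re p`. `m - j` times `Ex.eq` for `Zr` on `K₁`
(the points `p + A + l h`, `l ≤ m - j`, have real part between `ar - w/8` and `Re q₁.1 + 2 rr ≤ ar + 7w/8`;
imaginary part `Im q₀.1 + Im A`): `Zr n (p + A + (m - j) h, g₀ + B) = Φ^[m] (Zl n q₀) = Zr n q₁`.
(4) `p + (m - j) h = q₀.1 + m h`, so the two arguments differ by at most `2 rr ≤ r₁ / 2`; `q₁ ∈ K₁`;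
`Ex.uniq` (center `q₁`): they are equal. Second components: `q₁.2 = g₀ + B (p, g₀) = g₀ + B (q₀.1, g₀)`
(`Ps.per`, `j` times). -/
theorem kick_id {g₀ : ℂ} {al ar y₀ y₁ w r : ℝ} {Yb : ℂ → ℝ} {Zl Zr : ℕ → ℂ × ℂ → ℂ × ℂ}
    {A B : ℕ → ℂ × ℂ → ℂ} (hV : VF U ε M gg gn) (hz : Fw M gg Ω z)
    (hPs : Ps U ε gn z al ar y₀ y₁ w r g₀ Yb Zl Zr A B)
    (hBo : Pool.Agent.MP_ae5b4e_an_BX.Rec (ar - w) (ar + w) (y₀ - w) (y₀ + w) ×ˢ
      ball g₀ (2 * r) ⊆ Ω) :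
    ∃ rr : ℝ, 0 < rr ∧ ∀ η : ℝ, 0 < η → ∀ᶠ n in (U : Filter ℕ), ∀ (q₀ q₁ : ℂ × ℂ) (m : ℕ),
      q₀.2 = g₀ → |q₀.1.re - (al - w / 2)| ≤ w / 8 → y₁ < q₀.1.im →
      q₀.1.im < Yb g₀ - η → |q₁.1.re - (ar + w / 2)| ≤ w / 8 →
      ‖q₁ - tr ((m * ε n : ℝ) : ℂ) q₀‖ ≤ rr →
      (stp (ε n) (gn n))^[m] (Zl n q₀) = Zr n q₁ → q₁.2 = g₀ + B n (q₀.1, g₀) := by
  have hw := hPs.w_pos
  have hy := hPs.y_gt
  obtain ⟨e, he0, hew, hey, her⟩ : ∃ e : ℝ, 0 < e ∧ e ≤ w / 4 ∧ e ≤ (y₁ - (y₀ - w)) / 2 ∧ e ≤ r :=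
    ⟨min (w / 4) (min ((y₁ - (y₀ - w)) / 2) r),
      lt_min (by positivity) (lt_min (by linarith) hPs.r_pos), min_le_left _ _,
      (min_le_right _ _).trans (min_le_left _ _), (min_le_right _ _).trans (min_le_right _ _)⟩
  have hr := hPs.r_pos
  have ha := hPs.a_lt
  have hYg : Yb g₀ < y₀ + w / 2 := hPs.Y_lt
  set K₀ : Set (ℂ × ℂ) := {θ : ℂ | al - 5 * w / 8 ≤ θ.re ∧ θ.re ≤ al + w / 8 ∧ y₁ ≤ θ.im ∧
    θ.im ≤ y₀ + w / 2} ×ˢ closedBall g₀ 0 with hK₀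
  set K₁ : Set (ℂ × ℂ) := {θ : ℂ | ar - w / 8 ≤ θ.re ∧ θ.re ≤ ar + 7 * w / 8 ∧
    y₁ - e ≤ θ.im ∧ θ.im ≤ y₀ + w / 2 + e} ×ˢ closedBall g₀ e with hK₁
  have hK₀c : IsCompact K₀ := KickId_cpt _ _ _ _ _ _
  have hK₁c : IsCompact K₁ := KickId_cpt _ _ _ _ _ _
  have hK₀O : K₀ ⊆ Pool.Agent.MP_ae5b4e_an_BX.Rec (al - w) (al + w) (y₀ - w) (y₀ + w) ×ˢ
      ball g₀ (2 * r) := by
    rintro p ⟨⟨h1, h2, h3, h4⟩, h5⟩
    refine ⟨⟨?_, ?_, ?_, ?_⟩, ?_⟩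
    · linarith
    · linarith
    · linarith
    · linarith
    · exact closedBall_subset_ball (by positivity) h5
  have hK₁O : K₁ ⊆ Pool.Agent.MP_ae5b4e_an_BX.Rec (ar - w) (ar + w) (y₀ - w)
      (y₀ + w) ×ˢ ball g₀ (2 * r) := by
    rintro p ⟨⟨h1, h2, h3, h4⟩, h5⟩
    refine ⟨⟨?_, ?_, ?_, ?_⟩, ?_⟩
    · linarith
    · linarith
    · linarith
    · linarith
    · exact closedBall_subset_ball (by linarith) h5
  have hE0 := hPs.exl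
  have hE1 := hPs.exr
  have hO1 : IsOpen (Pool.Agent.MP_ae5b4e_an_BX.Rec (ar - w) (ar + w) (y₀ - w)
      (y₀ + w) ×ˢ ball g₀ (2 * r)) := (Pool.Agent.MP_ae5b4e_an_BX.isOpen_Rec _ _ _ _).prod isOpen_ball
  obtain ⟨r₁, hr₁, huniq⟩ := Ex.uniq hz hO1 hBo hE1 hK₁c hK₁O
  obtain ⟨rr, hrr0, hrr1, hrre, hrrw⟩ : ∃ rr : ℝ, 0 < rr ∧ rr ≤ r₁ / 4 ∧ rr ≤ e / 4 ∧
      rr ≤ w / 16 :=
    ⟨min (r₁ / 4) (min (e / 4) (w / 16)), lt_min (by positivity)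
      (lt_min (by positivity) (by positivity)), min_le_left _ _,
      (min_le_right _ _).trans (min_le_left _ _), (min_le_right _ _).trans (min_le_right _ _)⟩
  refine ⟨rr, hrr0, fun η hη => ?_⟩
  have hεs : ∀ᶠ n in (U : Filter ℕ), ε n < w / 16 :=
    hV.ε_lim.eventually (gt_mem_nhds (by positivity))
  filter_upwards [hE0.eq K₀ hK₀O hK₀c, hE1.eq K₁ hK₁O hK₁c, huniq, hPs.pas η hη,
    hPs.lim η hη rr hrr0, hεs] with n hn0 hn1 hnu hnp hnl hne q₀ q₁ m hq2 hq0re hq0y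
    hq0Y hq1re hqq hch
  have hh : 0 < ε n := hV.ε_pos n
  set h : ℝ := ε n with hhd
  obtain ⟨hx1, hx2⟩ := abs_le.1 hq0re
  obtain ⟨hz1, hz2⟩ := abs_le.1 hq1re
  set x0 : ℝ := q₀.1.re with hx0
  have hax : 0 ≤ (ar - x0) / h := div_nonneg (by linarith) hh.le
  have haa : 0 ≤ (ar - al) / h := div_nonneg (by linarith) hh.le
  set j : ℕ := ⌊(ar - x0) / h⌋₊ with hj
  set k : ℕ := ⌊(ar - al) / h⌋₊ with hk
  have hj1 : (j : ℝ) * h ≤ ar - x0 := by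
    rw [← le_div_iff₀ hh]
    exact Nat.floor_le hax
  have hj2 : ar - x0 < ((j : ℝ) + 1) * h := by
    rw [← div_lt_iff₀ hh]
    exact Nat.lt_floor_add_one _
  have hk1 : (k : ℝ) * h ≤ ar - al := by
    rw [← le_div_iff₀ hh]
    exact Nat.floor_le haa
  have hk2 : ar - al < ((k : ℝ) + 1) * h := by
    rw [← div_lt_iff₀ hh]
    exact Nat.lt_floor_add_one _
  have hkj : k ≤ j := by
    refine Nat.floor_le_floor ?_
    gcongr
    linarith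
  have hjk : (((j - k : ℕ)) : ℝ) = (j : ℝ) - k := Nat.cast_sub hkj
  -- first part of the chain
  have hs1 : Zl n (tr (((j - k : ℕ) * h : ℝ) : ℂ) q₀) = (stp h (gn n))^[j - k] (Zl n q₀) := by
    refine KickId_iter hn0 q₀ (j - k) fun l hl => ?_
    have hl1 : (l : ℝ) ≤ (j : ℝ) - k := by
      rw [← hjk]
      exact_mod_cast hl.le
    have hl0 : (0 : ℝ) ≤ (l : ℝ) * h := by positivity
    have hl2 : (l : ℝ) * h ≤ ((j : ℝ) - k) * h := mul_le_mul_of_nonneg_right hl1 hh.le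
    refine ⟨⟨?_, ?_, ?_, ?_⟩, ?_⟩
    · show al - 5 * w / 8 ≤ (q₀.1 + ((l * h : ℝ) : ℂ)).re
      rw [add_re, ofReal_re]
      linarith
    · show (q₀.1 + ((l * h : ℝ) : ℂ)).re ≤ al + w / 8
      rw [add_re, ofReal_re]
      nlinarith
    · show y₁ ≤ (q₀.1 + ((l * h : ℝ) : ℂ)).im
      rw [add_im, ofReal_im]
      linarith
    · show (q₀.1 + ((l * h : ℝ) : ℂ)).im ≤ y₀ + w / 2
      rw [add_im, ofReal_im]
      linarith
    · show q₀.2 ∈ closedBall g₀ 0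
      rw [hq2]
      exact mem_closedBall_self le_rfl
  -- the passage
  set P₁ : ℂ × ℂ := tr ((j * h : ℝ) : ℂ) q₀ with hP₁
  have hP1re : P₁.1.re = x0 + j * h := by
    show (q₀.1 + ((j * h : ℝ) : ℂ)).re = _
    rw [add_re, ofReal_re]
  have hP1im : P₁.1.im = q₀.1.im := by
    show (q₀.1 + ((j * h : ℝ) : ℂ)).im = _
    rw [add_im, ofReal_im, add_zero]
  have hP12 : P₁.2 = g₀ := hq2
  have hPS : P₁ ∈ Str y₁ (fun γ => Yb γ - η) g₀ r := by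
    refine ⟨?_, ?_, ?_⟩
    · rw [hP12]
      exact mem_ball_self hr
    · rw [hP1im]
      exact hq0y
    · rw [hP1im]
      show q₀.1.im < Yb P₁.2 - η
      rw [hP12]
      exact hq0Y
  have hPa : |P₁.1.re - ar| ≤ 4 * h := by
    rw [hP1re, abs_le]
    constructor
    · nlinarith
    · nlinarith
  have hpas := hnp P₁ hPS hPa
  obtain ⟨hA, hB⟩ := hnl P₁ hPS
  set α : ℂ := A n P₁ with hα
  set β : ℂ := B n P₁ with hβ
  have hpush : push h (gn n) k (Zl n) P₁ = (stp h (gn n))^[j] (Zl n q₀) := by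
    unfold push
    have e2 : tr (-((k * h : ℝ) : ℂ)) P₁ = tr (((j - k : ℕ) * h : ℝ) : ℂ) q₀ := by
      rw [hP₁, tr_tr]
      congr 1
      rw [hjk]
      push_cast
      ring
    rw [e2, hs1, ← Function.iterate_add_apply, Nat.add_sub_cancel' hkj]
  rw [hpush] at hpas
  -- second part of the chain
  have hdre : |q₁.1.re - (x0 + m * h)| ≤ rr := by
    have h1 : (q₁ - tr ((m * h : ℝ) : ℂ) q₀).1.re = q₁.1.re - (x0 + m * h) := by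
      show (q₁.1 - (q₀.1 + ((m * h : ℝ) : ℂ))).re = _
      rw [sub_re, add_re, ofReal_re]
    rw [← h1]
    exact (Complex.abs_re_le_norm _).trans ((norm_fst_le _).trans hqq)
  have hdim : |q₁.1.im - q₀.1.im| ≤ rr := by
    have h1 : (q₁ - tr ((m * h : ℝ) : ℂ) q₀).1.im = q₁.1.im - q₀.1.im := by
      show (q₁.1 - (q₀.1 + ((m * h : ℝ) : ℂ))).im = _
      rw [sub_im, add_im, ofReal_im, add_zero]
    rw [← h1]
    exact (Complex.abs_im_le_norm _).trans ((norm_fst_le _).trans hqq)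
  have hd2 : ‖q₁.2 - g₀‖ ≤ rr := by
    have h1 : (q₁ - tr ((m * h : ℝ) : ℂ) q₀).2 = q₁.2 - g₀ := by
      show q₁.2 - q₀.2 = _
      rw [hq2]
    rw [← h1]
    exact (norm_snd_le _).trans hqq
  obtain ⟨hd3, hd4⟩ := abs_le.1 hdre
  obtain ⟨hd5, hd6⟩ := abs_le.1 hdim
  have hjm : j ≤ m := by
    by_contra hcon
    push Not at hcon
    have h1 : (m : ℝ) ≤ j := by exact_mod_cast hcon.le
    have h2 : (m : ℝ) * h ≤ j * h := mul_le_mul_of_nonneg_right h1 hh.le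
    linarith
  have hmj : (((m - j : ℕ)) : ℝ) = (m : ℝ) - j := Nat.cast_sub hjm
  have hαre := abs_le.1 ((Complex.abs_re_le_norm α).trans hA)
  have hαim := abs_le.1 ((Complex.abs_im_le_norm α).trans hA)
  set Q : ℂ × ℂ := (P₁.1 + α, P₁.2 + β) with hQ
  have hs2 : Zr n (tr (((m - j : ℕ) * h : ℝ) : ℂ) Q) =
      (stp h (gn n))^[m - j] (Zr n Q) := by
    refine KickId_iter hn1 Q (m - j) fun l hl => ?_
    have hl1 : (l : ℝ) ≤ (m : ℝ) - j := by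
      rw [← hmj]
      exact_mod_cast hl.le
    have hl0 : (0 : ℝ) ≤ (l : ℝ) * h := by positivity
    have hl2 : (l : ℝ) * h ≤ ((m : ℝ) - j) * h := mul_le_mul_of_nonneg_right hl1 hh.le
    refine ⟨⟨?_, ?_, ?_, ?_⟩, ?_⟩
    · show ar - w / 8 ≤ (P₁.1 + α + ((l * h : ℝ) : ℂ)).re
      rw [add_re, add_re, ofReal_re, hP1re]
      nlinarith [hαre.1]
    · show (P₁.1 + α + ((l * h : ℝ) : ℂ)).re ≤ ar + 7 * w / 8
      rw [add_re, add_re, ofReal_re, hP1re]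
      nlinarith [hαre.2]
    · show y₁ - e ≤ (P₁.1 + α + ((l * h : ℝ) : ℂ)).im
      rw [add_im, add_im, ofReal_im, hP1im]
      linarith [hαim.1]
    · show (P₁.1 + α + ((l * h : ℝ) : ℂ)).im ≤ y₀ + w / 2 + e
      rw [add_im, add_im, ofReal_im, hP1im]
      linarith [hαim.2]
    · show P₁.2 + β ∈ closedBall g₀ e
      rw [hP12, mem_closedBall, dist_eq_norm, add_sub_cancel_left]
      linarith
  have hq1K : q₁ ∈ K₁ := by
    refine ⟨⟨?_, ?_, ?_, ?_⟩, ?_⟩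
    · linarith
    · linarith
    · linarith
    · linarith
    · rw [mem_closedBall, dist_eq_norm]
      linarith
  have heq : Zr n (tr (((m - j : ℕ) * h : ℝ) : ℂ) Q) = Zr n q₁ := by
    rw [hs2, hpas, ← Function.iterate_add_apply, Nat.sub_add_cancel hjm, hch]
  have hclose : ‖tr (((m - j : ℕ) * h : ℝ) : ℂ) Q - q₁‖ < r₁ := by
    have e1 : tr (((m - j : ℕ) * h : ℝ) : ℂ) Q - q₁ =
        -(q₁ - tr ((m * h : ℝ) : ℂ) q₀) + (α, β) := by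
      apply Prod.ext
      · show q₀.1 + ((j * h : ℝ) : ℂ) + α + (((m - j : ℕ) * h : ℝ) : ℂ) - q₁.1 =
          -(q₁.1 - (q₀.1 + ((m * h : ℝ) : ℂ))) + α
        rw [hmj]
        push_cast
        ring
      · show q₀.2 + β - q₁.2 = -(q₁.2 - q₀.2) + β
        ring
    rw [e1]
    have h2 : ‖((α, β) : ℂ × ℂ)‖ ≤ rr := by
      rw [Prod.norm_mk]
      exact max_le hA hB
    have h3 := norm_add_le (-(q₁ - tr ((m * h : ℝ) : ℂ) q₀)) (α, β)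
    rw [norm_neg] at h3
    linarith
  have hfin := hnu q₁ hq1K _ _ hclose (by rw [sub_self, norm_zero]; exact hr₁) heq
  have h1 : q₁.2 = P₁.2 + β := by
    rw [← hfin]
    rfl
  have hper : B n P₁ = B n q₀ :=
    KickId_per (fun p => (hPs.per n p).2) q₀ j
  have hq0eq : q₀ = (q₀.1, g₀) := by
    rw [← hq2]
  rw [h1, hP12, hβ, hper, ← hq0eq]

end Pool.Agent.MP_ae5b4e_an_ATK
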