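import Pool.Agent.Lib.MP_ae5b4e_an_ATK.High
import Pool.Agent.Lib.MP_ae5b4e_an_ATK.KickId
import Pool.Agent.Lib.MP_ae5b4e_an_AT.Elem
import Pool.Agent.Lib.MP_ae5b4e_an_AT.Rev

/-! # ATK: the kick of the chains which pass below the tip -/

set_option autoImplicit false

noncomputable section

namespace Pool.Agent.MP_ae5b4e_an_ATK

open Complex Set Filter Topology Metric
open Pool.Agent.MP_ae5b4e_an_NB2 (Sys)
open Pool.Agent.MP_ae5b4e_an_A1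
open Pool.Agent.MP_ae5b4e_an_AT
open PorTR (Hm)

/-- The number of steps of a chain below the tip. Proof. `Re ((v (k+1)).2 - (v k).2) = h Re A (..) ≥ h / 2`
(`‖A - 1‖ ≤ 1/2` at `(v (k+1)).1`), so `m h / 2 ≤ Re (v m).2 - Re (v 0).2 ≤ 4 t`. -/
theorem steps_le {ℓ : ℂ} {h t κ₀ ρ : ℝ} {A : ℂ → ℂ} (hh : 0 < h)
    (hA : ∀ x : ℂ, ‖x‖ < ρ / 2 → ‖A x - 1‖ ≤ 1 / 2) {m : ℕ} {v : ℕ → ℂ × ℂ}
    (h1 : ∀ k ≤ m, ‖(v k).1‖ < ρ / 2 ∧ (v k).2 ∈ Low κ₀ t)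
    (h2 : ∀ k < m, v (k + 1) = Fl ℓ h A (v k)) : m * h ≤ 8 * t := by
  have key : ∀ k ≤ m, (v 0).2.re + k * (h / 2) ≤ (v k).2.re := by
    intro k
    induction k with
    | zero => intro _; simp
    | succ k ih =>
      intro hk
      have h3 := ih (by omega)
      have h4 := h2 k (by omega)
      have h5 : (v (k + 1)).2 = (v k).2 + h * A (v (k + 1)).1 := by
        rw [h4]
        rfl
      have h6 := hA _ (h1 (k + 1) hk).1
      have h7 := (abs_le.1 ((Complex.abs_re_le_norm _).trans h6)).1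
      rw [Complex.sub_re, Complex.one_re] at h7
      have h8 : (v (k + 1)).2.re = (v k).2.re + h * (A (v (k + 1)).1).re := by
        rw [h5, Complex.add_re, Complex.re_ofReal_mul]
      rw [h8]
      push_cast
      nlinarith
  have h3 := key m le_rfl
  have h4 := (abs_le.1 ((Complex.abs_re_le_norm _).trans (h1 0 (Nat.zero_le _)).2.2.2.le)).1
  have h5 := (abs_le.1 ((Complex.abs_re_le_norm _).trans (h1 m le_rfl).2.2.2.le)).2
  linarith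

variable {U : Ultrafilter ℕ} {Zs : ℕ → Sys} {ε : ℕ → ℝ} {q κ : ℂ → ℂ} {lb ℓ : ℂ} {R ρ : ℝ}
  {X J A Φ : ℂ → ℂ} {Xn Jn An : ℕ → ℂ → ℂ} {Ω : Set (ℂ × ℂ)} {z : ℂ × ℂ → ℂ × ℂ}
  {θb g₀ : ℂ} {s₁ η : ℝ}

/-- THE KICK. `W n = push .. (Zl n)` on the left, `QL` = coordinates of the left base region in `W n`,
`QR` = coordinates of the right base region in `Zr n` after `⌊T₂ / ε n⌋₊` steps.

Proof. `per`: `Ps.per`. `pass`: let `h = ε n`, `m₁ = ⌊T₁ / h⌋₊`, `m₂ = ⌊T₂ / h⌋₊`, `u₀ = rev h An (v 0)`, `q = QL n u₀`,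
`q' = QR n (v m)`. `‖q.1 - (θb - t)‖ < t / 2`, `q.2 = g₀`, `‖q'.1 - (θb + t)‖ < t / 2`, `‖q'.2 - g₀‖ ≤ rr / 2` (`hR2`).
`Re (v 0).2 < 0`: `-((v 0).2 - h An ..)` is within `t / 4` of `t`; so `lamm ℓ (v 0).2 = laml ℓ (v 0).2`
(`AT.laml_eq_left`), `unrev (rev (v 0)) = v 0` (`AT.unrev_rev`), hence `W n q = En .. (laml ℓ) (v 0)`.
`Re (v m).2 > 0`: `laml = lam` there (`AT.laml_eq_lam`). `chain_iter` (all `k ≤ m`):
`stp^[m] (W n q) = En .. (lam ℓ) (v m)`. So `stp^[m₂ + m] (W n q) = Zr n (tr (m₂ h) q')`, and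
`W n q = push h _ m₁ (Zl n) q = stp^[m₁] (Zl n (tr (- m₁ h) q))`. `q₀ := tr (- m₁ h) q`, `q₁ := tr (m₂ h) q'`,
`M := m₂ + m + m₁`: hypotheses of `hkick`: `|Re q₀.1 - (al - w/2)| ≤ t / 2 + h ≤ w / 8`
(`T₁ = Re θb - t - al + w / 2`), the same for `q₁` (`T₂ = ar + w/2 - Re θb - t`); `Im q₀.1 = Im q.1 ≤ y₀ - κ₀ / 4` by
`high` (`K = closedBall (θb - t) (t / 2)`; `17 Im ≤ 10 |Re|` there because `17² + 10² ≤ 20²`;
`θb.im = y₀ = Yb g₀`), `< Yb g₀ - κ₀ / 8`, and `> y₁` (`‖q.1 - θb‖ ≤ 3 t / 2`);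
`‖q₁ - tr (M h) q₀‖ = ‖q' - q - (m h, 0)‖ ≤ 3 t + 8 t ≤ rr` (`steps_le`; second component `≤ rr / 2`). Conclusion:
`q'.2 = g₀ + B n (q₀.1, g₀) = g₀ + B n (q.1, g₀)` (`Ps.per`, `m₁` times). Also `Im (QL n u₀).1 ≤ θb.im - κ₀ / 4`. -/
theorem kick_pass {ξ : ℕ → ℂ × ℂ → ℂ} (hV : VF U ε (Hm ×ˢ univ) (gI q) (gx ε ξ))
    (hξ : XI U Zs ε ξ) (hz : Fw (Hm ×ˢ univ) (gI q) Ω z)
    (hK : Ks U Zs ε q κ lb ℓ R ρ X J A Φ Xn Jn An) (hT : Tl κ X lb ℓ R η z θb g₀ s₁)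
    (hΩ : ∀ θ ∈ Sl θb s₁, (θ, g₀) ∈ Ω) (hη : η ≤ ρ / 8)
    {al ar y₀ y₁ w rb : ℝ} {Yb : ℂ → ℝ} {Zl Zr : ℕ → ℂ × ℂ → ℂ × ℂ} {AA B : ℕ → ℂ × ℂ → ℂ}
    (hPs : Ps U ε (gx ε ξ) z al ar y₀ y₁ w rb g₀ Yb Zl Zr AA B)
    {rr : ℝ} (hrr : 0 < rr)
    (hkick : ∀ η : ℝ, 0 < η → ∀ᶠ n in (U : Filter ℕ), ∀ (q₀ q₁ : ℂ × ℂ) (m : ℕ),
      q₀.2 = g₀ → |q₀.1.re - (al - w / 2)| ≤ w / 8 → y₁ < q₀.1.im →
      q₀.1.im < Yb g₀ - η → |q₁.1.re - (ar + w / 2)| ≤ w / 8 →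
      ‖q₁ - tr ((m * ε n : ℝ) : ℂ) q₀‖ ≤ rr →
      (stp (ε n) (gx ε ξ n))^[m] (Zl n q₀) = Zr n q₁ → q₁.2 = g₀ + B n (q₀.1, g₀))
    (hθ : θb.im = y₀) (hY : Yb g₀ = y₀) {κ₀ t r T₁ T₂ : ℝ} (hκ : 0 < κ₀)
    (hκt : κ₀ ≤ t / 32) (hts : 2 * t < s₁) (htl : ‖cexp ℓ‖ * (2 * t) < 1)
    (hT₁ : T₁ = θb.re - t - al + w / 2) (hT₂ : T₂ = ar + w / 2 - θb.re - t)
    (h1 : 0 ≤ T₁) (h2 : 0 ≤ T₂) (htw : 16 * t ≤ w) (htr : 32 * t ≤ rr) (hty : 2 * t < y₀ - y₁)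
    {O : Set (ℂ × ℂ)} (hO : IsOpen O) (hOΩ : O ⊆ Ω)
    (hWO : Ex U ε (gx ε ξ) O z fun n => push (ε n) (gx ε ξ n) ⌊T₁ / ε n⌋₊ (Zl n))
    (hKO : ∀ θ : ℂ, ‖θ - (θb - t)‖ ≤ t / 2 → (θ, g₀) ∈ O) {QL QR : ℕ → ℂ × ℂ → ℂ × ℂ}
    (hL : ∀ᶠ n in (U : Filter ℕ), ∀ u ∈ NN (ℓ - Real.pi * I) 0 ρ (fun x => Φ (-x)) t r,
      ‖(QL n u).1 - (θb - t)‖ < t / 2 ∧ push (ε n) (gx ε ξ n) ⌊T₁ / ε n⌋₊ (Zl n) (QL n u) =
        En (ε n) (Jn n) (lamm ℓ) (unrev (ε n) (An n) u))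
    (hR : ∀ᶠ n in (U : Filter ℕ), ∀ u ∈ NN ℓ 0 ρ Φ t r, ‖(QR n u).1 - (θb + t)‖ < t / 2 ∧
      Zr n (tr ((⌊T₂ / ε n⌋₊ * ε n : ℝ) : ℂ) (QR n u)) =
        (stp (ε n) (gx ε ξ n))^[⌊T₂ / ε n⌋₊] (En (ε n) (Jn n) (lam ℓ) u))
    (hR2 : ∀ᶠ n in (U : Filter ℕ), ∀ u ∈ NN ℓ 0 ρ Φ t r, ‖(QR n u).2 - g₀‖ ≤ rr / 2) :
    ∀ᶠ n in (U : Filter ℕ), Kick ℓ 0 ρ Φ t r (ε n) (An n) g₀ κ₀ (θb.im - κ₀ / 4)
      (fun u => (QL n u).1) (fun u => (QL n u).2) (fun u => (QR n u).2)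
      (fun s => B n (s, g₀)) := by
  have ht : 0 < t := by linarith
  have hε : ∀ n, 0 < ε n := hV.ε_pos
  have hw : 0 < w := hPs.w_pos
  -- the height
  have hhigh := high hV hξ hz hK hT hΩ hη hO hOΩ hWO hκ hκt hts htl
    (K := closedBall (θb - t) (t / 2)) (isCompact_closedBall _ _)
    (fun θ hθ => hKO θ (by rw [← dist_eq_norm]; exact hθ))
    (fun θ hθ => by
      rw [mem_closedBall, dist_eq_norm] at hθ
      have h3 : θ - θb = (θ - (θb - t)) + (-(t : ℂ)) := by ring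
      rw [h3]
      refine (norm_add_le _ _).trans ?_
      rw [norm_neg, Complex.norm_real, Real.norm_of_nonneg ht.le]
      linarith)
    (fun θ hθ => by
      rw [mem_closedBall, dist_eq_norm] at hθ
      have h3 : θ - θb = (θ - (θb - t)) + (-(t : ℂ)) := by ring
      have h4 := (abs_le.1 ((Complex.abs_re_le_norm _).trans hθ)).2
      rw [h3, Complex.add_re, Complex.neg_re, Complex.ofReal_re]
      linarith)
    (fun θ hθ => by
      rw [mem_closedBall, dist_eq_norm] at hθ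
      have h3 : θ - θb = (θ - (θb - t)) + (-(t : ℂ)) := by ring
      have h4 := (abs_le.1 ((Complex.abs_re_le_norm _).trans hθ)).2
      rw [h3, Complex.add_re, Complex.neg_re, Complex.ofReal_re, Complex.add_im, Complex.neg_im,
        Complex.ofReal_im, neg_zero, add_zero, abs_of_nonpos (by linarith)]
      have h5 : (θ - (θb - t)).re ^ 2 + (θ - (θb - t)).im ^ 2 ≤ (t / 2) ^ 2 := by
        have h6 := Complex.sq_norm (θ - (θb - t))
        rw [Complex.normSq_apply] at h6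
        have h7 : ‖θ - (θb - t)‖ ^ 2 ≤ (t / 2) ^ 2 := pow_le_pow_left₀ (norm_nonneg _) hθ 2
        nlinarith
      generalize (θ - (θb - t)).re = x at h5 ⊢
      generalize (θ - (θb - t)).im = y at h5 ⊢
      have h6 : (17 * y + 10 * x) ^ 2 ≤ (10 * t) ^ 2 := by
        nlinarith [sq_nonneg (17 * x - 10 * y), sq_nonneg t]
      have h7 := (abs_le.1 (abs_le_of_sq_le_sq h6 (by linarith))).2
      linarith)
  have hchain := chain_iter (t := t) (κ₀ := κ₀) hξ hK hε hV.ε_lim hκ htl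
  have hsmall : ∀ᶠ n in (U : Filter ℕ), ε n < min (t / 8) (w / 32) :=
    hV.ε_lim.eventually (gt_mem_nhds (lt_min (by positivity) (by positivity)))
  filter_upwards [hhigh, hchain, hsmall, hkick (κ₀ / 8) (by positivity), hL, hR, hR2,
    hK.near (1 / 4) (by norm_num)] with n hhn hcn hsn hkn hLn hRn hR2n hnear
  obtain ⟨hs1, hs2⟩ := lt_min_iff.1 hsn
  have hn := hε n
  -- `A` is near `1`
  have hA : ∀ x : ℂ, ‖x‖ < ρ / 2 → ‖An n x - 1‖ ≤ 1 / 2 := by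
    intro x hx
    have hρ : 0 < ρ := hK.lim.side.ρ_pos
    have hx' : x ∈ ball (0 : ℂ) ρ := by
      rw [mem_ball_zero_iff]
      linarith
    have h3 := hnear.A_cl x hx'
    have h4 := hK.lim.side.near x hx'
    have h5 : An n x - 1 = (An n x - A x) + (A x - 1) := by ring
    rw [h5]
    refine (norm_add_le _ _).trans ?_
    linarith
  refine ⟨fun s => (hPs.per n (s, g₀)).2, ?_⟩
  intro m v hv1 hv2 hv3 hv4 hv5
  have hv1' : ∀ k ≤ m, ‖(v k).1‖ < ρ / 2 ∧ (v k).2 ∈ Low κ₀ t := by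
    intro k hk
    have h3 := hv1 k hk
    rwa [sub_zero] at h3
  rw [neg_zero] at hv3
  set u₀ := rev (ε n) (An n) (v 0) with hu₀
  set q : ℂ × ℂ := QL n u₀ with hq
  set q' : ℂ × ℂ := QR n (v m) with hq'
  set m₁ : ℕ := ⌊T₁ / ε n⌋₊ with hm₁
  set m₂ : ℕ := ⌊T₂ / ε n⌋₊ with hm₂
  obtain ⟨hq1, hq2⟩ := hLn u₀ hv3
  obtain ⟨hq'1, hq'2⟩ := hRn (v m) hv4
  have hq'3 := hR2n (v m) hv4
  rw [← hq] at hq1 hq2
  rw [← hq'] at hq'1 hq'2 hq'3
  -- floors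
  have hm₁a : (m₁ : ℝ) * ε n ≤ T₁ := by
    have := Nat.floor_le (div_nonneg h1 hn.le)
    exact (le_div_iff₀ hn).1 this
  have hm₁b : T₁ ≤ (m₁ : ℝ) * ε n + ε n := by
    have := ((div_lt_iff₀ hn).1 (Nat.lt_floor_add_one (T₁ / ε n))).le
    rw [← hm₁] at this
    linarith
  have hm₂a : (m₂ : ℝ) * ε n ≤ T₂ := by
    have := Nat.floor_le (div_nonneg h2 hn.le)
    exact (le_div_iff₀ hn).1 this
  have hm₂b : T₂ ≤ (m₂ : ℝ) * ε n + ε n := by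
    have := ((div_lt_iff₀ hn).1 (Nat.lt_floor_add_one (T₂ / ε n))).le
    rw [← hm₂] at this
    linarith
  have hsteps : (m : ℝ) * ε n ≤ 8 * t := steps_le hn hA hv1' hv2
  -- the left side
  have hv0re : (v 0).2.re < 0 := by
    have h3 : ‖u₀.2 - t‖ < t / 4 := hv3.2.1
    have h4 : u₀.2 = -((v 0).2 - ε n * An n (v 0).1) := rfl
    have h5 := (abs_le.1 ((Complex.abs_re_le_norm _).trans h3.le)).1
    have h6 := (abs_le.1 ((Complex.abs_re_le_norm _).trans (hA _ (hv1' 0 (Nat.zero_le _)).1))).2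
    rw [h4, Complex.sub_re, Complex.neg_re, Complex.sub_re, Complex.re_ofReal_mul,
      Complex.ofReal_re] at h5
    rw [Complex.sub_re, Complex.one_re] at h6
    nlinarith
  have hlm : lamm ℓ (v 0).2 = laml ℓ (v 0).2 := (laml_eq_left (Or.inl hv0re)).symm
  have hpush : push (ε n) (gx ε ξ n) m₁ (Zl n) q = En (ε n) (Jn n) (laml ℓ) (v 0) := by
    rw [hq2, hu₀, unrev_rev]
    unfold En
    rw [hlm]
  -- the right side
  have hvmre : 0 < (v m).2.re := by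
    have h3 : ‖(v m).2 - t‖ < t / 4 := hv4.2.1
    have h5 := (abs_le.1 ((Complex.abs_re_le_norm _).trans h3.le)).1
    rw [Complex.sub_re, Complex.ofReal_re] at h5
    linarith
  have hlr : laml ℓ (v m).2 = lam ℓ (v m).2 := laml_eq_lam (Or.inl hvmre)
  have hiter : (stp (ε n) (gx ε ξ n))^[m] (push (ε n) (gx ε ξ n) m₁ (Zl n) q) =
      En (ε n) (Jn n) (lam ℓ) (v m) := by
    rw [hpush, hcn m v hv1' hv2 m le_rfl]
    unfold En
    rw [hlr]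
  -- the height of `q`
  have hq2g : q.2 = g₀ := hv5
  have hqK : q.1 ∈ closedBall (θb - t) (t / 2) := by
    rw [mem_closedBall, dist_eq_norm]
    exact hq1.le
  have hqe : (q.1, g₀) = q := Prod.ext rfl hq2g.symm
  have him : q.1.im ≤ θb.im - κ₀ / 4 := by
    refine hhn m v q.1 hv1' hv2 hv4.2.1 hqK ?_
    rw [hqe]
    exact hpush
  refine ⟨him, ?_⟩
  -- the kick
  set q₀ : ℂ × ℂ := tr (-((m₁ * ε n : ℝ) : ℂ)) q with hq₀
  set q₁ : ℂ × ℂ := tr ((m₂ * ε n : ℝ) : ℂ) q' with hq₁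
  have hre1 := abs_le.1 ((Complex.abs_re_le_norm _).trans hq1.le)
  have him1 := abs_le.1 ((Complex.abs_im_le_norm _).trans hq1.le)
  have hre2 := abs_le.1 ((Complex.abs_re_le_norm _).trans hq'1.le)
  have hq₀re : q₀.1.re = q.1.re - m₁ * ε n := by
    rw [hq₀, tr_fst, Complex.add_re, Complex.neg_re, Complex.ofReal_re]
    ring
  have hq₀im : q₀.1.im = q.1.im := by
    rw [hq₀, tr_fst, Complex.add_im, Complex.neg_im, Complex.ofReal_im]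
    ring
  have hq₁re : q₁.1.re = q'.1.re + m₂ * ε n := by
    rw [hq₁, tr_fst, Complex.add_re, Complex.ofReal_re]
  rw [Complex.sub_re, Complex.sub_re, Complex.ofReal_re] at hre1
  rw [Complex.sub_im, Complex.sub_im, Complex.ofReal_im] at him1
  rw [Complex.sub_re, Complex.add_re, Complex.ofReal_re] at hre2
  have hfin := hkn q₀ q₁ (m₂ + m + m₁) hq2g
    (by
      rw [hq₀re, abs_le]
      constructor <;> linarith [hre1.1, hre1.2])
    (by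
      rw [hq₀im]
      linarith [him1.1])
    (by
      rw [hq₀im, hY]
      linarith)
    (by
      rw [hq₁re, abs_le]
      constructor <;> linarith [hre2.1, hre2.2])
    (by
      rw [Prod.norm_def]
      refine max_le ?_ ?_
      · have h3 : (q₁ - tr ((((m₂ + m + m₁ : ℕ) : ℝ) * ε n : ℝ) : ℂ) q₀).1 =
            (q'.1 - (θb + t)) + (2 * (t : ℂ)) + ((θb - t) - q.1) + (-((m * ε n : ℝ) : ℂ)) := by
          rw [Prod.fst_sub, hq₁, hq₀, tr_fst, tr_fst, tr_fst]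
          push_cast
          ring
        rw [h3]
        have h4 : ‖(2 * (t : ℂ))‖ = 2 * t := by
          rw [norm_mul, Complex.norm_real, Real.norm_of_nonneg ht.le]
          norm_num
        have h5 : ‖(-((m * ε n : ℝ) : ℂ))‖ = m * ε n := by
          rw [norm_neg, Complex.norm_real, Real.norm_of_nonneg (by positivity)]
        have h6 : ‖(θb - t) - q.1‖ < t / 2 := by
          rw [norm_sub_rev]
          exact hq1
        refine (norm_add_le _ _).trans ?_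
        refine (add_le_add (norm_add_le _ _) le_rfl).trans ?_
        refine (add_le_add (add_le_add (norm_add_le _ _) le_rfl) le_rfl).trans ?_
        rw [h4, h5]
        linarith
      · have h3 : (q₁ - tr ((((m₂ + m + m₁ : ℕ) : ℝ) * ε n : ℝ) : ℂ) q₀).2 = q'.2 - g₀ := by
          rw [Prod.snd_sub, hq₁, hq₀, tr_snd, tr_snd, tr_snd, hq2g]
        rw [h3]
        linarith)
    (by
      rw [Function.iterate_add_apply, Function.iterate_add_apply]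
      have h3 : (stp (ε n) (gx ε ξ n))^[m₁] (Zl n q₀) =
          push (ε n) (gx ε ξ n) m₁ (Zl n) q := rfl
      rw [h3, hiter]
      exact hq'2.symm)
  have hper : ∀ k : ℕ, B n (q.1 - k * ε n, g₀) = B n (q.1, g₀) := by
    intro k
    induction k with
    | zero => simp
    | succ k ih =>
      rw [← ih]
      have h3 := (hPs.per n (q.1 - (k + 1 : ℕ) * ε n, g₀)).2
      rw [← h3]
      congr 1
      refine Prod.ext ?_ rfl
      rw [tr_fst]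
      push_cast
      ring
  have hq₀e : (q₀.1, g₀) = (q.1 - m₁ * ε n, g₀) := by
    refine Prod.ext ?_ rfl
    change q₀.1 = _
    rw [hq₀, tr_fst]
    push_cast
    ring
  rw [hq₀e, hper] at hfin
  have hq₁2 : q₁.2 = q'.2 := rfl
  rw [hq₁2] at hfin
  change B n (q.1, g₀) = q'.2 - g₀
  rw [hfin]
  ring

end Pool.Agent.MP_ae5b4e_an_ATK
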