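import Pool.Agent.Lib.MP_ae5b4e_an_ATK.TipSeg

/-! # ATK: the trajectory on the slit disc -/

set_option autoImplicit false

noncomputable section

namespace Pool.Agent.MP_ae5b4e_an_ATK

open Complex Set Filter Topology Metric
open Pool.Agent.MP_ae5b4e_an_NB2 (Sys)
open Pool.Agent.MP_ae5b4e_an_A1
open PorTR (Hm)

variable {U : Ultrafilter ℕ} {Zs : ℕ → Sys} {ε : ℕ → ℝ} {q κ : ℂ → ℂ} {lb ℓ : ℂ} {R ρ : ℝ}
  {X J A Φ : ℂ → ℂ} {Xn Jn An : ℕ → ℂ → ℂ} {M Ω : Set (ℂ × ℂ)} {z : ℂ × ℂ → ℂ × ℂ}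
  {θb g₀ : ℂ} {s₀ : ℝ}

private theorem TC_boot {b : ℝ} {Q : ℝ → Prop}
    (hop : ∀ τ ∈ Icc 0 b, Q τ → ∀ᶠ t in 𝓝[Icc 0 b] τ, Q t)
    (hcl : ∀ τ ∈ Icc 0 b, (∀ t ∈ Ico 0 τ, Q t) → Q τ) : ∀ τ ∈ Icc 0 b, Q τ := by
  by_contra hcon
  push Not at hcon
  obtain ⟨τ₁, h1, h2⟩ := hcon
  have hne : {τ | τ ∈ Icc 0 b ∧ ¬ Q τ}.Nonempty := ⟨τ₁, h1, h2⟩
  have hbd : BddBelow {τ | τ ∈ Icc 0 b ∧ ¬ Q τ} := ⟨0, fun x hx => hx.1.1⟩
  have hclo : IsClosed {τ | τ ∈ Icc 0 b ∧ ¬ Q τ} := by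
    rw [← isOpen_compl_iff, isOpen_iff_mem_nhds]
    intro x hx
    by_cases hxI : x ∈ Icc 0 b
    · have hQ : Q x := by
        by_contra h
        exact hx ⟨hxI, h⟩
      have h3 := hop x hxI hQ
      rw [eventually_nhdsWithin_iff] at h3
      filter_upwards [h3] with t ht hc
      exact hc.2 (ht hc.1)
    · have h3 : (Icc 0 b)ᶜ ∈ 𝓝 x := isClosed_Icc.isOpen_compl.mem_nhds hxI
      filter_upwards [h3] with t ht hc
      exact ht hc.1
  have hmem := hclo.csInf_mem hne hbd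
  refine hmem.2 (hcl _ hmem.1 fun t ht => ?_)
  by_contra hQ
  exact absurd ht.2 (not_lt.mpr (csInf_le hbd ⟨⟨ht.1, ht.2.le.trans hmem.1.2⟩, hQ⟩))

private theorem TC_V {ℓ W D : ℂ} {c : ℝ}
    (h : ‖1 - D * (cexp ℓ * (cexp W - 1))‖ ≤ c * ‖cexp ℓ * (cexp W - 1)‖) :
    cexp W ≠ 1 ∧ ‖cexp (-ℓ) / (cexp W - 1) - D‖ ≤ c := by
  have h1 : cexp W ≠ 1 := by
    intro h1
    rw [h1] at h
    norm_num at h
  refine ⟨h1, ?_⟩
  have h2 : cexp W - 1 ≠ 0 := sub_ne_zero.mpr h1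
  have h3 : cexp ℓ ≠ 0 := Complex.exp_ne_zero _
  have h4 : cexp (-ℓ) / (cexp W - 1) - D =
      (1 - D * (cexp ℓ * (cexp W - 1))) / (cexp ℓ * (cexp W - 1)) := by
    rw [Complex.exp_neg]
    field_simp
  rw [h4, norm_div, div_le_iff₀ (norm_pos_iff.mpr (mul_ne_zero h3 h2))]
  exact h

private theorem TC_V' {ℓ W D : ℂ} {c : ℝ} (h1 : cexp W ≠ 1)
    (h : ‖cexp (-ℓ) / (cexp W - 1) - D‖ < c) :
    ‖1 - D * (cexp ℓ * (cexp W - 1))‖ < c * ‖cexp ℓ * (cexp W - 1)‖ := by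
  have h2 : cexp W - 1 ≠ 0 := sub_ne_zero.mpr h1
  have h3 : cexp ℓ ≠ 0 := Complex.exp_ne_zero _
  have h4 : cexp (-ℓ) / (cexp W - 1) - D =
      (1 - D * (cexp ℓ * (cexp W - 1))) / (cexp ℓ * (cexp W - 1)) := by
    rw [Complex.exp_neg]
    field_simp
  rw [h4, norm_div, div_lt_iff₀ (norm_pos_iff.mpr (mul_ne_zero h3 h2))] at h
  exact h

private theorem TC_est {l x w y l' x' w' y' : ℝ → ℂ} {s m τ : ℝ} (hs : 0 < s) (hm : 0 < m)
    (h0 : 0 ≤ τ) (hπ : τ ≤ Real.pi)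
    (hl : ∀ t ∈ Icc 0 τ, HasDerivAt l (l' t) t) (hx : ∀ t ∈ Icc 0 τ, HasDerivAt x (x' t) t)
    (hw : ∀ t ∈ Icc 0 τ, HasDerivAt w (w' t) t) (hy : ∀ t ∈ Icc 0 τ, HasDerivAt y (y' t) t)
    (bl : ∀ t ∈ Icc 0 τ, ‖l' t‖ ≤ s * ‖w t‖ / m) (bx : ∀ t ∈ Icc 0 τ, ‖x' t‖ ≤ s * ‖w t‖)
    (bw : ∀ t ∈ Icc 0 τ, ‖w' t‖ ≤ 2) (bY : ∀ t ∈ Icc 0 τ, ‖y' t‖ ≤ s / 1000) :
    ‖l τ - l 0‖ ≤ 4 * s * (‖w 0‖ + 7) / m ∧ ‖x τ - x 0‖ ≤ 4 * s * (‖w 0‖ + 7) ∧
      ‖y τ - y 0‖ ≤ s / 1000 * 4 := by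
  have hπ4 : τ ≤ 4 := hπ.trans Real.pi_le_four
  have hπ3 : τ ≤ 7 / 2 := by
    have := Real.pi_lt_d2
    linarith
  have hτ : τ ∈ Icc 0 τ := ⟨h0, le_refl _⟩
  have kw : ∀ t ∈ Icc 0 τ, ‖w t‖ ≤ ‖w 0‖ + 7 := by
    intro t ht
    have h1 := norm_image_sub_le_of_norm_deriv_le_segment' (f := w) (f' := w') (C := 2)
      (a := 0) (b := τ) (fun t ht => (hw t ht).hasDerivWithinAt)
      (fun t ht => bw t ⟨ht.1, ht.2.le⟩) t ht
    have h2 : ‖w t‖ ≤ ‖w 0‖ + ‖w t - w 0‖ := norm_le_insert' _ _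
    have h3 : t ≤ 7 / 2 := ht.2.trans hπ3
    linarith
  have kn : 0 ≤ s * (‖w 0‖ + 7) := by positivity
  have kn' : 0 ≤ s * (‖w 0‖ + 7) / m := by positivity
  refine ⟨?_, ?_, ?_⟩
  · have h1 := norm_image_sub_le_of_norm_deriv_le_segment' (f := l) (f' := l')
      (C := s * (‖w 0‖ + 7) / m) (a := 0) (b := τ) (fun t ht => (hl t ht).hasDerivWithinAt)
      (fun t ht => (bl t ⟨ht.1, ht.2.le⟩).trans (by
        have := kw t ⟨ht.1, ht.2.le⟩
        gcongr)) τ hτ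
    calc ‖l τ - l 0‖ ≤ s * (‖w 0‖ + 7) / m * (τ - 0) := h1
      _ ≤ s * (‖w 0‖ + 7) / m * 4 := by
        apply mul_le_mul_of_nonneg_left _ kn'
        linarith
      _ = 4 * s * (‖w 0‖ + 7) / m := by ring
  · have h1 := norm_image_sub_le_of_norm_deriv_le_segment' (f := x) (f' := x')
      (C := s * (‖w 0‖ + 7)) (a := 0) (b := τ) (fun t ht => (hx t ht).hasDerivWithinAt)
      (fun t ht => (bx t ⟨ht.1, ht.2.le⟩).trans (by
        have := kw t ⟨ht.1, ht.2.le⟩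
        gcongr)) τ hτ
    calc ‖x τ - x 0‖ ≤ s * (‖w 0‖ + 7) * (τ - 0) := h1
      _ ≤ s * (‖w 0‖ + 7) * 4 := by
        apply mul_le_mul_of_nonneg_left _ kn
        linarith
      _ = 4 * s * (‖w 0‖ + 7) := by ring
  · have h1 := norm_image_sub_le_of_norm_deriv_le_segment' (f := y) (f' := y')
      (C := s / 1000) (a := 0) (b := τ) (fun t ht => (hy t ht).hasDerivWithinAt)
      (fun t ht => bY t ⟨ht.1, ht.2.le⟩) τ hτ
    calc ‖y τ - y 0‖ ≤ s / 1000 * (τ - 0) := h1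
      _ ≤ s / 1000 * 4 := by
        apply mul_le_mul_of_nonneg_left _ (by positivity)
        linarith

private theorem TC_D {s e : ℝ} (he : e = 1 ∨ e = -1) (hs : 0 < s) (t : ℝ) :
    HasDerivAt (fun t : ℝ => (s : ℂ) * cexp (I * (-(Real.pi / 2) + e * t)))
      ((s : ℂ) * cexp (I * (-(Real.pi / 2) + e * t)) * (I * e)) t ∧
    ‖(s : ℂ) * cexp (I * (-(Real.pi / 2) + e * t)) * (I * e)‖ = s := by
  constructor
  · have h1 : HasDerivAt (fun t : ℝ => I * (-(Real.pi / 2) + e * (t : ℂ))) (I * e) t := by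
      have h2 : HasDerivAt (fun t : ℝ => (t : ℂ)) 1 t := Complex.ofRealCLM.hasDerivAt
      have h3 := ((h2.const_mul (e : ℂ)).const_add (-((Real.pi : ℂ) / 2))).const_mul I
      simpa using h3
    have h4 := (h1.cexp).const_mul (s : ℂ)
    refine h4.congr_deriv ?_
    ring
  · have h1 : cexp (I * (-(Real.pi / 2) + e * t)) =
        cexp (((-(Real.pi / 2) + e * t : ℝ) : ℂ) * I) := by
      push_cast
      congr 1
      ring
    rw [h1, norm_mul, norm_mul, Complex.norm_exp_ofReal_mul_I, norm_mul, Complex.norm_I,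
      Complex.norm_real, Complex.norm_real, Real.norm_eq_abs, Real.norm_eq_abs, abs_of_pos hs]
    rcases he with rfl | rfl <;> simp

private theorem TC_D0 (s e : ℝ) :
    (s : ℂ) * cexp (I * (-(Real.pi / 2) + e * ((0 : ℝ) : ℂ))) = -(I * s) := by
  have h1 : I * (-((Real.pi : ℂ) / 2) + e * ((0 : ℝ) : ℂ)) = -(Real.pi / 2 * I) := by
    push_cast
    ring
  rw [h1, Complex.exp_neg, Complex.exp_pi_div_two_mul_I, Complex.inv_I]
  ring

private theorem TC_ode (hK : Ks U Zs ε q κ lb ℓ R ρ X J A Φ Xn Jn An) (hz : Fw M (gI q) Ω z)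
    {θ : ℂ} (hΩ : (θ, g₀) ∈ Ω) :
    HasDerivAt (fun θ => (z (θ, g₀)).1) (z (θ, g₀)).2 θ ∧
    ContinuousAt (fun θ => (z (θ, g₀)).2) θ ∧
    ((z (θ, g₀)).1 ∈ ball lb R → ‖X (z (θ, g₀)).1‖ < ρ →
      cexp (2 * I * κ (z (θ, g₀)).1 * (z (θ, g₀)).2) ≠ 1 →
    HasDerivAt (fun θ => X (z (θ, g₀)).1) (2 * I * κ (z (θ, g₀)).1 * (z (θ, g₀)).2) θ ∧
    HasDerivAt (fun θ => cexp (-ℓ) / (cexp (2 * I * κ (z (θ, g₀)).1 * (z (θ, g₀)).2) - 1))
      (A (X (z (θ, g₀)).1)) θ ∧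
    HasDerivAt (fun θ => 2 * I * κ (z (θ, g₀)).1 * (z (θ, g₀)).2)
      (-(A (X (z (θ, g₀)).1)) /
        (cexp (-ℓ) / (cexp (2 * I * κ (z (θ, g₀)).1 * (z (θ, g₀)).2) - 1) *
          (1 + cexp ℓ *
            (cexp (-ℓ) / (cexp (2 * I * κ (z (θ, g₀)).1 * (z (θ, g₀)).2) - 1))))) θ) := by
  have h1 := hz.ode (θ, g₀) hΩ
  have h2 : HasDerivAt (fun θ => (z (θ, g₀)).1) (z (θ, g₀)).2 θ := by
    have h := (hasFDerivAt_fst (𝕜 := ℂ) (p := z (θ, g₀))).comp_hasDerivAt θ h1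
    exact h
  have h3 : HasDerivAt (fun θ => (z (θ, g₀)).2)
      (Pool.Agent.MP_ae5b4e_an_M.bb q (z (θ, g₀)).1 (z (θ, g₀)).2) θ := by
    have h := (hasFDerivAt_snd (𝕜 := ℂ) (p := z (θ, g₀))).comp_hasDerivAt θ h1
    exact h
  refine ⟨h2, h3.continuousAt, fun hl hX hne => ?_⟩
  obtain ⟨c1, c2, c3⟩ := chart_ode hK (l := fun θ => (z (θ, g₀)).1) (a := fun θ => (z (θ, g₀)).2)
    (θ := θ) h2 h3 hl hne
  have h4 := A_X hK hl hX
  refine ⟨c1, ?_, ?_⟩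
  · rw [h4]
    exact c2
  · refine c3.congr_deriv ?_
    rw [h4]
    have e1 : cexp (2 * I * κ (z (θ, g₀)).1 * (z (θ, g₀)).2) - 1 ≠ 0 := sub_ne_zero.mpr hne
    have e2 : cexp (2 * I * κ (z (θ, g₀)).1 * (z (θ, g₀)).2) ≠ 0 := Complex.exp_ne_zero _
    have e3 : cexp ℓ ≠ 0 := Complex.exp_ne_zero _
    generalize cexp (2 * I * κ (z (θ, g₀)).1 * (z (θ, g₀)).2) = E at e1 e2 ⊢
    rw [Complex.exp_neg]
    have e4 : 1 + cexp ℓ * ((cexp ℓ)⁻¹ / (E - 1)) = E / (E - 1) := by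
      field_simp
      ring
    rw [e4]
    field_simp

private theorem TC_comp {f : ℂ → ℂ} {θf : ℝ → ℂ} {f' θ' : ℂ} {t : ℝ}
    (hf : HasDerivAt f f' (θf t)) (hθ : HasDerivAt θf θ' t) :
    HasDerivAt (fun t => f (θf t)) (f' * θ') t := hf.comp t hθ

private theorem TC_w {Ax ζ c D : ℂ} {s : ℝ} (hs : 0 < s) (hA : ‖Ax - 1‖ ≤ 1 / 1000)
    (hD : ‖D‖ = s) (hζ : ‖ζ - D‖ ≤ s / 100) (hc : ‖c‖ * s ≤ 1 / 16) :
    ‖-Ax / (ζ * (1 + c * ζ))‖ * s ≤ 2 := by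
  have h1 : ‖Ax‖ ≤ 1001 / 1000 := by
    have := norm_le_insert' Ax 1
    rw [norm_one] at this
    linarith
  have h2 : 99 / 100 * s ≤ ‖ζ‖ := by
    have h3 : ‖D‖ ≤ ‖ζ‖ + ‖D - ζ‖ := norm_le_insert' _ _
    rw [norm_sub_rev] at h3
    linarith
  have h2' : ‖ζ‖ ≤ 101 / 100 * s := by
    have h3 : ‖ζ‖ ≤ ‖D‖ + ‖ζ - D‖ := norm_le_insert' _ _
    linarith
  have h4 : ‖c * ζ‖ ≤ 1 / 8 := by
    rw [norm_mul]
    calc ‖c‖ * ‖ζ‖ ≤ ‖c‖ * (101 / 100 * s) := by gcongr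
      _ = 101 / 100 * (‖c‖ * s) := by ring
      _ ≤ 1 / 8 := by linarith
  have h5 : 7 / 8 ≤ ‖1 + c * ζ‖ := by
    have h6 : ‖(1 : ℂ)‖ ≤ ‖1 + c * ζ‖ + ‖1 - (1 + c * ζ)‖ := norm_le_insert' _ _
    have h7 : ‖1 - (1 + c * ζ)‖ = ‖c * ζ‖ := by
      rw [show 1 - (1 + c * ζ) = -(c * ζ) by ring, norm_neg]
    rw [norm_one, h7] at h6
    linarith
  have h8 : 0 < ‖ζ‖ * ‖1 + c * ζ‖ := by
    have : 0 < ‖ζ‖ := lt_of_lt_of_le (by positivity) h2
    have : 0 < ‖1 + c * ζ‖ := lt_of_lt_of_le (by norm_num) h5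
    positivity
  rw [norm_div, norm_neg, norm_mul, div_mul_eq_mul_div, div_le_iff₀ h8]
  have h9 : 99 / 100 * s * (7 / 8) ≤ ‖ζ‖ * ‖1 + c * ζ‖ := by gcongr
  calc ‖Ax‖ * s ≤ 1001 / 1000 * s := by gcongr
    _ ≤ 2 * (99 / 100 * s * (7 / 8)) := by nlinarith
    _ ≤ 2 * (‖ζ‖ * ‖1 + c * ζ‖) := by linarith

/-- A CIRCLE AROUND THE TIP, one arc. `v φ` = state at `θb + s e^(iφ)`, from `φ = - π/2` on, in the
direction `e = 1` or `e = -1` (`φ = - π/2 + e τ`).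

Proof. Let `V = e^ℓ (e^W - 1)` (`= 1 / ζ`), `W = 2 i κ (v.1) v.2`. Let `T` be the set of `τ ∈ [0, b]` such that for
all `τ' ∈ [0, τ]`: `v.1 ∈ closedBall lb (3 R / 4)`, `‖X v.1‖ ≤ η'`, `‖1 - (θ - θb) V‖ ≤ (s / 8) ‖V‖`. The last
condition implies `V ≠ 0` (else `1 ≤ 0`), so `e^W ≠ 1` and `‖ζ - (θ - θb)‖ ≤ s / 8`, `7 s / 8 ≤ ‖ζ‖ ≤ 9 s / 8`. All
three are closed conditions on continuous functions. `0 ∈ T`. On `[0, τ]`, `τ ∈ T`, by `chart_ode` and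
the chain rule (`dθ/dφ = i s e^(iφ)`, norm `s`), with `‖A (X v.1) - 1‖ ≤ 1/1000` and `‖p‖ = ‖e^ℓ ζ‖ ≤ 1/8`:
`‖d/dτ (ζ - (θ - θb))‖ ≤ s / 1000`, `‖dW/dτ‖ = s ‖A‖ / (‖ζ‖ ‖1 + p‖) ≤ 2`, `‖dX/dτ‖ = s ‖W‖`,
`‖dv.1/dτ‖ = s ‖v.2‖ ≤ s ‖W‖ / m`. As `b ≤ π`: `‖W‖ ≤ ‖W (0)‖ + 7`; `‖ζ - (θ - θb)‖ ≤ s / 1000 + 4 s / 1000 < s / 100`;
`‖X v.1‖ ≤ η' / 4 + 4 s (‖W (0)‖ + 7) < η' / 2`; `‖v.1 - lb‖ < R / 2 + 4 s (‖W (0)‖ + 7) / m ≤ 5 R / 8`. These are
strict improvements, so the conditions persist to the right of `τ`: `T = [0, b]`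
(`IsClosed.Icc_subset_of_forall_exists_gt`). -/
theorem tip_arc (hK : Ks U Zs ε q κ lb ℓ R ρ X J A Φ Xn Jn An) (hz : Fw M (gI q) Ω z) {η' m s b e : ℝ}
    (hη : 0 < η') (hηρ : η' < ρ) (hA : ∀ x : ℂ, ‖x‖ ≤ η' → ‖A x - 1‖ ≤ 1 / 1000) (hm : 0 < m)
    (hκm : ∀ l ∈ closedBall lb (3 * R / 4), m ≤ ‖2 * I * κ l‖) (hs : 0 < s) (hb : 0 ≤ b)
    (hbπ : b ≤ Real.pi) (he : e = 1 ∨ e = -1) (hes : ‖cexp ℓ‖ * s ≤ 1 / 16)
    (hΩ : ∀ τ ∈ Icc 0 b, (θb + s * cexp (I * (-(Real.pi / 2) + e * τ)), g₀) ∈ Ω)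
    (h1 : (z (θb - I * s, g₀)).1 ∈ ball lb (R / 2)) (h2 : ‖X (z (θb - I * s, g₀)).1‖ < η' / 4)
    (h3 : cexp (2 * I * κ (z (θb - I * s, g₀)).1 * (z (θb - I * s, g₀)).2) ≠ 1)
    (h4 : ‖(Ct κ X ℓ (z (θb - I * s, g₀))).2 + I * s‖ ≤ s / 1000)
    (h5 : 4 * s * (‖2 * I * κ (z (θb - I * s, g₀)).1 * (z (θb - I * s, g₀)).2‖ + 7) <
      min (η' / 4) (m * R / 8)) :
    ∀ τ ∈ Icc 0 b, ∀ θ : ℂ, θ = θb + s * cexp (I * (-(Real.pi / 2) + e * τ)) →
      (z (θ, g₀)).1 ∈ ball lb R ∧ ‖X (z (θ, g₀)).1‖ < η' ∧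
      cexp (2 * I * κ (z (θ, g₀)).1 * (z (θ, g₀)).2) ≠ 1 ∧
      ‖(Ct κ X ℓ (z (θ, g₀))).2 - (θ - θb)‖ ≤ s / 100 := by
  obtain ⟨D, hD⟩ : ∃ D : ℝ → ℂ, ∀ t, D t = (s : ℂ) * cexp (I * (-(Real.pi / 2) + e * t)) :=
    ⟨_, fun t => rfl⟩
  have hDf : D = fun t : ℝ => (s : ℂ) * cexp (I * (-(Real.pi / 2) + e * t)) := funext hD
  have dD : ∀ t, HasDerivAt D (D t * (I * e)) t := by
    intro t
    have h := (TC_D he hs t).1
    rw [hD t, hDf]
    exact h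
  have nD : ∀ t, ‖D t * (I * e)‖ = s := by
    intro t
    rw [hD t]
    exact (TC_D he hs t).2
  have nD0 : ∀ t, ‖D t‖ = s := by
    intro t
    have h := nD t
    rw [norm_mul, norm_mul, Complex.norm_I, Complex.norm_real] at h
    rcases he with rfl | rfl <;> simpa using h
  have D0 : D 0 = -(I * s) := by
    rw [hD 0]
    exact TC_D0 s e
  have hR : 0 < R := hK.lim.crd.R₁_pos
  have hΩ' : ∀ t ∈ Icc 0 b, (θb + D t, g₀) ∈ Ω := by
    intro t ht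
    rw [hD t]
    exact hΩ t ht
  have h00 : θb + D 0 = θb - I * s := by
    rw [D0]
    ring
  have dθ : ∀ t, HasDerivAt (fun t => θb + D t) (D t * (I * e)) t := fun t => (dD t).const_add θb
  have dl : ∀ t ∈ Icc 0 b, HasDerivAt (fun t => (z (θb + D t, g₀)).1)
      ((z (θb + D t, g₀)).2 * (D t * (I * e))) t := by
    intro t ht
    have h := TC_comp (θf := fun t => θb + D t) (TC_ode hK hz (hΩ' t ht)).1 (dθ t)
    exact h
  have ca : ∀ t ∈ Icc 0 b, ContinuousAt (fun t => (z (θb + D t, g₀)).2) t := fun t ht =>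
    ContinuousAt.comp (f := fun t => θb + D t) (TC_ode hK hz (hΩ' t ht)).2.1 (dθ t).continuousAt
  have cX : ∀ t ∈ Icc 0 b, (z (θb + D t, g₀)).1 ∈ ball lb R →
      ContinuousAt (fun t => X (z (θb + D t, g₀)).1) t := fun t ht hl =>
    ContinuousAt.comp (f := fun t => (z (θb + D t, g₀)).1)
      (hK.lim.crd.X_an.differentiableAt (isOpen_ball.mem_nhds hl)).continuousAt
      (dl t ht).continuousAt
  have cκ : ∀ t ∈ Icc 0 b, (z (θb + D t, g₀)).1 ∈ ball lb R →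
      ContinuousAt (fun t => κ (z (θb + D t, g₀)).1) t := fun t ht hl =>
    ContinuousAt.comp (f := fun t => (z (θb + D t, g₀)).1)
      (hK.κ_an.differentiableAt (isOpen_ball.mem_nhds hl)).continuousAt
      (dl t ht).continuousAt
  obtain ⟨V, hV⟩ : ∃ V : ℝ → ℂ, ∀ t, V t = cexp ℓ *
      (cexp (2 * I * κ (z (θb + D t, g₀)).1 * (z (θb + D t, g₀)).2) - 1) := ⟨_, fun t => rfl⟩
  have cV : ∀ t ∈ Icc 0 b, (z (θb + D t, g₀)).1 ∈ ball lb R → ContinuousAt V t := by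
    intro t ht hl
    rw [show V = fun t => cexp ℓ *
      (cexp (2 * I * κ (z (θb + D t, g₀)).1 * (z (θb + D t, g₀)).2) - 1) from funext hV]
    exact continuousAt_const.mul ((((continuousAt_const.mul (cκ t ht hl)).mul
      (ca t ht)).cexp).sub continuousAt_const)
  have cDV : ∀ t ∈ Icc 0 b, (z (θb + D t, g₀)).1 ∈ ball lb R →
      ContinuousAt (fun t => ‖1 - D t * V t‖) t := fun t ht hl =>
    (continuousAt_const.sub ((dD t).continuousAt.mul (cV t ht hl))).norm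
  have hbb : ∀ l ∈ ball lb (3 * R / 4), l ∈ ball lb R := fun l hl =>
    ball_subset_ball (by linarith) hl
  have key : ∀ τ ∈ Icc 0 b, (z (θb + D τ, g₀)).1 ∈ ball lb (3 * R / 4) ∧
      ‖X (z (θb + D τ, g₀)).1‖ < η' ∧ ‖1 - D τ * V τ‖ < s / 100 * ‖V τ‖ := by
    refine TC_boot (fun τ hτ hQ => ?_) (fun τ hτ hQ => ?_)
    · obtain ⟨q1, q2, q3⟩ := hQ
      have e1 : ∀ᶠ t in 𝓝 τ, (z (θb + D t, g₀)).1 ∈ ball lb (3 * R / 4) :=
        (dl τ hτ).continuousAt (isOpen_ball.mem_nhds q1)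
      have e2 : ∀ᶠ t in 𝓝 τ, ‖X (z (θb + D t, g₀)).1‖ < η' :=
        (cX τ hτ (hbb _ q1)).norm.eventually_lt continuousAt_const q2
      have e3 : ∀ᶠ t in 𝓝 τ, ‖1 - D t * V t‖ < s / 100 * ‖V t‖ :=
        (cDV τ hτ (hbb _ q1)).eventually_lt
          (continuousAt_const.mul (cV τ hτ (hbb _ q1)).norm) q3
      exact mem_nhdsWithin_of_mem_nhds (e1.and (e2.and e3))
    · have z0 : (z (θb + D 0, g₀)).1 ∈ ball lb (3 * R / 4) ∧
          ‖X (z (θb + D 0, g₀)).1‖ < η' ∧ ‖1 - D 0 * V 0‖ < s / 100 * ‖V 0‖ := by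
        refine ⟨?_, ?_, ?_⟩
        · rw [h00]
          exact ball_subset_ball (by linarith) h1
        · rw [h00]
          linarith
        · rw [hV 0, h00]
          refine TC_V' h3 ?_
          have h6 : cexp (-ℓ) / (cexp (2 * I * κ (z (θb - I * s, g₀)).1 *
              (z (θb - I * s, g₀)).2) - 1) - D 0 = (Ct κ X ℓ (z (θb - I * s, g₀))).2 + I * s := by
            rw [D0]
            simp only [Ct]
            ring
          rw [h6]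
          linarith
      rcases eq_or_lt_of_le hτ.1 with h0 | h0
      · rw [← h0]
        exact z0
      have hIoo : ∀ᶠ t in 𝓝[<] τ, t ∈ Ioo 0 τ := Ioo_mem_nhdsLT h0
      have p1 : (z (θb + D τ, g₀)).1 ∈ closedBall lb (3 * R / 4) := by
        rw [mem_closedBall]
        refine le_of_tendsto (((dl τ hτ).continuousAt.dist continuousAt_const).mono_left
          (nhdsWithin_le_nhds (s := Iio τ))) ?_
        filter_upwards [hIoo] with t ht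
        exact (mem_ball.mp (hQ t ⟨ht.1.le, ht.2⟩).1).le
      have p1' : (z (θb + D τ, g₀)).1 ∈ ball lb R :=
        closedBall_subset_ball (by linarith) p1
      have P : ∀ t ∈ Icc 0 τ, (z (θb + D t, g₀)).1 ∈ closedBall lb (3 * R / 4) ∧
          ‖X (z (θb + D t, g₀)).1‖ ≤ η' ∧ ‖1 - D t * V t‖ ≤ s / 100 * ‖V t‖ := by
        intro t ht
        rcases eq_or_lt_of_le ht.2 with h7 | h7
        · rw [h7]
          refine ⟨p1, ?_, ?_⟩
          · refine le_of_tendsto ((cX τ hτ p1').norm.mono_left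
              (nhdsWithin_le_nhds (s := Iio τ))) ?_
            filter_upwards [hIoo] with t ht
            exact (hQ t ⟨ht.1.le, ht.2⟩).2.1.le
          · refine le_of_tendsto_of_tendsto ((cDV τ hτ p1').mono_left
              (nhdsWithin_le_nhds (s := Iio τ)))
              ((continuousAt_const.mul (cV τ hτ p1').norm).mono_left
              (nhdsWithin_le_nhds (s := Iio τ))) ?_
            filter_upwards [hIoo] with t ht
            exact (hQ t ⟨ht.1.le, ht.2⟩).2.2.le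
        · obtain ⟨q1, q2, q3⟩ := hQ t ⟨ht.1, h7⟩
          exact ⟨ball_subset_closedBall q1, q2.le, q3.le⟩
      have hsub : ∀ t ∈ Icc 0 τ, t ∈ Icc 0 b := fun t ht => ⟨ht.1, ht.2.trans hτ.2⟩
      have F := fun t (ht : t ∈ Icc 0 τ) => (TC_ode hK hz (hΩ' t (hsub t ht))).2.2
        (closedBall_subset_ball (by linarith) (P t ht).1) (lt_of_le_of_lt (P t ht).2.1 hηρ)
        (by
          have h8 := (P t ht).2.2
          rw [hV t] at h8
          exact (TC_V h8).1)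
      have Y : ∀ t ∈ Icc 0 τ, ‖cexp (-ℓ) / (cexp (2 * I * κ (z (θb + D t, g₀)).1 *
          (z (θb + D t, g₀)).2) - 1) - D t‖ ≤ s / 100 := by
        intro t ht
        have h8 := (P t ht).2.2
        rw [hV t] at h8
        exact (TC_V h8).2
      have F1 : ∀ t ∈ Icc 0 τ, HasDerivAt (fun t => X (z (θb + D t, g₀)).1)
          (2 * I * κ (z (θb + D t, g₀)).1 * (z (θb + D t, g₀)).2 * (D t * (I * e))) t := by
        intro t ht
        have h := TC_comp (θf := fun t => θb + D t) (F t ht).1 (dθ t)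
        exact h
      have F2 : ∀ t ∈ Icc 0 τ, HasDerivAt (fun t => cexp (-ℓ) / (cexp (2 * I *
          κ (z (θb + D t, g₀)).1 * (z (θb + D t, g₀)).2) - 1) - D t)
          (A (X (z (θb + D t, g₀)).1) * (D t * (I * e)) - D t * (I * e)) t := by
        intro t ht
        have h := TC_comp (θf := fun t => θb + D t) (F t ht).2.1 (dθ t)
        exact h.sub (dD t)
      have F3 : ∀ t ∈ Icc 0 τ, HasDerivAt (fun t => 2 * I * κ (z (θb + D t, g₀)).1 *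
          (z (θb + D t, g₀)).2)
          (-(A (X (z (θb + D t, g₀)).1)) /
        (cexp (-ℓ) / (cexp (2 * I * κ (z (θb + D t, g₀)).1 * (z (θb + D t, g₀)).2) - 1) *
          (1 + cexp ℓ *
            (cexp (-ℓ) / (cexp (2 * I * κ (z (θb + D t, g₀)).1 * (z (θb + D t, g₀)).2) - 1))))
            * (D t * (I * e))) t := by
        intro t ht
        have h := TC_comp (θf := fun t => θb + D t) (F t ht).2.2 (dθ t)
        exact h
      have E := TC_est (l := fun t => (z (θb + D t, g₀)).1)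
        (x := fun t => X (z (θb + D t, g₀)).1)
        (w := fun t => 2 * I * κ (z (θb + D t, g₀)).1 * (z (θb + D t, g₀)).2)
        (y := fun t => cexp (-ℓ) / (cexp (2 * I * κ (z (θb + D t, g₀)).1 *
          (z (θb + D t, g₀)).2) - 1) - D t) hs hm hτ.1 (hτ.2.trans hbπ)
        (fun t ht => dl t (hsub t ht))
        F1 F3 F2
        (fun t ht => by
          rw [norm_mul, nD t, le_div_iff₀ hm]
          have h9 := hκm _ (P t ht).1
          rw [norm_mul (2 * I * κ (z (θb + D t, g₀)).1)]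
          nlinarith [norm_nonneg (z (θb + D t, g₀)).2, mul_le_mul_of_nonneg_right h9
            (mul_nonneg (norm_nonneg (z (θb + D t, g₀)).2) hs.le)])
        (fun t ht => by
          rw [norm_mul, nD t]
          exact (mul_comm _ _).le)
        (fun t ht => by
          rw [norm_mul, nD t]
          exact TC_w hs (hA _ (P t ht).2.1) (nD0 t) (Y t ht) hes)
        (fun t ht => by
          have h9 := hA _ (P t ht).2.1
          have h10 : A (X (z (θb + D t, g₀)).1) * (D t * (I * e)) - D t * (I * e) =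
            (A (X (z (θb + D t, g₀)).1) - 1) * (D t * (I * e)) := by ring
          rw [h10, norm_mul, nD t]
          nlinarith)
      obtain ⟨E1, E2, E3⟩ := E
      simp only [h00] at E1 E2 E3
      have h5a := lt_of_lt_of_le h5 (min_le_left _ _)
      have h5b := lt_of_lt_of_le h5 (min_le_right _ _)
      refine ⟨?_, ?_, ?_⟩
      · rw [mem_ball, dist_eq_norm]
        rw [mem_ball, dist_eq_norm] at h1
        have h11 : ‖(z (θb + D τ, g₀)).1 - lb‖ ≤ ‖(z (θb - I * s, g₀)).1 - lb‖ +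
            ‖(z (θb + D τ, g₀)).1 - (z (θb - I * s, g₀)).1‖ := by
          have h12 : (z (θb + D τ, g₀)).1 - lb = ((z (θb - I * s, g₀)).1 - lb) +
            ((z (θb + D τ, g₀)).1 - (z (θb - I * s, g₀)).1) := by ring
          rw [h12]
          exact norm_add_le _ _
        have h13 : 4 * s * (‖2 * I * κ (z (θb - I * s, g₀)).1 * (z (θb - I * s, g₀)).2‖ + 7) / m
            < R / 8 := by
          rw [div_lt_iff₀ hm]
          linarith
        linarith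
      · have h14 : ‖X (z (θb + D τ, g₀)).1‖ ≤ ‖X (z (θb - I * s, g₀)).1‖ +
            ‖X (z (θb + D τ, g₀)).1 - X (z (θb - I * s, g₀)).1‖ := norm_le_insert' _ _
        linarith
      · rw [hV τ]
        refine TC_V' ?_ ?_
        · have h8 := (P τ ⟨hτ.1, le_refl _⟩).2.2
          rw [hV τ] at h8
          exact (TC_V h8).1
        · have h15 : ‖cexp (-ℓ) / (cexp (2 * I * κ (z (θb - I * s, g₀)).1 *
              (z (θb - I * s, g₀)).2) - 1) - D 0‖ ≤ s / 1000 := by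
            refine le_trans (le_of_eq ?_) h4
            rw [D0]
            simp only [Ct]
            congr 1
            ring
          have h16 := norm_le_insert' (cexp (-ℓ) / (cexp (2 * I * κ (z (θb + D τ, g₀)).1 *
              (z (θb + D τ, g₀)).2) - 1) - D τ) (cexp (-ℓ) /
              (cexp (2 * I * κ (z (θb - I * s, g₀)).1 * (z (θb - I * s, g₀)).2) - 1) - D 0)
          linarith
  intro τ hτ θ hθ
  have hθ' : θ = θb + D τ := by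
    rw [hθ, hD τ]
  obtain ⟨k1, k2, k3⟩ := key τ hτ
  rw [hV τ] at k3
  obtain ⟨k4, k5⟩ := TC_V k3.le
  rw [hθ']
  refine ⟨hbb _ k1, k2, k4, ?_⟩
  have h17 : θb + D τ - θb = D τ := by ring
  rw [h17]
  exact k5

private theorem TC_reim {s e t : ℝ} (he : e = 1 ∨ e = -1) :
    ((s : ℂ) * cexp (I * (-(Real.pi / 2) + e * t))).re = s * (e * Real.sin t) ∧
    ((s : ℂ) * cexp (I * (-(Real.pi / 2) + e * t))).im = -(s * Real.cos t) := by
  have h1 : cexp (I * (-(Real.pi / 2) + e * t)) =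
      cexp (((e * t - Real.pi / 2 : ℝ) : ℂ) * I) := by
    push_cast
    congr 1
    ring
  rw [h1, Complex.re_ofReal_mul, Complex.im_ofReal_mul, Complex.exp_ofReal_mul_I_re,
    Complex.exp_ofReal_mul_I_im, Real.cos_sub_pi_div_two, Real.sin_sub_pi_div_two]
  rcases he with rfl | rfl
  · constructor
    · rw [one_mul, one_mul]
    · rw [one_mul]
      ring
  · constructor
    · rw [neg_one_mul, Real.sin_neg, neg_one_mul]
    · rw [neg_one_mul, Real.cos_neg]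
      ring

private theorem TC_polar {D : ℂ} (hD : D ≠ 0) : ∃ τ e : ℝ, 0 ≤ τ ∧ τ ≤ Real.pi ∧
    (e = 1 ∨ e = -1) ∧ D = ((‖D‖ : ℝ) : ℂ) * cexp (I * (-(Real.pi / 2) + e * τ)) := by
  have hs : 0 < ‖D‖ := norm_pos_iff.mpr hD
  have h1 : |D.im| ≤ ‖D‖ := Complex.abs_im_le_norm D
  have h2 := abs_le.mp h1
  have h3 : -1 ≤ -D.im / ‖D‖ := by
    rw [le_div_iff₀ hs]
    linarith
  have h4 : -D.im / ‖D‖ ≤ 1 := by
    rw [div_le_iff₀ hs]
    linarith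
  have h5 : ‖D‖ * Real.cos (Real.arccos (-D.im / ‖D‖)) = -D.im := by
    rw [Real.cos_arccos h3 h4]
    field_simp
  have h6 : 0 ≤ Real.sin (Real.arccos (-D.im / ‖D‖)) :=
    Real.sin_nonneg_of_nonneg_of_le_pi (Real.arccos_nonneg _) (Real.arccos_le_pi _)
  have h7 : ‖D‖ * Real.sin (Real.arccos (-D.im / ‖D‖)) = |D.re| := by
    have h8 : ‖D‖ ^ 2 = D.re ^ 2 + D.im ^ 2 := by
      rw [← Complex.normSq_eq_norm_sq, Complex.normSq_apply]
      ring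
    have h9 := Real.sin_sq_add_cos_sq (Real.arccos (-D.im / ‖D‖))
    have h10 : (‖D‖ * Real.sin (Real.arccos (-D.im / ‖D‖))) ^ 2 = D.re ^ 2 := by
      have h11 : (‖D‖ * Real.cos (Real.arccos (-D.im / ‖D‖))) ^ 2 = D.im ^ 2 := by
        rw [h5]
        ring
      nlinarith
    have h12 := Real.sqrt_sq_eq_abs D.re
    rw [← h10, Real.sqrt_sq (mul_nonneg hs.le h6)] at h12
    exact h12
  refine ⟨Real.arccos (-D.im / ‖D‖), if 0 ≤ D.re then 1 else -1, Real.arccos_nonneg _,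
    Real.arccos_le_pi _, ?_, ?_⟩
  · split_ifs
    · exact Or.inl rfl
    · exact Or.inr rfl
  · have he : ((if 0 ≤ D.re then (1 : ℝ) else -1) = 1 ∨ (if 0 ≤ D.re then (1 : ℝ) else -1) = -1) := by
      split_ifs
      · exact Or.inl rfl
      · exact Or.inr rfl
    obtain ⟨k1, k2⟩ := TC_reim (s := ‖D‖) (t := Real.arccos (-D.im / ‖D‖)) he
    apply Complex.ext
    · rw [k1]
      rw [show ‖D‖ * ((if 0 ≤ D.re then (1 : ℝ) else -1) *
        Real.sin (Real.arccos (-D.im / ‖D‖))) = (if 0 ≤ D.re then (1 : ℝ) else -1) *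
        (‖D‖ * Real.sin (Real.arccos (-D.im / ‖D‖))) by ring, h7]
      split_ifs with h
      · rw [abs_of_nonneg h, one_mul]
      · rw [abs_of_neg (not_le.mp h)]
        ring
    · rw [k2, h5]
      ring

private theorem TC_cone {t τ : ℝ} (h0 : 0 ≤ t) (h1 : t ≤ τ) (h2 : τ ≤ Real.pi)
    (h : -Real.cos τ < 3 / 5 * Real.sin τ) : -Real.cos t < 3 / 5 * Real.sin t := by
  rcases eq_or_lt_of_le h0 with h3 | h3
  · rw [← h3]
    simp
  rcases le_or_gt t (Real.pi / 2) with h4 | h4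
  · have h5 : 0 < Real.sin t := Real.sin_pos_of_pos_of_lt_pi h3 (by
      have := Real.pi_pos
      linarith)
    have h6 : 0 ≤ Real.cos t := Real.cos_nonneg_of_neg_pi_div_two_le_of_le (by linarith) h4
    linarith
  · have h5 : Real.cos τ ≤ Real.cos t := Real.cos_le_cos_of_nonneg_of_le_pi h0 h2 h1
    have h6 : Real.sin τ ≤ Real.sin t := by
      have h7 := Real.sin_le_sin_of_le_of_le_pi_div_two (x := Real.pi - τ) (y := Real.pi - t)
        (by linarith) (by linarith) (by linarith)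
      rwa [Real.sin_pi_sub, Real.sin_pi_sub] at h7
    linarith

private theorem TC_sl {θ : ℂ} {s₁ : ℝ} (hθ : θ ∈ Sl θb s₁) : ∃ τ e : ℝ, 0 ≤ τ ∧
    τ ≤ Real.pi ∧ (e = 1 ∨ e = -1) ∧ 0 < ‖θ - θb‖ ∧
    θ = θb + ((‖θ - θb‖ : ℝ) : ℂ) * cexp (I * (-(Real.pi / 2) + e * τ)) ∧
    ∀ t ∈ Icc 0 τ, θb + ((‖θ - θb‖ : ℝ) : ℂ) * cexp (I * (-(Real.pi / 2) + e * t)) ∈
      Sl θb s₁ := by
  obtain ⟨h1, h2⟩ := hθ
  have h3 : θ - θb ≠ 0 := by
    intro h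
    rw [h] at h2
    simp at h2
  have hs : 0 < ‖θ - θb‖ := norm_pos_iff.mpr h3
  obtain ⟨τ, e, k1, k2, k3, k4⟩ := TC_polar h3
  refine ⟨τ, e, k1, k2, k3, hs, ?_, ?_⟩
  · rw [← k4]
    ring
  · intro t ht
    have habs : ∀ r : ℝ, 0 ≤ r → |‖θ - θb‖ * (e * r)| = ‖θ - θb‖ * r := by
      intro r hr
      rw [abs_mul, abs_mul, abs_of_pos hs, abs_of_nonneg hr]
      rcases k3 with rfl | rfl <;> simp
    have hsin : ∀ r : ℝ, 0 ≤ r → r ≤ Real.pi → 0 ≤ Real.sin r := fun r h4 h5 =>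
      Real.sin_nonneg_of_nonneg_of_le_pi h4 h5
    have h4 : (θ - θb).im = -(‖θ - θb‖ * Real.cos τ) := by
      conv_lhs => rw [k4]
      exact (TC_reim k3).2
    have h5 : (θ - θb).re = ‖θ - θb‖ * (e * Real.sin τ) := by
      conv_lhs => rw [k4]
      exact (TC_reim k3).1
    rw [h4, h5, habs _ (hsin τ k1 k2)] at h2
    have h6 : -Real.cos τ < 3 / 5 * Real.sin τ := by
      by_contra h7
      push Not at h7
      nlinarith [mul_le_mul_of_nonneg_left h7 hs.le]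
    have h8 := TC_cone ht.1 ht.2 k2 h6
    have h9 : θb + ((‖θ - θb‖ : ℝ) : ℂ) * cexp (I * (-(Real.pi / 2) + e * t)) - θb =
      ((‖θ - θb‖ : ℝ) : ℂ) * cexp (I * (-(Real.pi / 2) + e * t)) := by ring
    constructor
    · rw [h9]
      have h10 := (TC_D k3 hs t).2
      rw [norm_mul, norm_mul I, Complex.norm_I, Complex.norm_real] at h10
      have h11 : ‖e‖ = 1 := by
        rcases k3 with rfl | rfl <;> simp
      rw [h11, mul_one, mul_one] at h10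
      rw [h10]
      exact h1
    · rw [h9, (TC_reim k3).1, (TC_reim k3).2, habs _ (hsin t ht.1 (ht.2.trans k2))]
      nlinarith [mul_lt_mul_of_pos_left h8 hs]

private theorem TC_log (C δ c : ℝ) (hδ : 0 < δ) : ∃ u : ℝ, 0 < u ∧ ∀ s : ℝ, 0 < s → s < u →
    4 * s * (C + 2 * |Real.log s| + 7) < δ ∧ c * s ≤ 1 / 16 := by
  have h1 : Tendsto (fun s : ℝ => 4 * (C + 7) * s + 8 * |Real.log s * s|) (𝓝[>] 0) (𝓝 0) := by
    have h2 : Tendsto (fun s : ℝ => s) (𝓝[>] 0) (𝓝 0) := tendsto_nhdsWithin_of_tendsto_nhds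
      tendsto_id
    have h3 : Tendsto (fun s : ℝ => |Real.log s * s|) (𝓝[>] 0) (𝓝 0) := by
      have h4 : Continuous fun s : ℝ => |Real.log s * s| := by
        have h5 := Real.continuous_mul_log.abs
        simpa [mul_comm] using h5
      have h6 := (h4.tendsto 0).mono_left (nhdsWithin_le_nhds (s := Ioi (0 : ℝ)))
      simpa using h6
    have h4 := (h2.const_mul (4 * (C + 7))).add (h3.const_mul 8)
    simpa using h4
  have h5 : Tendsto (fun s : ℝ => c * s) (𝓝[>] 0) (𝓝 0) := by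
    have h2 : Tendsto (fun s : ℝ => s) (𝓝[>] 0) (𝓝 0) := tendsto_nhdsWithin_of_tendsto_nhds
      tendsto_id
    simpa using h2.const_mul c
  have h6 := (h1.eventually_lt_const hδ).and (h5.eventually_lt_const
    (by norm_num : (0 : ℝ) < 1 / 16))
  obtain ⟨u, hu, hsub⟩ := (mem_nhdsGT_iff_exists_Ioo_subset).mp h6
  refine ⟨u, hu, fun s h7 h8 => ?_⟩
  obtain ⟨h9, h10⟩ := hsub ⟨h7, h8⟩
  refine ⟨?_, h10.le⟩
  rw [abs_mul, abs_of_pos h7] at h9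
  linarith

/-- Proof. `η' := min η (ρ / 2)`, smaller so that `‖A x - 1‖ ≤ 1 / 1000` for `‖x‖ ≤ η'` (`Side.one`);
`m` = minimum of `‖2 i κ‖` on `closedBall lb (3 R / 4)` (`Lim.κ_ne`). `tip_seg` with
`min (η' / 4) (1 / 1000)`: `s₁, C`; `s₁` smaller such that `‖e^ℓ‖ s₁ ≤ 1/16` and
`4 s (C + 2 |log s| + 7) < min (η' / 4) (m R / 8)` for `0 < s ≤ s₁` (`s log s → 0`). For `θ ∈ Sl θb s₁`,
`s = ‖θ - θb‖ > 0`: `θ - θb = s e^(iφ)`, `φ = - π/2 + e τ`, `0 ≤ τ < π`, i.e. `Im (θ - θb) = - s cos τ`,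
`|Re (θ - θb)| = s sin τ`; all the points of the arc are in `Sl θb s₀`: `- cos τ' < (3/5) sin τ'` for `0 ≤ τ' ≤ τ`
(if `τ' ≤ π/2` clear; else `- cos τ' ≤ - cos τ < (3/5) sin τ ≤ (3/5) sin τ'`). `tip_arc`. -/
theorem tip_circ (hK : Ks U Zs ε q κ lb ℓ R ρ X J A Φ Xn Jn An) (hz : Fw M (gI q) Ω z)
    (hT : Tp q Ω z θb g₀ s₀ lb)
    (hs : Tendsto (fun s : ℝ => (2 * I * κ (z (θb - I * s, g₀)).1 *
      (z (θb - I * s, g₀)).2).re) (𝓝[>] 0) atTop) {η : ℝ} (hη : 0 < η) :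
    ∃ s₁ : ℝ, 0 < s₁ ∧ s₁ ≤ s₀ ∧ ∀ θ ∈ Sl θb s₁,
      (z (θ, g₀)).1 ∈ ball lb R ∧ ‖X (z (θ, g₀)).1‖ < η ∧
      cexp (2 * I * κ (z (θ, g₀)).1 * (z (θ, g₀)).2) ≠ 1 ∧
      ‖(Ct κ X ℓ (z (θ, g₀))).2 - (θ - θb)‖ ≤ ‖θ - θb‖ / 100 := by
  have hρ : 0 < ρ := hK.lim.crd.ρ_pos
  have hR : 0 < R := hK.lim.crd.R₁_pos
  have cA : ContinuousAt A 0 :=
    (hK.lim.crd.A_an.differentiableAt (isOpen_ball.mem_nhds (mem_ball_self hρ))).continuousAt
  have hA0 : A 0 = 1 := hK.lim.side.one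
  obtain ⟨δ, hδ, hAδ⟩ := Metric.continuousAt_iff.mp cA (1 / 1000) (by norm_num)
  obtain ⟨η', hη', hη1, hη2, hη3⟩ : ∃ η' : ℝ, 0 < η' ∧ η' ≤ η ∧ η' < ρ ∧ η' < δ := by
    refine ⟨min η (min (ρ / 2) (δ / 2)), by positivity, min_le_left _ _, ?_, ?_⟩
    · have h1 : min η (min (ρ / 2) (δ / 2)) ≤ ρ / 2 := (min_le_right _ _).trans (min_le_left _ _)
      linarith
    · have h1 : min η (min (ρ / 2) (δ / 2)) ≤ δ / 2 := (min_le_right _ _).trans (min_le_right _ _)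
      linarith
  have hA : ∀ x : ℂ, ‖x‖ ≤ η' → ‖A x - 1‖ ≤ 1 / 1000 := by
    intro x hx
    have h1 := hAδ (x := x) (by
      rw [dist_zero_right]
      linarith)
    rw [hA0, dist_eq_norm] at h1
    exact h1.le
  have hsub : closedBall lb (3 * R / 4) ⊆ ball lb R := closedBall_subset_ball (by linarith)
  obtain ⟨m, hm, hκm⟩ : ∃ m : ℝ, 0 < m ∧ ∀ l ∈ closedBall lb (3 * R / 4), m ≤ ‖2 * I * κ l‖ := by
    have hc : ContinuousOn (fun l => ‖2 * I * κ l‖) (closedBall lb (3 * R / 4)) :=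
      (continuousOn_const.mul (hK.κ_an.continuousOn.mono hsub)).norm
    obtain ⟨l₀, hl₀, hmin⟩ := (isCompact_closedBall lb (3 * R / 4)).exists_isMinOn
      ⟨lb, mem_closedBall_self (by linarith)⟩ hc
    refine ⟨‖2 * I * κ l₀‖, ?_, fun l hl => hmin hl⟩
    exact norm_pos_iff.mpr (mul_ne_zero (mul_ne_zero two_ne_zero Complex.I_ne_zero)
      (hK.lim.κ_ne l₀ (hsub hl₀)))
  obtain ⟨s₂, C, hs₂, hs₂0, hseg⟩ := tip_seg hK hz hT hs (η := min (η' / 4) (1 / 1000))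
    (by positivity) ((min_le_right _ _).trans (by norm_num))
  obtain ⟨u, hu, hlog⟩ := TC_log C (min (η' / 4) (m * R / 8)) ‖cexp ℓ‖ (by positivity)
  refine ⟨min s₂ u, by positivity, (min_le_left _ _).trans hs₂0.le, fun θ hθ => ?_⟩
  have hlt : ‖θ - θb‖ < min s₂ u := hθ.1
  obtain ⟨τ, e, k1, k2, k3, k4, k5, k6⟩ := TC_sl hθ
  have l1 : ‖θ - θb‖ < s₂ := lt_of_lt_of_le hlt (min_le_left _ _)
  have l2 : ‖θ - θb‖ < u := lt_of_lt_of_le hlt (min_le_right _ _)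
  obtain ⟨g1, g2, g3, g4, g5⟩ := hseg _ k4 l1.le
  obtain ⟨g6, g7⟩ := hlog _ k4 l2
  have hmono : ∀ t ∈ Icc 0 τ, (θb + ((‖θ - θb‖ : ℝ) : ℂ) *
      cexp (I * (-(Real.pi / 2) + e * t)), g₀) ∈ Ω := by
    intro t ht
    have h1 := k6 t ht
    exact hT.slit _ ⟨lt_of_lt_of_le h1.1 ((min_le_left _ _).trans hs₂0.le), h1.2⟩
  have hfin := tip_arc hK hz hη' hη2 hA hm hκm k4 k1 k2 k3 g7 hmono g1
    (lt_of_lt_of_le g2 (min_le_left _ _)) g3
    (g4.trans (by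
      have h1 : min (η' / 4) (1 / 1000) ≤ 1 / 1000 := min_le_right _ _
      have h2 := mul_le_mul_of_nonneg_right h1 k4.le
      linarith))
    (lt_of_le_of_lt (by
      apply mul_le_mul_of_nonneg_left _ (by positivity)
      linarith) g6) τ ⟨k1, le_refl _⟩ θ k5
  exact ⟨hfin.1, lt_of_lt_of_le hfin.2.1 hη1, hfin.2.2.1, hfin.2.2.2⟩

end Pool.Agent.MP_ae5b4e_an_ATK
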