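import Pool.Agent.Lib.MP_ae5b4e_an_ATK.ChB

/-! # ATK: the trajectory below the tip -/

set_option autoImplicit false

noncomputable section

namespace Pool.Agent.MP_ae5b4e_an_ATK

open Complex Set Filter Topology Metric
open Pool.Agent.MP_ae5b4e_an_NB2 (Sys)
open Pool.Agent.MP_ae5b4e_an_A1
open PorTR (Hm)

variable {U : Ultrafilter ℕ} {Zs : ℕ → Sys} {ε : ℕ → ℝ} {q κ : ℂ → ℂ} {lb ℓ : ℂ} {R ρ : ℝ}
  {X J A Φ : ℂ → ℂ} {Xn Jn An : ℕ → ℂ → ℂ} {M Ω : Set (ℂ × ℂ)} {z : ℂ × ℂ → ℂ × ℂ}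
  {θb g₀ : ℂ} {s₀ : ℝ}

private theorem tipSeg_slit (hT : Tp q Ω z θb g₀ s₀ lb) {s : ℝ} (h0 : 0 < s) (h1 : s < s₀) :
    (θb - I * s, g₀) ∈ Ω := by
  apply hT.slit
  have h2 : θb - I * s - θb = -(I * s) := by ring
  refine ⟨?_, ?_⟩
  · rw [h2, norm_neg, norm_mul, Complex.norm_I, one_mul, Complex.norm_real,
      Real.norm_of_nonneg h0.le]
    exact h1
  · rw [h2]
    simpa using h0

private theorem tipSeg_comp {F : ℂ → ℂ} {F' : ℂ} {s : ℝ} (h : HasDerivAt F F' (θb - I * s)) :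
    HasDerivAt (fun s : ℝ => F (θb - I * s)) (-I * F') s := by
  have h1 : HasDerivAt (fun c : ℂ => θb - I * c) (-I) (s : ℂ) := by
    have := ((hasDerivAt_id (s : ℂ)).const_mul I).const_sub θb
    simpa using this
  have h2 : HasDerivAt (fun c : ℂ => F (θb - I * c)) (F' * -I) (s : ℂ) :=
    HasDerivAt.comp (s : ℂ) h h1
  have h3 := h2.comp_ofReal
  rwa [mul_comm] at h3

private theorem tipSeg_ode (hK : Ks U Zs ε q κ lb ℓ R ρ X J A Φ Xn Jn An) (hz : Fw M (gI q) Ω z)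
    {s : ℝ} (hm : (θb - I * s, g₀) ∈ Ω) (hl : (z (θb - I * s, g₀)).1 ∈ ball lb R)
    (hx : ‖X (z (θb - I * s, g₀)).1‖ < ρ)
    (hne : cexp (2 * I * κ (z (θb - I * s, g₀)).1 * (z (θb - I * s, g₀)).2) ≠ 1) :
    HasDerivAt (fun s : ℝ => cexp (-ℓ) /
      (cexp (2 * I * κ (z (θb - I * s, g₀)).1 * (z (θb - I * s, g₀)).2) - 1))
      (-I * A (X (z (θb - I * s, g₀)).1)) s ∧
    HasDerivAt (fun s : ℝ => 2 * I * κ (z (θb - I * s, g₀)).1 * (z (θb - I * s, g₀)).2)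
      (-I * (-(cexp ℓ * A (X (z (θb - I * s, g₀)).1)) *
        ((cexp (2 * I * κ (z (θb - I * s, g₀)).1 * (z (θb - I * s, g₀)).2) - 1) ^ 2 /
          cexp (2 * I * κ (z (θb - I * s, g₀)).1 * (z (θb - I * s, g₀)).2)))) s := by
  have h1 := hz.ode _ hm
  have h2 : HasDerivAt (fun θ : ℂ => (z (θ, g₀)).1) (z (θb - I * s, g₀)).2 (θb - I * s) := by
    have := (ContinuousLinearMap.fst ℂ ℂ ℂ).hasFDerivAt.comp_hasDerivAt _ h1
    exact this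
  have h3 : HasDerivAt (fun θ : ℂ => (z (θ, g₀)).2)
      (Pool.Agent.MP_ae5b4e_an_M.bb q (z (θb - I * s, g₀)).1 (z (θb - I * s, g₀)).2)
      (θb - I * s) := by
    have := (ContinuousLinearMap.snd ℂ ℂ ℂ).hasFDerivAt.comp_hasDerivAt _ h1
    exact this
  obtain ⟨-, h4, h5⟩ := chart_ode hK (l := fun θ => (z (θ, g₀)).1) (a := fun θ => (z (θ, g₀)).2)
    (θ := θb - I * s) h2 h3 hl hne
  have h6 := A_X hK hl hx
  have h7 : deriv (fun l => 1 / (2 * I * κ l)) (z (θb - I * s, g₀)).1 =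
      cexp ℓ * A (X (z (θb - I * s, g₀)).1) := by
    rw [h6, ← mul_assoc, ← Complex.exp_add, add_neg_cancel, Complex.exp_zero, one_mul]
  constructor
  · rw [← h6] at h4
    exact tipSeg_comp (F := fun θ => cexp (-ℓ) /
      (cexp (2 * I * κ (z (θ, g₀)).1 * (z (θ, g₀)).2) - 1)) h4
  · rw [h7] at h5
    exact tipSeg_comp (F := fun θ => 2 * I * κ (z (θ, g₀)).1 * (z (θ, g₀)).2) h5

/-- mean value inequality from `0+` -/
private theorem tipSeg_mv {G G' : ℝ → ℂ} {a c : ℝ} (hd : ∀ s ∈ Ioc 0 a, HasDerivAt G (G' s) s)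
    (hb : ∀ s ∈ Ioc 0 a, ‖G' s‖ ≤ c) (h0 : Tendsto G (𝓝[>] 0) (𝓝 0)) {s : ℝ}
    (hs : s ∈ Ioc 0 a) : ‖G s‖ ≤ c * s := by
  have hc : 0 ≤ c := (norm_nonneg _).trans (hb s hs)
  have h1 : ∀ᶠ t in 𝓝[>] (0 : ℝ), ‖G s - G t‖ ≤ c * s := by
    filter_upwards [Ioo_mem_nhdsGT hs.1] with t ht
    have h2 := (convex_Ioc 0 a).norm_image_sub_le_of_norm_hasDerivWithin_le
      (fun x hx => (hd x hx).hasDerivWithinAt) hb ⟨ht.1, ht.2.le.trans hs.2⟩ hs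
    refine h2.trans ?_
    rw [Real.norm_of_nonneg (by linarith [ht.2])]
    exact mul_le_mul_of_nonneg_left (by linarith [ht.1]) hc
  have h3 : Tendsto (fun t => ‖G s - G t‖) (𝓝[>] 0) (𝓝 ‖G s - 0‖) :=
    (tendsto_const_nhds.sub h0).norm
  rw [sub_zero] at h3
  exact le_of_tendsto h3 h1

/-- logarithmic growth -/
private theorem tipSeg_log {W W' : ℝ → ℂ} {a : ℝ} (ha : 0 < a)
    (hd : ∀ s ∈ Ioc 0 a, HasDerivAt W (W' s) s) (hb : ∀ s ∈ Ioc 0 a, ‖W' s‖ * s ≤ 2) {s : ℝ}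
    (hs : s ∈ Ioc 0 a) : ‖W s‖ ≤ ‖W a‖ + 2 * |Real.log a| + 2 * |Real.log s| := by
  have h1 : ∀ τ ∈ Iic (Real.log a), Real.exp τ ∈ Ioc 0 a := fun τ hτ =>
    ⟨Real.exp_pos _, by rw [← Real.exp_log ha]; exact Real.exp_le_exp.mpr hτ⟩
  have h2 : ∀ τ ∈ Iic (Real.log a), HasDerivWithinAt (fun τ => W (Real.exp τ))
      (Real.exp τ • W' (Real.exp τ)) (Iic (Real.log a)) τ := fun τ hτ =>
    (HasDerivAt.scomp τ (hd _ (h1 τ hτ)) (Real.hasDerivAt_exp τ)).hasDerivWithinAt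
  have h3 : ∀ τ ∈ Iic (Real.log a), ‖Real.exp τ • W' (Real.exp τ)‖ ≤ 2 := by
    intro τ hτ
    rw [norm_smul, Real.norm_of_nonneg (Real.exp_pos _).le, mul_comm]
    exact hb _ (h1 τ hτ)
  have hls : Real.log s ∈ Iic (Real.log a) := Real.log_le_log hs.1 hs.2
  have h4 := (convex_Iic (Real.log a)).norm_image_sub_le_of_norm_hasDerivWithin_le h2 h3
    (self_mem_Iic) hls
  rw [Real.exp_log hs.1, Real.exp_log ha, Real.norm_eq_abs] at h4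
  have h5 := abs_sub (Real.log s) (Real.log a)
  have h6 : ‖W s‖ ≤ ‖W a‖ + ‖W s - W a‖ := by
    have := norm_add_le (W a) (W s - W a)
    rwa [add_sub_cancel] at this
  linarith

private theorem tipSeg_bd {E ζ a c : ℂ} {s η : ℝ} (hE : E ≠ 1) (hE0 : E ≠ 0) (hc0 : c ≠ 0)
    (hζ : ζ = c⁻¹ / (E - 1)) (hEi : ‖E⁻¹‖ ≤ 1 / 2) (ha : ‖a - 1‖ ≤ η / 2)
    (hζs : ‖ζ + I * s‖ ≤ η / 2 * s) (hs : 0 < s) (hη1 : η ≤ 1 / 100) :
    ‖-I * (-(c * a) * ((E - 1) ^ 2 / E))‖ * s ≤ 2 := by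
  have hE1 : E - 1 ≠ 0 := sub_ne_zero.mpr hE
  have h1 : ζ * (-I * (-(c * a) * ((E - 1) ^ 2 / E))) = I * a * (1 - E⁻¹) := by
    rw [hζ]
    field_simp
  have h2 : ‖ζ‖ * ‖-I * (-(c * a) * ((E - 1) ^ 2 / E))‖ ≤ (1 + η / 2) * (3 / 2) := by
    rw [← norm_mul, h1, norm_mul, norm_mul, Complex.norm_I, one_mul]
    have h3 : ‖a‖ ≤ 1 + η / 2 := by
      have := norm_add_le (1 : ℂ) (a - 1)
      rw [add_sub_cancel, norm_one] at this
      linarith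
    have h4 : ‖1 - E⁻¹‖ ≤ 3 / 2 := by
      have := norm_sub_le (1 : ℂ) E⁻¹
      rw [norm_one] at this
      linarith
    have h5 : 0 ≤ 1 + η / 2 := (norm_nonneg _).trans h3
    exact mul_le_mul h3 h4 (norm_nonneg _) h5
  have h6 : s * (1 - η / 2) ≤ ‖ζ‖ := by
    have h7 : ‖I * (s : ℂ)‖ = s := by
      rw [norm_mul, Complex.norm_I, one_mul, Complex.norm_real, Real.norm_of_nonneg hs.le]
    have h8 := norm_sub_le (ζ + I * s) ζ
    rw [add_sub_cancel_left, h7] at h8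
    linarith
  set N := ‖-I * (-(c * a) * ((E - 1) ^ 2 / E))‖ with hN
  have hN0 : 0 ≤ N := norm_nonneg _
  have h9 : s * (1 - η / 2) * N ≤ (1 + η / 2) * (3 / 2) :=
    (mul_le_mul_of_nonneg_right h6 hN0).trans h2
  have h10 : 0 ≤ N * s := by positivity
  have h11 : (199 / 200) * (N * s) ≤ s * (1 - η / 2) * N := by nlinarith
  nlinarith

/-- Proof. Write `u(s) = z (θb - i s, g₀)`, `W(s) = 2 i κ (u.1) u.2`, `p = 1 / (e^W - 1)`,
`ζ(s) = (Ct κ X ℓ u).2 = e^(-ℓ) p`. For `s → 0+`: `u.1 → lb` (`Tp.lim`), `X u.1 → 0`, `Re W → ∞`, so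
`p → 0`,
`ζ → 0`. For `s` small `‖A (X u.1) - 1‖ ≤ η / 2` (`A 0 = 1` (`Side.one`), `A` continuous), `‖p‖ ≤
1/8`.
`chart_ode` with `Fw.ode` (`gI q u = (u.2, bb q u.1 u.2)`) and the chain rule for `s ↦ θb - i s`:
`ζ' = - i A (X u.1)` (`A_X`), so `ζ + i s` has derivative `≤ η / 2` on `(0, s₁]` and limit `0` at
`0+`:
`‖ζ + i s‖ ≤ η s / 2`. `W' (s) = i e^ℓ A (e^W - 1)² / e^W = i A / (ζ (1 + p))`, norm
`≤ (1 + η) / ((1 - η) s (1 - 1/8)) ≤ 2 / s`: `‖W (s)‖ ≤ ‖W (s₁)‖ + 2 log (s₁ / s)` (mean value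
inequality
on `[s, s₁]` with the comparison function `2 log`). -/
theorem tip_seg (hK : Ks U Zs ε q κ lb ℓ R ρ X J A Φ Xn Jn An) (hz : Fw M (gI q) Ω z)
    (hT : Tp q Ω z θb g₀ s₀ lb)
    (hs : Tendsto (fun s : ℝ => (2 * I * κ (z (θb - I * s, g₀)).1 *
      (z (θb - I * s, g₀)).2).re) (𝓝[>] 0) atTop) {η : ℝ} (hη : 0 < η) (hη1 : η ≤ 1 / 100) :
    ∃ s₁ C : ℝ, 0 < s₁ ∧ s₁ < s₀ ∧ ∀ s : ℝ, 0 < s → s ≤ s₁ →
      (z (θb - I * s, g₀)).1 ∈ ball lb (R / 2) ∧ ‖X (z (θb - I * s, g₀)).1‖ < η ∧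
      cexp (2 * I * κ (z (θb - I * s, g₀)).1 * (z (θb - I * s, g₀)).2) ≠ 1 ∧
      ‖(Ct κ X ℓ (z (θb - I * s, g₀))).2 + I * s‖ ≤ η * s ∧
      ‖2 * I * κ (z (θb - I * s, g₀)).1 * (z (θb - I * s, g₀)).2‖ ≤ C + 2 * |Real.log s| := by
  set u : ℝ → ℂ × ℂ := fun s => z (θb - I * s, g₀) with hu
  set W : ℝ → ℂ := fun s => 2 * I * κ (u s).1 * (u s).2 with hW
  have hR : 0 < R := hK.lim.crd.R₁_pos
  have hρ : 0 < ρ := hK.lim.crd.ρ_pos
  have hlb : lb ∈ ball lb R := mem_ball_self hR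
  have hXc : Tendsto (fun s => X (u s).1) (𝓝[>] 0) (𝓝 0) := by
    have h1 : ContinuousAt X lb :=
      (hK.lim.crd.X_an.differentiableAt (isOpen_ball.mem_nhds hlb)).continuousAt
    have h2 : Tendsto X (𝓝 lb) (𝓝 0) := by
      have := h1.tendsto
      rwa [hK.lim.crd.X_lb] at this
    exact h2.comp hT.lim
  have hAc : Tendsto (fun s => ‖A (X (u s).1) - 1‖) (𝓝[>] 0) (𝓝 0) := by
    have h1 : ContinuousAt A 0 :=
      (hK.lim.crd.A_an.differentiableAt (isOpen_ball.mem_nhds (mem_ball_self hρ))).continuousAt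
    have h2 : Tendsto (fun x => ‖A x - 1‖) (𝓝 0) (𝓝 0) := by
      have h3 : ContinuousAt (fun x => ‖A x - 1‖) 0 := (h1.sub continuousAt_const).norm
      have h4 := h3.tendsto
      rwa [hK.lim.side.one, sub_self, norm_zero] at h4
    exact h2.comp hXc
  have hev : ∀ᶠ s : ℝ in 𝓝[>] 0, s < s₀ ∧ (u s).1 ∈ ball lb (R / 2) ∧ ‖X (u s).1‖ < η ∧
      ‖X (u s).1‖ < ρ ∧ ‖A (X (u s).1) - 1‖ < η / 2 ∧ 1 ≤ (W s).re := by
    have hb : ∀ᶠ s : ℝ in 𝓝[>] 0, (u s).1 ∈ ball lb (R / 2) :=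
      hT.lim (isOpen_ball.mem_nhds (mem_ball_self (half_pos hR)))
    refine (eventually_nhdsWithin_of_eventually_nhds (eventually_lt_nhds hT.s_pos)).and
      (hb.and ?_)
    have hXn : Tendsto (fun s => ‖X (u s).1‖) (𝓝[>] 0) (𝓝 0) := by
      have := hXc.norm
      rwa [norm_zero] at this
    exact (hXn.eventually_lt_const hη).and ((hXn.eventually_lt_const hρ).and
      ((hAc.eventually_lt_const (by linarith)).and (hs.eventually_ge_atTop 1)))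
  obtain ⟨s₁, hs0, hs1⟩ := mem_nhdsGT_iff_exists_Ioc_subset.mp hev
  have hs0' : (0 : ℝ) < s₁ := hs0
  have hEi : ∀ s ∈ Ioc 0 s₁, ‖(cexp (W s))⁻¹‖ ≤ 1 / 2 := by
    intro s hs'
    have h1 := (hs1 hs').2.2.2.2.2
    rw [norm_inv, Complex.norm_exp, one_div]
    apply inv_anti₀ (by norm_num)
    have := Real.add_one_le_exp (W s).re
    linarith
  have hne : ∀ s ∈ Ioc 0 s₁, cexp (W s) ≠ 1 := by
    intro s hs' h
    have := hEi s hs'
    rw [h] at this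
    norm_num at this
  have hsub : ∀ s ∈ Ioc 0 s₁, (u s).1 ∈ ball lb R := fun s hs' =>
    ball_subset_ball (by linarith) (hs1 hs').2.1
  have hode : ∀ s ∈ Ioc 0 s₁, HasDerivAt (fun s : ℝ => cexp (-ℓ) / (cexp (W s) - 1))
      (-I * A (X (u s).1)) s ∧ HasDerivAt W (-I * (-(cexp ℓ * A (X (u s).1)) *
        ((cexp (W s) - 1) ^ 2 / cexp (W s)))) s := fun s hs' =>
    tipSeg_ode hK hz (tipSeg_slit hT hs'.1 (hs1 hs').1) (hsub s hs') (hs1 hs').2.2.2.1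
      (hne s hs')
  have hζ0 : Tendsto (fun s : ℝ => cexp (-ℓ) / (cexp (W s) - 1)) (𝓝[>] 0) (𝓝 0) := by
    have h1 : Tendsto (fun s => ‖cexp (W s)‖) (𝓝[>] 0) atTop := by
      have h2 : (fun s => ‖cexp (W s)‖) = fun s => Real.exp (W s).re := by
        funext s
        exact Complex.norm_exp _
      rw [h2]
      exact Real.tendsto_exp_atTop.comp hs
    have h3 : Tendsto (fun s => ‖cexp (W s)‖ - 1) (𝓝[>] 0) atTop :=
      tendsto_atTop_add_const_right _ _ h1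
    have h4 : Tendsto (fun s => ‖cexp (-ℓ)‖ / (‖cexp (W s)‖ - 1)) (𝓝[>] 0) (𝓝 0) :=
      h3.const_div_atTop _
    refine squeeze_zero_norm' ?_ h4
    filter_upwards [h3.eventually_gt_atTop 0] with s hs'
    rw [norm_div]
    refine div_le_div_of_nonneg_left (norm_nonneg _) hs' ?_
    have := norm_sub_norm_le (cexp (W s)) 1
    rwa [norm_one] at this
  have hIs : Tendsto (fun s : ℝ => I * (s : ℂ)) (𝓝[>] 0) (𝓝 0) := by
    have h1 : ContinuousAt (fun s : ℝ => I * (s : ℂ)) 0 := by fun_prop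
    have h2 := h1.tendsto
    simp only [Complex.ofReal_zero, mul_zero] at h2
    exact h2.mono_left nhdsWithin_le_nhds
  have hG0 : Tendsto (fun s : ℝ => cexp (-ℓ) / (cexp (W s) - 1) + I * s) (𝓝[>] 0) (𝓝 0) := by
    have := hζ0.add hIs
    rwa [add_zero] at this
  have hIsd : ∀ s : ℝ, HasDerivAt (fun s : ℝ => I * (s : ℂ)) I s := by
    intro s
    have := (Complex.ofRealCLM.hasDerivAt (x := s)).const_mul I
    simpa using this
  have hζs : ∀ s ∈ Ioc 0 s₁, ‖cexp (-ℓ) / (cexp (W s) - 1) + I * s‖ ≤ η / 2 * s := by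
    intro s hs'
    refine tipSeg_mv (G := fun s : ℝ => cexp (-ℓ) / (cexp (W s) - 1) + I * s)
      (G' := fun s => -I * A (X (u s).1) + I) (a := s₁) (fun t ht => (hode t ht).1.add (hIsd t))
      (fun t ht => ?_) hG0 hs'
    have h1 : -I * A (X (u t).1) + I = -I * (A (X (u t).1) - 1) := by ring
    show ‖-I * A (X (u t).1) + I‖ ≤ η / 2
    rw [h1, norm_mul, norm_neg, Complex.norm_I, one_mul]
    exact (hs1 ht).2.2.2.2.1.le
  have hWs : ∀ s ∈ Ioc 0 s₁, ‖W s‖ ≤ ‖W s₁‖ + 2 * |Real.log s₁| + 2 * |Real.log s| := by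
    intro s hs'
    refine tipSeg_log hs0' (fun t ht => (hode t ht).2) (fun t ht => ?_) hs'
    refine tipSeg_bd (hne t ht) (Complex.exp_ne_zero _) (Complex.exp_ne_zero ℓ)
      (ζ := cexp (-ℓ) / (cexp (W t) - 1)) ?_ (hEi t ht) (hs1 ht).2.2.2.2.1.le (hζs t ht) ht.1 hη1
    rw [Complex.exp_neg]
  refine ⟨s₁, ‖W s₁‖ + 2 * |Real.log s₁|, hs0', (hs1 ⟨hs0', le_rfl⟩).1, fun s h1 h2 => ?_⟩
  have hs' : s ∈ Ioc 0 s₁ := ⟨h1, h2⟩
  refine ⟨(hs1 hs').2.1, (hs1 hs').2.2.1, hne s hs', ?_, hWs s hs'⟩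
  refine (hζs s hs').trans ?_
  nlinarith

end Pool.Agent.MP_ae5b4e_an_ATK
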