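import Pool.Agent.Lib.MP_ae5b4e_an_ATK.Fin
import Pool.Agent.Lib.MP_ae5b4e_an_ATK.Kseq
import Pool.Agent.Lib.MP_ae5b4e_an_A1.WinBC

/-! # ATK: the first mode at a tip, in the windows -/

set_option autoImplicit false

noncomputable section

namespace Pool.Agent.MP_ae5b4e_an_ATK

open Complex Set Filter Topology Metric
open Pool.Agent.MP_ae5b4e_an_NB2 (Sys)
open Pool.Agent.MP_ae5b4e_an_PB (Base)
open Pool.Agent.MP_ae5b4e_an_M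
open Pool.Agent.MP_ae5b4e_an_A1
open Pool.Agent.MP_ae5b4e_an_A3 (md Dfc)
open PorTR (Hm)

/-- TYPE TIP: the label `Λ (·, g₀)` has the limit `lb` at `τb`, vertically from below, and
`cos y → ∞`, `y² = q (Λ) (g₀ ∂Λ)²`. -/
structure TipO (q : ℂ → ℂ) (Λ : ℂ × ℂ → ℂ) (g₀ : ℝ) (τb lb : ℂ) : Prop where
  low : lb.im < 0
  ne : q lb ≠ 0
  reg : deriv q lb ≠ 0
  lim : Tendsto (fun s : ℝ => Λ (τb - I * s, (g₀ : ℂ))) (𝓝[>] 0) (𝓝 lb)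
  inf : Tendsto (fun s : ℝ => ‖C1f (q (Λ (τb - I * s, (g₀ : ℂ))) *
    (g₀ * deriv (fun τ => Λ (τ, (g₀ : ℂ))) (τb - I * s)) ^ 2)‖) (𝓝[>] 0) atTop

variable {Y : Sys} {h R C0 : ℝ} {v : ℂ → ℝ} {G L : ℂ × ℂ → ℂ} {U : Ultrafilter ℕ} {β C1 : ℝ}
  {c V : ℕ → ℝ}

/-- The points of the limit domain over `g₀`. Proof. `p = (θ, g₀)`: `(θ g₀, g₀) ∈ SB`: `x₁ < X 0 ≤ X i ≤
g₀ Re θ ≤ X (i + 1) ≤ X P < x₂` (`Geom_mono`); `|g₀ Im θ + v₀| = g₀ |Im θ + v₀ / g₀| < b`; the slit `j = i` is excluded by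
the hypothesis (`Re (θ g₀) = g₀ Re θ`; `h4` with `Re = 0` gives `Im < 0`), for `j < i`: `Re Tb (j + 1) g₀ < X (j + 1) ≤ X i`, for `j > i`:
`Re Tb (j + 1) g₀ > X j ≥ X (i + 1)`. -/
theorem sb_mem {vi Vm : ℂ → ℝ} {g₀ r₀ x₁ x₂ v₀ b : ℝ} {P : ℕ} {Tb : ℕ → ℂ → ℂ} {X : ℕ → ℝ}
    (hSd : Sd vi Vm g₀ r₀ x₁ x₂ v₀ b P Tb X) {i : ℕ} (hi : i < P) {θ : ℂ} (h1 : X i / g₀ ≤ θ.re)
    (h2 : θ.re ≤ X (i + 1) / g₀) (h3 : |θ.im - -v₀ / g₀| < b / g₀)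
    (h4 : (θ - Tb (i + 1) g₀ / g₀).im < 3 / 5 * |(θ - Tb (i + 1) g₀ / g₀).re|) :
    ((θ * g₀, (g₀ : ℂ)) : ℂ × ℂ) ∈ SB g₀ r₀ x₁ x₂ v₀ b P Tb := by
  have hg := hSd.g_pos
  have hre : (θ * (g₀ : ℂ)).re = θ.re * g₀ := by
    rw [mul_re, ofReal_re, ofReal_im]
    ring
  have him : (θ * (g₀ : ℂ)).im = θ.im * g₀ := by
    rw [mul_im, ofReal_re, ofReal_im]
    ring
  have e1 : X i ≤ θ.re * g₀ := (div_le_iff₀ hg).1 h1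
  have e2 : θ.re * g₀ ≤ X (i + 1) := (le_div_iff₀ hg).1 h2
  have m1 := Geom_mono hSd (Nat.zero_le i) hi.le
  have m2 := Geom_mono hSd (show i + 1 ≤ P from hi) le_rfl
  refine ⟨mem_ball_self hSd.r_pos, ?_, ?_, ?_, ?_⟩
  · show x₁ < (θ * (g₀ : ℂ)).re
    rw [hre]
    linarith [hSd.X_l]
  · show (θ * (g₀ : ℂ)).re < x₂
    rw [hre]
    linarith [hSd.X_r]
  · show |(θ * (g₀ : ℂ)).im + v₀| < b
    rw [him]
    have k1 : θ.im * g₀ + v₀ = (θ.im - -v₀ / g₀) * g₀ := by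
      field_simp
      ring
    rw [k1, abs_mul, abs_of_pos hg]
    exact (lt_div_iff₀ hg).1 h3
  · intro j hj hc
    have hc1 : (θ * (g₀ : ℂ)).re = (Tb (j + 1) g₀).re := hc.1
    have hc2 : (Tb (j + 1) g₀).im ≤ (θ * (g₀ : ℂ)).im := hc.2
    rw [hre] at hc1
    rw [him] at hc2
    rcases lt_trichotomy j i with hji | hji | hji
    · have k1 := hSd.Tb_r j hj
      have k2 := Geom_mono hSd (show j + 1 ≤ i from hji) hi.le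
      linarith
    · subst hji
      have h5 : (θ - Tb (j + 1) g₀ / g₀).re = 0 := by
        rw [sub_re, div_ofReal_re, ← hc1]
        field_simp
        ring
      rw [h5, abs_zero, mul_zero, sub_im, div_ofReal_im, sub_neg, lt_div_iff₀ hg] at h4
      linarith
    · have k1 := hSd.Tb_l j hj
      have k2 := Geom_mono hSd (show i + 1 ≤ j from hji) hj.le
      linarith

/-- `Ps` from `BC` and `BZ`. Proof. Fields; `ms ε a i n = ⌊(a (i + 1) - a i) / ε n⌋₊` by definition. -/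
theorem ps_of {ε : ℕ → ℝ} {gn : ℕ → ℂ × ℂ → ℂ × ℂ} {z : ℂ × ℂ → ℂ × ℂ}
    {W : ℕ → ℂ × ℂ → ℂ × ℂ} {g₀ : ℂ} {r y₀ y₁ w : ℝ} {P : ℕ} {a : ℕ → ℝ} {T Yb : ℕ → ℂ → ℝ}
    {Z : ℕ → ℕ → ℂ × ℂ → ℂ × ℂ} {f g A B : ℕ → ℕ → ℂ × ℂ → ℂ}
    (hBC : BC U ε g₀ r y₁ P T Yb f g A B) (hBZ : BZ U ε gn z W g₀ r y₀ y₁ w P a T Yb Z f g A B)
    (hr : 0 < r) {i : ℕ} (hi : i < P) (ha : a i < a (i + 1)) (hy : y₁ < y₀) :
    Ps U ε gn z (a i) (a (i + 1)) y₀ y₁ w r g₀ (Yb (i + 1)) (Z i) (Z (i + 1)) (A (i + 1))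
      (B (i + 1)) where
  w_pos := hBZ.w_pos
  r_pos := hr
  a_lt := ha
  y_gt := hBZ.y_gt
  y_lt := hy
  Y_lt := hBZ.Y_lt i hi g₀ (mem_ball_self (by linarith))
  exl := hBZ.ex i hi.le
  exr := hBZ.ex (i + 1) hi
  per n p := ⟨(hBC.per (i + 1) n p).2.2.1, (hBC.per (i + 1) n p).2.2.2⟩
  an := hBC.pas i hi
  lim := hBC.pas_lim i hi
  pas := hBZ.pas i hi

/-- **(T) IN THE WINDOWS.** Hypotheses on `BC`, `BZ`, `Bo` = conclusion of `A1.win_BC`.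

Proof. `not_dfc`, `tip_lb`, `ps_of` with `Zs n = Zn Y h x V n`, `z = zf Λ`, `Ω = {p | (p.1 p.2, p.2) ∈ SB ..}`, `θb = Tb (i+1) g₀ / g₀`,
`al = X i / g₀`, `ar = X (i+1) / g₀`, `y₀ = - v₀ / g₀`, `b₀ = b / g₀`. `vf_win`, `qI_hol`, `fw_slit`, `hH`: `Slt.eqs` at `(p.1 p.2, p.2)`; `hKs`:
`exists_Ks`; `hG`: `sb_mem`; `Tp`: `s₀ := min (b / g₀) (min (Re θb - a i) (a (i+1) - Re θb))`, `lim`, `inf`:
`zf Λ (θb - i s, g₀) = (Λ (τb - i s g₀, g₀), g₀ deriv ..)` and `s ↦ s g₀` maps `𝓝[>] 0` to itself.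
`YB Tb (i+1) g₀ = Im (Tb (i+1) g₀ / g₀) = - v₀ / g₀` (`Sd.Tb_im`). -/
theorem tip_win (hB : Base Y h R C0 v G L) (HW : Win v U β C1 c V) (x : ℕ → ℝ)
    {ξ : ℕ → ℂ × ℂ → ℂ} (hξ : XI U (fun n => Zn Y h x V n) (fun n => c n / V n) ξ)
    {Vm : ℂ → ℝ} {g₀ r₀ x₁ x₂ v₀ b : ℝ} {P : ℕ} {Tb : ℕ → ℂ → ℂ} {X : ℕ → ℝ}
    (hSd : Sd (vI v U c V) Vm g₀ r₀ x₁ x₂ v₀ b P Tb X) {Λ : ℂ × ℂ → ℂ}
    (hS : Slt (DI v U c V) (LI L h U x c V) Λ (SB g₀ r₀ x₁ x₂ v₀ b P Tb)) {w r : ℝ} (hr : 0 < r)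
    (hBo : ∀ i ≤ P, Bo (fun i => X i / g₀) (-v₀ / g₀) w g₀ (2 * r) i ⊆
      {p | (p.1 * p.2, p.2) ∈ SB g₀ r₀ x₁ x₂ v₀ b P Tb})
    {Z : ℕ → ℕ → ℂ × ℂ → ℂ × ℂ} {f g A B : ℕ → ℕ → ℂ × ℂ → ℂ}
    (hBC : BC U (fun n => c n / V n) g₀ r (-v₀ / g₀ - w / 2) P (TX Vm g₀ X) (YB Tb) f g A B)
    (hBZ : BZ U (fun n => c n / V n) (gx (fun n => c n / V n) ξ) (zf Λ)
      (lab (fun n => c n / V n) (fun n => Ln L h x c V n)) g₀ r (-v₀ / g₀) (-v₀ / g₀ - w / 2)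
      w P (fun i => X i / g₀) (TX Vm g₀ X) (YB Tb) Z f g A B) {i : ℕ} (hi : i < P) {lb : ℂ}
    (hT : TipO (qI Y h U x c V) Λ g₀ (Tb (i + 1) g₀) lb) {y : ℝ} (h1 : -v₀ / g₀ - w / 2 < y)
    (h2 : y < -v₀ / g₀) :
    ¬Dfc U (fun n => c n / V n) y (YB Tb (i + 1)) g₀ (B (i + 1)) := by
  have hg := hSd.g_pos
  have hb := hSd.b_pos
  have hbg : 0 < b / g₀ := div_pos hb hg
  have hre : (Tb (i + 1) g₀ / (g₀ : ℂ)).re = (Tb (i + 1) g₀).re / g₀ := div_ofReal_re _ _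
  have him : (Tb (i + 1) g₀ / (g₀ : ℂ)).im = -v₀ / g₀ := by
    rw [div_ofReal_im, hSd.Tb_im i hi]
  have ha : X i / g₀ < (Tb (i + 1) g₀ / (g₀ : ℂ)).re := by
    rw [hre]
    exact div_lt_div_of_pos_right (hSd.Tb_l i hi) hg
  have ha' : (Tb (i + 1) g₀ / (g₀ : ℂ)).re < X (i + 1) / g₀ := by
    rw [hre]
    exact div_lt_div_of_pos_right (hSd.Tb_r i hi) hg
  obtain ⟨s₀, hs₀⟩ : ∃ s₀, s₀ = min (b / g₀)
      (min ((Tb (i + 1) g₀ / (g₀ : ℂ)).re - X i / g₀)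
        (X (i + 1) / g₀ - (Tb (i + 1) g₀ / (g₀ : ℂ)).re)) := ⟨_, rfl⟩
  have hs₀p : 0 < s₀ := by
    rw [hs₀]
    exact lt_min hbg (lt_min (by linarith) (by linarith))
  have hs1 : s₀ ≤ b / g₀ := by
    rw [hs₀]
    exact min_le_left _ _
  have hs2 : s₀ ≤ (Tb (i + 1) g₀ / (g₀ : ℂ)).re - X i / g₀ := by
    rw [hs₀]
    exact (min_le_right _ _).trans (min_le_left _ _)
  have hs3 : s₀ ≤ X (i + 1) / g₀ - (Tb (i + 1) g₀ / (g₀ : ℂ)).re := by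
    rw [hs₀]
    exact (min_le_right _ _).trans (min_le_right _ _)
  have hgc : (g₀ : ℂ) ≠ 0 := by
    rw [Ne, ofReal_eq_zero]
    exact hg.ne'
  -- scaling
  have hmul : Tendsto (fun s : ℝ => s * g₀) (𝓝[>] 0) (𝓝[>] 0) := by
    refine tendsto_nhdsWithin_iff.2 ⟨?_, ?_⟩
    · have hc : Continuous fun s : ℝ => s * g₀ := by fun_prop
      have := hc.tendsto 0
      rw [zero_mul] at this
      exact this.mono_left nhdsWithin_le_nhds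
    · filter_upwards [self_mem_nhdsWithin] with s hs
      exact mul_pos hs hg
  have hpt : ∀ s : ℝ, (Tb (i + 1) g₀ / (g₀ : ℂ) - I * s) * g₀ =
      Tb (i + 1) g₀ - I * ((s * g₀ : ℝ) : ℂ) := by
    intro s
    rw [ofReal_mul]
    field_simp
  have hTp : Tp (qI Y h U x c V) {p | (p.1 * p.2, p.2) ∈ SB g₀ r₀ x₁ x₂ v₀ b P Tb} (zf Λ)
      (Tb (i + 1) g₀ / (g₀ : ℂ)) (g₀ : ℂ) s₀ lb := by
    refine ⟨hs₀p, ?_, hT.low, hT.ne, hT.reg, ?_, ?_⟩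
    · rintro θ ⟨hθ1, hθ2⟩
      have r1 := (abs_le.1 (abs_re_le_norm (θ - Tb (i + 1) g₀ / (g₀ : ℂ))))
      have r2 := abs_im_le_norm (θ - Tb (i + 1) g₀ / (g₀ : ℂ))
      rw [sub_re] at r1
      rw [sub_im, him] at r2
      exact sb_mem hSd hi (by linarith [r1.1]) (by linarith [r1.2])
        (lt_of_le_of_lt r2 (hθ1.trans_le hs1)) hθ2
    · have e1 := hT.lim.comp hmul
      refine e1.congr fun s => ?_
      show Λ (Tb (i + 1) g₀ - I * ((s * g₀ : ℝ) : ℂ), (g₀ : ℂ)) =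
        Λ ((Tb (i + 1) g₀ / (g₀ : ℂ) - I * s) * g₀, (g₀ : ℂ))
      rw [hpt]
    · have e1 := hT.inf.comp hmul
      refine e1.congr fun s => ?_
      show ‖C1f (qI Y h U x c V (Λ (Tb (i + 1) g₀ - I * ((s * g₀ : ℝ) : ℂ), (g₀ : ℂ))) *
          (g₀ * deriv (fun τ => Λ (τ, (g₀ : ℂ))) (Tb (i + 1) g₀ - I * ((s * g₀ : ℝ) : ℂ))) ^ 2)‖ =
        ‖C1f (qI Y h U x c V (Λ ((Tb (i + 1) g₀ / (g₀ : ℂ) - I * s) * g₀, (g₀ : ℂ))) *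
          (g₀ * deriv (fun τ => Λ (τ, (g₀ : ℂ)))
            ((Tb (i + 1) g₀ / (g₀ : ℂ) - I * s) * g₀)) ^ 2)‖
      rw [hpt]
  have haa : X i / g₀ < X (i + 1) / g₀ := ha.trans ha'
  have hYB : YB Tb (i + 1) (g₀ : ℂ) = -v₀ / g₀ := him
  refine not_dfc (fun n => div_pos (HW.c_pos n) (HW.V_pos n)) hYB fun c' hc' => ?_
  refine tip_lb (vf_win hB HW x hξ) hξ (qI_hol hB HW x) (fw_slit hB HW x hS) ?_ hTp ?_
    (ps_of hBC hBZ hr hi haa (h1.trans h2)) (hBo i hi.le) (hBo (i + 1) hi) ha ha' him hYB hbg ?_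
    h1 h2 hc'
  · intro p hp
    exact (hS.eqs hB HW x (p := (p.1 * p.2, p.2)) hp).2.2.1
  · intro R' κ ℓ hR' hRH hκ hq h0 hℓ
    exact exists_Ks hB HW x hR' hRH hκ hq h0 hℓ
  · intro θ t1 t2 t3 t4
    exact sb_mem hSd hi t1 t2 t3 t4

end Pool.Agent.MP_ae5b4e_an_ATK
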